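import Pool.Agent.W_7d29a1_LOC.DefsL99

/-!
Theorem LOC, leaf D: the abstract two region lemma.
-/

set_option autoImplicit false

namespace Pool.Agent.W_7d29a1_LOC.A99

open MeasureTheory ProbabilityTheory

variable {Ω S : Type*} [MeasurableSpace Ω] {I : Finset S} {P : Measure Ω} [IsProbabilityMeasure P]
  {Q : S → ℝ} {u : S → Ω → ℝ} {K : ℝ}

/-- A bounded variable is at least half of its mean with a probability bounded below. -/
lemma half99 {f : Ω → ℝ} (hf : Measurable f) (hi : Integrable f P) (hK : 1 ≤ K)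
    (hm : 0 < ∫ w, f w ∂P) (hle : ∀ w, f w ≤ K * ∫ w, f w ∂P) :
    1 / (2 * K) ≤ P.real {w | (∫ w, f w ∂P) / 2 ≤ f w} := by
  set M : ℝ := ∫ w, f w ∂P with hM
  have hA : MeasurableSet {w | M / 2 ≤ f w} := measurableSet_le measurable_const hf
  have h1 : ∫ w, f w ∂P ≤ ∫ w, (M / 2 + ({w | M / 2 ≤ f w}.indicator (fun _ => K * M)) w) ∂P := by
    refine integral_mono hi ((integrable_const _).add ((integrable_const _).indicator hA))
      fun w => ?_
    by_cases hw : w ∈ {w | M / 2 ≤ f w}
    · simp only [Set.indicator_of_mem hw]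
      have := hle w
      linarith
    · simp only [Set.indicator_of_notMem hw]
      have : ¬ M / 2 ≤ f w := hw
      linarith
  rw [integral_add (integrable_const _) ((integrable_const _).indicator hA), integral_const,
    integral_indicator_const _ hA, probReal_univ, one_smul, smul_eq_mul, ← hM] at h1
  have h2 : M / 2 ≤ P.real {w | M / 2 ≤ f w} * (K * M) := by linarith
  rw [div_le_iff₀ (by positivity)]
  have h3 : M * 1 ≤ M * (P.real {w | M / 2 ≤ f w} * (2 * K)) := by nlinarith
  exact le_of_mul_le_mul_left h3 hm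

/-- Markov, for the double of the mean. -/
lemma two99 {f : Ω → ℝ} (hf : Measurable f) (h0 : ∀ w, 0 ≤ f w) (hi : Integrable f P)
    (hm : 0 < ∫ w, f w ∂P) : 1 / 2 ≤ P.real {w | f w ≤ 2 * ∫ w, f w ∂P} := by
  set M : ℝ := ∫ w, f w ∂P with hM
  have h1 := mul_meas_ge_le_integral_of_nonneg (Filter.Eventually.of_forall h0) hi (2 * M)
  rw [← hM] at h1
  have hA : MeasurableSet {w | f w ≤ 2 * M} := measurableSet_le hf measurable_const
  have h2 : P.real {w | f w ≤ 2 * M}ᶜ ≤ P.real {w | 2 * M ≤ f w} :=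
    measureReal_mono fun w hw => by
      have h3 : ¬ f w ≤ 2 * M := hw
      exact (not_le.1 h3).le
  rw [probReal_compl_eq_one_sub hA] at h2
  have h3 : 2 * (P.real {w | 2 * M ≤ f w}) ≤ 1 := by
    have h4 : M * (2 * (P.real {w | 2 * M ≤ f w})) ≤ M * 1 := by
      have e : M * (2 * (P.real {w | 2 * M ≤ f w})) = 2 * M * P.real {w | 2 * M ≤ f w} := by ring
      rw [e, mul_one]
      exact h1
    exact le_of_mul_le_mul_left h4 hm
  linarith

/-- One of two independent copies is at most the other one with probability at least one half. -/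
lemma sym99 {g : Ω → ℝ} (hg : Measurable g) :
    (1 : ENNReal) / 2 ≤ (P.prod P) {w | g w.1 ≤ g w.2} := by
  have hA : MeasurableSet {w : Ω × Ω | g w.1 ≤ g w.2} :=
    measurableSet_le (hg.comp measurable_fst) (hg.comp measurable_snd)
  have h1 : (P.prod P) {w : Ω × Ω | g w.2 ≤ g w.1} = (P.prod P) {w : Ω × Ω | g w.1 ≤ g w.2} := by
    have h2 := (Measure.measurePreserving_swap (μ := P) (ν := P)).measure_preimage
      hA.nullMeasurableSet
    rw [← h2]
    rfl
  have h3 : (1 : ENNReal) ≤ (P.prod P) {w : Ω × Ω | g w.1 ≤ g w.2} +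
      (P.prod P) {w : Ω × Ω | g w.1 ≤ g w.2} := by
    calc (1 : ENNReal) = (P.prod P) Set.univ := by rw [measure_univ]
      _ ≤ (P.prod P) ({w : Ω × Ω | g w.1 ≤ g w.2} ∪ {w : Ω × Ω | g w.2 ≤ g w.1}) := by
        refine measure_mono fun w _ => ?_
        exact le_total (g w.1) (g w.2)
      _ ≤ _ := (measure_union_le _ _).trans (by rw [h1])
  rw [ENNReal.div_le_iff (by norm_num) (by norm_num), mul_two]
  exact h3

/-- Two independent variables and two copies. -/
lemma ind99 {f g : Ω → ℝ} (hf : Measurable f) (hg : Measurable g) (hfg : IndepFun f g P) :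
    (P.prod P).real {w | 2 * f w.2 ≤ f w.1} / 2 ≤
      (P.prod P).real {w | 2 * f w.2 ≤ f w.1 ∧ g w.1 ≤ g w.2} := by
  have hA : MeasurableSet {w : Ω × Ω | 2 * f w.2 ≤ f w.1} :=
    measurableSet_le ((hf.comp measurable_snd).const_mul 2) (hf.comp measurable_fst)
  have hB : MeasurableSet {w : Ω × Ω | g w.1 ≤ g w.2} :=
    measurableSet_le (hg.comp measurable_fst) (hg.comp measurable_snd)
  set φ : ℝ → ENNReal := fun x => P (f ⁻¹' Set.Ici (2 * x)) with hφ
  set ψ : ℝ → ENNReal := fun y => P (g ⁻¹' Set.Iic y) with hψ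
  have hφm : Measurable φ := by
    refine Antitone.measurable fun x y hxy => measure_mono fun w hw => ?_
    have : 2 * y ≤ f w := hw
    show 2 * x ≤ f w
    linarith
  have hψm : Measurable ψ := by
    refine Monotone.measurable fun x y hxy => measure_mono fun w hw => ?_
    have : g w ≤ x := hw
    exact this.trans hxy
  have e1 : (P.prod P) {w : Ω × Ω | 2 * f w.2 ≤ f w.1} = ∫⁻ w', φ (f w') ∂P :=
    Measure.prod_apply_symm hA
  have e2 : (P.prod P) {w : Ω × Ω | g w.1 ≤ g w.2} = ∫⁻ w', ψ (g w') ∂P :=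
    Measure.prod_apply_symm hB
  have e3 : (P.prod P) {w : Ω × Ω | 2 * f w.2 ≤ f w.1 ∧ g w.1 ≤ g w.2} =
      ∫⁻ w', φ (f w') * ψ (g w') ∂P := by
    rw [show {w : Ω × Ω | 2 * f w.2 ≤ f w.1 ∧ g w.1 ≤ g w.2} =
      {w : Ω × Ω | 2 * f w.2 ≤ f w.1} ∩ {w : Ω × Ω | g w.1 ≤ g w.2} from rfl,
      Measure.prod_apply_symm (hA.inter hB)]
    refine lintegral_congr fun w' => ?_
    exact hfg.measure_inter_preimage_eq_mul (Set.Ici (2 * f w')) (Set.Iic (g w'))
      measurableSet_Ici measurableSet_Iic
  have e4 : ∫⁻ w', φ (f w') * ψ (g w') ∂P = (∫⁻ w', φ (f w') ∂P) * ∫⁻ w', ψ (g w') ∂P :=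
    lintegral_mul_eq_lintegral_mul_lintegral_of_indepFun (hφm.comp hf) (hψm.comp hg)
      (hfg.comp hφm hψm)
  have h5 : (P.prod P) {w : Ω × Ω | 2 * f w.2 ≤ f w.1} * (1 / 2) ≤
      (P.prod P) {w : Ω × Ω | 2 * f w.2 ≤ f w.1 ∧ g w.1 ≤ g w.2} := by
    rw [e3, e4, ← e1, ← e2]
    exact mul_le_mul_right (sym99 hg) _
  have h6 := ENNReal.toReal_mono (measure_ne_top _ _) h5
  rw [ENNReal.toReal_mul] at h6
  simp only [Measure.real]
  norm_num at h6
  linarith

/-- The hypotheses on the weights. -/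
structure Hy (I : Finset S) (Q : S → ℝ) (u : S → Ω → ℝ) (K : ℝ) : Prop where
  K1 : 1 ≤ K
  Q0 : ∀ s ∈ I, 0 ≤ Q s
  Qs : 0 < ∑ s ∈ I, Q s
  um : ∀ s ∈ I, Measurable (u s)
  u0 : ∀ s ∈ I, ∀ w, 0 < u s w
  uK : ∀ s ∈ I, ∀ w w', u s w ≤ K * u s w'

lemma Hy.K0 (H : Hy I Q u K) : 0 < K := lt_of_lt_of_le one_pos H.K1

lemma Hy.ui (H : Hy I Q u K) {s : S} (hs : s ∈ I) : Integrable (u s) P := by
  obtain ⟨w0⟩ : Nonempty Ω := nonempty_of_isProbabilityMeasure P
  refine Integrable.of_bound (H.um s hs).aestronglyMeasurable (K * u s w0)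
    (Filter.Eventually.of_forall fun w => ?_)
  rw [Real.norm_eq_abs, abs_of_pos (H.u0 s hs w)]
  exact H.uK s hs w w0

lemma Hy.ule (H : Hy I Q u K) {s : S} (hs : s ∈ I) (w : Ω) : u s w ≤ K * ∫ w, u s w ∂P := by
  have h1 : ∫ _w', u s w ∂P ≤ ∫ w', K * u s w' ∂P :=
    integral_mono (integrable_const _) ((H.ui hs).const_mul K) fun w' => H.uK s hs w w'
  rwa [integral_const, probReal_univ, one_smul, integral_const_mul] at h1

lemma Hy.leu (H : Hy I Q u K) {s : S} (hs : s ∈ I) (w : Ω) : ∫ w, u s w ∂P ≤ K * u s w := by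
  have h1 : ∫ w', u s w' ∂P ≤ ∫ _w', K * u s w ∂P :=
    integral_mono (H.ui hs) (integrable_const _) fun w' => H.uK s hs w' w
  rwa [integral_const, probReal_univ, one_smul] at h1

lemma Hy.mpos (H : Hy I Q u K) {s : S} (hs : s ∈ I) : 0 < ∫ w, u s w ∂P := by
  obtain ⟨w0⟩ : Nonempty Ω := nonempty_of_isProbabilityMeasure P
  have h1 := H.ule (P := P) hs w0
  have h2 := H.u0 s hs w0
  by_contra hc
  have h3 : K * ∫ w, u s w ∂P ≤ 0 := mul_nonpos_of_nonneg_of_nonpos H.K0.le (not_lt.1 hc)
  linarith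

lemma Hy.Tm (H : Hy I Q u K) : Measurable (toF I Q u) := by
  unfold toF
  exact Finset.measurable_sum _ fun s hs => (H.um s hs).const_mul _

lemma Hy.Tpos (H : Hy I Q u K) (w : Ω) : 0 < toF I Q u w := by
  have h1 : ∃ s ∈ I, 0 < Q s := by
    by_contra hc
    push Not at hc
    exact absurd H.Qs (not_lt.2 (Finset.sum_nonpos hc))
  obtain ⟨s, hs, hs0⟩ := h1
  exact Finset.sum_pos' (fun s hs => mul_nonneg (H.Q0 s hs) (H.u0 s hs w).le)
    ⟨s, hs, mul_pos hs0 (H.u0 s hs w)⟩

lemma Hy.TK (H : Hy I Q u K) (w w' : Ω) : toF I Q u w ≤ K * toF I Q u w' := by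
  unfold toF
  rw [Finset.mul_sum]
  refine Finset.sum_le_sum fun s hs => ?_
  have h1 := mul_le_mul_of_nonneg_left (H.uK s hs w w') (H.Q0 s hs)
  linarith

lemma Hy.Ti (H : Hy I Q u K) : Integrable (toF I Q u) P := by
  unfold toF
  exact integrable_finsetSum _ fun s hs => (H.ui hs).const_mul _

lemma Hy.Tint (H : Hy I Q u K) : ∫ w, toF I Q u w ∂P = ∑ s ∈ I, Q s * ∫ w, u s w ∂P := by
  unfold toF
  rw [integral_finsetSum _ fun s hs => (H.ui hs).const_mul _]
  exact Finset.sum_congr rfl fun s _ => integral_const_mul _ _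

lemma Hy.Tle (H : Hy I Q u K) (w : Ω) : toF I Q u w ≤ K * ∫ w, toF I Q u w ∂P := by
  have h1 : ∫ _w', toF I Q u w ∂P ≤ ∫ w', K * toF I Q u w' ∂P :=
    integral_mono (integrable_const _) (H.Ti.const_mul K) fun w' => H.TK w w'
  rwa [integral_const, probReal_univ, one_smul, integral_const_mul] at h1

lemma Hy.leT (H : Hy I Q u K) (w : Ω) : ∫ w, toF I Q u w ∂P ≤ K * toF I Q u w := by
  have h1 : ∫ w', toF I Q u w' ∂P ≤ ∫ _w', K * toF I Q u w ∂P :=
    integral_mono H.Ti (integrable_const _) fun w' => H.TK w' w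
  rwa [integral_const, probReal_univ, one_smul] at h1

lemma Hy.ETpos (H : Hy I Q u K) : 0 < ∫ w, toF I Q u w ∂P := by
  obtain ⟨w0⟩ : Nonempty Ω := nonempty_of_isProbabilityMeasure P
  have h1 := H.Tle (P := P) w0
  have h2 := H.Tpos w0
  by_contra hc
  have h3 : K * ∫ w, toF I Q u w ∂P ≤ 0 := mul_nonpos_of_nonneg_of_nonpos H.K0.le (not_lt.1 hc)
  linarith

lemma Hy.pr0 (H : Hy I Q u K) {s : S} (hs : s ∈ I) (w : Ω) : 0 ≤ prF I Q u w s :=
  div_nonneg (mul_nonneg (H.Q0 s hs) (H.u0 s hs w).le) (H.Tpos w).le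

lemma Hy.prs (H : Hy I Q u K) (w : Ω) : ∑ s ∈ I, prF I Q u w s = 1 := by
  unfold prF
  rw [← Finset.sum_div]
  exact div_self (H.Tpos w).ne'

lemma Hy.pr1 (H : Hy I Q u K) {s : S} (hs : s ∈ I) (w : Ω) : prF I Q u w s ≤ 1 := by
  rw [← H.prs w]
  exact Finset.single_le_sum (f := fun s => prF I Q u w s) (fun s' hs' => H.pr0 hs' w) hs

lemma Hy.prm (H : Hy I Q u K) {s : S} (hs : s ∈ I) : Measurable fun w => prF I Q u w s := by
  unfold prF
  exact ((H.um s hs).const_mul _).div H.Tm

/-- The annealed mass. -/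
noncomputable def pp (P : Measure Ω) (I : Finset S) (Q : S → ℝ) (u : S → Ω → ℝ) (s : S) : ℝ :=
  Q s * (∫ w, u s w ∂P) / ∫ w, toF I Q u w ∂P

lemma Hy.pp0 (H : Hy I Q u K) {s : S} (hs : s ∈ I) : 0 ≤ pp P I Q u s :=
  div_nonneg (mul_nonneg (H.Q0 s hs) (H.mpos hs).le) H.ETpos.le

lemma Hy.prle (H : Hy I Q u K) {s : S} (hs : s ∈ I) (w : Ω) :
    prF I Q u w s ≤ K ^ 2 * pp P I Q u s := by
  unfold prF pp
  have hT := H.Tpos w
  have hE := H.ETpos (P := P)
  have h1 := H.ule (P := P) hs w
  have h2 := H.leT (P := P) w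
  have hQ := H.Q0 s hs
  have hm := H.mpos (P := P) hs
  rw [← mul_div_assoc, div_le_div_iff₀ hT hE]
  calc Q s * u s w * ∫ w, toF I Q u w ∂P ≤
      Q s * (K * ∫ w, u s w ∂P) * (K * toF I Q u w) :=
        mul_le_mul (mul_le_mul_of_nonneg_left h1 hQ) h2 hE.le
          (mul_nonneg hQ (mul_pos H.K0 hm).le)
    _ = K ^ 2 * (Q s * ∫ w, u s w ∂P) * toF I Q u w := by ring

lemma Hy.lepr (H : Hy I Q u K) {s : S} (hs : s ∈ I) (w : Ω) :
    pp P I Q u s ≤ K ^ 2 * prF I Q u w s := by
  unfold prF pp
  have hT := H.Tpos w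
  have hE := H.ETpos (P := P)
  have h1 := H.leu (P := P) hs w
  have h2 := H.Tle (P := P) w
  have hQ := H.Q0 s hs
  have hm := H.u0 s hs w
  rw [← mul_div_assoc, div_le_div_iff₀ hE hT]
  calc Q s * (∫ w, u s w ∂P) * toF I Q u w ≤
      Q s * (K * u s w) * (K * ∫ w, toF I Q u w ∂P) :=
        mul_le_mul (mul_le_mul_of_nonneg_left h1 hQ) h2 hT.le
          (mul_nonneg hQ (mul_pos H.K0 hm).le)
    _ = K ^ 2 * (Q s * u s w) * ∫ w, toF I Q u w ∂P := by ring

/-- The probability that the weight of the class doubles. -/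
noncomputable def dbl (P : Measure Ω) (u : S → Ω → ℝ) (s : S) : ℝ :=
  (P.prod P).real {w | 2 * u s w.2 ≤ u s w.1}

lemma prod_real {A B : Set Ω} : (P.prod P).real (A ×ˢ B) = P.real A * P.real B := by
  simp only [Measure.real, Measure.prod_prod, ENNReal.toReal_mul]

lemma Hy.low (H : Hy I Q u K) {s : S} (hs : s ∈ I) :
    P.real {w | u s w < (∫ w, u s w ∂P) / 4} ≤ 2 * K * dbl P u s := by
  set m : ℝ := ∫ w, u s w ∂P with hm
  have h1 := half99 (H.um s hs) (H.ui hs) H.K1 (H.mpos (P := P) hs) (H.ule (P := P) hs)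
  rw [← hm] at h1
  have h2 : (P.prod P).real ({w | m / 2 ≤ u s w} ×ˢ {w | u s w < m / 4}) ≤ dbl P u s := by
    refine measureReal_mono fun w hw => ?_
    obtain ⟨h3, h4⟩ := hw
    have h3' : m / 2 ≤ u s w.1 := h3
    have h4' : u s w.2 < m / 4 := h4
    show 2 * u s w.2 ≤ u s w.1
    linarith
  rw [prod_real] at h2
  have h5 : 1 / (2 * K) * P.real {w | u s w < m / 4} ≤ dbl P u s :=
    (mul_le_mul_of_nonneg_right h1 measureReal_nonneg).trans h2
  have hK := H.K0
  rw [div_mul_eq_mul_div, one_mul, div_le_iff₀ (by positivity)] at h5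
  linarith

lemma Hy.high (H : Hy I Q u K) {s : S} (hs : s ∈ I) :
    P.real {w | 4 * (∫ w, u s w ∂P) < u s w} ≤ 2 * dbl P u s := by
  set m : ℝ := ∫ w, u s w ∂P with hm
  have h1 := two99 (H.um s hs) (fun w => (H.u0 s hs w).le) (H.ui hs) (H.mpos (P := P) hs)
  rw [← hm] at h1
  have h2 : (P.prod P).real ({w | 4 * m < u s w} ×ˢ {w | u s w ≤ 2 * m}) ≤ dbl P u s := by
    refine measureReal_mono fun w hw => ?_
    obtain ⟨h3, h4⟩ := hw
    have h3' : 4 * m < u s w.1 := h3
    have h4' : u s w.2 ≤ 2 * m := h4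
    show 2 * u s w.2 ≤ u s w.1
    linarith
  rw [prod_real] at h2
  have h5 : P.real {w | 4 * m < u s w} * (1 / 2) ≤ dbl P u s :=
    (mul_le_mul_of_nonneg_left h1 measureReal_nonneg).trans h2
  linarith

/-! ### The pairs of independent classes -/

/-- The movement of the classes. -/
noncomputable def mv (I : Finset S) (Q : S → ℝ) (u : S → Ω → ℝ) (w : Ω × Ω) : ℝ :=
  ∑ s ∈ I, |prF I Q u w.1 s - prF I Q u w.2 s|

lemma Hy.mv0 (w : Ω × Ω) : 0 ≤ mv I Q u w := Finset.sum_nonneg fun _ _ => abs_nonneg _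

lemma Hy.mvm (H : Hy I Q u K) : Measurable (mv I Q u : Ω × Ω → ℝ) := by
  unfold mv
  exact Finset.measurable_sum _ fun s hs =>
    (((H.prm hs).comp measurable_fst).sub ((H.prm hs).comp measurable_snd)).norm

lemma Hy.mv2 (H : Hy I Q u K) (w : Ω × Ω) : mv I Q u w ≤ 2 := by
  have h1 : mv I Q u w ≤ ∑ s ∈ I, (prF I Q u w.1 s + prF I Q u w.2 s) := by
    refine Finset.sum_le_sum fun s hs => ?_
    have h2 := H.pr0 hs w.1
    have h3 := H.pr0 hs w.2
    rw [abs_le]
    constructor <;> linarith
  rw [Finset.sum_add_distrib, H.prs, H.prs] at h1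
  linarith

lemma Hy.mvi (H : Hy I Q u K) : Integrable (mv I Q u) (P.prod P) := by
  refine Integrable.of_bound H.mvm.aestronglyMeasurable 2 (Filter.Eventually.of_forall fun w => ?_)
  rw [Real.norm_eq_abs, abs_of_nonneg (Hy.mv0 w)]
  exact H.mv2 w

open Classical in
/-- The classes which are not nearly constant: there is no mass on the independent pairs. -/
lemma Hy.part1 (H : Hy I Q u K) {F : S → S → Prop}
    (hF : ∀ s ∈ I, ∀ s' ∈ I, F s s' → IndepFun (u s) (u s') P) {p0 : ℝ} (hp : 0 < p0) :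
    ∑ s ∈ I.filter fun s => p0 ≤ dbl P u s, ∑ s' ∈ I, (if F s s' then
      pp P I Q u s * pp P I Q u s' else 0) ≤ 4 * K ^ 5 / p0 * ∫ w, mv I Q u w ∂(P.prod P) := by
  have hK := H.K0
  set E : S → S → Set (Ω × Ω) := fun s s' => {w | 2 * u s w.2 ≤ u s w.1 ∧ u s' w.1 ≤ u s' w.2}
    with hE
  have hEm : ∀ s ∈ I, ∀ s' ∈ I, MeasurableSet (E s s') := fun s hs s' hs' =>
    (measurableSet_le (((H.um s hs).comp measurable_snd).const_mul 2)
      ((H.um s hs).comp measurable_fst)).inter
      (measurableSet_le ((H.um s' hs').comp measurable_fst) ((H.um s' hs').comp measurable_snd))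
  -- the pointwise bound
  have h1 : ∀ w : Ω × Ω, ∑ s ∈ I.filter fun s => p0 ≤ dbl P u s, ∑ s' ∈ I, (if F s s' then
      (E s s').indicator (fun _ => pp P I Q u s * pp P I Q u s' / K ^ 5) w else 0) ≤
      2 * mv I Q u w := by
    intro w
    have h2 : ∀ s ∈ I, ∀ s' ∈ I, (if F s s' then
        (E s s').indicator (fun _ => pp P I Q u s * pp P I Q u s' / K ^ 5) w else 0) ≤
        |prF I Q u w.1 s - prF I Q u w.2 s| * prF I Q u w.2 s' +
          prF I Q u w.2 s * |prF I Q u w.1 s' - prF I Q u w.2 s'| := by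
      intro s hs s' hs'
      have h3 : 0 ≤ |prF I Q u w.1 s - prF I Q u w.2 s| * prF I Q u w.2 s' +
          prF I Q u w.2 s * |prF I Q u w.1 s' - prF I Q u w.2 s'| :=
        add_nonneg (mul_nonneg (abs_nonneg _) (H.pr0 hs' _)) (mul_nonneg (H.pr0 hs _) (abs_nonneg _))
      split_ifs with hFs
      · by_cases hw : w ∈ E s s'
        · rw [Set.indicator_of_mem hw]
          obtain ⟨ha, hb⟩ := hw
          have h4 : prF I Q u w.1 s * prF I Q u w.2 s' - prF I Q u w.2 s * prF I Q u w.1 s' ≤
              |prF I Q u w.1 s - prF I Q u w.2 s| * prF I Q u w.2 s' +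
              prF I Q u w.2 s * |prF I Q u w.1 s' - prF I Q u w.2 s'| := by
            have h5 := mul_le_mul_of_nonneg_right (le_abs_self
              (prF I Q u w.1 s - prF I Q u w.2 s)) (H.pr0 hs' w.2)
            have h6 := mul_le_mul_of_nonneg_left (neg_abs_le
              (prF I Q u w.1 s' - prF I Q u w.2 s')) (H.pr0 hs w.2)
            linarith
          refine le_trans ?_ h4
          -- the gain
          have hT1 := H.Tpos w.1
          have hT2 := H.Tpos w.2
          have hTK := H.TK w.1 w.2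
          have hu1 := H.u0 s hs w.1
          have hu2 := H.u0 s hs w.2
          have hu3 := H.u0 s' hs' w.1
          have hu4 := H.u0 s' hs' w.2
          have h7 : u s w.2 * u s' w.2 ≤ u s w.1 * u s' w.2 - u s w.2 * u s' w.1 := by
            have h8 := mul_le_mul_of_nonneg_right ha hu4.le
            have h9 := mul_le_mul_of_nonneg_left hb hu2.le
            linarith
          have h10 : prF I Q u w.2 s * prF I Q u w.2 s' ≤ K *
              (prF I Q u w.1 s * prF I Q u w.2 s' - prF I Q u w.2 s * prF I Q u w.1 s') := by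
            have e1 : prF I Q u w.2 s * prF I Q u w.2 s' = Q s * Q s' * (u s w.2 * u s' w.2) /
                (toF I Q u w.2 * toF I Q u w.2) := by
              unfold prF
              field_simp
            have e2 : prF I Q u w.1 s * prF I Q u w.2 s' - prF I Q u w.2 s * prF I Q u w.1 s' =
                Q s * Q s' * (u s w.1 * u s' w.2 - u s w.2 * u s' w.1) /
                (toF I Q u w.1 * toF I Q u w.2) := by
              unfold prF
              field_simp
            rw [e1, e2, ← mul_div_assoc, div_le_div_iff₀ (by positivity) (by positivity)]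
            have hQ : 0 ≤ Q s * Q s' := mul_nonneg (H.Q0 s hs) (H.Q0 s' hs')
            have h11 := mul_le_mul_of_nonneg_left h7 hQ
            have h12 : 0 ≤ Q s * Q s' * (u s w.2 * u s' w.2) :=
              mul_nonneg hQ (mul_pos hu2 hu4).le
            calc Q s * Q s' * (u s w.2 * u s' w.2) * (toF I Q u w.1 * toF I Q u w.2) ≤
                Q s * Q s' * (u s w.2 * u s' w.2) * (K * toF I Q u w.2 * toF I Q u w.2) :=
                  mul_le_mul_of_nonneg_left (mul_le_mul_of_nonneg_right hTK hT2.le) h12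
              _ ≤ Q s * Q s' * (u s w.1 * u s' w.2 - u s w.2 * u s' w.1) *
                  (K * toF I Q u w.2 * toF I Q u w.2) :=
                  mul_le_mul_of_nonneg_right h11 (by positivity)
              _ = K * (Q s * Q s' * (u s w.1 * u s' w.2 - u s w.2 * u s' w.1)) *
                  (toF I Q u w.2 * toF I Q u w.2) := by ring
          have h13 : pp P I Q u s * pp P I Q u s' ≤
              K ^ 4 * (prF I Q u w.2 s * prF I Q u w.2 s') := by
            calc pp P I Q u s * pp P I Q u s' ≤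
                (K ^ 2 * prF I Q u w.2 s) * (K ^ 2 * prF I Q u w.2 s') :=
                  mul_le_mul (H.lepr hs w.2) (H.lepr hs' w.2) (H.pp0 hs')
                    (mul_nonneg (by positivity) (H.pr0 hs w.2))
              _ = _ := by ring
          rw [div_le_iff₀ (by positivity)]
          calc pp P I Q u s * pp P I Q u s' ≤
              K ^ 4 * (prF I Q u w.2 s * prF I Q u w.2 s') := h13
            _ ≤ K ^ 4 * (K *
              (prF I Q u w.1 s * prF I Q u w.2 s' - prF I Q u w.2 s * prF I Q u w.1 s')) :=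
                mul_le_mul_of_nonneg_left h10 (by positivity)
            _ = _ := by ring
        · rw [Set.indicator_of_notMem hw]
          exact h3
      · exact h3
    calc ∑ s ∈ I.filter fun s => p0 ≤ dbl P u s, ∑ s' ∈ I, (if F s s' then
        (E s s').indicator (fun _ => pp P I Q u s * pp P I Q u s' / K ^ 5) w else 0)
        ≤ ∑ s ∈ I.filter fun s => p0 ≤ dbl P u s, ∑ s' ∈ I,
          (|prF I Q u w.1 s - prF I Q u w.2 s| * prF I Q u w.2 s' +
          prF I Q u w.2 s * |prF I Q u w.1 s' - prF I Q u w.2 s'|) :=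
          Finset.sum_le_sum fun s hs => Finset.sum_le_sum fun s' hs' =>
            h2 s (Finset.mem_filter.1 hs).1 s' hs'
      _ ≤ ∑ s ∈ I, ∑ s' ∈ I,
          (|prF I Q u w.1 s - prF I Q u w.2 s| * prF I Q u w.2 s' +
          prF I Q u w.2 s * |prF I Q u w.1 s' - prF I Q u w.2 s'|) := by
          refine Finset.sum_le_sum_of_subset_of_nonneg (Finset.filter_subset _ _)
            fun s hs _ => Finset.sum_nonneg fun s' hs' => ?_
          exact add_nonneg (mul_nonneg (abs_nonneg _) (H.pr0 hs' _))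
            (mul_nonneg (H.pr0 hs _) (abs_nonneg _))
      _ = 2 * mv I Q u w := by
          simp only [Finset.sum_add_distrib, ← Finset.mul_sum, ← Finset.sum_mul, H.prs]
          unfold mv
          ring
  -- the integral
  have h5 := integral_mono (μ := P.prod P) (integrable_finsetSum _ fun s hs =>
    integrable_finsetSum _ fun s' hs' => (show Integrable (fun w : Ω × Ω => if F s s' then
      (E s s').indicator (fun _ => pp P I Q u s * pp P I Q u s' / K ^ 5) w else 0) (P.prod P) by
        split_ifs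
        · exact (integrable_const _).indicator (hEm s (Finset.mem_filter.1 hs).1 s' hs')
        · exact integrable_const _)) (H.mvi.const_mul 2) h1
  rw [integral_const_mul, integral_finsetSum _ fun s hs =>
    integrable_finsetSum _ fun s' hs' => (show Integrable (fun w : Ω × Ω => if F s s' then
      (E s s').indicator (fun _ => pp P I Q u s * pp P I Q u s' / K ^ 5) w else 0) (P.prod P) by
        split_ifs
        · exact (integrable_const _).indicator (hEm s (Finset.mem_filter.1 hs).1 s' hs')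
        · exact integrable_const _)] at h5
  have h6 : ∑ s ∈ I.filter fun s => p0 ≤ dbl P u s, ∑ s' ∈ I, (if F s s' then
      pp P I Q u s * pp P I Q u s' else 0) * (p0 / (2 * K ^ 5)) ≤
      ∑ s ∈ I.filter fun s => p0 ≤ dbl P u s, ∫ w, ∑ s' ∈ I, (if F s s' then
      (E s s').indicator (fun _ => pp P I Q u s * pp P I Q u s' / K ^ 5) w else 0)
        ∂(P.prod P) := by
    refine Finset.sum_le_sum fun s hs => ?_
    obtain ⟨hsI, hsp⟩ := Finset.mem_filter.1 hs
    rw [integral_finsetSum _ fun s' hs' => (show Integrable (fun w : Ω × Ω => if F s s' then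
      (E s s').indicator (fun _ => pp P I Q u s * pp P I Q u s' / K ^ 5) w else 0) (P.prod P) by
        split_ifs
        · exact (integrable_const _).indicator (hEm s hsI s' hs')
        · exact integrable_const _)]
    refine Finset.sum_le_sum fun s' hs' => ?_
    split_ifs with hFs
    · rw [integral_indicator_const _ (hEm s hsI s' hs'), smul_eq_mul]
      have h7 := ind99 (H.um s hsI) (H.um s' hs') (hF s hsI s' hs' hFs)
      have h8 : p0 / 2 ≤ (P.prod P).real (E s s') := by
        have h9 : dbl P u s / 2 ≤ (P.prod P).real (E s s') := h7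
        linarith
      have h10 : 0 ≤ pp P I Q u s * pp P I Q u s' / K ^ 5 :=
        div_nonneg (mul_nonneg (H.pp0 hsI) (H.pp0 hs')) (by positivity)
      have h11 := mul_le_mul_of_nonneg_right h8 h10
      refine le_trans (le_of_eq ?_) h11
      field_simp
    · rw [zero_mul, integral_zero]
  have h7 := h6.trans h5
  simp only [← Finset.sum_mul] at h7
  rw [div_mul_eq_mul_div, le_div_iff₀ hp]
  rw [← mul_div_assoc, div_le_iff₀ (by positivity)] at h7
  linarith

/-! ### The classes which are nearly constant -/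

open Classical in
/-- The classes which are nearly constant have no mass. -/
lemma Hy.part2 (H : Hy I Q u K) {p0 G : ℝ} (hp0 : p0 = 1 / (16 * K ^ 3))
    (hG : P.real {w | Real.exp (-G) * (∫ w, toF I Q u w ∂P) < toF I Q u w} ≤ 1 / 2) :
    ∫ w, ∑ s ∈ I.filter fun s => ¬ p0 ≤ dbl P u s, prF I Q u w s ∂P ≤
      80 * Real.exp (-G) + 4 * K * ∫ w, mv I Q u w ∂(P.prod P) := by
  have hK := H.K0
  have hK1 := H.K1
  have hp : 0 < p0 := by rw [hp0]; positivity
  set J : Finset S := I.filter fun s => ¬ p0 ≤ dbl P u s with hJ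
  have hJI : ∀ s ∈ J, s ∈ I := fun s hs => (Finset.mem_filter.1 hs).1
  have hJp : ∀ s ∈ J, dbl P u s < p0 := fun s hs => not_le.1 (Finset.mem_filter.1 hs).2
  set m : S → ℝ := fun s => ∫ w, u s w ∂P with hm
  set M : ℝ := ∑ s ∈ J, Q s * m s with hM
  have hQm : ∀ s ∈ J, 0 ≤ Q s * m s := fun s hs =>
    mul_nonneg (H.Q0 s (hJI s hs)) (H.mpos (hJI s hs)).le
  have hM0 : 0 ≤ M := Finset.sum_nonneg hQm
  have hE0 := H.ETpos (P := P)
  set ET : ℝ := ∫ w, toF I Q u w ∂P with hET
  -- the two exceptional masses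
  have hAm : ∀ s ∈ J, MeasurableSet {w | u s w < m s / 4} := fun s hs =>
    measurableSet_lt (H.um s (hJI s hs)) measurable_const
  have hBm : ∀ s ∈ J, MeasurableSet {w | 4 * m s < u s w} := fun s hs =>
    measurableSet_lt measurable_const (H.um s (hJI s hs))
  set V : Ω → ℝ := fun w => ∑ s ∈ J, {w | u s w < m s / 4}.indicator (fun _ => Q s * m s) w
    with hV
  set V' : Ω → ℝ := fun w => ∑ s ∈ J, {w | 4 * m s < u s w}.indicator (fun _ => Q s * m s) w
    with hV'
  have hV0 : ∀ w, 0 ≤ V w := fun w => Finset.sum_nonneg fun s hs =>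
    Set.indicator_nonneg (fun _ _ => hQm s hs) w
  have hV'0 : ∀ w, 0 ≤ V' w := fun w => Finset.sum_nonneg fun s hs =>
    Set.indicator_nonneg (fun _ _ => hQm s hs) w
  have hVi : Integrable V P := integrable_finsetSum _ fun s hs =>
    (integrable_const _).indicator (hAm s hs)
  have hV'i : Integrable V' P := integrable_finsetSum _ fun s hs =>
    (integrable_const _).indicator (hBm s hs)
  have hVE : ∫ w, V w ∂P ≤ M / 8 := by
    rw [hV, integral_finsetSum _ fun s hs => (integrable_const _).indicator (hAm s hs), hM,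
      Finset.sum_div]
    refine Finset.sum_le_sum fun s hs => ?_
    rw [integral_indicator_const _ (hAm s hs), smul_eq_mul]
    have h1 := H.low (P := P) (hJI s hs)
    have h2 : 2 * K * dbl P u s ≤ 1 / 8 := by
      have h3 : 2 * K * dbl P u s ≤ 2 * K * p0 :=
        mul_le_mul_of_nonneg_left (hJp s hs).le (by positivity)
      have h4 : 2 * K * p0 ≤ 1 / 8 := by
        rw [hp0]
        have h5 : 2 * K * (1 / (16 * K ^ 3)) = 1 / (8 * K ^ 2) := by
          field_simp
          ring
        rw [h5]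
        have h6 : (1 : ℝ) ≤ K ^ 2 := one_le_pow₀ hK1
        exact one_div_le_one_div_of_le (by norm_num) (by linarith)
      exact h3.trans h4
    have h3 := mul_le_mul_of_nonneg_right (h1.trans h2) (hQm s hs)
    linarith
  have hV'E : ∫ w, V' w ∂P ≤ M / (8 * K ^ 3) := by
    rw [hV', integral_finsetSum _ fun s hs => (integrable_const _).indicator (hBm s hs), hM,
      Finset.sum_div]
    refine Finset.sum_le_sum fun s hs => ?_
    rw [integral_indicator_const _ (hBm s hs), smul_eq_mul]
    have h1 := H.high (P := P) (hJI s hs)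
    have h2 : 2 * dbl P u s ≤ 1 / (8 * K ^ 3) := by
      have h3 := (hJp s hs).le
      rw [hp0] at h3
      have h4 : 1 / (8 * K ^ 3) = 2 * (1 / (16 * K ^ 3)) := by
        field_simp
        ring
      rw [h4]
      linarith
    have h3 := mul_le_mul_of_nonneg_right (h1.trans h2) (hQm s hs)
    refine h3.trans (le_of_eq ?_)
    ring
  -- the mass of the classes
  have hT0 : ∀ w, M - V w ≤ 4 * ∑ s ∈ J, Q s * u s w := by
    intro w
    rw [hM, hV, ← Finset.sum_sub_distrib, Finset.mul_sum]
    refine Finset.sum_le_sum fun s hs => ?_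
    have hQ := H.Q0 s (hJI s hs)
    by_cases hw : w ∈ {w | u s w < m s / 4}
    · rw [Set.indicator_of_mem hw, sub_self]
      exact mul_nonneg (by norm_num) (mul_nonneg hQ (H.u0 s (hJI s hs) w).le)
    · rw [Set.indicator_of_notMem hw, sub_zero]
      have h1 : m s / 4 ≤ u s w := not_lt.1 hw
      have := mul_le_mul_of_nonneg_left h1 hQ
      linarith
  have hT1 : ∀ w, ∑ s ∈ J, Q s * u s w ≤ 4 * M + K * V' w := by
    intro w
    rw [hM, hV', Finset.mul_sum, Finset.mul_sum, ← Finset.sum_add_distrib]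
    refine Finset.sum_le_sum fun s hs => ?_
    have hQ := H.Q0 s (hJI s hs)
    by_cases hw : w ∈ {w | 4 * m s < u s w}
    · rw [Set.indicator_of_mem hw]
      have h1 := mul_le_mul_of_nonneg_left (H.ule (P := P) (hJI s hs) w) hQ
      have h2 := hQm s hs
      have h3 : Q s * (K * ∫ w, u s w ∂P) = K * (Q s * m s) := by
        rw [hm]
        ring
      rw [h3] at h1
      linarith
    · rw [Set.indicator_of_notMem hw, mul_zero, add_zero]
      have h1 : u s w ≤ 4 * m s := not_lt.1 hw
      have := mul_le_mul_of_nonneg_left h1 hQ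
      linarith
  have hJT : ∀ w, ∑ s ∈ J, Q s * u s w ≤ toF I Q u w := fun w =>
    Finset.sum_le_sum_of_subset_of_nonneg (Finset.filter_subset _ _) fun s hs _ =>
      mul_nonneg (H.Q0 s hs) (H.u0 s hs w).le
  -- the annealed mass of the classes is small
  have hMs : M ≤ 8 * (Real.exp (-G) * ET) := by
    rcases hM0.lt_or_eq with hMp | hMe
    · have h1 := mul_meas_ge_le_integral_of_nonneg (Filter.Eventually.of_forall hV0) hVi (M / 2)
      have h2 : P.real {w | M / 2 ≤ V w} ≤ 1 / 4 := by
        have h3 : M / 2 * P.real {w | M / 2 ≤ V w} ≤ M / 2 * (1 / 4) := by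
          refine (h1.trans hVE).trans (le_of_eq (by ring))
        exact le_of_mul_le_mul_left h3 (by positivity)
      have h4 : P.real ({w | M / 2 ≤ V w} ∪ {w | Real.exp (-G) * ET < toF I Q u w}) < 1 := by
        refine lt_of_le_of_lt (measureReal_union_le _ _) ?_
        linarith
      have h5 : ∃ w, w ∉ {w | M / 2 ≤ V w} ∪ {w | Real.exp (-G) * ET < toF I Q u w} := by
        by_contra hc
        push Not at hc
        rw [Set.eq_univ_of_forall hc, probReal_univ] at h4
        exact lt_irrefl _ h4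
      obtain ⟨w, hw⟩ := h5
      have h6 : V w < M / 2 := by
        by_contra hc
        exact hw (Or.inl (not_lt.1 hc))
      have h7 : toF I Q u w ≤ Real.exp (-G) * ET := by
        by_contra hc
        exact hw (Or.inr (not_le.1 hc))
      have h8 := hT0 w
      have h9 := hJT w
      linarith
    · rw [← hMe]
      positivity
  -- the environments with a large total mass
  set W₁ : Set Ω := {w | ET / 2 ≤ toF I Q u w} ∩ {w | V' w ≤ M / K} with hW₁
  have hV'm : Measurable V' := by
    rw [hV']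
    exact Finset.measurable_sum _ fun s hs => measurable_const.indicator (hBm s hs)
  have hW₁m : MeasurableSet W₁ := (measurableSet_le measurable_const H.Tm).inter
    (measurableSet_le hV'm measurable_const)
  have hbad : P.real {w | V' w ≤ M / K}ᶜ ≤ 1 / (8 * K) := by
    rcases hM0.lt_or_eq with hMp | hMe
    · have h1 := mul_meas_ge_le_integral_of_nonneg (Filter.Eventually.of_forall hV'0) hV'i (M / K)
      have h2 : P.real {w | V' w ≤ M / K}ᶜ ≤ P.real {w | M / K ≤ V' w} :=
        measureReal_mono fun w hw => by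
          have h3 : ¬ V' w ≤ M / K := hw
          exact (not_le.1 h3).le
      refine h2.trans ?_
      have h3 : M / K * P.real {w | M / K ≤ V' w} ≤ M / K * (1 / (8 * K)) := by
        refine (h1.trans hV'E).trans ?_
        have e : M / K * (1 / (8 * K)) = M / (8 * K ^ 2) := by
          field_simp
        rw [e]
        refine div_le_div_of_nonneg_left hM0 (by positivity) ?_
        have h6 : K ^ 2 ≤ K ^ 3 := pow_le_pow_right₀ hK1 (by norm_num)
        linarith
      exact le_of_mul_le_mul_left h3 (by positivity)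
    · have h2 : {w | V' w ≤ M / K} = Set.univ := by
        refine Set.eq_univ_of_forall fun w => ?_
        show V' w ≤ M / K
        rw [← hMe, zero_div]
        have h3 : V' w ≤ M := by
          rw [hV', hM]
          exact Finset.sum_le_sum fun s hs => Set.indicator_le_self' (fun _ _ => hQm s hs) w
        rw [hMe]
        exact h3
      rw [h2, Set.compl_univ, measureReal_empty]
      positivity
  have hW₁p : 1 / (4 * K) ≤ P.real W₁ := by
    have h1 : 1 / (2 * K) ≤ P.real {w | ET / 2 ≤ toF I Q u w} :=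
      half99 H.Tm H.Ti hK1 H.ETpos H.Tle
    have h2 : P.real {w | ET / 2 ≤ toF I Q u w} ≤ P.real W₁ + P.real {w | V' w ≤ M / K}ᶜ := by
      refine le_trans (measureReal_mono fun w hw => ?_) (measureReal_union_le _ _)
      by_cases h3 : V' w ≤ M / K
      · exact Or.inl ⟨hw, h3⟩
      · exact Or.inr h3
    have h3 : 1 / (2 * K) - 1 / (8 * K) = 3 / (8 * K) := by
      field_simp
      ring
    have h4 : 1 / (4 * K) = 2 / (8 * K) := by
      field_simp
      ring
    have h5 : 2 / (8 * K) ≤ 3 / (8 * K) := by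
      have : 0 < 8 * K := by positivity
      gcongr
      norm_num
    linarith
  -- on them the classes have little mass
  set c : ℝ := 80 * Real.exp (-G) with hc
  have hsm : ∀ w ∈ W₁, ∑ s ∈ J, prF I Q u w s ≤ c := by
    intro w hw
    obtain ⟨h1, h2⟩ := hw
    have h1' : ET / 2 ≤ toF I Q u w := h1
    have h2' : V' w ≤ M / K := h2
    unfold prF
    rw [← Finset.sum_div, div_le_iff₀ (H.Tpos w)]
    have h3 := hT1 w
    have h4 : K * V' w ≤ M := by
      have := mul_le_mul_of_nonneg_left h2' hK.le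
      rwa [mul_div_cancel₀ _ hK.ne'] at this
    have h5 : Real.exp (-G) * (ET / 2) ≤ Real.exp (-G) * toF I Q u w :=
      mul_le_mul_of_nonneg_left h1' (Real.exp_pos _).le
    have h6 : c * toF I Q u w = 80 * (Real.exp (-G) * toF I Q u w) := by
      rw [hc]
      ring
    rw [h6]
    linarith
  -- the comparison
  have hpi : Integrable (fun w => ∑ s ∈ J, prF I Q u w s) P :=
    integrable_finsetSum _ fun s hs => Integrable.of_bound (H.prm (hJI s hs)).aestronglyMeasurable
      1 (Filter.Eventually.of_forall fun w => by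
        rw [Real.norm_eq_abs, abs_of_nonneg (H.pr0 (hJI s hs) w)]
        exact H.pr1 (hJI s hs) w)
  have hmain : P.real W₁ * ((∫ w, ∑ s ∈ J, prF I Q u w s ∂P) - c) ≤
      ∫ w, mv I Q u w ∂(P.prod P) := by
    have h1 : ∫ w : Ω × Ω, ((∑ s ∈ J, prF I Q u w.1 s) - c) * (W₁.indicator (fun _ => (1 : ℝ)) w.2)
        ∂(P.prod P) = ((∫ w, ∑ s ∈ J, prF I Q u w s ∂P) - c) * P.real W₁ := by
      rw [integral_prod_mul (μ := P) (ν := P) (fun w => (∑ s ∈ J, prF I Q u w s) - c)
        (W₁.indicator (fun _ => (1 : ℝ))), integral_sub hpi (integrable_const _), integral_const,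
        integral_indicator_const _ hW₁m, probReal_univ, one_smul, smul_eq_mul, mul_one]
    rw [mul_comm, ← h1]
    refine integral_mono ?_ H.mvi fun w => ?_
    · exact Integrable.mul_prod (f := fun w => (∑ s ∈ J, prF I Q u w s) - c)
        (g := W₁.indicator (fun _ => (1 : ℝ))) (hpi.sub (integrable_const _))
        ((integrable_const _).indicator hW₁m)
    · by_cases hw : w.2 ∈ W₁
      · rw [Set.indicator_of_mem hw, mul_one]
        have h2 := hsm w.2 hw
        have h3 : (∑ s ∈ J, prF I Q u w.1 s) - ∑ s ∈ J, prF I Q u w.2 s ≤ mv I Q u w := by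
          rw [← Finset.sum_sub_distrib]
          refine (Finset.sum_le_sum fun s _ => le_abs_self _).trans ?_
          exact Finset.sum_le_sum_of_subset_of_nonneg (Finset.filter_subset _ _)
            fun s _ _ => abs_nonneg _
        linarith
      · rw [Set.indicator_of_notMem hw, mul_zero]
        exact Hy.mv0 w
  by_cases hle : ∫ w, ∑ s ∈ J, prF I Q u w s ∂P ≤ c
  · have h1 : 0 ≤ 4 * K * ∫ w, mv I Q u w ∂(P.prod P) :=
      mul_nonneg (by positivity) (integral_nonneg fun w => Hy.mv0 w)
    linarith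
  · have h1 := mul_le_mul_of_nonneg_right hW₁p (sub_nonneg.2 (not_le.1 hle).le)
    have h2 := h1.trans hmain
    rw [div_mul_eq_mul_div, one_mul, div_le_iff₀ (by positivity)] at h2
    linarith

end Pool.Agent.W_7d29a1_LOC.A99

namespace Pool.Agent.W_7d29a1_LOC

open MeasureTheory ProbabilityTheory A99

open Classical in
/-- **Leaf D.** -/
theorem absF99 : AbsF := by
  intro Ω S _ I P _ Q u F K G hK hQ hQs hum hu0 huK hF
  have H : Hy I Q u K := ⟨hK, hQ, hQs, hum, hu0, huK⟩
  have hK0 := H.K0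
  have e1 : ∫ w, ∫ w', ∑ s ∈ I, |prF I Q u w s - prF I Q u w' s| ∂P ∂P =
      ∫ w, mv I Q u w ∂(P.prod P) := (integral_prod (mv I Q u) H.mvi).symm
  rw [e1]
  have hmv : 0 ≤ ∫ w, mv I Q u w ∂(P.prod P) := integral_nonneg fun w => Hy.mv0 w
  have hexp := Real.exp_pos (-G)
  have hi1 : ∀ s ∈ I, ∀ s' ∈ I, Integrable (fun w => if F s s' then
      prF I Q u w s * prF I Q u w s' else 0) P := by
    intro s hs s' hs'
    split_ifs
    · refine Integrable.of_bound ((H.prm hs).mul (H.prm hs')).aestronglyMeasurable 1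
        (Filter.Eventually.of_forall fun w => ?_)
      rw [Real.norm_eq_abs, abs_of_nonneg (mul_nonneg (H.pr0 hs w) (H.pr0 hs' w))]
      exact mul_le_one₀ (H.pr1 hs w) (H.pr0 hs' w) (H.pr1 hs' w)
    · exact integrable_const _
  have hi2 : Integrable (fun w => ∑ s ∈ I, ∑ s' ∈ I, (if F s s' then
      prF I Q u w s * prF I Q u w s' else 0)) P :=
    integrable_finsetSum _ fun s hs => integrable_finsetSum _ fun s' hs' => hi1 s hs s' hs'
  by_cases he : P.real {w | Real.exp (-G) * (∫ w', toF I Q u w' ∂P) < toF I Q u w} ≤ 1 / 2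
  · set p0 : ℝ := 1 / (16 * K ^ 3) with hp0
    have hp : 0 < p0 := by rw [hp0]; positivity
    have h1 := H.part1 (P := P) (F := F) (fun s hs s' hs' h => (hF s hs s' hs' h).2) hp
    have h2 := H.part2 (P := P) hp0 he
    have hpi : ∀ s ∈ I, Integrable (fun w => prF I Q u w s) P := fun s hs =>
      Integrable.of_bound (H.prm hs).aestronglyMeasurable 1 (Filter.Eventually.of_forall fun w => by
        rw [Real.norm_eq_abs, abs_of_nonneg (H.pr0 hs w)]
        exact H.pr1 hs w)
    have h3 : ∀ w, ∑ s ∈ I, ∑ s' ∈ I, (if F s s' then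
        prF I Q u w s * prF I Q u w s' else 0) ≤
        (∑ s ∈ I.filter fun s => ¬ p0 ≤ dbl P u s, prF I Q u w s) +
        K ^ 4 * ∑ s ∈ I.filter fun s => p0 ≤ dbl P u s, ∑ s' ∈ I, (if F s s' then
          pp P I Q u s * pp P I Q u s' else 0) := by
      intro w
      rw [← Finset.sum_filter_add_sum_filter_not I (fun s => p0 ≤ dbl P u s), add_comm]
      refine add_le_add ?_ ?_
      · refine Finset.sum_le_sum fun s hs => ?_
        have hsI := (Finset.mem_filter.1 hs).1
        have h4 : ∑ s' ∈ I, (if F s s' then prF I Q u w s * prF I Q u w s' else 0) ≤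
            ∑ s' ∈ I, prF I Q u w s * prF I Q u w s' := by
          refine Finset.sum_le_sum fun s' hs' => ?_
          split_ifs
          · exact le_rfl
          · exact mul_nonneg (H.pr0 hsI w) (H.pr0 hs' w)
        rwa [← Finset.mul_sum, H.prs, mul_one] at h4
      · rw [Finset.mul_sum]
        refine Finset.sum_le_sum fun s hs => ?_
        have hsI := (Finset.mem_filter.1 hs).1
        rw [Finset.mul_sum]
        refine Finset.sum_le_sum fun s' hs' => ?_
        split_ifs
        · calc prF I Q u w s * prF I Q u w s' ≤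
              (K ^ 2 * pp P I Q u s) * (K ^ 2 * pp P I Q u s') :=
                mul_le_mul (H.prle hsI w) (H.prle hs' w) (H.pr0 hs' w)
                  (mul_nonneg (by positivity) (H.pp0 hsI))
            _ = _ := by ring
        · rw [mul_zero]
    have h5 := integral_mono hi2 ((integrable_finsetSum _ fun s hs =>
      hpi s (Finset.mem_filter.1 hs).1).add (integrable_const _)) h3
    simp only [Pi.add_apply] at h5
    rw [integral_add (integrable_finsetSum _ fun s hs =>
      hpi s (Finset.mem_filter.1 hs).1) (integrable_const _), integral_const, probReal_univ,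
      one_smul] at h5
    have h6 := mul_le_mul_of_nonneg_left h1 (show 0 ≤ K ^ 4 by positivity)
    have h7 : K ^ 4 * (4 * K ^ 5 / p0 * ∫ w, mv I Q u w ∂(P.prod P)) =
        64 * K ^ 12 * ∫ w, mv I Q u w ∂(P.prod P) := by
      rw [hp0]
      field_simp
      ring
    rw [h7] at h6
    have h8 : 4 * K * ∫ w, mv I Q u w ∂(P.prod P) ≤ 4 * K ^ 12 * ∫ w, mv I Q u w ∂(P.prod P) := by
      refine mul_le_mul_of_nonneg_right ?_ hmv
      have h9 : K ^ 1 ≤ K ^ 12 := pow_le_pow_right₀ hK (by norm_num)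
      rw [pow_one] at h9
      linarith
    have h10 : 0 ≤ P.real {w | Real.exp (-G) * (∫ w', toF I Q u w' ∂P) < toF I Q u w} :=
      measureReal_nonneg
    linarith
  · have h1 : ∫ w, ∑ s ∈ I, ∑ s' ∈ I, (if F s s' then
        prF I Q u w s * prF I Q u w s' else 0) ∂P ≤ ∫ _w, (1 : ℝ) ∂P := by
      refine integral_mono hi2 (integrable_const _) fun w => ?_
      calc ∑ s ∈ I, ∑ s' ∈ I, (if F s s' then prF I Q u w s * prF I Q u w s' else 0) ≤
          ∑ s ∈ I, ∑ s' ∈ I, prF I Q u w s * prF I Q u w s' := by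
            refine Finset.sum_le_sum fun s hs => Finset.sum_le_sum fun s' hs' => ?_
            split_ifs
            · exact le_rfl
            · exact mul_nonneg (H.pr0 hs w) (H.pr0 hs' w)
        _ = 1 := by
            simp only [← Finset.mul_sum, H.prs, mul_one]
    rw [integral_const, probReal_univ, one_smul] at h1
    have h2 := not_le.1 he
    have h3 : 0 ≤ 68 * K ^ 12 * ∫ w, mv I Q u w ∂(P.prod P) := mul_nonneg (by positivity) hmv
    linarith

end Pool.Agent.W_7d29a1_LOC
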