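import Pool.Agent.W_7d29a1_AC.DefsF8
import Pool.Agent.W_7d29a1_SDP.DefsP51

/-!
Theorem LOC (one region): in very strong disorder, at force zero and at every regular tilt, two
replicas of the polymer stay at bounded distance in probability, at all times, at most lengths.
Definitions and frozen statements of the leaves.
-/

set_option autoImplicit false

namespace Pool.Agent.W_7d29a1_LOC

open MeasureTheory ProbabilityTheory Filter Topology Pool.Agent.W_MP_7d29a1_pr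
  Pool.Agent.W_7d29a1_h46 Pool.Agent.W_7d29a1_h46u Pool.Agent.W_7d29a1_D2.B35
  Pool.Agent.W_7d29a1_Q29 Pool.Agent.W_7d29a1_P89 Pool.Agent.W_7d29a1_P78 Pool.Agent.W_7d29a1_NV
  Pool.Agent.W_7d29a1_AC

/-! ### The abstract two region lemma -/

/-- The total mass. -/
noncomputable def toF {Ω S : Type*} (I : Finset S) (Q : S → ℝ) (u : S → Ω → ℝ) (w : Ω) : ℝ :=
  ∑ s ∈ I, Q s * u s w

/-- The mass of a class. -/
noncomputable def prF {Ω S : Type*} (I : Finset S) (Q : S → ℝ) (u : S → Ω → ℝ) (w : Ω) (s : S) :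
    ℝ := Q s * u s w / toF I Q u w

open Classical in
/-- Leaf D: if the classes hardly move when the environment is resampled, and the total mass is
much smaller than its mean, then there is no mass on the pairs of independent classes. -/
def AbsF : Prop := ∀ (Ω S : Type) [MeasurableSpace Ω] (I : Finset S) (P : Measure Ω)
  [IsProbabilityMeasure P] (Q : S → ℝ) (u : S → Ω → ℝ) (F : S → S → Prop) (K G : ℝ), 1 ≤ K →
  (∀ s ∈ I, 0 ≤ Q s) → 0 < ∑ s ∈ I, Q s → (∀ s ∈ I, Measurable (u s)) →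
  (∀ s ∈ I, ∀ w, 0 < u s w) → (∀ s ∈ I, ∀ w w', u s w ≤ K * u s w') →
  (∀ s ∈ I, ∀ s' ∈ I, F s s' → F s' s ∧ IndepFun (u s) (u s') P) →
    ∫ w, ∑ s ∈ I, ∑ s' ∈ I, (if F s s' then prF I Q u w s * prF I Q u w s' else 0) ∂P ≤
      80 * Real.exp (-G) +
      68 * K ^ 12 * ∫ w, ∫ w', ∑ s ∈ I, |prF I Q u w s - prF I Q u w' s| ∂P ∂P +
      2 * P.real {w | Real.exp (-G) * (∫ w', toF I Q u w' ∂P) < toF I Q u w}

/-! ### The polymer -/

/-- The rows `> t` are shifted by `z`. -/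
def fsh {d : ℕ} (t : ℕ) (z : Site d) (η : Env d) : Env d := fun p =>
  if p.1 ≤ t then η p else η (p.1, p.2 + z)

section Leaves

variable (d : ℕ) (ρ : Measure ℝ) (β b : ℝ)

/-- A displacement which is typical and lucky, at the tilt `h` (the conclusion of `LuckU`). -/
def LuckH (h : Vec d) : Prop := ∀ ε δ : ℝ, 0 < ε → 0 < δ →
  ∃ C' b₁ : ℝ, 0 < C' ∧ 1 ≤ b₁ ∧ ∀ b : ℝ, b₁ ≤ b → ∃ (m : ℕ) (z : Site d), 1 ≤ m ∧
    (m : ℝ) ≤ C' * b ∧ W_7d29a1_V.Rch m z ∧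
    ∫ η, max 0 (lam ρ β h * m - Real.log (PP β h η m z)) ∂(law d ρ) ≤ δ * b ∧
    Real.exp (-(ε * b)) ≤
      (law d ρ).real {ξ : Env d | Lk (⟨lam ρ β h, β, h, 1⟩ : Prm d) m z (2 * b) ξ}

/-- Leaf A0: at force zero the return to the origin costs `o(t)`. -/
def Ret0 : Prop := ∀ δ : ℝ, 0 < δ → ∃ t₀ : ℕ, ∀ t : ℕ, t₀ ≤ t → Even t →
  ∫ η, max 0 (lam ρ β (0 : Vec d) * t - Real.log (PP β 0 η t 0)) ∂(law d ρ) ≤ δ * t

/-- Leaf A1: at force zero the displacement `0` is typical and lucky (reflection). -/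
def Luck0 : Prop := VSD ρ β (0 : Vec d) → LuckH d ρ β 0

open Classical in
/-- The laws of all the positions are concentrated on few sites, at most lengths. -/
def MulH (h : Vec d) : Prop := ∀ ε δ : ℝ, 0 < ε → 0 < δ →
  ∃ b₁ : ℝ, ∀ b₀ : ℝ, b₁ ≤ b₀ → ∃ N₀ : ℕ, ∀ N : ℕ, N₀ ≤ N →
    (((Finset.Ico N (2 * N)).filter fun n => ∃ τ : ℕ, τ ≤ n ∧
      ¬ (law d ρ).real {η | ¬ GoodN β h n τ b₀ ε η} ≤ δ).card : ℝ) ≤ δ * N

open Classical in
/-- Leaf B: before every time `T` there is, within a bounded distance `W`, a block of rows with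
small selections (`rowsC92` with the place given). -/
def RowsU : Prop := ∀ (J : ℕ) (s : ℝ), 1 ≤ J → 0 < s →
  ∃ ε δ b₂ : ℝ, 0 < ε ∧ 0 < δ ∧ ∀ b₀ : ℝ, b₂ ≤ b₀ → ∃ (W : ℕ) (Λ : ℝ), 0 ≤ Λ ∧
    ∀ (h : Vec d) (n T : ℕ) (a M : ℝ), W ≤ T → T ≤ n → 0 ≤ M →
    (∀ τ : ℕ, 1 ≤ τ → τ ≤ n →
      (law d ρ).real {η | η ∈ win β h n a (M + Λ) ∧ ¬ GoodN β h n τ b₀ ε η} ≤ δ) →
    ∃ t r₀ r₁ : ℕ, T ≤ r₀ + W ∧ r₀ ≤ t ∧ t + J ≤ r₁ ∧ r₁ ≤ T ∧
      ∀ l : ℕ, t < l → l ≤ t + J →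
        ∫ η in win β h n a M, kapE ρ β b h n l r₀ r₁ η ∂(law d ρ) ≤ s

/-- Leaf T: the dependence of the position at the separator on the block (marginal of `TvB`). -/
def TvM : Prop := ∀ (h : Vec d) (n t J r₀ r₁ : ℕ), 1 ≤ J → r₀ ≤ t → t + J ≤ r₁ → r₁ ≤ n →
  ∀ a M s : ℝ, 0 ≤ M → 0 ≤ s →
    (∀ l : ℕ, t < l → l ≤ t + J →
      ∫ η in win β h n a (M + 4 * Bc β b * (J + 1)), kapE ρ β b h n l r₀ r₁ η ∂(law d ρ) ≤ s) →
    (∫ η in win β h n a M, ∫ ξ, ∑ x ∈ boxF d r₀,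
        |Qt β h n r₀ x η - Qt β h n r₀ x (mxR b t J η ξ)| ∂(law d (rb ρ b)) ∂(law d ρ)) ≤
      J * Real.sqrt (2 * s)

open Classical in
/-- Leaf E: two far regions and a localised block. -/
def FarP : Prop := ∀ (h : Vec d) (n t J r₀ D : ℕ) (G : ℝ), r₀ ≤ t → t + J ≤ n →
  2 * (t + J - r₀) ≤ D →
    ∫ η, ∑ x ∈ boxF d r₀, ∑ y ∈ boxF d r₀, (if D < W_7d29a1_V.l1 (x - y) then
        Qt β h n r₀ x η * Qt β h n r₀ y η else 0) ∂(law d ρ) ≤
      80 * Real.exp (-G) + 68 * Real.exp (J * Bc β b) ^ 12 *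
        (∫ η, ∫ ξ, ∑ x ∈ boxF d r₀,
          |Qt β h n r₀ x η - Qt β h n r₀ x (mxR b t J η ξ)| ∂(law d (rb ρ b)) ∂(law d ρ)) +
      2 * (law d ρ).real {η | -G < X β h η n - Real.log (zB ρ β b h n t J η)}

/-- Leaf C1: at force zero the shift of the future by `z` costs at most a multiple of its length. -/
def Sh0 : Prop := ∃ C : ℝ, 0 ≤ C ∧ ∀ (n t m : ℕ) (z : Site d), t ≤ n → Even m →
  W_7d29a1_V.Rch m z →
    ∫ η, |X β 0 (fsh t z η) n - X β 0 η n| ∂(law d ρ) ≤ C * m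

open Classical in
/-- Leaf C2: the block is shorter than `lam J` for the shortened environment (force zero): upper
bound at most lengths. -/
def Up0 : Prop := ∀ ϑ : ℝ, 0 < ϑ → ∃ J₁ : ℕ, ∀ J : ℕ, J₁ ≤ J → Even J → ∃ N₀ : ℕ, ∀ N : ℕ,
  N₀ ≤ N → (((Finset.Ico N (2 * N)).filter fun n => ∃ t : ℕ, t ≤ n ∧
    ¬ (law d ρ).real {η | X β 0 (remE J t 0 η) n + (lam ρ β (0 : Vec d) + ϑ) * J <
      X β 0 η (n + J)} ≤ ϑ).card : ℝ) ≤ ϑ * N

open Classical in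
/-- Leaf C3: the shortened environments are close for most displacements (force zero). -/
def Med0 : Prop := ∀ ϑ : ℝ, 0 < ϑ → ∃ J₁ : ℕ, ∀ J : ℕ, J₁ ≤ J → Even J → ∀ n t : ℕ, t ≤ n →
  (law d ρ).real {η | (∑ z ∈ boxF d J, if |X β 0 (remE J t z η) n - X β 0 (remE J t 0 η) n| ≤
    ϑ * J then PP β 0 (fun _ => 0) J z else 0) < Phi (0 : Vec d) ^ J / 2} ≤ ϑ

open Classical in
/-- Leaf C4: the averaged partition function from below, with a random level (the proof of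
`zlowC86` with `a` a function of the other rows). -/
def ZlowR : Prop := ∀ (h : Vec d) (ϑ : ℝ), 0 < ϑ → ∃ b₃ : ℝ, ∀ b : ℝ, b₃ ≤ b →
  ∀ (J t n : ℕ) (a : Env d → ℝ) (R : ℝ), 1 ≤ J → t ≤ n →
    (law d ρ).real {η | Phi h ^ J / 2 ≤
        (∑ z ∈ boxF d J, if |X β h (remE J t z η) n - a η| ≤ R then PP β h (fun _ => 0) J z
          else 0) ∧
      Real.log (zB ρ β b h (n + J) t J η) <
        a η - R + J * (Real.log (Phi h) + Real.log (∫ x, Real.exp (β * x) ∂ρ)) - ϑ * J - 1} ≤ ϑ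

open Classical in
/-- Leaf C: the blocks are localised in probability, at most lengths. -/
def LocH (h : Vec d) : Prop := ∀ g κ : ℝ, 0 < g → 0 < κ →
  lam ρ β h + g ≤ Real.log (Phi h) + Real.log (∫ t, Real.exp (β * t) ∂ρ) →
  ∃ b₃ : ℝ, ∀ b : ℝ, b₃ ≤ b → ∃ J₁ : ℕ, ∀ J : ℕ, J₁ ≤ J → Even J → ∃ N₀ : ℕ, ∀ N : ℕ, N₀ ≤ N →
    (((Finset.Ico N (2 * N)).filter fun n => ∃ t : ℕ, t ≤ n ∧
      ¬ (law d ρ).real {η | -(g / 2 * J) < X β h η (n + J) -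
        Real.log (zB ρ β b h (n + J) t J η)} ≤ κ).card : ℝ) ≤ κ * N

open Classical in
/-- The theorem at the tilt `h`: one region. -/
def MainL (h : Vec d) : Prop := ∀ κ : ℝ, 0 < κ → ∃ L N₀ : ℕ, ∀ N : ℕ, N₀ ≤ N →
  (((Finset.Ico N (2 * N)).filter fun n => ∃ t : ℕ, t ≤ n ∧
    κ < ∫ η, ∑ x ∈ boxF d t, ∑ y ∈ boxF d t, (if L < W_7d29a1_V.l1 (x - y) then
      Qt β h n t x η * Qt β h n t y η else 0) ∂(law d ρ)).card : ℝ) ≤ κ * N

end Leaves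

end Pool.Agent.W_7d29a1_LOC
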