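import Pool.Agent.W_7d29a1_LOC.DefsL99

/-!
Theorem LOC at the regular tilts of almost every velocity: frozen statements of the leaves.
-/

set_option autoImplicit false

namespace Pool.Agent.W_7d29a1_LOC

open MeasureTheory ProbabilityTheory Filter Topology Pool.Agent.W_MP_7d29a1_pr
  Pool.Agent.W_7d29a1_h46 Pool.Agent.W_7d29a1_h46u Pool.Agent.W_7d29a1_D2.B35
  Pool.Agent.W_7d29a1_Q29 Pool.Agent.W_7d29a1_P89 Pool.Agent.W_7d29a1_P78 Pool.Agent.W_7d29a1_NV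
  Pool.Agent.W_7d29a1_AC Pool.Agent.W_7d29a1_SDP

section LeavesV

variable (d : ℕ) (ρ : Measure ℝ) (β : ℝ)

open Classical in
/-- Leaf ShV: at a limit pair the shift of the future by at most `2 J` costs at most `ϑ J`, at most
lengths. -/
def ShV : Prop := ∀ h v : Vec d, LP ρ β h v → ∀ ϑ : ℝ, 0 < ϑ → ∃ J₁ : ℕ, ∀ J : ℕ, J₁ ≤ J →
  ∃ N₀ : ℕ, ∀ N : ℕ, N₀ ≤ N → (((Finset.Ico N (2 * N)).filter fun n =>
    ∃ (t : ℕ) (w : Site d), t ≤ n ∧ W_7d29a1_V.l1 w ≤ 2 * J ∧ Even (W_7d29a1_V.l1 w) ∧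
      ϑ * J < ∫ η, |X β h (fsh t w η) n - X β h η n| ∂(law d ρ)).card : ℝ) ≤ ϑ * N

open Classical in
/-- Leaf UpV: the block is not longer than `lam J`, for the environment shortened by a displacement
near the slope. -/
def UpV : Prop := ∀ h v : Vec d, LP ρ β h v → ∀ ϑ : ℝ, 0 < ϑ → ∃ J₁ : ℕ, ∀ J : ℕ, J₁ ≤ J →
  ∀ z : Site d, W_7d29a1_V.Rch J z → ‖emb z - (J : ℝ) • v‖ ≤ d + 1 → ∃ N₀ : ℕ, ∀ N : ℕ, N₀ ≤ N →
    (((Finset.Ico N (2 * N)).filter fun n => ∃ t : ℕ, t ≤ n ∧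
      ¬ (law d ρ).real {η | X β h (remE J t z η) n + (lam ρ β h + ϑ) * J <
        X β h η (n + J)} ≤ ϑ).card : ℝ) ≤ ϑ * N

open Classical in
/-- Leaf MedV: the shortened environments are close for most displacements. -/
def MedV : Prop := ∀ h v : Vec d, LP ρ β h v → ∀ ϑ : ℝ, 0 < ϑ → ∃ J₁ : ℕ, ∀ J : ℕ, J₁ ≤ J →
  ∀ z₀ : Site d, W_7d29a1_V.Rch J z₀ → ∃ N₀ : ℕ, ∀ N : ℕ, N₀ ≤ N →
    (((Finset.Ico N (2 * N)).filter fun n => ∃ t : ℕ, t ≤ n ∧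
      ¬ (law d ρ).real {η | (∑ z ∈ boxF d J,
        if |X β h (remE J t z η) n - X β h (remE J t z₀ η) n| ≤ ϑ * J then
          PP β h (fun _ => 0) J z else 0) < Phi h ^ J / 2} ≤ ϑ).card : ℝ) ≤ ϑ * N

/-- Leaf LocV: the blocks are localised in probability. -/
def LocV : Prop := ∀ h v : Vec d, LP ρ β h v → LocH d ρ β h

/-- One region at every regular tilt in very strong disorder. -/
def MainLV : Prop := ∀ h v : Vec d, VSD ρ β h → LP ρ β h v → MainL d ρ β h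

end LeavesV

end Pool.Agent.W_7d29a1_LOC
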