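import Pool.Agent.W_7d29a1_LOC.DefsL99
import Pool.Agent.W_7d29a1_AC.EqB41
import Pool.Agent.W_7d29a1_AC.EqB6
import Pool.Agent.W_7d29a1_V.LipB74
import Pool.Agent.W_7d29a1_V.Rch48

/-!
Theorem LOC, leaf E: the futures of two far sites are independent functions of a block.
-/

set_option autoImplicit false

namespace Pool.Agent.W_7d29a1_LOC

open MeasureTheory ProbabilityTheory Filter Topology Pool.Agent.W_MP_7d29a1_pr
  Pool.Agent.W_7d29a1_h46 Pool.Agent.W_7d29a1_h46u Pool.Agent.W_7d29a1_D2.B35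
  Pool.Agent.W_7d29a1_Q29 Pool.Agent.W_7d29a1_P89 Pool.Agent.W_7d29a1_P78 Pool.Agent.W_7d29a1_NV
  Pool.Agent.W_7d29a1_AC

variable {d : ℕ} {ρ : Measure ℝ} {b : ℝ}

/-- The future of `x` sees the block in its cone only. -/
lemma dep66 (β : ℝ) (h : Vec d) (b : ℝ) {t J r₀ m : ℕ} (hr : r₀ ≤ t) (x : Site d)
    (η ξ ξ' : Env d) (hξ : ∀ p : ℕ × Site d, t < p.1 → p.1 ≤ t + J →
      W_7d29a1_V.l1 (p.2 - x) ≤ t + J - r₀ → ξ p = ξ' p) :
    Z β h (sh r₀ x (mxR b t J η ξ)) m = Z β h (sh r₀ x (mxR b t J η ξ')) m := by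
  unfold Z ZT
  refine Finset.sum_congr rfl fun s _ => ?_
  have h1 : energy (sh r₀ x (mxR b t J η ξ)) s = energy (sh r₀ x (mxR b t J η ξ')) s := by
    unfold energy
    refine Finset.sum_congr rfl fun i _ => ?_
    unfold sh mxR
    by_cases hp : (t < (i : ℕ) + 1 + r₀ ∧ (i : ℕ) + 1 + r₀ ≤ t + J) ∧
        |η ((i : ℕ) + 1 + r₀, pos s ((i : ℕ) + 1) + x)| ≤ b
    · simp only [if_pos hp]
      congr 1
      refine hξ _ hp.1.1 hp.1.2 ?_
      simp only [add_sub_cancel_right]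
      have h2 := W_7d29a1_V.LipB74.pos_sub s 0 ((i : ℕ) + 1)
      have h3 : pos s 0 = 0 := by simp [pos]
      rw [h3, sub_zero, zero_add] at h2
      have h4 := hp.1.2
      omega
    · simp only [if_neg hp]
  unfold wgt
  rw [h1]

/-- The sites of the block in the cone of `x`. -/
noncomputable def cone66 (t J r₀ : ℕ) (x : Site d) : Finset (ℕ × Site d) :=
  ((Finset.Ioc t (t + J)) ×ˢ ((boxF d (t + J - r₀)).image fun z => z + x)).filter fun p =>
    W_7d29a1_V.l1 (p.2 - x) ≤ t + J - r₀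

lemma mem_cone66 {t J r₀ : ℕ} {x : Site d} {p : ℕ × Site d} :
    p ∈ cone66 t J r₀ x ↔ (t < p.1 ∧ p.1 ≤ t + J) ∧ W_7d29a1_V.l1 (p.2 - x) ≤ t + J - r₀ := by
  unfold cone66
  rw [Finset.mem_filter, Finset.mem_product, Finset.mem_Ioc, Finset.mem_image]
  constructor
  · rintro ⟨⟨h1, -⟩, h2⟩
    exact ⟨h1, h2⟩
  · rintro ⟨h1, h2⟩
    refine ⟨⟨h1, p.2 - x, ?_, by simp⟩, h2⟩
    unfold boxF
    rw [Fintype.mem_piFinset]
    intro i
    have h3 := W_7d29a1_V.R48.natAbs_le_l1 (p.2 - x) i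
    rw [Finset.mem_Icc]
    omega

lemma cone_disj66 {t J r₀ D : ℕ} (hD : 2 * (t + J - r₀) ≤ D) {x y : Site d}
    (hxy : D < W_7d29a1_V.l1 (x - y)) : Disjoint (cone66 t J r₀ x) (cone66 t J r₀ y) := by
  rw [Finset.disjoint_left]
  intro p hp hq
  have h1 := (mem_cone66.1 hp).2
  have h2 := (mem_cone66.1 hq).2
  have h3 := W_7d29a1_V.R48.l1_sub_le (p.2 - y) (p.2 - x)
  have h4 : p.2 - y - (p.2 - x) = x - y := by abel
  rw [h4] at h3
  omega

/-- The future of a site as a function of the block. -/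
noncomputable def fut66 (β : ℝ) (h : Vec d) (b : ℝ) (t J r₀ m : ℕ) (η : Env d) (x : Site d)
    (ξ : Env d) : ℝ := Z β h (sh r₀ x (mxR b t J η ξ)) m

lemma fut_meas66 (β : ℝ) (h : Vec d) (b : ℝ) (t J r₀ m : ℕ) (η : Env d) (x : Site d) :
    Measurable (fut66 β h b t J r₀ m η x) :=
  (measurable_Z β h m).comp ((measurable_sh r₀ x).comp (EqB41.measurable_mxR b t J η))

open Classical in
/-- The futures of two far sites are independent. -/
lemma fut_indep66 [IsProbabilityMeasure ρ] (hb : HB ρ b) (β : ℝ) (h : Vec d)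
    {t J r₀ D : ℕ} (m : ℕ) (hr : r₀ ≤ t) (hD : 2 * (t + J - r₀) ≤ D) (η : Env d) {x y : Site d}
    (hxy : D < W_7d29a1_V.l1 (x - y)) :
    IndepFun (fut66 β h b t J r₀ m η x) (fut66 β h b t J r₀ m η y) (law d (rb ρ b)) := by
  have := Eq41.rb_prob hb
  have h1 : iIndepFun (fun (p : ℕ × Site d) (ξ : Env d) => ξ p) (law d (rb ρ b)) :=
    iIndepFun_infinitePi (P := fun _ : ℕ × Site d => rb ρ b) (X := fun _ v => v)
      fun _ => measurable_id
  have h2 := h1.indepFun_finset (cone66 t J r₀ x) (cone66 t J r₀ y) (cone_disj66 hD hxy)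
    fun p => measurable_pi_apply p
  have key : ∀ x : Site d, ∃ φ : ((p : cone66 t J r₀ x) → ℝ) → ℝ, Measurable φ ∧
      fut66 β h b t J r₀ m η x = φ ∘ fun (ξ : Env d) (p : cone66 t J r₀ x) => ξ p := by
    intro x
    refine ⟨fun v => fut66 β h b t J r₀ m η x fun p =>
      if hp : p ∈ cone66 t J r₀ x then v ⟨p, hp⟩ else 0, ?_, ?_⟩
    · refine (fut_meas66 β h b t J r₀ m η x).comp (measurable_pi_iff.2 fun p => ?_)
      by_cases hp : p ∈ cone66 t J r₀ x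
      · simp only [dif_pos hp]
        exact measurable_pi_apply _
      · simp only [dif_neg hp]
        exact measurable_const
    · funext ξ
      show fut66 β h b t J r₀ m η x ξ = fut66 β h b t J r₀ m η x _
      unfold fut66
      refine dep66 β h b hr x η _ _ fun p hp1 hp2 hp3 => ?_
      have hp : p ∈ cone66 t J r₀ x := mem_cone66.2 ⟨⟨hp1, hp2⟩, hp3⟩
      rw [dif_pos hp]
  obtain ⟨φ, hφ, e1⟩ := key x
  obtain ⟨ψ, hψ, e2⟩ := key y
  rw [e1, e2]
  exact h2.comp hφ hψ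

/-- Bounded ratio. -/
lemma fut_le66 (hb0 : 0 ≤ b) (β : ℝ) (h : Vec d) (t J r₀ m : ℕ) (η : Env d) (x : Site d)
    (ξ ξ' : Env d) : fut66 β h b t J r₀ m η x ξ ≤
      Real.exp (J * Bc β b) * fut66 β h b t J r₀ m η x ξ' := by
  unfold fut66 Z ZT
  rw [Finset.mul_sum]
  refine Finset.sum_le_sum fun s _ => ?_
  rw [if_pos (Set.mem_univ s), if_pos (Set.mem_univ s)]
  exact EqB41.wgt_mxR β h hb0 x η ξ ξ' s

lemma fut_pos66 (hd : 0 < d) (β : ℝ) (h : Vec d) (b : ℝ) (t J r₀ m : ℕ) (η : Env d) (x : Site d)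
    (ξ : Env d) : 0 < fut66 β h b t J r₀ m η x ξ := Z_pos hd β h _ m

/-- The head does not see the block. -/
lemma head66 (β : ℝ) (h : Vec d) (b : ℝ) {t J r₀ : ℕ} (hr : r₀ ≤ t) (η ξ : Env d) (x : Site d) :
    PP β h (mxR b t J η ξ) r₀ x = PP β h η r₀ x := by
  unfold PP
  refine Eq41.ZT_congr' β h (fun j h1 h2 z => ?_) _
  refine EqB41.mxR_out ?_
  simp only
  omega

/-- Resampling twice. -/
lemma mxR_mxR66 (hb0 : 0 ≤ b) (t J : ℕ) (η ξ ξ' : Env d) :
    mxR b t J (mxR b t J η ξ) ξ' = mxR b t J η ξ' := by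
  funext p
  unfold mxR
  by_cases hp : (t < p.1 ∧ p.1 ≤ t + J) ∧ |η p| ≤ b
  · rw [if_pos hp]
    have h1 : |cl b (ξ p)| ≤ b := by
      unfold cl
      rw [abs_le]
      exact ⟨le_max_left _ _, max_le (by linarith) (min_le_left _ _)⟩
    rw [if_pos ⟨hp.1, h1⟩, if_pos hp]
  · rw [if_neg hp, if_neg hp]

end Pool.Agent.W_7d29a1_LOC
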