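import Pool.Agent.W_7d29a1_LOC.FarA66
import Pool.Agent.W_7d29a1_LOC.AbsF99
import Pool.Agent.W_7d29a1_AC.LoP41
import Pool.Agent.W_7d29a1_Q29.Qf39

/-!
Theorem LOC, leaf E: two far regions and a localised block.
-/

set_option autoImplicit false

namespace Pool.Agent.W_7d29a1_LOC

open MeasureTheory ProbabilityTheory Filter Topology Pool.Agent.W_MP_7d29a1_pr
  Pool.Agent.W_7d29a1_h46 Pool.Agent.W_7d29a1_h46u Pool.Agent.W_7d29a1_D2.B35
  Pool.Agent.W_7d29a1_Q29 Pool.Agent.W_7d29a1_P89 Pool.Agent.W_7d29a1_P78 Pool.Agent.W_7d29a1_NV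
  Pool.Agent.W_7d29a1_AC

variable {d : ℕ} {ρ : Measure ℝ} {b : ℝ}

lemma fb66 {W : Type*} [MeasurableSpace W] {μ : Measure W} [IsProbabilityMeasure μ] {f : W → ℝ}
    (hf : Measurable f) {C : ℝ} (hb : ∀ x, |f x| ≤ C) : Integrable f μ :=
  (integrable_const C).mono' hf.aestronglyMeasurable (Eventually.of_forall fun x => by
    rw [Real.norm_eq_abs]
    exact hb x)

/-- A bounded observable of the environment is averaged over the block first. -/
lemma int_mix66 [IsProbabilityMeasure ρ] (hb : HB ρ b) (t J : ℕ) {f : Env d → ℝ}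
    (hf : Measurable f) {C : ℝ} (hC : ∀ η, |f η| ≤ C) :
    (∫ η, ∫ ξ, f (mxR b t J η ξ) ∂(law d (rb ρ b)) ∂(law d ρ)) = ∫ η, f η ∂(law d ρ) := by
  have := Eq41.rb_prob hb
  have mp := mixR6 (d := d) hb t J
  have h1 := integral_map (μ := (law d ρ).prod (law d (rb ρ b)))
    (φ := fun w : Env d × Env d => mxR b t J w.1 w.2) mp.measurable.aemeasurable
    (f := f) hf.aestronglyMeasurable
  rw [mp.map_eq] at h1
  rw [h1]
  exact (integral_prod (fun w : Env d × Env d => f (mxR b t J w.1 w.2))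
    (fb66 (hf.comp mp.measurable) fun w => hC _)).symm

lemma integ_mix66 [IsProbabilityMeasure ρ] (hb : HB ρ b) (t J : ℕ) {f : Env d → ℝ}
    (hf : Measurable f) {C : ℝ} (hC : ∀ η, |f η| ≤ C) :
    Integrable (fun η : Env d => ∫ ξ, f (mxR b t J η ξ) ∂(law d (rb ρ b))) (law d ρ) := by
  have := Eq41.rb_prob hb
  have mp := mixR6 (d := d) hb t J
  exact (fb66 (μ := (law d ρ).prod (law d (rb ρ b))) (hf.comp mp.measurable)
    fun w => hC _).integral_prod_left

/-- The cost of the block. -/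
noncomputable def tv66 (ρ : Measure ℝ) (β b : ℝ) (h : Vec d) (n t J r₀ : ℕ) (η : Env d) : ℝ :=
  ∫ ξ, ∑ x ∈ boxF d r₀, |Qt β h n r₀ x η - Qt β h n r₀ x (mxR b t J η ξ)| ∂(law d (rb ρ b))

lemma tv_int66 [IsProbabilityMeasure ρ] (hb : HB ρ b) (β : ℝ) (h : Vec d) (n t J r₀ : ℕ) :
    Measurable fun w : Env d × Env d => ∑ x ∈ boxF d r₀,
      |Qt β h n r₀ x w.1 - Qt β h n r₀ x (mxR b t J w.1 w.2)| :=
  Finset.measurable_sum _ fun x _ => (((measurable_Qt39 β h n r₀ x).comp measurable_fst).sub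
    ((measurable_Qt39 β h n r₀ x).comp (mixR6 (d := d) hb t J).measurable)).abs

lemma tv_meas66 [IsProbabilityMeasure ρ] (hb : HB ρ b) (β : ℝ) (h : Vec d) (n t J r₀ : ℕ) :
    Measurable fun η : Env d => tv66 ρ β b h n t J r₀ η := by
  have := Eq41.rb_prob hb
  unfold tv66
  exact ((tv_int66 hb β h n t J r₀).stronglyMeasurable.integral_prod_right'
    (ν := law d (rb ρ b))).measurable

lemma qs66 (hd : 0 < d) (β : ℝ) (h : Vec d) {n r₀ : ℕ} (hr : r₀ ≤ n) (η : Env d) :
    ∑ x ∈ boxF d r₀, Qt β h n r₀ x η = 1 :=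
  Qt_sum_box39 hd β h hr le_rfl η

lemma tvb66 (hd : 0 < d) (β : ℝ) (h : Vec d) {n r₀ : ℕ} (hr : r₀ ≤ n) (η η' : Env d) :
    ∑ x ∈ boxF d r₀, |Qt β h n r₀ x η - Qt β h n r₀ x η'| ≤ 2 := by
  calc _ ≤ ∑ x ∈ boxF d r₀, (Qt β h n r₀ x η + Qt β h n r₀ x η') :=
        Finset.sum_le_sum fun x _ => by
          have h1 := Qt_nonneg39 β h n r₀ x η
          have h2 := Qt_nonneg39 β h n r₀ x η'
          rw [abs_le]
          constructor <;> linarith
    _ = 2 := by
        rw [Finset.sum_add_distrib, qs66 hd β h hr, qs66 hd β h hr]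
        norm_num

lemma tv_bd66 [IsProbabilityMeasure ρ] (hb : HB ρ b) (hd : 0 < d) (β : ℝ) (h : Vec d)
    {n r₀ : ℕ} (hr : r₀ ≤ n) (t J : ℕ) (η : Env d) : |tv66 ρ β b h n t J r₀ η| ≤ 2 := by
  have := Eq41.rb_prob hb
  have h1 : ∀ ξ : Env d, |(∑ x ∈ boxF d r₀,
      |Qt β h n r₀ x η - Qt β h n r₀ x (mxR b t J η ξ)|)| ≤ 2 := fun ξ => by
    rw [abs_of_nonneg (Finset.sum_nonneg fun x _ => abs_nonneg _)]
    exact tvb66 hd β h hr _ _
  unfold tv66
  have h2 := norm_integral_le_of_norm_le_const (μ := law d (rb ρ b)) (C := 2)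
    (f := fun ξ : Env d => ∑ x ∈ boxF d r₀,
      |Qt β h n r₀ x η - Qt β h n r₀ x (mxR b t J η ξ)|)
    (Eventually.of_forall fun ξ => by
      rw [Real.norm_eq_abs]
      exact h1 ξ)
  rw [Real.norm_eq_abs] at h2
  simpa using h2

open Classical in
/-- The mass of the far pairs. -/
noncomputable def fp66 (β : ℝ) (h : Vec d) (n r₀ D : ℕ) (η : Env d) : ℝ :=
  ∑ x ∈ boxF d r₀, ∑ y ∈ boxF d r₀, (if D < W_7d29a1_V.l1 (x - y) then
        Qt β h n r₀ x η * Qt β h n r₀ y η else 0)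

lemma fp_meas66 (β : ℝ) (h : Vec d) (n r₀ D : ℕ) : Measurable (fp66 β h n r₀ D) := by
  classical
  unfold fp66
  refine Finset.measurable_sum _ fun x _ => Finset.measurable_sum _ fun y _ => ?_
  by_cases hp : D < W_7d29a1_V.l1 (x - y)
  · simp only [if_pos hp]
    exact (measurable_Qt39 β h n r₀ x).mul (measurable_Qt39 β h n r₀ y)
  · simp only [if_neg hp]
    exact measurable_const

lemma fp_nn66 (β : ℝ) (h : Vec d) (n r₀ D : ℕ) (η : Env d) : 0 ≤ fp66 β h n r₀ D η := by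
  unfold fp66
  refine Finset.sum_nonneg fun x _ => Finset.sum_nonneg fun y _ => ?_
  split_ifs
  · exact mul_nonneg (Qt_nonneg39 _ _ _ _ _ _) (Qt_nonneg39 _ _ _ _ _ _)
  · exact le_rfl

lemma fp_le66 (hd : 0 < d) (β : ℝ) (h : Vec d) {n r₀ : ℕ} (hr : r₀ ≤ n) (D : ℕ) (η : Env d) :
    fp66 β h n r₀ D η ≤ 1 := by
  unfold fp66
  calc _ ≤ ∑ x ∈ boxF d r₀, ∑ y ∈ boxF d r₀, Qt β h n r₀ x η * Qt β h n r₀ y η :=
        Finset.sum_le_sum fun x _ => Finset.sum_le_sum fun y _ => by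
          split_ifs
          · exact le_rfl
          · exact mul_nonneg (Qt_nonneg39 _ _ _ _ _ _) (Qt_nonneg39 _ _ _ _ _ _)
    _ = 1 := by
        rw [← Finset.sum_mul_sum, qs66 hd β h hr, mul_one]

/-- The indicator of the localised block. -/
lemma ev_meas66 [IsProbabilityMeasure ρ] (hb : HB ρ b) (β : ℝ) (h : Vec d) (n t J : ℕ) (G : ℝ) :
    MeasurableSet {η : Env d | -G < X β h η n - Real.log (zB ρ β b h n t J η)} := by
  have := Eq41.rb_prob hb
  exact measurableSet_lt measurable_const ((LoP41.X_meas β h n).sub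
    (Real.measurable_log.comp (LoP41.zB_meas β h n t J)))

/-- The total mass of the classes. -/
lemma tot66 (β : ℝ) (h : Vec d) (b : ℝ) {n t J r₀ : ℕ} (hr : r₀ ≤ t) (hn : t + J ≤ n)
    (η ξ : Env d) :
    toF (boxF d r₀) (fun x => PP β h η r₀ x) (fut66 β h b t J r₀ (n - r₀) η) ξ =
      Z β h (mxR b t J η ξ) n := by
  obtain ⟨k, rfl⟩ := Nat.exists_eq_add_of_le (show r₀ ≤ n by omega)
  unfold toF fut66
  rw [Nat.add_sub_cancel_left, S98.Z_split]
  exact Finset.sum_congr rfl fun x _ => by rw [head66 β h b hr η ξ x]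

lemma pr66 (β : ℝ) (h : Vec d) (b : ℝ) {n t J r₀ : ℕ} (hr : r₀ ≤ t) (hn : t + J ≤ n)
    (η ξ : Env d) (x : Site d) :
    prF (boxF d r₀) (fun x => PP β h η r₀ x) (fut66 β h b t J r₀ (n - r₀) η) ξ x =
      Qt β h n r₀ x (mxR b t J η ξ) := by
  unfold prF
  rw [tot66 β h b hr hn]
  unfold Qt fut66
  rw [head66 β h b hr η ξ x]

/-- The frozen environment. -/
lemma far66 [IsProbabilityMeasure ρ] (hF : AbsF) (hd : 0 < d) (hb : HB ρ b) (β : ℝ)
    (h : Vec d) {n t J r₀ D : ℕ} (G : ℝ) (hr : r₀ ≤ t) (hn : t + J ≤ n)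
    (hD : 2 * (t + J - r₀) ≤ D) (η : Env d) :
    ∫ ξ, fp66 β h n r₀ D (mxR b t J η ξ) ∂(law d (rb ρ b)) ≤
      80 * Real.exp (-G) + 68 * Real.exp (J * Bc β b) ^ 12 *
        (∫ ξ, tv66 ρ β b h n t J r₀ (mxR b t J η ξ) ∂(law d (rb ρ b))) +
      2 * ∫ ξ, ({η : Env d | -G < X β h η n - Real.log (zB ρ β b h n t J η)}.indicator
        (fun _ => (1 : ℝ))) (mxR b t J η ξ) ∂(law d (rb ρ b)) := by
  have := Eq41.rb_prob hb
  have hb0 : 0 ≤ b := hb.b0.le
  have hQ0 : 0 < ∑ x ∈ boxF d r₀, PP β h η r₀ x := by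
    have h1 := S98.Z_split β h η r₀ 0
    have h2 : ∀ x ∈ boxF d r₀, PP β h η r₀ x * Z β h (sh r₀ x η) 0 = PP β h η r₀ x := by
      intro x _
      rw [Z_zero, mul_one]
    rw [Finset.sum_congr rfl h2] at h1
    rw [← h1]
    exact Z_pos hd β h _ _
  have key := hF (Env d) (Site d) (boxF d r₀) (law d (rb ρ b)) (fun x => PP β h η r₀ x)
    (fut66 β h b t J r₀ (n - r₀) η) (fun x y => D < W_7d29a1_V.l1 (x - y))
    (Real.exp (J * Bc β b)) G (by
      have := EqB41.B0 hb0 β J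
      exact Real.one_le_exp this)
    (fun x _ => PP_nonneg β h η r₀ x) hQ0
    (fun x _ => fut_meas66 β h b t J r₀ (n - r₀) η x)
    (fun x _ w => fut_pos66 hd β h b t J r₀ (n - r₀) η x w)
    (fun x _ w w' => fut_le66 hb0 β h t J r₀ (n - r₀) η x w w')
    (fun x _ y _ hxy => ⟨by
      have h1 : W_7d29a1_V.l1 (y - x) = W_7d29a1_V.l1 (x - y) := by
        unfold W_7d29a1_V.l1
        refine Finset.sum_congr rfl fun i _ => ?_
        rw [Pi.sub_apply, Pi.sub_apply, ← Int.natAbs_neg, neg_sub]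
      show D < W_7d29a1_V.l1 (y - x)
      rw [h1]
      exact hxy, fut_indep66 hb β h (n - r₀) hr hD η hxy⟩)
  simp only [pr66 β h b hr hn, tot66 β h b hr hn] at key
  have e1 : ∀ ξ : Env d, tv66 ρ β b h n t J r₀ (mxR b t J η ξ) =
      ∫ ξ', ∑ x ∈ boxF d r₀, |Qt β h n r₀ x (mxR b t J η ξ) - Qt β h n r₀ x (mxR b t J η ξ')|
        ∂(law d (rb ρ b)) := by
    intro ξ
    unfold tv66
    simp only [mxR_mxR66 hb0]
  have e2 : (∫ ξ, ({η : Env d | -G < X β h η n - Real.log (zB ρ β b h n t J η)}.indicator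
        (fun _ => (1 : ℝ))) (mxR b t J η ξ) ∂(law d (rb ρ b))) =
      (law d (rb ρ b)).real {ξ | Real.exp (-G) * (∫ ξ', Z β h (mxR b t J η ξ') n
        ∂(law d (rb ρ b))) < Z β h (mxR b t J η ξ) n} := by
    have h1 : {ξ : Env d | Real.exp (-G) * (∫ ξ', Z β h (mxR b t J η ξ') n
        ∂(law d (rb ρ b))) < Z β h (mxR b t J η ξ) n} = (fun ξ => mxR b t J η ξ) ⁻¹'
        {η : Env d | -G < X β h η n - Real.log (zB ρ β b h n t J η)} := by
      ext ξ
      have hz : zB ρ β b h n t J (mxR b t J η ξ) =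
          ∫ ξ', Z β h (mxR b t J η ξ') n ∂(law d (rb ρ b)) := by
        unfold zB
        simp only [mxR_mxR66 hb0]
      have hzp : 0 < ∫ ξ', Z β h (mxR b t J η ξ') n ∂(law d (rb ρ b)) := by
        have h5 : ∀ ξ' : Env d, Z β h (mxR b t J η ξ) n ≤
            Real.exp (J * Bc β b) * Z β h (mxR b t J η ξ') n := by
          intro ξ'
          have h6 := tot66 β h b hr hn η ξ
          have h7 := tot66 β h b hr hn η ξ'
          rw [← h6, ← h7]
          unfold toF
          rw [Finset.mul_sum]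
          refine Finset.sum_le_sum fun x _ => ?_
          have h8 := fut_le66 hb0 β h t J r₀ (n - r₀) η x ξ ξ'
          have h9 := PP_nonneg β h η r₀ x
          nlinarith [mul_le_mul_of_nonneg_left h8 h9]
        have h6 : ∀ ξ' : Env d, Real.exp (-(J * Bc β b)) * Z β h (mxR b t J η ξ) n ≤
            Z β h (mxR b t J η ξ') n := by
          intro ξ'
          have h7 := mul_le_mul_of_nonneg_left (h5 ξ') (Real.exp_pos (-(J * Bc β b))).le
          rw [← mul_assoc, ← Real.exp_add, neg_add_cancel, Real.exp_zero, one_mul] at h7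
          exact h7
        have h7 : Integrable (fun ξ' : Env d => Z β h (mxR b t J η ξ') n)
            (law d (rb ρ b)) := by
          refine fb66 (C := Real.exp (J * Bc β b) * Z β h (mxR b t J η ξ) n)
            ((measurable_Z β h n).comp (EqB41.measurable_mxR b t J η)) fun ξ' => ?_
          rw [abs_of_pos (Z_pos hd β h _ _)]
          have h6 := tot66 β h b hr hn η ξ
          have h7 := tot66 β h b hr hn η ξ'
          rw [← h6, ← h7]
          unfold toF
          rw [Finset.mul_sum]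
          refine Finset.sum_le_sum fun x _ => ?_
          have h8 := fut_le66 hb0 β h t J r₀ (n - r₀) η x ξ' ξ
          have h9 := PP_nonneg β h η r₀ x
          nlinarith [mul_le_mul_of_nonneg_left h8 h9]
        have h8 := integral_mono (integrable_const _) h7 h6
        rw [integral_const, probReal_univ, one_smul] at h8
        exact (mul_pos (Real.exp_pos _) (Z_pos hd β h _ _)).trans_le h8
      rw [Set.mem_preimage, Set.mem_ofPred_eq, Set.mem_ofPred_eq, hz]
      have hZ := Z_pos hd β h (mxR b t J η ξ) n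
      unfold X
      rw [← Real.log_lt_log_iff (mul_pos (Real.exp_pos _) hzp) hZ,
        Real.log_mul (Real.exp_pos _).ne' hzp.ne', Real.log_exp]
      constructor <;> intro h <;> linarith
    have h2 : MeasurableSet ((fun ξ => mxR b t J η ξ) ⁻¹'
        {η : Env d | -G < X β h η n - Real.log (zB ρ β b h n t J η)}) :=
      (EqB41.measurable_mxR b t J η) (ev_meas66 hb β h n t J G)
    rw [h1, ← integral_indicator_one h2]
    rfl
  rw [integral_congr_ae (Eventually.of_forall e1), e2]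
  exact key

/-- Leaf E. -/
theorem farP66 [IsProbabilityMeasure ρ] (hF : AbsF) (hd : 0 < d) (β : ℝ) (hb : HB ρ b) :
    FarP d ρ β b := by
  classical
  intro h n t J r₀ D G hr hn hD
  have := Eq41.rb_prob hb
  have hrn : r₀ ≤ n := by omega
  have hm := ev_meas66 (d := d) hb β h n t J G
  have f1 : ∀ η : Env d, |fp66 β h n r₀ D η| ≤ 1 := fun η => by
    rw [abs_of_nonneg (fp_nn66 _ _ _ _ _ _)]
    exact fp_le66 hd β h hrn D η
  have f3 : ∀ η : Env d, |({η : Env d | -G < X β h η n - Real.log (zB ρ β b h n t J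
      η)}.indicator (fun _ => (1 : ℝ))) η| ≤ 1 := fun η => by
    by_cases hη : η ∈ {η : Env d | -G < X β h η n - Real.log (zB ρ β b h n t J η)}
    · rw [Set.indicator_of_mem hη]
      simp
    · rw [Set.indicator_of_notMem hη]
      simp
  have hm3 : Measurable ({η : Env d | -G < X β h η n - Real.log (zB ρ β b h n t J
      η)}.indicator (fun _ => (1 : ℝ))) := measurable_const.indicator hm
  have g1 := int_mix66 hb t J (fp_meas66 β h n r₀ D) f1
  have g2 := int_mix66 hb t J (tv_meas66 hb β h n t J r₀) (tv_bd66 hb hd β h hrn t J)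
  have g3 := int_mix66 hb t J hm3 f3
  have i1 := integ_mix66 hb t J (fp_meas66 β h n r₀ D) f1
  have i2 := integ_mix66 hb t J (tv_meas66 hb β h n t J r₀) (tv_bd66 hb hd β h hrn t J)
  have i3 := integ_mix66 hb t J hm3 f3
  have key := integral_mono i1 (((integrable_const (80 * Real.exp (-G))).add
    (i2.const_mul (68 * Real.exp (J * Bc β b) ^ 12))).add (i3.const_mul 2))
    fun η => far66 hF hd hb β h G hr hn hD η
  have e4 : ∫ η, ({η : Env d | -G < X β h η n - Real.log (zB ρ β b h n t J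
      η)}.indicator (fun _ => (1 : ℝ))) η ∂(law d ρ) =
      (law d ρ).real {η | -G < X β h η n - Real.log (zB ρ β b h n t J η)} :=
    integral_indicator_one hm
  have e5 : (∫ η, (80 * Real.exp (-G) + 68 * Real.exp (J * Bc β b) ^ 12 *
        (∫ ξ, tv66 ρ β b h n t J r₀ (mxR b t J η ξ) ∂(law d (rb ρ b))) +
      2 * ∫ ξ, ({η : Env d | -G < X β h η n - Real.log (zB ρ β b h n t J η)}.indicator
        (fun _ => (1 : ℝ))) (mxR b t J η ξ) ∂(law d (rb ρ b))) ∂(law d ρ)) =
      80 * Real.exp (-G) + 68 * Real.exp (J * Bc β b) ^ 12 *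
        (∫ η, tv66 ρ β b h n t J r₀ η ∂(law d ρ)) +
      2 * (law d ρ).real {η | -G < X β h η n - Real.log (zB ρ β b h n t J η)} := by
    have a1 := integral_add ((integrable_const (μ := law d ρ) (80 * Real.exp (-G))).add
      (i2.const_mul (68 * Real.exp (J * Bc β b) ^ 12))) (i3.const_mul 2)
    have a2 := integral_add (integrable_const (μ := law d ρ) (80 * Real.exp (-G)))
      (i2.const_mul (68 * Real.exp (J * Bc β b) ^ 12))
    have a3 : ∫ _ : Env d, 80 * Real.exp (-G) ∂(law d ρ) = 80 * Real.exp (-G) := by simp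
    refine a1.trans ?_
    refine (congrArg₂ (fun x y => x + y) a2 (integral_const_mul 2 _)).trans ?_
    show _ + _ + _ = _
    rw [a3, integral_const_mul, g2, g3, e4]
  have key' : (∫ η, ∫ ξ, fp66 β h n r₀ D (mxR b t J η ξ) ∂(law d (rb ρ b)) ∂(law d ρ)) ≤
      80 * Real.exp (-G) + 68 * Real.exp (J * Bc β b) ^ 12 *
        (∫ η, tv66 ρ β b h n t J r₀ η ∂(law d ρ)) +
      2 * (law d ρ).real {η | -G < X β h η n - Real.log (zB ρ β b h n t J η)} := by
    rw [← e5]
    exact key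
  rw [g1] at key'
  exact key'

end Pool.Agent.W_7d29a1_LOC

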