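import Pool.Agent.W_7d29a1_LOC.ZlowR86

/-!
Leaf C of Theorem LOC at force zero from its four parts: the blocks are localised in probability.
-/

set_option autoImplicit false

namespace Pool.Agent.W_7d29a1_LOC

open MeasureTheory ProbabilityTheory Filter Topology Pool.Agent.W_MP_7d29a1_pr
  Pool.Agent.W_7d29a1_h46 Pool.Agent.W_7d29a1_h46u Pool.Agent.W_7d29a1_D2.B35
  Pool.Agent.W_7d29a1_Q29 Pool.Agent.W_7d29a1_NV Pool.Agent.W_7d29a1_AC

open Classical in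
/-- **Leaf C of Theorem LOC at force zero** from `ZlowR`, `Med0`, `Up0`. -/
theorem locH86 {d : ℕ} {ρ : Measure ℝ} [IsProbabilityMeasure ρ] {β : ℝ} (hZ : ZlowR d ρ β)
    (hM : Med0 d ρ β) (hU : Up0 d ρ β) : LocH d ρ β 0 := by
  intro g κ hg hκ hgap
  have hϑ0 : 0 < min (κ / 3) (g / 16) := lt_min (by positivity) (by positivity)
  obtain ⟨b₃, hb₃⟩ := hZ 0 (min (κ / 3) (g / 16)) hϑ0
  obtain ⟨J₁, hJ₁⟩ := hM (min (κ / 3) (g / 16)) hϑ0
  obtain ⟨J₂, hJ₂⟩ := hU (min (κ / 3) (g / 16)) hϑ0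
  set ϑ : ℝ := min (κ / 3) (g / 16) with hϑ
  have hϑ1 : ϑ ≤ κ / 3 := min_le_left _ _
  have hϑ2 : ϑ ≤ g / 16 := min_le_right _ _
  refine ⟨b₃, fun b hb => ⟨max (max J₁ J₂) (max 1 ⌈4 / g⌉₊), fun J hJ hJe => ?_⟩⟩
  have hJa : J₁ ≤ J := (le_max_left _ _).trans ((le_max_left _ _).trans hJ)
  have hJb : J₂ ≤ J := (le_max_right _ _).trans ((le_max_left _ _).trans hJ)
  have hJc : 1 ≤ J := (le_max_left _ _).trans ((le_max_right _ _).trans hJ)
  have hJd : ⌈4 / g⌉₊ ≤ J := (le_max_right _ _).trans ((le_max_right _ _).trans hJ)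
  have hJ0 : (0 : ℝ) < J := by exact_mod_cast hJc
  have hJ2 : 1 ≤ g / 4 * J := by
    have h1 : 4 / g ≤ J := (Nat.le_ceil _).trans (by exact_mod_cast hJd)
    rw [div_le_iff₀ hg] at h1
    linarith
  obtain ⟨N₀, hN₀⟩ := hJ₂ J hJb hJe
  refine ⟨N₀, fun N hN => ?_⟩
  have hcard := hN₀ N hN
  have hsubF : ((Finset.Ico N (2 * N)).filter fun n => ∃ t : ℕ, t ≤ n ∧
      ¬ (law d ρ).real {η | -(g / 2 * J) < X β (0 : Vec d) η (n + J) -
        Real.log (zB ρ β b 0 (n + J) t J η)} ≤ κ) ⊆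
      ((Finset.Ico N (2 * N)).filter fun n => ∃ t : ℕ, t ≤ n ∧
        ¬ (law d ρ).real {η | X β 0 (remE J t 0 η) n + (lam ρ β (0 : Vec d) + ϑ) * J <
          X β 0 η (n + J)} ≤ ϑ) := by
    intro n hn
    rw [Finset.mem_filter] at hn ⊢
    refine ⟨hn.1, ?_⟩
    obtain ⟨t, ht, hbad⟩ := hn.2
    refine ⟨t, ht, fun hup => hbad ?_⟩
    have hm := hJ₁ J hJa hJe n t ht
    have hz := hb₃ b hb J t n (fun η => X β 0 (remE J t 0 η) n) (ϑ * J) hJc ht
    have hsub : {η | -(g / 2 * J) < X β (0 : Vec d) η (n + J) -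
        Real.log (zB ρ β b 0 (n + J) t J η)} ⊆
        ({η | X β 0 (remE J t 0 η) n + (lam ρ β (0 : Vec d) + ϑ) * J < X β 0 η (n + J)} ∪
        {η | (∑ z ∈ boxF d J, if |X β 0 (remE J t z η) n - X β 0 (remE J t 0 η) n| ≤
          ϑ * J then PP β 0 (fun _ => 0) J z else 0) < Phi (0 : Vec d) ^ J / 2}) ∪
        {η | Phi (0 : Vec d) ^ J / 2 ≤
          (∑ z ∈ boxF d J, if |X β 0 (remE J t z η) n - X β 0 (remE J t 0 η) n| ≤ ϑ * J then
            PP β 0 (fun _ => 0) J z else 0) ∧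
          Real.log (zB ρ β b 0 (n + J) t J η) < X β 0 (remE J t 0 η) n - ϑ * J +
            J * (Real.log (Phi (0 : Vec d)) + Real.log (∫ x, Real.exp (β * x) ∂ρ)) -
            ϑ * J - 1} := by
      intro η hη
      have hl : -(g / 2 * J) < X β (0 : Vec d) η (n + J) -
        Real.log (zB ρ β b 0 (n + J) t J η) := hη
      by_cases h1 : X β 0 (remE J t 0 η) n + (lam ρ β (0 : Vec d) + ϑ) * J < X β 0 η (n + J)
      · exact Or.inl (Or.inl h1)
      · by_cases h2 : (∑ z ∈ boxF d J, if |X β 0 (remE J t z η) n - X β 0 (remE J t 0 η) n| ≤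
            ϑ * J then PP β 0 (fun _ => 0) J z else 0) < Phi (0 : Vec d) ^ J / 2
        · exact Or.inl (Or.inr h2)
        · refine Or.inr ⟨not_lt.1 h2, ?_⟩
          push Not at h1
          have h4 := mul_le_mul_of_nonneg_left hgap hJ0.le
          have h5 := mul_le_mul_of_nonneg_right hϑ2 hJ0.le
          nlinarith
    have hmm := measureReal_mono (μ := law d ρ) hsub
    refine hmm.trans ((measureReal_union_le _ _).trans ?_)
    have h6 := measureReal_union_le (μ := law d ρ)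
      {η | X β 0 (remE J t 0 η) n + (lam ρ β (0 : Vec d) + ϑ) * J < X β 0 η (n + J)}
      {η | (∑ z ∈ boxF d J, if |X β 0 (remE J t z η) n - X β 0 (remE J t 0 η) n| ≤
        ϑ * J then PP β 0 (fun _ => 0) J z else 0) < Phi (0 : Vec d) ^ J / 2}
    linarith
  calc (((Finset.Ico N (2 * N)).filter fun n => ∃ t : ℕ, t ≤ n ∧
      ¬ (law d ρ).real {η | -(g / 2 * J) < X β (0 : Vec d) η (n + J) -
        Real.log (zB ρ β b 0 (n + J) t J η)} ≤ κ).card : ℝ) ≤
      (((Finset.Ico N (2 * N)).filter fun n => ∃ t : ℕ, t ≤ n ∧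
        ¬ (law d ρ).real {η | X β 0 (remE J t 0 η) n + (lam ρ β (0 : Vec d) + ϑ) * J <
          X β 0 η (n + J)} ≤ ϑ).card : ℝ) := by exact_mod_cast Finset.card_le_card hsubF
    _ ≤ ϑ * N := hcard
    _ ≤ κ * N := mul_le_mul_of_nonneg_right (by linarith) (Nat.cast_nonneg _)

end Pool.Agent.W_7d29a1_LOC
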