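import Pool.Agent.W_7d29a1_LOC.DefsL99
import Pool.Agent.W_7d29a1_SDP.LuckU21
import Pool.Agent.W_7d29a1_h3.SymA

/-!
Leaf A1: at force zero the displacement `0` is typical and lucky.
-/

namespace Pool.Agent.W_7d29a1_LOC

open MeasureTheory ProbabilityTheory Filter Topology Pool.Agent.W_MP_7d29a1_pr
  Pool.Agent.W_7d29a1_h46 Pool.Agent.W_7d29a1_h46u Pool.Agent.W_7d29a1_D2.B35
  Pool.Agent.W_7d29a1_Q29 Pool.Agent.W_7d29a1_NV Pool.Agent.W_7d29a1_P89
  Pool.Agent.W_7d29a1_SDP Pool.Agent.W_7d29a1_P78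

variable {d : ℕ} {ρ : Measure ℝ} [IsProbabilityMeasure ρ]

/-- The reflected environment. -/
def rfl21 (η : Env d) : Env d := W_7d29a1_h3.eAct (Equiv.refl (Fin d)) (fun _ => false) η

lemma sAct21 (x : Site d) : W_7d29a1_h3.sAct (Equiv.refl (Fin d)) (fun _ => false) x = -x := by
  funext j
  simp [W_7d29a1_h3.sAct]

lemma PP_rfl21 (β : ℝ) (η : Env d) (k : ℕ) (y : Site d) :
    PP β 0 (rfl21 η) k y = PP β 0 η k (-y) := by
  unfold PP rfl21
  have h0 : W_7d29a1_h3.vAct (Equiv.refl (Fin d)) (fun _ => false) (0 : Vec d) = 0 := by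
    ext j
    simp [W_7d29a1_h3.vAct]
  rw [W_7d29a1_h3.SymA_ZT (Equiv.refl (Fin d)) (fun _ => false) 0 η
    {s : Fin k → Step d | pos s k = y} {s : Fin k → Step d | pos s k = -y}, h0]
  intro s
  change pos s k = y ↔
    pos (fun j => W_7d29a1_h3.SymA_st (Equiv.refl (Fin d)) (fun _ => false) (s j)) k = -y
  rw [W_7d29a1_h3.SymA_pos, sAct21]
  exact neg_inj.symm

lemma mp_rfl21 : MeasurePreserving (rfl21 : Env d → Env d) (law d ρ) (law d ρ) :=
  W_7d29a1_h3.mp_eAct (Equiv.refl (Fin d)) (fun _ => false)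

/-- The opposite displacement is as lucky. -/
lemma lk_neg21 (Lam β a : ℝ) (k : ℕ) (y : Site d) (u : ℝ) :
    (law d ρ).real {η | Lk (⟨Lam, β, 0, a⟩ : Prm d) k (-y) u η} =
      (law d ρ).real {η | Lk (⟨Lam, β, 0, a⟩ : Prm d) k y u η} := by
  have h1 : {η : Env d | Lk (⟨Lam, β, 0, a⟩ : Prm d) k (-y) u η} =
      rfl21 ⁻¹' {η : Env d | Lk (⟨Lam, β, 0, a⟩ : Prm d) k y u η} := by
    ext η
    change Real.exp u ≤ W (⟨Lam, β, 0, a⟩ : Prm d) η k (-y) ↔
      Real.exp u ≤ W (⟨Lam, β, 0, a⟩ : Prm d) (rfl21 η) k y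
    unfold W
    simp only
    rw [PP_rfl21]
  unfold Measure.real
  rw [h1, mp_rfl21.measure_preimage (measurableSet_Lk78 _ _ _ _).nullMeasurableSet]

/-- **Leaf A1.** -/
theorem luck0_21 (hd : 0 < d) (hρ : EM ρ) {β : ℝ} (hR : Ret0 d ρ β) : Luck0 d ρ β := by
  intro hV ε δ hε hδ
  obtain ⟨P, hPd⟩ : ∃ P : Prm d, P = ⟨lam ρ β (0 : Vec d), β, 0, 1⟩ := ⟨_, rfl⟩
  have hPP := Pool.Agent.W_7d29a1_P79.hP79 hd hρ hV
  rw [← hPd] at hPP
  obtain ⟨θ, hθd⟩ : ∃ θ : ℝ, θ = min (ε / 8) 1 := ⟨_, rfl⟩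
  have hθ0 : 0 < θ := by rw [hθd]; exact lt_min (by positivity) one_pos
  have hθ1 : θ ≤ ε / 8 := by rw [hθd]; exact min_le_left _ _
  have hθ2 : θ ≤ 1 := by rw [hθd]; exact min_le_right _ _
  obtain ⟨k, y, u, hk1, hu1, hp⟩ := Pool.Agent.W_7d29a1_P79.pair79 hd hρ P hPP hθ0 hθ2
  have hu0 : 0 < u := by linarith
  have hk0 : (1 : ℝ) ≤ k := by exact_mod_cast hk1
  obtain ⟨t₀, ht₀⟩ := hR (δ / (4 * k)) (by positivity)
  obtain ⟨b₁, hb₁⟩ : ∃ b₁ : ℝ, b₁ = 1 + t₀ * u + 4 * (θ * u) / ε := ⟨_, rfl⟩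
  refine ⟨4 * k, b₁, by positivity, ?_, fun b hb => ?_⟩
  · rw [hb₁]
    have h1 : 0 ≤ (t₀ : ℝ) * u := by positivity
    have h2 : 0 ≤ 4 * (θ * u) / ε := by positivity
    linarith
  have g1 : 0 ≤ (t₀ : ℝ) * u := by positivity
  have g2 : 0 ≤ 4 * (θ * u) / ε := by positivity
  rw [hb₁] at hb
  have hb1 : 1 ≤ b := by linarith
  have hb0 : 0 < b := by linarith
  have hbt : (t₀ : ℝ) * u ≤ b := by linarith
  have hbε : θ * u ≤ ε * b / 4 := by
    have h1 : 4 * (θ * u) / ε ≤ b := by linarith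
    rw [div_le_iff₀ hε] at h1
    linarith
  clear hb hb₁ g1 g2
  obtain ⟨r, hr⟩ : ∃ r : ℕ, r = ⌈b / u⌉₊ := ⟨_, rfl⟩
  have hru1 : b / u ≤ r := by rw [hr]; exact Nat.le_ceil _
  have hru2 : (r : ℝ) < b / u + 1 := by
    rw [hr]
    exact Nat.ceil_lt_add_one (by positivity)
  have hU1 : b ≤ r * u := by
    rw [div_le_iff₀ hu0] at hru1
    exact hru1
  have hU2 : (r : ℝ) * u ≤ b + u := by
    have := mul_le_mul_of_nonneg_right hru2.le hu0.le
    rw [add_mul, div_mul_cancel₀ _ hu0.ne', one_mul] at this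
    exact this
  have hr2 : (r : ℝ) ≤ 2 * b := by
    have h1 : b / u ≤ b := div_le_self hb0.le hu1
    linarith
  have hr0 : 0 < r := by
    have h1 : 0 < b / u := by positivity
    have h2 : (0 : ℝ) < r := by linarith
    exact_mod_cast h2
  have htr : t₀ ≤ r := by
    have h1 : (t₀ : ℝ) * u ≤ r * u := hbt.trans hU1
    exact_mod_cast le_of_mul_le_mul_right h1 hu0
  obtain ⟨m, hm⟩ : ∃ m : ℕ, m = r * k + r * k := ⟨_, rfl⟩
  have hmR : (m : ℝ) = 2 * (r * k) := by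
    rw [hm]
    push_cast
    ring
  have hmE : Even m := ⟨r * k, hm⟩
  have hrk : r ≤ r * k := Nat.le_mul_of_pos_right r hk1
  have hm1 : 1 ≤ m := by omega
  have hmt : t₀ ≤ m := by omega
  have hmC : (m : ℝ) ≤ 4 * k * b := by
    rw [hmR]
    have h1 : (r : ℝ) * k ≤ 2 * b * k := mul_le_mul_of_nonneg_right hr2 (by linarith)
    linarith
  have hprob : Real.exp (-(ε * b)) ≤ (law d ρ).real {ξ : Env d | Lk P m 0 (2 * b) ξ} := by
    have h1 : Real.exp (-(θ * u * r)) ≤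
        (law d ρ).real {η : Env d | Lk P (r * k) (r • y) ((r : ℝ) * u) η} := by
      refine le_trans ?_ (concat78 P k y u r)
      refine le_trans (le_of_eq ?_) (pow_le_pow_left₀ (Real.exp_pos _).le hp r)
      rw [← Real.exp_nat_mul]
      congr 1
      ring
    have h1' : Real.exp (-(θ * u * r)) ≤
        (law d ρ).real {η : Env d | Lk P (r * k) (-(r • y)) ((r : ℝ) * u) η} := by
      rw [hPd] at h1 ⊢
      rw [lk_neg21]
      exact h1
    have h2 : Real.exp (-(θ * u * r)) * Real.exp (-(θ * u * r)) ≤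
        (law d ρ).real {ξ : Env d | Lk P m 0 ((r : ℝ) * u + (r : ℝ) * u) ξ} := by
      have h3 := concat21 (ρ := ρ) P (r * k) (r * k) (r • y) (-(r • y)) ((r : ℝ) * u)
        ((r : ℝ) * u)
      rw [add_neg_cancel, ← hm] at h3
      exact le_trans (mul_le_mul h1 h1' (Real.exp_pos _).le measureReal_nonneg) h3
    have h3 : (law d ρ).real {ξ : Env d | Lk P m 0 ((r : ℝ) * u + (r : ℝ) * u) ξ} ≤
        (law d ρ).real {ξ : Env d | Lk P m 0 (2 * b) ξ} := by
      refine measureReal_mono fun ξ hξ => ?_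
      have h4 : Real.exp ((r : ℝ) * u + (r : ℝ) * u) ≤ W P ξ m 0 := hξ
      exact (Real.exp_le_exp.2 (by linarith)).trans h4
    refine le_trans ?_ (h2.trans h3)
    rw [← Real.exp_add]
    refine Real.exp_le_exp.2 ?_
    have h7 : θ * u * r ≤ θ * (b + u) := by
      calc θ * u * r = θ * (r * u) := by ring
        _ ≤ θ * (b + u) := mul_le_mul_of_nonneg_left hU2 hθ0.le
    have h8 : θ * (b + u) = θ * b + θ * u := by ring
    have h9 : θ * b ≤ ε / 8 * b := mul_le_mul_of_nonneg_right hθ1 hb0.le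
    have h10 : 0 < ε * b := by positivity
    linarith
  have hRch : W_7d29a1_V.Rch m (0 : Site d) := by
    by_contra hcon
    have h1 : {ξ : Env d | Lk P m 0 (2 * b) ξ} = ∅ := by
      refine Set.eq_empty_iff_forall_notMem.2 fun ξ hξ => ?_
      have h2 : Real.exp (2 * b) ≤ W P ξ m 0 := hξ
      unfold W at h2
      rw [hPd] at h2
      simp only at h2
      rw [W_7d29a1_V.R48.PP_eq_zero hcon, mul_zero] at h2
      exact absurd h2 (not_le.2 (Real.exp_pos _))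
    rw [h1] at hprob
    simp only [measureReal_empty] at hprob
    exact absurd hprob (not_le.2 (Real.exp_pos _))
  have hmean : ∫ η, max 0 (lam ρ β (0 : Vec d) * m - Real.log (PP β 0 η m 0)) ∂(law d ρ) ≤
      δ * b := by
    refine (ht₀ m hmt hmE).trans ?_
    have h1 : δ / (4 * k) * m ≤ δ / (4 * k) * (4 * k * b) :=
      mul_le_mul_of_nonneg_left hmC (by positivity)
    have h2 : δ / (4 * k) * (4 * k * b) = δ * b := by
      field_simp
    linarith
  rw [hPd] at hprob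
  exact ⟨m, 0, hm1, hmC, hRch, hmean, hprob⟩

end Pool.Agent.W_7d29a1_LOC
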