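import Pool.Agent.W_7d29a1_LOC.MainA86

/-!
Theorem LOC, the assembly: at most lengths two replicas stay at a bounded distance at all times.
-/

set_option autoImplicit false

namespace Pool.Agent.W_7d29a1_LOC

open MeasureTheory ProbabilityTheory Filter Topology Pool.Agent.W_MP_7d29a1_pr
  Pool.Agent.W_7d29a1_h46 Pool.Agent.W_7d29a1_h46u Pool.Agent.W_7d29a1_D2.B35
  Pool.Agent.W_7d29a1_Q29 Pool.Agent.W_7d29a1_NV Pool.Agent.W_7d29a1_AC
  Pool.Agent.W_7d29a1_LOC.Ma86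

open Classical in
/-- The bound at one length. -/
lemma one86 {d : ℕ} {ρ : Measure ℝ} [IsProbabilityMeasure ρ] {β b : ℝ} (hd : 0 < d)
    (hρ : EM ρ) (hb : HB ρ b) (hT : TvM d ρ β b) (hF : FarP d ρ β b) {h : Vec d}
    {J W n : ℕ} {κ g s ε δ b₀ Λ : ℝ} (hJ : 1 ≤ J) (hκ : 0 < κ) (hs : 0 ≤ s)
    (hexp : 80 * Real.exp (-(g / 2 * J)) ≤ κ / 4)
    (hsm : 68 * Real.exp (J * Bc β b) ^ 12 * (J * Real.sqrt (2 * s)) ≤ κ / 4)
    (hRow : ∀ (T : ℕ) (a M : ℝ), W ≤ T → T ≤ n → 0 ≤ M →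
      (∀ τ : ℕ, 1 ≤ τ → τ ≤ n →
        (law d ρ).real {η | η ∈ win β h n a (M + Λ) ∧ ¬ GoodN β h n τ b₀ ε η} ≤ δ) →
      ∃ t r₀ r₁ : ℕ, T ≤ r₀ + W ∧ r₀ ≤ t ∧ t + J ≤ r₁ ∧ r₁ ≤ T ∧
        ∀ l : ℕ, t < l → l ≤ t + J →
          ∫ η in win β h n a M, kapE ρ β b h n l r₀ r₁ η ∂(law d ρ) ≤ s)
    (hMul : ∀ τ : ℕ, τ ≤ n → (law d ρ).real {η | ¬ GoodN β h n τ b₀ ε η} ≤ δ)
    (hLoc : ∀ t : ℕ, t + J ≤ n → (law d ρ).real {η | -(g / 2 * J) < X β h η n -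
      Real.log (zB ρ β b h n t J η)} ≤ κ / 16) {T : ℕ} (hTn : T ≤ n) :
    ∫ η, pr2 β h n T (4 * W) η ∂(law d ρ) ≤ κ := by
  have hBc : 0 ≤ Bc β b := by
    unfold Bc
    have := hb.b0
    positivity
  by_cases hWT : W ≤ T
  · set K : ℝ := 68 * Real.exp (J * Bc β b) ^ 12 with hK
    have hK0 : 0 < K := by positivity
    obtain ⟨M, hM0, hM⟩ := win86 (ρ := ρ) hd hρ β h n (e := κ / (8 * K)) (by positivity)
    have hM' : 0 ≤ M + 4 * Bc β b * (J + 1) := by positivity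
    obtain ⟨t, r₀, r₁, h1, h2, h3, h4, h5⟩ := hRow T 0 (M + 4 * Bc β b * (J + 1)) hWT hTn hM'
      (fun τ _ hτ => (measureReal_mono (fun η hη => hη.2)).trans (hMul τ hτ))
    have hr₁ : r₁ ≤ n := h4.trans hTn
    have hr₀ : r₀ ≤ n := by omega
    have hA := hT h n t J r₀ r₁ hJ h2 h3 hr₁ 0 M s hM0 hs h5
    have hB := hF h n t J r₀ (2 * (t + J - r₀)) (g / 2 * J) h2 (h3.trans hr₁) le_rfl
    have hC := hLoc t (h3.trans hr₁)
    have hS := split86 (ρ := ρ) hd hb β h hr₀ t J M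
    have hA' : ∫ η in win β h n 0 M, ch86 ρ β b h n t J r₀ η ∂(law d ρ) ≤
        J * Real.sqrt (2 * s) := hA
    have hB' : ∫ η, pr2 β h n r₀ (2 * (t + J - r₀)) η ∂(law d ρ) ≤
        80 * Real.exp (-(g / 2 * J)) + K * (∫ η, ch86 ρ β b h n t J r₀ η ∂(law d ρ)) +
        2 * (law d ρ).real {η | -(g / 2 * J) < X β h η n - Real.log (zB ρ β b h n t J η)} := hB
    have hmono : ∫ η, pr2 β h n T (4 * W) η ∂(law d ρ) ≤
        ∫ η, pr2 β h n r₀ (2 * (t + J - r₀)) η ∂(law d ρ) :=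
      integral_mono (pr2_int hd β h hTn _) (pr2_int hd β h hr₀ _) fun η =>
        pr2_mono hd β h (by omega) hTn (by omega) η
    have hD : K * (∫ η, ch86 ρ β b h n t J r₀ η ∂(law d ρ)) ≤ κ / 4 + κ / 4 := by
      have h6 : K * (∫ η, ch86 ρ β b h n t J r₀ η ∂(law d ρ)) ≤
          K * (J * Real.sqrt (2 * s) + 2 * (κ / (8 * K))) :=
        mul_le_mul_of_nonneg_left (by linarith) hK0.le
      have h7 : K * (J * Real.sqrt (2 * s) + 2 * (κ / (8 * K))) =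
          K * (J * Real.sqrt (2 * s)) + κ / 4 := by
        field_simp
        ring
      linarith
    linarith
  · push Not at hWT
    have h1 : ∀ η : Env d, pr2 β h n T (4 * W) η ≤ 0 := fun η => by
      rw [← pr2_zero β h n η]
      exact pr2_mono hd β h (Nat.zero_le _) hTn (by omega) η
    exact (integral_nonpos h1).trans hκ.le

open Classical in
/-- **Theorem LOC at one tilt**, from its leaves. -/
theorem mainL86 {d : ℕ} {ρ : Measure ℝ} [IsProbabilityMeasure ρ] {β : ℝ} (hd : 0 < d)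
    (hρ : EM ρ) {h : Vec d} (hB : ∃ b₁ : ℝ, ∀ b : ℝ, b₁ ≤ b → HB ρ b) (hh : VSD ρ β h)
    (hM : MulH d ρ β h) (hR : ∀ b : ℝ, HB ρ b → RowsU d ρ β b)
    (hT : ∀ b : ℝ, HB ρ b → TvM d ρ β b) (hF : ∀ b : ℝ, HB ρ b → FarP d ρ β b)
    (hL : LocH d ρ β h) : MainL d ρ β h := by
  intro κ hκ
  set g : ℝ := Real.log (Phi h) + Real.log (∫ t, Real.exp (β * t) ∂ρ) - lam ρ β h with hg
  have hg0 : 0 < g := sub_pos.2 hh
  obtain ⟨b₁, hb₁⟩ := hB
  obtain ⟨b₃, hb₃⟩ := hL g (κ / 16) hg0 (by positivity) (by linarith)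
  set b := max b₁ b₃ with hbdef
  have hb : HB ρ b := hb₁ b (le_max_left _ _)
  obtain ⟨J₁, hJ₁⟩ := hb₃ b (le_max_right _ _)
  have hBc : 0 ≤ Bc β b := by
    unfold Bc
    have := hb.b0
    positivity
  set J : ℕ := 2 * (max J₁ ⌈640 / (κ * g)⌉₊ + 1) with hJdef
  have hJe : Even J := even_two_mul _
  have hJa : J₁ ≤ J := by
    have := le_max_left J₁ ⌈640 / (κ * g)⌉₊
    omega
  have hJb : ⌈640 / (κ * g)⌉₊ ≤ J := by
    have := le_max_right J₁ ⌈640 / (κ * g)⌉₊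
    omega
  have hJ1 : 1 ≤ J := by omega
  have hJ0 : (0 : ℝ) < J := by exact_mod_cast hJ1
  have hexp : 80 * Real.exp (-(g / 2 * J)) ≤ κ / 4 := by
    have h1 : 640 / (κ * g) ≤ J := (Nat.le_ceil _).trans (by exact_mod_cast hJb)
    rw [div_le_iff₀ (by positivity)] at h1
    have h2 : 320 / κ ≤ g / 2 * J := by
      rw [div_le_iff₀ hκ]
      linarith
    have h3 := Real.add_one_le_exp (g / 2 * J)
    have h4 : 320 / κ ≤ Real.exp (g / 2 * J) := by linarith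
    rw [Real.exp_neg, ← div_eq_mul_inv, div_le_iff₀ (Real.exp_pos _)]
    have h5 := mul_le_mul_of_nonneg_left h4 (show (0 : ℝ) ≤ κ / 4 by positivity)
    have h6 : κ / 4 * (320 / κ) = 80 := by
      field_simp
      norm_num
    linarith
  obtain ⟨N₁, hN₁⟩ := hJ₁ J hJa hJe
  set K : ℝ := 68 * Real.exp (J * Bc β b) ^ 12 with hK
  have hK0 : 0 < K := by positivity
  set x : ℝ := κ / (4 * (K * J)) with hx
  have hx0 : 0 < x := by positivity
  have hs : 0 < x ^ 2 / 2 := by positivity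
  have hsm : K * (J * Real.sqrt (2 * (x ^ 2 / 2))) ≤ κ / 4 := by
    rw [show 2 * (x ^ 2 / 2) = x ^ 2 by ring, Real.sqrt_sq hx0.le, hx]
    apply le_of_eq
    field_simp
  obtain ⟨ε, δ, b₂, hε, hδ, hRow⟩ := hR b hb J (x ^ 2 / 2) hJ1 hs
  have hδ' : 0 < min δ (κ / 4) := lt_min hδ (by positivity)
  obtain ⟨b₄, hb₄⟩ := hM ε (min δ (κ / 4)) hε hδ'
  obtain ⟨N₂, hN₂⟩ := hb₄ (max b₂ b₄) (le_max_right _ _)
  obtain ⟨W, Λ, hΛ, hW⟩ := hRow (max b₂ b₄) (le_max_left _ _)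
  refine ⟨4 * W, max N₂ (N₁ + J + ⌈2 * J / κ⌉₊), fun N hN => ?_⟩
  have hNa : N₂ ≤ N := (le_max_left _ _).trans hN
  have hNb : N₁ + J + ⌈2 * J / κ⌉₊ ≤ N := (le_max_right _ _).trans hN
  have hNc : J ≤ κ / 2 * N := by
    have h1 : 2 * J / κ ≤ N := (Nat.le_ceil _).trans (by exact_mod_cast (show
      ⌈2 * J / κ⌉₊ ≤ N by omega))
    rw [div_le_iff₀ hκ] at h1
    linarith
  have c1 := hN₂ N hNa
  have c2 := hN₁ (N - J) (by omega)
  -- the bad lengths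
  have hsub : ((Finset.Ico N (2 * N)).filter fun n => ∃ t : ℕ, t ≤ n ∧
      κ < ∫ η, pr2 β h n t (4 * W) η ∂(law d ρ)) ⊆
      (((Finset.Ico N (2 * N)).filter fun n => ∃ τ : ℕ, τ ≤ n ∧
        ¬ (law d ρ).real {η | ¬ GoodN β h n τ (max b₂ b₄) ε η} ≤ min δ (κ / 4)) ∪
      ((Finset.Ico (N - J) (2 * (N - J))).filter fun n => ∃ t : ℕ, t ≤ n ∧
        ¬ (law d ρ).real {η | -(g / 2 * J) < X β h η (n + J) -
          Real.log (zB ρ β b h (n + J) t J η)} ≤ κ / 16).image (fun n => n + J)) ∪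
      Finset.Ico (2 * N - J) (2 * N) := by
    intro n hn
    rw [Finset.mem_filter, Finset.mem_Ico] at hn
    obtain ⟨⟨hn1, hn2⟩, T, hTn, hbad⟩ := hn
    by_contra hcon
    rw [Finset.mem_union, Finset.mem_union, not_or, not_or] at hcon
    obtain ⟨⟨g1, g2⟩, g3⟩ := hcon
    rw [Finset.mem_Ico] at g3
    have hn3 : n < 2 * N - J := by
      by_contra h
      exact g3 ⟨not_lt.1 h, hn2⟩
    refine absurd hbad (not_lt.2 ?_)
    refine one86 (W := W) (Λ := Λ) (ε := ε) (δ := δ) (b₀ := max b₂ b₄) (s := x ^ 2 / 2)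
      (J := J) (g := g) (b := b) hd hρ hb (hT b hb) (hF b hb) hJ1 hκ hs.le hexp hsm
      (fun T a M h1 h2 h3 h4 => hW h n T a M h1 h2 h3 h4) ?_ ?_ hTn
    · intro τ hτ
      by_contra h
      refine g1 (Finset.mem_filter.2 ⟨Finset.mem_Ico.2 ⟨hn1, hn2⟩, τ, hτ, ?_⟩)
      exact fun h' => h (h'.trans (min_le_left _ _))
    · intro t ht
      by_contra h
      refine g2 (Finset.mem_image.2 ⟨n - J, Finset.mem_filter.2 ⟨Finset.mem_Ico.2 ⟨by omega,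
        by omega⟩, t, by omega, ?_⟩, by omega⟩)
      rw [show n - J + J = n by omega]
      exact h
  have hcard := Finset.card_le_card hsub
  have hc3 : ((((Finset.Ico N (2 * N)).filter fun n => ∃ τ : ℕ, τ ≤ n ∧
        ¬ (law d ρ).real {η | ¬ GoodN β h n τ (max b₂ b₄) ε η} ≤ min δ (κ / 4)) ∪
      ((Finset.Ico (N - J) (2 * (N - J))).filter fun n => ∃ t : ℕ, t ≤ n ∧
        ¬ (law d ρ).real {η | -(g / 2 * J) < X β h η (n + J) -
          Real.log (zB ρ β b h (n + J) t J η)} ≤ κ / 16).image (fun n => n + J)) ∪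
      Finset.Ico (2 * N - J) (2 * N)).card ≤
      (((Finset.Ico N (2 * N)).filter fun n => ∃ τ : ℕ, τ ≤ n ∧
        ¬ (law d ρ).real {η | ¬ GoodN β h n τ (max b₂ b₄) ε η} ≤ min δ (κ / 4))).card +
      (((Finset.Ico (N - J) (2 * (N - J))).filter fun n => ∃ t : ℕ, t ≤ n ∧
        ¬ (law d ρ).real {η | -(g / 2 * J) < X β h η (n + J) -
          Real.log (zB ρ β b h (n + J) t J η)} ≤ κ / 16)).card + J := by
    refine (Finset.card_union_le _ _).trans (add_le_add ((Finset.card_union_le _ _).trans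
      (add_le_add le_rfl Finset.card_image_le)) ?_)
    rw [Nat.card_Ico]
    omega
  have hfin := hcard.trans hc3
  have hfin' : (((Finset.Ico N (2 * N)).filter fun n => ∃ t : ℕ, t ≤ n ∧
      κ < ∫ η, pr2 β h n t (4 * W) η ∂(law d ρ)).card : ℝ) ≤
      ((((Finset.Ico N (2 * N)).filter fun n => ∃ τ : ℕ, τ ≤ n ∧
        ¬ (law d ρ).real {η | ¬ GoodN β h n τ (max b₂ b₄) ε η} ≤ min δ (κ / 4))).card : ℝ) +
      ((((Finset.Ico (N - J) (2 * (N - J))).filter fun n => ∃ t : ℕ, t ≤ n ∧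
        ¬ (law d ρ).real {η | -(g / 2 * J) < X β h η (n + J) -
          Real.log (zB ρ β b h (n + J) t J η)} ≤ κ / 16)).card : ℝ) + J := by
    exact_mod_cast hfin
  have hN0 : (0 : ℝ) ≤ N := Nat.cast_nonneg _
  have h8 : min δ (κ / 4) * N ≤ κ / 4 * N := mul_le_mul_of_nonneg_right (min_le_right _ _) hN0
  have h9 : κ / 16 * ((N - J : ℕ) : ℝ) ≤ κ / 16 * N :=
    mul_le_mul_of_nonneg_left (by exact_mod_cast Nat.sub_le _ _) (by positivity)
  show (((Finset.Ico N (2 * N)).filter fun n => ∃ t : ℕ, t ≤ n ∧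
      κ < ∫ η, pr2 β h n t (4 * W) η ∂(law d ρ)).card : ℝ) ≤ κ * N
  have h10 : 0 ≤ κ * N := by positivity
  linarith

end Pool.Agent.W_7d29a1_LOC
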