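import Pool.Agent.W_7d29a1_LOC.DefsL99
import Pool.Agent.W_7d29a1_V.LipA74
import Pool.Agent.W_7d29a1_Q29.Npb39

/-!
Leaf C3: the shortened environments are close for most displacements (force zero).
-/

set_option autoImplicit false

namespace Pool.Agent.W_7d29a1_LOC

open MeasureTheory ProbabilityTheory Filter Topology Pool.Agent.W_MP_7d29a1_pr
  Pool.Agent.W_7d29a1_h46 Pool.Agent.W_7d29a1_h46u Pool.Agent.W_7d29a1_D2.B35
  Pool.Agent.W_7d29a1_Q29 Pool.Agent.W_7d29a1_AC

namespace M64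

variable {d : ℕ}

lemma phi_zero : Phi (0 : Vec d) = Fintype.card (Step d) := by
  unfold Phi
  simp

lemma card_step : (Fintype.card (Step d) : ℝ) = 2 * d := by
  have : Fintype.card (Step d) = d * 2 := by
    unfold Step
    simp
  rw [this]
  push_cast
  ring

lemma sum_vec (i : Fin d) : ∑ e : Step d, ((vec e i : ℤ) : ℝ) = 0 := by
  have : ∑ e : Step d, ((vec e i : ℤ) : ℝ) =
      ∑ j : Fin d, ∑ b : Bool, ((vec (j, b) i : ℤ) : ℝ) := Fintype.sum_prod_type _
  rw [this]
  refine Finset.sum_eq_zero fun j _ => ?_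
  unfold vec
  by_cases hj : i = j
  · subst hj; simp
  · simp [hj]

lemma sum_vec_sq : ∑ i : Fin d, ∑ e : Step d, ((vec e i : ℤ) : ℝ) ^ 2 =
    Fintype.card (Step d) := by
  rw [Finset.sum_comm]
  have h : ∀ e : Step d, ∑ i : Fin d, ((vec e i : ℤ) : ℝ) ^ 2 = 1 := by
    intro e
    rw [Finset.sum_eq_single e.1]
    · unfold vec
      rcases e with ⟨j, b⟩
      cases b <;> simp
    · intro i _ hi
      unfold vec
      simp [hi]
    · intro h
      exact absurd (Finset.mem_univ _) h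
  simp only [h]
  simp

lemma sum_one (F : Site d → ℝ) : ∑ q : Fin 1 → Step d, F (pos q 1) = ∑ e : Step d, F (vec e) := by
  rw [← (Equiv.funUnique (Fin 1) (Step d)).sum_comp (fun e => F (vec e))]
  refine Finset.sum_congr rfl fun q _ => ?_
  congr 1
  unfold pos
  simp

/-- The second moment of the simple random walk. -/
lemma sum_sq (J : ℕ) : ∑ q : Fin J → Step d, ∑ i : Fin d, ((pos q J i : ℤ) : ℝ) ^ 2 =
    J * (Fintype.card (Step d) : ℝ) ^ J := by
  induction J with
  | zero =>
    have h : ∀ (q : Fin 0 → Step d) (i : Fin d), ((pos q 0 i : ℤ) : ℝ) ^ 2 = 0 := by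
      intro q i
      unfold pos
      simp
    simp [h]
  | succ J ih =>
    rw [sum_glue (i := J) (k := 1)
      (fun q : Fin (J + 1) → Step d => ∑ i : Fin d, ((pos q (J + 1) i : ℤ) : ℝ) ^ 2)]
    have h1 : ∀ s : Fin J → Step d, ∑ q : Fin 1 → Step d, ∑ i : Fin d,
        ((pos (Fin.append s q) (J + 1) i : ℤ) : ℝ) ^ 2 =
        (Fintype.card (Step d) : ℝ) * (∑ i : Fin d, ((pos s J i : ℤ) : ℝ) ^ 2) +
          (Fintype.card (Step d) : ℝ) := by
      intro s
      have h2 : ∀ q : Fin 1 → Step d, ∑ i : Fin d,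
          ((pos (Fin.append s q) (J + 1) i : ℤ) : ℝ) ^ 2 =
          (fun z : Site d => ∑ i : Fin d, (((pos s J i : ℤ) : ℝ) + ((z i : ℤ) : ℝ)) ^ 2)
            (pos q 1) := by
        intro q
        simp only [pos_glue_add, Pi.add_apply, Int.cast_add]
      simp only [h2]
      rw [sum_one (fun z : Site d => ∑ i : Fin d, (((pos s J i : ℤ) : ℝ) + ((z i : ℤ) : ℝ)) ^ 2)]
      rw [Finset.sum_comm]
      have h3 : ∀ i : Fin d, ∑ e : Step d,
          (((pos s J i : ℤ) : ℝ) + ((vec e i : ℤ) : ℝ)) ^ 2 =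
          (Fintype.card (Step d) : ℝ) * ((pos s J i : ℤ) : ℝ) ^ 2 +
            ∑ e : Step d, ((vec e i : ℤ) : ℝ) ^ 2 := by
        intro i
        have h4 : ∀ e : Step d, (((pos s J i : ℤ) : ℝ) + ((vec e i : ℤ) : ℝ)) ^ 2 =
            ((pos s J i : ℤ) : ℝ) ^ 2 + (2 * ((pos s J i : ℤ) : ℝ)) * ((vec e i : ℤ) : ℝ) +
              ((vec e i : ℤ) : ℝ) ^ 2 := fun e => by ring
        simp only [h4]
        rw [Finset.sum_add_distrib, Finset.sum_add_distrib, ← Finset.mul_sum, sum_vec]
        simp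
      simp only [h3]
      rw [Finset.sum_add_distrib, sum_vec_sq, Finset.mul_sum]
    simp only [h1]
    rw [Finset.sum_add_distrib, ← Finset.mul_sum, ih]
    simp only [Finset.sum_const, Finset.card_univ, nsmul_eq_mul]
    rw [Fintype.card_fun, Fintype.card_fin]
    push_cast
    ring

lemma l1_sq_le (z : Site d) :
    ((W_7d29a1_V.l1 z : ℕ) : ℝ) ^ 2 ≤ d * ∑ i : Fin d, ((z i : ℤ) : ℝ) ^ 2 := by
  have h1 : ((W_7d29a1_V.l1 z : ℕ) : ℝ) = ∑ i : Fin d, |((z i : ℤ) : ℝ)| := by
    unfold W_7d29a1_V.l1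
    push_cast
    refine Finset.sum_congr rfl fun i _ => ?_
    rw [Nat.cast_natAbs, Int.cast_abs]
  rw [h1]
  have h2 := sq_sum_le_card_mul_sum_sq (s := (Finset.univ : Finset (Fin d)))
    (f := fun i => |((z i : ℤ) : ℝ)|)
  simpa [sq_abs] using h2

/-- The first moment of the length of the simple random walk. -/
lemma sum_l1 (hd : 0 < d) {J : ℕ} (hJ : 1 ≤ J) :
    ∑ q : Fin J → Step d, ((W_7d29a1_V.l1 (pos q J) : ℕ) : ℝ) ≤
      Real.sqrt (d * J) * Phi (0 : Vec d) ^ J := by
  have hdJ : (0 : ℝ) < d * J := by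
    have h1 : (0 : ℝ) < d := by exact_mod_cast hd
    have h2 : (0 : ℝ) < J := by exact_mod_cast hJ
    positivity
  obtain ⟨a, ha⟩ : ∃ a, a = Real.sqrt (d * J) := ⟨_, rfl⟩
  have ha0 : 0 < a := by rw [ha]; exact Real.sqrt_pos.2 hdJ
  have ha2 : a ^ 2 = d * J := by rw [ha]; exact Real.sq_sqrt hdJ.le
  have h1 : ∀ q : Fin J → Step d, ((W_7d29a1_V.l1 (pos q J) : ℕ) : ℝ) ≤
      (d / (2 * a)) * (∑ i : Fin d, ((pos q J i : ℤ) : ℝ) ^ 2) + a / 2 := by
    intro q
    have h2 := l1_sq_le (pos q J)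
    have h3 := sq_nonneg (((W_7d29a1_V.l1 (pos q J) : ℕ) : ℝ) - a)
    have h4 : (d / (2 * a)) * (∑ i : Fin d, ((pos q J i : ℤ) : ℝ) ^ 2) =
        (d * ∑ i : Fin d, ((pos q J i : ℤ) : ℝ) ^ 2) / (2 * a) := by ring
    rw [h4, ← sub_le_iff_le_add, le_div_iff₀ (by positivity)]
    nlinarith
  refine (Finset.sum_le_sum fun q _ => h1 q).trans (le_of_eq ?_)
  rw [Finset.sum_add_distrib, ← Finset.mul_sum, sum_sq, Finset.sum_const, Finset.card_univ,
    nsmul_eq_mul, Fintype.card_fun, Fintype.card_fin, phi_zero, ← ha]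
  push_cast
  have h5 : (d : ℝ) / (2 * a) * (J * (Fintype.card (Step d) : ℝ) ^ J) =
      (d * J) / (2 * a) * (Fintype.card (Step d) : ℝ) ^ J := by ring
  rw [h5, ← ha2]
  field_simp
  ring

/-- The number of walks. -/
lemma PP_zero (J : ℕ) (β : ℝ) (z : Site d) : PP β (0 : Vec d) (fun _ => 0) J z =
    ∑ q : Fin J → Step d, if pos q J = z then (1 : ℝ) else 0 := by
  classical
  unfold PP ZT
  refine Finset.sum_congr rfl fun q _ => ?_
  by_cases hq : pos q J = z
  · rw [if_pos hq, if_pos (show q ∈ {s : Fin J → Step d | pos s J = z} from hq)]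
    unfold wgt energy
    simp
  · rw [if_neg hq, if_neg (show q ∉ {s : Fin J → Step d | pos s J = z} from hq)]

lemma PP_nonneg0 (J : ℕ) (β : ℝ) (z : Site d) : 0 ≤ PP β (0 : Vec d) (fun _ => 0) J z :=
  PP_nonneg _ _ _ _ _

lemma sum_PP (J : ℕ) (β : ℝ) (f : Site d → ℝ) :
    ∑ z ∈ boxF d J, PP β (0 : Vec d) (fun _ => 0) J z * f z =
      ∑ q : Fin J → Step d, f (pos q J) := by
  classical
  have h1 : ∀ z ∈ boxF d J, PP β (0 : Vec d) (fun _ => 0) J z * f z =
      ∑ q : Fin J → Step d, if pos q J = z then f z else 0 := by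
    intro z _
    rw [PP_zero, Finset.sum_mul]
    refine Finset.sum_congr rfl fun q _ => ?_
    split_ifs <;> simp
  rw [Finset.sum_congr rfl h1, Finset.sum_comm]
  refine Finset.sum_congr rfl fun q _ => ?_
  rw [Finset.sum_ite_eq, if_pos (pos_mem_boxF39 q le_rfl)]

lemma PP_rch {J : ℕ} {β : ℝ} {z : Site d} (h : PP β (0 : Vec d) (fun _ => 0) J z ≠ 0) :
    W_7d29a1_V.Rch J z := by
  rw [PP_zero] at h
  obtain ⟨q, -, hq⟩ := Finset.exists_ne_zero_of_sum_ne_zero h
  refine ⟨q, ?_⟩
  by_contra hne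
  exact hq (if_neg hne)

lemma remE_fsh (J t : ℕ) (z : Site d) (η : Env d) : remE J t z η = fsh t z (remE J t 0 η) := by
  funext p
  unfold fsh remE
  by_cases hp : p.1 ≤ t
  · simp [hp]
  · simp [hp]

lemma mp_remE {ρ : Measure ℝ} [IsProbabilityMeasure ρ] (J t : ℕ) :
    MeasurePreserving (remE J t (0 : Site d)) (law d ρ) (law d ρ) := by
  classical
  have hf : Function.Injective (fun p : ℕ × Site d =>
      if p.1 ≤ t then p else (p.1 + J, p.2 + (0 : Site d))) := by
    intro p q h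
    simp only [add_zero] at h
    split_ifs at h with h1 h2 h2
    · exact h
    · have := congrArg Prod.fst h
      simp only at this
      omega
    · have := congrArg Prod.fst h
      simp only at this
      omega
    · have e1 := congrArg Prod.fst h
      have e2 := congrArg Prod.snd h
      simp only at e1 e2
      exact Prod.ext (by omega) e2
  have h1 := LawU_reindex (ρ := ρ) hf
  have h2 : (fun (g : Env d) (p : ℕ × Site d) =>
      g (if p.1 ≤ t then p else (p.1 + J, p.2 + (0 : Site d)))) = remE J t (0 : Site d) := by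
    funext g p
    unfold remE
    by_cases hp : p.1 ≤ t
    · simp [hp]
    · simp [hp]
  rw [h2] at h1
  exact h1

lemma meas_fsh (t : ℕ) (z : Site d) : Measurable (fsh t z : Env d → Env d) := by
  refine measurable_pi_iff.2 fun p => ?_
  unfold fsh
  by_cases hp : p.1 ≤ t
  · simp only [hp, if_true]
    exact measurable_pi_apply _
  · simp only [hp, if_false]
    exact measurable_pi_apply _

lemma mp_fsh {ρ : Measure ℝ} [IsProbabilityMeasure ρ] (t : ℕ) (z : Site d) :
    MeasurePreserving (fsh t z : Env d → Env d) (law d ρ) (law d ρ) := by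
  classical
  have hf : Function.Injective (fun p : ℕ × Site d =>
      if p.1 ≤ t then p else (p.1, p.2 + z)) := by
    intro p q h
    simp only at h
    split_ifs at h with h1 h2 h2
    · exact h
    · have := congrArg Prod.fst h
      simp only at this
      omega
    · have := congrArg Prod.fst h
      simp only at this
      omega
    · have e1 := congrArg Prod.fst h
      have e2 := congrArg Prod.snd h
      simp only at e1 e2
      exact Prod.ext (by omega) (by simpa using e2)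
  have h1 := LawU_reindex (ρ := ρ) hf
  have h2 : (fun (g : Env d) (p : ℕ × Site d) =>
      g (if p.1 ≤ t then p else (p.1, p.2 + z))) = fsh t z := by
    funext g p
    unfold fsh
    by_cases hp : p.1 ≤ t
    · simp [hp]
    · simp [hp]
  rw [h2] at h1
  exact h1

end M64

open M64

variable {d : ℕ} {ρ : Measure ℝ} [IsProbabilityMeasure ρ]

open Classical in
/-- Leaf C3. -/
theorem med64 (hd : 0 < d) (hρ : EM ρ) {β : ℝ} (hS : Sh0 d ρ β) : Med0 d ρ β := by
  obtain ⟨C, hC0, hC⟩ := hS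
  intro ϑ hϑ
  obtain ⟨J₁, hJ₁⟩ := exists_nat_ge (4 * C ^ 2 * d / ϑ ^ 4)
  refine ⟨J₁ + 1, fun J hJ hJe n t htn => ?_⟩
  have hJ1 : 1 ≤ J := by omega
  have hJ0 : (0 : ℝ) < J := by exact_mod_cast hJ1
  have hd0 : (0 : ℝ) < d := by exact_mod_cast hd
  set K : ℝ := Phi (0 : Vec d) ^ J with hK
  have hPhi : 0 < Phi (0 : Vec d) := by
    rw [phi_zero, card_step]
    positivity
  have hK0 : 0 < K := pow_pos hPhi J
  have hXm : Measurable fun η : Env d => X β 0 η n := measurable_X β 0 n
  have hXi : Integrable (fun η : Env d => X β 0 η n) (law d ρ) := by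
    have h2 : MemLp (fun η : Env d => X β 0 η n) 2 (law d ρ) :=
      (memLp_two_iff_integrable_sq hXm.aestronglyMeasurable).2
        (integrable_X_sq39 hd hρ β 0 n)
    exact h2.integrable (by norm_num)
  -- the differences
  set D : Site d → Env d → ℝ := fun z η =>
    |X β 0 (remE J t z η) n - X β 0 (remE J t 0 η) n| with hD
  have hDf : ∀ z η, D z η = |X β 0 (fsh t z (remE J t 0 η)) n - X β 0 (remE J t 0 η) n| := by
    intro z η
    rw [hD]
    simp only
    rw [remE_fsh J t z η]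
  have hgm : ∀ z : Site d, Measurable fun ζ : Env d => |X β 0 (fsh t z ζ) n - X β 0 ζ n| :=
    fun z => ((hXm.comp (meas_fsh t z)).sub hXm).abs
  have hgi : ∀ z : Site d,
      Integrable (fun ζ : Env d => |X β 0 (fsh t z ζ) n - X β 0 ζ n|) (law d ρ) := fun z =>
    (((mp_fsh (ρ := ρ) t z).integrable_comp_of_integrable hXi).sub hXi).abs
  have hDi : ∀ z, Integrable (D z) (law d ρ) := by
    intro z
    have h1 := (mp_remE (ρ := ρ) (d := d) J t).integrable_comp_of_integrable (hgi z)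
    refine h1.congr (Eventually.of_forall fun η => ?_)
    exact (hDf z η).symm
  have hDint : ∀ z, ∫ η, D z η ∂(law d ρ) =
      ∫ ζ, |X β 0 (fsh t z ζ) n - X β 0 ζ n| ∂(law d ρ) := by
    intro z
    rw [← LawU_integral (mp_remE (ρ := ρ) (d := d) J t) (hgm z).aestronglyMeasurable]
    exact integral_congr_ae (Eventually.of_forall fun η => hDf z η)
  have hDb : ∀ z, W_7d29a1_V.Rch J z → ∫ η, D z η ∂(law d ρ) ≤ C * W_7d29a1_V.l1 z := by
    intro z hz
    rw [hDint]
    obtain ⟨h1, h2⟩ := W_7d29a1_V.LipA74.rch_l1 hz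
    have he : Even (W_7d29a1_V.l1 z) := by
      rw [Nat.even_iff, h2]
      exact Nat.even_iff.1 hJe
    exact hC n t _ z htn he (W_7d29a1_V.LipA74.rch_of hd _ z le_rfl rfl)
  -- the bad sum
  set P : Site d → ℝ := fun z => PP β (0 : Vec d) (fun _ => 0) J z with hP
  have hP0 : ∀ z, 0 ≤ P z := fun z => PP_nonneg0 J β z
  have htot : ∑ z ∈ boxF d J, P z = K := by
    have h1 := sum_PP (d := d) J β fun _ => (1 : ℝ)
    simp only [mul_one] at h1
    rw [hP]
    simp only
    rw [h1, Finset.sum_const, Finset.card_univ, nsmul_eq_mul, mul_one, Fintype.card_fun,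
      Fintype.card_fin, hK, phi_zero]
    push_cast
    rfl
  set U : Env d → ℝ := fun η => ∑ z ∈ boxF d J, P z * D z η with hU
  have hUi : Integrable U (law d ρ) := integrable_finsetSum _ fun z _ => (hDi z).const_mul _
  have hU0 : ∀ η, 0 ≤ U η := fun η =>
    Finset.sum_nonneg fun z _ => mul_nonneg (hP0 z) (abs_nonneg _)
  have hUint : ∫ η, U η ∂(law d ρ) ≤ C * (Real.sqrt (d * J) * K) := by
    rw [hU, integral_finsetSum _ fun z _ => (hDi z).const_mul _]
    have h1 : ∀ z ∈ boxF d J, ∫ η, P z * D z η ∂(law d ρ) ≤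
        P z * (C * (W_7d29a1_V.l1 z : ℝ)) := by
      intro z _
      rw [integral_const_mul]
      by_cases hz : P z = 0
      · rw [hz]; simp
      · exact mul_le_mul_of_nonneg_left (hDb z (PP_rch hz)) (hP0 z)
    refine (Finset.sum_le_sum h1).trans ?_
    have h2 := sum_PP (d := d) J β fun z => C * (W_7d29a1_V.l1 z : ℝ)
    rw [hP]
    simp only
    rw [h2, ← Finset.mul_sum]
    exact mul_le_mul_of_nonneg_left (sum_l1 hd hJ1) hC0
  -- Markov
  have hset : {η : Env d | (∑ z ∈ boxF d J, if |X β 0 (remE J t z η) n -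
      X β 0 (remE J t 0 η) n| ≤ ϑ * J then PP β 0 (fun _ => 0) J z else 0) < K / 2} ⊆
      {η : Env d | ϑ * J * (K / 2) ≤ U η} := by
    intro η hη
    have hη' : (∑ z ∈ boxF d J, if D z η ≤ ϑ * J then P z else 0) < K / 2 := hη
    show ϑ * J * (K / 2) ≤ U η
    have h1 : ∑ z ∈ boxF d J, (if D z η ≤ ϑ * J then P z else 0) +
        ∑ z ∈ boxF d J, (if D z η ≤ ϑ * J then 0 else P z) = K := by
      rw [← Finset.sum_add_distrib, ← htot]
      refine Finset.sum_congr rfl fun z _ => ?_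
      split_ifs <;> ring
    have h2 : ϑ * J * ∑ z ∈ boxF d J, (if D z η ≤ ϑ * J then 0 else P z) ≤ U η := by
      rw [Finset.mul_sum]
      refine Finset.sum_le_sum fun z _ => ?_
      split_ifs with h3
      · rw [mul_zero]
        exact mul_nonneg (hP0 z) (abs_nonneg _)
      · rw [mul_comm]
        exact mul_le_mul_of_nonneg_left (not_le.1 h3).le (hP0 z)
    refine le_trans ?_ h2
    exact mul_le_mul_of_nonneg_left (by linarith) (by positivity)
  have hmk := mul_meas_ge_le_integral_of_nonneg (Eventually.of_forall hU0) hUi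
    (ϑ * J * (K / 2))
  have h1 : (law d ρ).real {η : Env d | ϑ * J * (K / 2) ≤ U η} ≤ ϑ := by
    have h2 : 0 < ϑ * J * (K / 2) := by positivity
    have h3 : C * (Real.sqrt (d * J) * K) ≤ ϑ * J * (K / 2) * ϑ := by
      have h4 : 2 * (C * Real.sqrt (d * J)) ≤ ϑ ^ 2 * J := by
        refine abs_le_of_sq_le_sq' ?_ (by positivity) |>.2
        have h5 : (2 * (C * Real.sqrt (d * J))) ^ 2 = 4 * C ^ 2 * (d * J) := by
          rw [mul_pow, mul_pow, Real.sq_sqrt (by positivity)]
          ring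
        rw [h5]
        have h6 : 4 * C ^ 2 * d / ϑ ^ 4 ≤ J := by
          have : (J₁ : ℝ) ≤ J := by exact_mod_cast (by omega : J₁ ≤ J)
          linarith
        rw [div_le_iff₀ (by positivity)] at h6
        have h7 := mul_le_mul_of_nonneg_right h6 hJ0.le
        calc 4 * C ^ 2 * (d * J) = 4 * C ^ 2 * d * J := by ring
          _ ≤ J * ϑ ^ 4 * J := h7
          _ = (ϑ ^ 2 * J) ^ 2 := by ring
      have h8 := mul_le_mul_of_nonneg_right h4 (by positivity : 0 ≤ K / 2)
      calc C * (Real.sqrt (d * J) * K) = 2 * (C * Real.sqrt (d * J)) * (K / 2) := by ring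
        _ ≤ ϑ ^ 2 * J * (K / 2) := h8
        _ = _ := by ring
    have h9 := (hmk.trans hUint).trans h3
    exact le_of_mul_le_mul_left h9 h2
  exact (measureReal_mono hset).trans h1

end Pool.Agent.W_7d29a1_LOC
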