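import Pool.Agent.W_7d29a1_SDP.MulU89
import Pool.Agent.W_7d29a1_LOC.DefsL99

/-!
Theorem LOC: at a tilt with a lucky and typical displacement the laws of all the positions are
concentrated on few sites, at most lengths.
-/

set_option autoImplicit false

namespace Pool.Agent.W_7d29a1_LOC

open MeasureTheory ProbabilityTheory Filter Topology Pool.Agent.W_MP_7d29a1_pr
  Pool.Agent.W_7d29a1_h46 Pool.Agent.W_7d29a1_h46u Pool.Agent.W_7d29a1_D2.B35
  Pool.Agent.W_7d29a1_Q29 Pool.Agent.W_7d29a1_NV Pool.Agent.W_7d29a1_P89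
  Pool.Agent.W_7d29a1_SD Pool.Agent.W_7d29a1_SDP Pool.Agent.W_7d29a1_P78

variable {d : ℕ} {ρ : Measure ℝ} [IsProbabilityMeasure ρ]

/-- The concentration on few sites, from the luck. -/
theorem mulH89 (hd : 0 < d) (hρ : EM ρ) {β : ℝ} {h : Vec d} (hL : LuckH d ρ β h)
    (hG : GainU d ρ β) : MulH d ρ β h := by
  classical
  intro ε δ hε hδ
  set ε' : ℝ := min (ε / 4) (1 / 8) with hε'
  have hε0 : 0 < ε' := lt_min (by positivity) (by norm_num)
  obtain ⟨C', b₁, hC0, hb11, hl⟩ := hL ε' (δ / 4) hε0 (by positivity)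
  obtain ⟨b₂, hb21, hg⟩ := hG h ε C' hε hC0
  obtain ⟨C, hCm⟩ := dmC89 (ρ := ρ) hd hρ β h (show (0 : ℝ) < δ * (δ / 4) / (4 * C') by positivity)
  refine ⟨max b₁ (max b₂ (4 * C / (δ * (δ / 4)))), fun b hb => ?_⟩
  have hbb1 : b₁ ≤ b := (le_max_left _ _).trans hb
  have hbb2 : b₂ ≤ b := (le_max_left _ _).trans ((le_max_right _ _).trans hb)
  have hbb3 : 4 * C / (δ * (δ / 4)) ≤ b := (le_max_right _ _).trans ((le_max_right _ _).trans hb)
  have hb1 : 1 ≤ b := hb11.trans hbb1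
  obtain ⟨m, z, hm1, hmC, hz, hR, hlk⟩ := hl b hbb1
  have hδδ : 0 < δ * (δ / 4) := by positivity
  have hD : m * lam ρ β h - A ρ β h m ≤ δ * (4 * (δ / 4 * b)) / 8 := by
    have h1 := hCm m
    have h2 : δ * (δ / 4) / (4 * C') * m ≤ δ * (δ / 4) * b / 4 := by
      have e : δ * (δ / 4) / (4 * C') * (C' * b) = δ * (δ / 4) * b / 4 := by
        field_simp
      rw [← e]
      exact mul_le_mul_of_nonneg_left hmC (by positivity)
    rw [div_le_iff₀ hδδ] at hbb3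
    linarith
  obtain ⟨N₀, hN₀⟩ := densm89 hd hρ β h (m := m) (b := 4 * (δ / 4 * b)) (δ := δ) (by positivity)
    hδ hD
  refine ⟨N₀, fun N hN => ?_⟩
  refine le_trans ?_ (hN₀ N hN)
  have hsub : ((Finset.Ico N (2 * N)).filter fun n => ∃ τ : ℕ, τ ≤ n ∧
      ¬ (law d ρ).real {η | ¬ GoodN β h n τ b ε η} ≤ δ) ⊆
      (Finset.Ico N (2 * N)).filter fun n =>
        ¬ (A ρ β h (n + m) - A ρ β h n ≤ lam ρ β h * m + 4 * (δ / 4 * b) / 4) := by
    intro n hn
    rw [Finset.mem_filter] at hn ⊢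
    refine ⟨hn.1, fun hA => ?_⟩
    obtain ⟨τ, hτ, hbad⟩ := hn.2
    refine hbad ?_
    have h1 := core89 hd hρ β h hτ hz (b := b) (D₁ := δ / 4 * b) (D₂ := δ / 4 * b) (by linarith)
      (by linarith) hR {η | ¬ GoodN β h n τ b ε η} fun η hη => hg b hbb2 m z hmC hlk n τ hτ η hη
    have h2 : (law d ρ).real {η | ¬ GoodN β h n τ b ε η} * b ≤ δ * b := by linarith
    exact le_of_mul_le_mul_right h2 (by linarith)
  convert (Nat.cast_le (α := ℝ)).2 (Finset.card_le_card hsub) using 2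

/-- The luck at a pair with `LP`. -/
theorem luckH89 {d : ℕ} {ρ : Measure ℝ} {β : ℝ} (hL : LuckU d ρ β) {h v : Vec d}
    (hV : VSD ρ β h) (hLP : LP ρ β h v) : LuckH d ρ β h := hL h v hV hLP

end Pool.Agent.W_7d29a1_LOC
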