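import Pool.Agent.W_7d29a1_LOC.DefsL99
import Pool.Agent.W_7d29a1_SDP.P2P67

/-!
Theorem LOC, leaf A0 (helper67): at force zero the return to the origin costs `o (t)`, by the
reflection of the environment and the superadditivity of the means.
-/

set_option autoImplicit false

namespace Pool.Agent.W_7d29a1_LOC

open MeasureTheory ProbabilityTheory Filter Topology Pool.Agent.W_MP_7d29a1_pr
  Pool.Agent.W_7d29a1_h46 Pool.Agent.W_7d29a1_h46u Pool.Agent.W_7d29a1_D2.B35
  Pool.Agent.W_7d29a1_V Pool.Agent.W_7d29a1_V.R48 Pool.Agent.W_7d29a1_V.ConcV16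

namespace R67

variable {d : ℕ} {ρ : Measure ℝ} [IsProbabilityMeasure ρ]

/-- The reflected step. -/
def fl (e : Step d) : Step d := (e.1, !e.2)

lemma fl_fl (e : Step d) : fl (fl e) = e := by
  unfold fl
  simp

lemma vec_fl (e : Step d) : vec (fl e) = -vec e := by
  unfold vec fl
  rw [← Pi.single_neg]
  cases e.2 <;> simp

lemma pos_fl {n : ℕ} (s : Fin n → Step d) (i : ℕ) : pos (fun j => fl (s j)) i = -pos s i := by
  unfold pos
  rw [← Finset.sum_neg_distrib]
  refine Finset.sum_congr rfl fun j _ => ?_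
  split_ifs
  · exact vec_fl _
  · exact neg_zero.symm

/-- The reflected environment. -/
def rf (η : Env d) : Env d := fun p => η (p.1, -p.2)

lemma mp_rf : MeasurePreserving (rf : Env d → Env d) (law d ρ) (law d ρ) := by
  refine LawU_reindex (f := fun p : ℕ × Site d => (p.1, -p.2)) ?_
  rintro ⟨i, y⟩ ⟨j, z⟩ h
  simp only [Prod.mk.injEq, neg_inj] at h
  exact Prod.ext h.1 h.2

lemma energy_rf {n : ℕ} (η : Env d) (s : Fin n → Step d) :
    energy (rf η) (fun j => fl (s j)) = energy η s := by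
  unfold energy rf
  refine Finset.sum_congr rfl fun i _ => ?_
  simp only
  rw [pos_fl, neg_neg]

/-- Reflection at force zero. -/
lemma PP_rf (β : ℝ) (η : Env d) (m : ℕ) (z : Site d) :
    PP β 0 (rf η) m z = PP β 0 η m (-z) := by
  classical
  have hinv : Function.Involutive (fun (s : Fin m → Step d) (j : Fin m) => fl (s j)) := by
    intro s
    funext j
    exact fl_fl _
  unfold PP ZT
  rw [← hinv.bijective.sum_comp]
  refine Finset.sum_congr rfl fun s _ => ?_
  have h1 : ((fun j => fl (s j)) ∈ {q : Fin m → Step d | pos q m = z}) ↔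
      (s ∈ {q : Fin m → Step d | pos q m = -z}) := by
    change pos (fun j => fl (s j)) m = z ↔ pos s m = -z
    rw [pos_fl]
    exact neg_eq_iff_eq_neg
  have h2 : wgt β 0 (rf η) (fun j => fl (s j)) = wgt β 0 η s := by
    unfold wgt
    rw [energy_rf, inner_zero_left, inner_zero_left]
  by_cases hs : s ∈ {q : Fin m → Step d | pos q m = -z}
  · rw [if_pos hs, if_pos (h1.2 hs), h2]
  · rw [if_neg hs, if_neg fun hc => hs (h1.1 hc)]

lemma aM_rf (β : ℝ) (m : ℕ) (z : Site d) : aM ρ β 0 m (-z) = aM ρ β 0 m z := by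
  have hm : Measurable fun η : Env d => Real.log (PP β 0 η m z) :=
    Real.measurable_log.comp (PP_meas β 0 m z)
  have h1 := LawU_integral (mp_rf (d := d) (ρ := ρ)) hm.aestronglyMeasurable
  unfold aM
  rw [← h1]
  refine integral_congr_ae (ae_of_all _ fun η => ?_)
  simp only [PP_rf]

end R67

open R67 in
/-- **Leaf A0.** -/
theorem ret67 {d : ℕ} {ρ : Measure ℝ} [IsProbabilityMeasure ρ] (hd : 0 < d) (hρ : EM ρ) (β : ℝ) :
    Ret0 d ρ β := by
  intro δ hδ
  obtain ⟨C, hC, H⟩ := momP (d := d) (ρ := ρ) hρ β 1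
  obtain ⟨s₀, hs₀⟩ := eventually_atTop.1
    (W_7d29a1_SDP.P67.maxP hd hρ β (0 : Vec d) (ε := δ / 2) (by positivity))
  refine ⟨max (2 * s₀) (max 1 ⌈(2 * C / δ) ^ 2⌉₊), fun t ht hev => ?_⟩
  have ht1 : 2 * s₀ ≤ t := (le_max_left _ _).trans ht
  have ht2 : 1 ≤ t := (le_max_left _ _).trans ((le_max_right _ _).trans ht)
  have ht3 : ⌈(2 * C / δ) ^ 2⌉₊ ≤ t := (le_max_right _ _).trans ((le_max_right _ _).trans ht)
  obtain ⟨s, hs⟩ := hev
  have htr : (t : ℝ) = s + s := by exact_mod_cast hs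
  have ht0 : (0 : ℝ) < t := by exact_mod_cast ht2
  obtain ⟨z, hz, h1⟩ := hs₀ s (by omega) 0 (by simp)
  rw [add_zero, inner_zero_left, add_zero] at h1
  have h2 := W_7d29a1_SDP.P67.aM_add hρ β (0 : Vec d) hz (rch_neg hd hz)
  rw [aM_rf, add_neg_cancel, ← hs] at h2
  have hr0 : Rch t (0 : Site d) := by
    rw [rch_iff hd, l1_zero]
    exact ⟨Nat.zero_le _, ⟨s, by omega⟩⟩
  have h3 : lam ρ β (0 : Vec d) * t - aM ρ β (0 : Vec d) t 0 ≤ δ / 2 * t := by
    rw [htr]
    linarith
  obtain ⟨hi, hb⟩ := H 0 t 0 ht2 hr0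
  have h4 : ∫ η, max 0 (lam ρ β (0 : Vec d) * t - Real.log (PP β (0 : Vec d) η t 0)) ∂(law d ρ) ≤
      ∫ η, (δ / 2 * t + |Real.log (PP β (0 : Vec d) η t 0) - aM ρ β (0 : Vec d) t 0| ^ 1) ∂(law d ρ) := by
    refine integral_mono_of_nonneg (ae_of_all _ fun η => le_max_left _ _)
      ((integrable_const _).add hi) (ae_of_all _ fun η => ?_)
    simp only [pow_one]
    have h5 := neg_abs_le (Real.log (PP β (0 : Vec d) η t 0) - aM ρ β (0 : Vec d) t 0)
    have h6 := abs_nonneg (Real.log (PP β (0 : Vec d) η t 0) - aM ρ β (0 : Vec d) t 0)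
    have h7 : 0 ≤ δ / 2 * t := by positivity
    refine max_le (by linarith) (by linarith)
  rw [integral_add (integrable_const _) hi, integral_const] at h4
  rw [pow_one] at hb
  have h8 : C * Real.sqrt t ≤ δ / 2 * t := by
    have e1 : (2 * C / δ) ^ 2 ≤ t := (Nat.le_ceil _).trans (by exact_mod_cast ht3)
    have e2 : 2 * C / δ ≤ Real.sqrt t := Real.le_sqrt_of_sq_le e1
    rw [div_le_iff₀ hδ] at e2
    have e3 : Real.sqrt t * Real.sqrt t = t := Real.mul_self_sqrt ht0.le
    have e4 := mul_le_mul_of_nonneg_right e2 (Real.sqrt_nonneg t)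
    nlinarith
  simp only [probReal_univ, smul_eq_mul, one_mul] at h4
  linarith

end Pool.Agent.W_7d29a1_LOC
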