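import Pool.Agent.W_7d29a1_LOC.DefsL99
import Pool.Agent.W_7d29a1_AC.MulC27
import Pool.Agent.W_7d29a1_V.Rch48

/-!
Theorem LOC, leaf C1: the shift of the future costs at most a multiple of its length.
-/

set_option autoImplicit false

namespace Pool.Agent.W_7d29a1_LOC

open MeasureTheory ProbabilityTheory Filter Topology Pool.Agent.W_MP_7d29a1_pr
  Pool.Agent.W_7d29a1_h46 Pool.Agent.W_7d29a1_h46u Pool.Agent.W_7d29a1_D2.B35
  Pool.Agent.W_7d29a1_Q29 Pool.Agent.W_7d29a1_P89 Pool.Agent.W_7d29a1_P78 Pool.Agent.W_7d29a1_NV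
  Pool.Agent.W_7d29a1_AC

variable {d : ℕ} {ρ : Measure ℝ}

/-- Two insertions give the same environment. -/
lemma ins_fsh66 (t m : ℕ) (z : Site d) (η ξ : Env d) :
    insE t m z (fsh t z η) ξ = insE t m 0 η ξ := by
  funext p
  unfold insE fsh
  by_cases hp : p.1 ≤ t
  · simp [hp]
  · by_cases hp2 : p.1 ≤ t + m
    · simp [hp, hp2]
    · rw [if_neg hp, if_neg hp2, if_neg hp, if_neg hp2]
      have h1 : ¬ (p.1 - m ≤ t) := by omega
      simp only [if_neg h1]
      congr 1
      simp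

/-- The reindexing of the shift. -/
def fsS66 (t : ℕ) (z : Site d) (p : ℕ × Site d) : ℕ × Site d :=
  if p.1 ≤ t then p else (p.1, p.2 + z)

lemma fsS66_inj (t : ℕ) (z : Site d) : Function.Injective (fsS66 (d := d) t z) := by
  intro p q h
  unfold fsS66 at h
  by_cases hp : p.1 ≤ t <;> by_cases hq : q.1 ≤ t
  · simpa [hp, hq] using h
  · rw [if_pos hp, if_neg hq] at h
    have := congrArg Prod.fst h
    simp only at this
    omega
  · rw [if_neg hp, if_pos hq] at h
    have := congrArg Prod.fst h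
    simp only at this
    omega
  · rw [if_neg hp, if_neg hq] at h
    have h1 := congrArg Prod.fst h
    have h2 := congrArg Prod.snd h
    simp only at h1 h2
    exact Prod.ext h1 (add_right_cancel h2)

/-- The shift of the future preserves the law. -/
lemma mp_fsh66 [IsProbabilityMeasure ρ] (t : ℕ) (z : Site d) :
    MeasurePreserving (fun η : Env d => fsh t z η) (law d ρ) (law d ρ) := by
  have h := LawU_reindex (ρ := ρ) (fsS66_inj (d := d) t z)
  have e : (fun η : Env d => fsh t z η) = fun η : Env d => fun p => η (fsS66 t z p) := by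
    funext η p
    unfold fsh fsS66
    split_ifs <;> rfl
  rw [e]
  exact h

/-- **Leaf C1**, at every tilt. -/
theorem shH66 [IsProbabilityMeasure ρ] (hd : 0 < d) (hρ : EM ρ) (β : ℝ) (h : Vec d) :
    ∃ C : ℝ, 0 ≤ C ∧ ∀ (n t m : ℕ) (z : Site d), t ≤ n → Even m → W_7d29a1_V.Rch m z →
      ∫ η, |X β h (fsh t z η) n - X β h η n| ∂(law d ρ) ≤ C * m := by
  obtain ⟨C, hC, hdev⟩ := M27.devIns27 (ρ := ρ) hd hρ β h
  refine ⟨2 * C, by positivity, fun n t m z ht hm hz => ?_⟩
  obtain ⟨q, hq⟩ := hz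
  obtain ⟨q₀, hq₀⟩ : W_7d29a1_V.Rch (d := d) m 0 := by
    rw [W_7d29a1_V.R48.rch_iff hd]
    rw [W_7d29a1_V.R48.l1_zero]
    exact ⟨Nat.zero_le _, by simpa using hm⟩
  obtain ⟨i1, b1⟩ := hdev n t m ht q
  obtain ⟨i0, b0⟩ := hdev n t m ht q₀
  rw [hq] at i1 b1
  rw [hq₀] at i0 b0
  have hX : Integrable (fun η => X β h η n) (law d ρ) := (concU hd hρ β h n).1
  have hXf : Integrable (fun η => X β h (fsh t z η) n) (law d ρ) :=
    (mp_fsh66 (ρ := ρ) t z).integrable_comp_of_integrable hX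
  have hD : Integrable (fun η => |X β h (fsh t z η) n - X β h η n|) (law d ρ) :=
    (hXf.sub hX).abs
  -- the shifted pair
  have hmp : MeasurePreserving (fun w : Env d × Env d => (fsh t z w.1, w.2))
      ((law d ρ).prod (law d ρ)) ((law d ρ).prod (law d ρ)) :=
    (mp_fsh66 (ρ := ρ) t z).prod (MeasurePreserving.id _)
  have i2 : Integrable (fun w : Env d × Env d => |X β h (insE t m z (fsh t z w.1) w.2) (n + m) -
      X β h (fsh t z w.1) n|) ((law d ρ).prod (law d ρ)) :=
    hmp.integrable_comp_of_integrable i1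
  have e2 : ∫ w : Env d × Env d, |X β h (insE t m z (fsh t z w.1) w.2) (n + m) -
      X β h (fsh t z w.1) n| ∂((law d ρ).prod (law d ρ)) =
      ∫ w : Env d × Env d, |X β h (insE t m z w.1 w.2) (n + m) - X β h w.1 n|
        ∂((law d ρ).prod (law d ρ)) :=
    LawU_integral hmp (F := fun w : Env d × Env d =>
      |X β h (insE t m z w.1 w.2) (n + m) - X β h w.1 n|) i1.aestronglyMeasurable
  have e3 : ∫ η, |X β h (fsh t z η) n - X β h η n| ∂(law d ρ) =
      ∫ w : Env d × Env d, |X β h (fsh t z w.1) n - X β h w.1 n| ∂((law d ρ).prod (law d ρ)) :=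
    (LawU_integral (measurePreserving_fst (μ := law d ρ) (ν := law d ρ))
      (F := fun η : Env d => |X β h (fsh t z η) n - X β h η n|) hD.aestronglyMeasurable).symm
  have hDp : Integrable (fun w : Env d × Env d => |X β h (fsh t z w.1) n - X β h w.1 n|)
      ((law d ρ).prod (law d ρ)) := hD.comp_fst (law d ρ)
  have hpt : ∀ w : Env d × Env d, |X β h (fsh t z w.1) n - X β h w.1 n| ≤
      |X β h (insE t m z (fsh t z w.1) w.2) (n + m) - X β h (fsh t z w.1) n| +
        |X β h (insE t m 0 w.1 w.2) (n + m) - X β h w.1 n| := by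
    intro w
    rw [ins_fsh66]
    have h1 := abs_sub_le (X β h (fsh t z w.1) n) (X β h (insE t m 0 w.1 w.2) (n + m))
      (X β h w.1 n)
    rw [abs_sub_comm (X β h (fsh t z w.1) n) (X β h (insE t m 0 w.1 w.2) (n + m))] at h1
    exact h1
  have h1 := integral_mono hDp (i2.add i0) hpt
  have h2 : ∫ w : Env d × Env d, (|X β h (insE t m z (fsh t z w.1) w.2) (n + m) -
      X β h (fsh t z w.1) n| + |X β h (insE t m 0 w.1 w.2) (n + m) - X β h w.1 n|)
        ∂((law d ρ).prod (law d ρ)) ≤ C * m + C * m := by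
    rw [integral_add i2 i0, e2]
    exact add_le_add b1 b0
  rw [e3]
  calc _ ≤ _ := h1
    _ ≤ C * m + C * m := h2
    _ = 2 * C * m := by ring

/-- **Leaf C1.** -/
theorem sh66 [IsProbabilityMeasure ρ] (hd : 0 < d) (hρ : EM ρ) (β : ℝ) : Sh0 d ρ β :=
  shH66 hd hρ β 0

end Pool.Agent.W_7d29a1_LOC
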