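import Pool.Agent.W_7d29a1_LOC.DefsL99
import Pool.Agent.W_7d29a1_V.Tr70
import Pool.Agent.W_7d29a1_Q29.Qf39

/-!
Theorem LOC in the letters of the problem: one ball of bounded radius carries almost all the mass,
at every time, at most lengths.
-/

set_option autoImplicit false

namespace Pool.Agent.W_7d29a1_LOC

open MeasureTheory ProbabilityTheory Filter Topology Pool.Agent.W_MP_7d29a1_pr
  Pool.Agent.W_7d29a1_h46 Pool.Agent.W_7d29a1_h46u Pool.Agent.W_7d29a1_D2.B35
  Pool.Agent.W_7d29a1_Q29 Pool.Agent.W_7d29a1_NV Pool.Agent.W_7d29a1_AC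

variable {d : ℕ}

/-- The mass of the event `pos s t ∈ A` as a sum of marginals. -/
lemma pol_pos92 (β : ℝ) (h : Vec d) {n t : ℕ} (ht : t ≤ n) (η : Env d) (A : Set (Site d))
    [DecidablePred (· ∈ A)] :
    PolT β h η {s : Fin n → Step d | pos s t ∈ A} =
      ∑ y ∈ boxF d t, if y ∈ A then Qt β h n t y η else 0 := by
  classical
  have h1 : ∀ y : Site d, (if y ∈ A then Qt β h n t y η else 0) =
      (∑ s : Fin n → Step d, if pos s t = y then (if y ∈ A then wgt β h η s else 0) else 0) /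
        Z β h η n := by
    intro y
    by_cases hy : y ∈ A
    · rw [if_pos hy, Qt_eq39 β h ht]
      simp only [hy, if_true]
    · rw [if_neg hy]
      simp [hy]
  rw [Finset.sum_congr rfl fun y _ => h1 y, ← Finset.sum_div, Finset.sum_comm]
  unfold PolT
  congr 1
  unfold ZT
  refine Finset.sum_congr rfl fun s _ => ?_
  rw [Finset.sum_ite_eq, if_pos (pos_mem_boxF39 s le_rfl)]
  by_cases hs : pos s t ∈ A
  · rw [if_pos hs, if_pos]
    exact hs
  · rw [if_neg hs, if_neg]
    exact hs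

/-- The mass of the pairs of replicas at distance more than `L`. -/
noncomputable def pr92 (β : ℝ) (h : Vec d) (n t L : ℕ) (η : Env d) : ℝ :=
  ∑ x ∈ boxF d t, ∑ y ∈ boxF d t, (if L < W_7d29a1_V.l1 (x - y) then
    Qt β h n t x η * Qt β h n t y η else 0)

lemma pr_meas92 (β : ℝ) (h : Vec d) (n t L : ℕ) : Measurable (pr92 (d := d) β h n t L) := by
  unfold pr92
  refine Finset.measurable_sum _ fun x _ => Finset.measurable_sum _ fun y _ => ?_
  split_ifs
  · exact (measurable_Qt39 β h n t x).mul (measurable_Qt39 β h n t y)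
  · exact measurable_const

lemma pr_nonneg92 (β : ℝ) (h : Vec d) (n t L : ℕ) (η : Env d) : 0 ≤ pr92 β h n t L η := by
  unfold pr92
  refine Finset.sum_nonneg fun x _ => Finset.sum_nonneg fun y _ => ?_
  split_ifs
  · exact mul_nonneg (Qt_nonneg39 β h n t x η) (Qt_nonneg39 β h n t y η)
  · exact le_rfl

lemma pr_le92 (hd : 0 < d) (β : ℝ) (h : Vec d) {n t : ℕ} (ht : t ≤ n) (L : ℕ) (η : Env d) :
    pr92 β h n t L η ≤ 1 := by
  have h1 := Qt_sum_box39 hd β h ht (le_refl t) η
  unfold pr92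
  calc ∑ x ∈ boxF d t, ∑ y ∈ boxF d t, (if L < W_7d29a1_V.l1 (x - y) then
        Qt β h n t x η * Qt β h n t y η else 0)
      ≤ ∑ x ∈ boxF d t, ∑ y ∈ boxF d t, Qt β h n t x η * Qt β h n t y η := by
        refine Finset.sum_le_sum fun x _ => Finset.sum_le_sum fun y _ => ?_
        split_ifs
        · exact le_rfl
        · exact mul_nonneg (Qt_nonneg39 β h n t x η) (Qt_nonneg39 β h n t y η)
    _ = 1 := by
        rw [← Finset.sum_mul_sum, h1, one_mul]

/-- The mass far from a site. -/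
lemma far92 (hd : 0 < d) (β : ℝ) (h : Vec d) {n t : ℕ} (ht : t ≤ n) (L : ℕ) (η : Env d)
    (x : Site d) :
    1 - PolT β h η {s : Fin n → Step d | ‖emb (pos s t) - emb x‖ ≤ L} ≤
      ∑ y ∈ boxF d t, if L < W_7d29a1_V.l1 (x - y) then Qt β h n t y η else 0 := by
  classical
  have h1 := Qt_sum_box39 hd β h ht (le_refl t) η
  have h2 := pol_pos92 β h ht η {y : Site d | ‖emb y - emb x‖ ≤ L}
  have h3 : {s : Fin n → Step d | pos s t ∈ {y : Site d | ‖emb y - emb x‖ ≤ L}} =
      {s : Fin n → Step d | ‖emb (pos s t) - emb x‖ ≤ L} := rfl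
  rw [h3] at h2
  rw [h2, ← h1, ← Finset.sum_sub_distrib]
  refine Finset.sum_le_sum fun y _ => ?_
  by_cases hy : y ∈ {y : Site d | ‖emb y - emb x‖ ≤ L}
  · rw [if_pos hy, sub_self]
    split_ifs
    · exact Qt_nonneg39 β h n t y η
    · exact le_rfl
  · rw [if_neg hy, sub_zero, if_pos]
    have hy' : (L : ℝ) < ‖emb y - emb x‖ := lt_of_not_ge hy
    have h4 : emb x - emb y = emb (x - y) := by
      rw [sub_eq_iff_eq_add, ← Walk_emb_add, sub_add_cancel]
    rw [norm_sub_rev, h4] at hy'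
    have h5 := W_7d29a1_V.Tr70.norm_emb_le (x - y)
    exact_mod_cast hy'.trans_le h5

/-- The mass of the pairs is the mean of the mass far from a replica. -/
lemma pr_eq92 (β : ℝ) (h : Vec d) (n t L : ℕ) (η : Env d) : pr92 β h n t L η =
    ∑ x ∈ boxF d t, Qt β h n t x η *
      ∑ y ∈ boxF d t, if L < W_7d29a1_V.l1 (x - y) then Qt β h n t y η else 0 := by
  unfold pr92
  refine Finset.sum_congr rfl fun x _ => ?_
  rw [Finset.mul_sum]
  refine Finset.sum_congr rfl fun y _ => ?_
  rw [mul_ite, mul_zero]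

lemma box_ne92 (t : ℕ) : (boxF d t).Nonempty := ⟨0, by
  rw [mem_boxF]
  intro i
  simp⟩

/-- The largest mass of a ball. -/
noncomputable def mb92 (β : ℝ) (h : Vec d) (n t L : ℕ) (η : Env d) : ℝ :=
  (boxF d t).sup' (box_ne92 t) fun x =>
    PolT β h η {s : Fin n → Step d | ‖emb (pos s t) - emb x‖ ≤ L}

lemma mb_meas92 (β : ℝ) (h : Vec d) (n t L : ℕ) : Measurable (mb92 (d := d) β h n t L) := by
  unfold mb92
  have e := Finset.measurable_sup' (box_ne92 (d := d) t)
    (f := fun x (η : Env d) => PolT β h η {s : Fin n → Step d | ‖emb (pos s t) - emb x‖ ≤ L})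
    fun x _ => measurable_PolT β h _
  convert e using 1
  funext η
  rw [Finset.sup'_apply]

/-- **One ball carries all but the mass of the distant pairs.** -/
lemma mb_ge92 (hd : 0 < d) (β : ℝ) (h : Vec d) {n t : ℕ} (ht : t ≤ n) (L : ℕ) (η : Env d) :
    1 - mb92 β h n t L η ≤ pr92 β h n t L η := by
  have h1 := Qt_sum_box39 hd β h ht (le_refl t) η
  rw [pr_eq92]
  calc 1 - mb92 β h n t L η = ∑ x ∈ boxF d t, Qt β h n t x η * (1 - mb92 β h n t L η) := by
        rw [← Finset.sum_mul, h1, one_mul]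
    _ ≤ _ := by
        refine Finset.sum_le_sum fun x hx => ?_
        refine mul_le_mul_of_nonneg_left ?_ (Qt_nonneg39 β h n t x η)
        refine le_trans ?_ (far92 hd β h ht L η x)
        have h2 := Finset.le_sup' (fun x =>
          PolT β h η {s : Fin n → Step d | ‖emb (pos s t) - emb x‖ ≤ L}) hx
        unfold mb92
        linarith

/-- The centre of the best ball. -/
lemma arg92 (β : ℝ) (h : Vec d) (n t L : ℕ) (η : Env d) : ∃ x : Site d,
    PolT β h η {s : Fin n → Step d | ‖emb (pos s t) - emb x‖ ≤ L} = mb92 β h n t L η := by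
  obtain ⟨x, -, hx⟩ := Finset.exists_mem_eq_sup' (box_ne92 (d := d) t) fun x =>
    PolT β h η {s : Fin n → Step d | ‖emb (pos s t) - emb x‖ ≤ L}
  exact ⟨x, hx.symm⟩

section

variable {ρ : Measure ℝ} [IsProbabilityMeasure ρ] {β : ℝ} {Ω : Type*} [MeasurableSpace Ω]
  {μ : Measure Ω} [IsProbabilityMeasure μ] {ω : ℕ × Site d → Ω → ℝ}

/-- The ball at one length and one time. -/
lemma ball92 (hd : 0 < d) (hω : IID μ ρ ω) (h : Vec d) {n t : ℕ} (ht : t ≤ n) (L : ℕ) :
    ∃ c : Ω → Vec d, 1 - ∫ η, pr92 β h n t L η ∂(law d ρ) ≤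
      ∫ x, PolT β h (fun p => ω p x) {s : Fin n → Step d | ‖emb (pos s t) - c x‖ ≤ L} ∂μ := by
  choose c hc using fun η : Env d => arg92 β h n t L η
  refine ⟨fun x => emb (c fun p => ω p x), ?_⟩
  have e1 : (fun x => PolT β h (fun p => ω p x) {s : Fin n → Step d |
      ‖emb (pos s t) - emb (c fun p => ω p x)‖ ≤ L}) =
      fun x => mb92 β h n t L (fun p => ω p x) := by
    funext x
    exact hc _
  rw [e1, StrA_int hω (mb_meas92 β h n t L)]
  have i1 : Integrable (pr92 β h n t L) (law d ρ) := by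
    refine Integrable.of_bound (pr_meas92 β h n t L).aestronglyMeasurable 1
      (Eventually.of_forall fun η => ?_)
    rw [Real.norm_eq_abs, abs_of_nonneg (pr_nonneg92 β h n t L η)]
    exact pr_le92 hd β h ht L η
  have h0 : ∀ η : Env d, 0 ≤ mb92 β h n t L η ∧ mb92 β h n t L η ≤ 1 := by
    intro η
    obtain ⟨x, hx⟩ := arg92 β h n t L η
    rw [← hx]
    exact ⟨PolT_nonneg β h η _, PolT_le_one β h η _⟩
  have i2 : Integrable (mb92 β h n t L) (law d ρ) := by
    refine Integrable.of_bound (mb_meas92 β h n t L).aestronglyMeasurable 1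
      (Eventually.of_forall fun η => ?_)
    rw [Real.norm_eq_abs, abs_of_nonneg (h0 η).1]
    exact (h0 η).2
  have h1 : ∫ η, (1 - pr92 β h n t L η) ∂(law d ρ) ≤ ∫ η, mb92 β h n t L η ∂(law d ρ) := by
    refine integral_mono ((integrable_const _).sub i1) i2 fun η => ?_
    have := mb_ge92 hd β h ht L η
    simp only
    linarith
  rw [integral_sub (integrable_const _) i1, integral_const, probReal_univ, one_smul] at h1
  exact h1

open Classical in
/-- **Theorem LOC in the letters of the problem**: for all but `κ N` of the lengths `n` in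
`[N, 2 N)`, at all times `t ≤ n`, a (random) ball of radius `L` has mass more than `1 - κ` in
mean. -/
theorem trL92 (hd : 0 < d) (hω : IID μ ρ ω) {h : Vec d} (hM : MainL d ρ β h) :
    ∀ κ : ℝ, 0 < κ → ∃ L : ℝ, ∀ᶠ N : ℕ in atTop,
      (((Finset.Ico N (2 * N)).filter fun n => ∃ t ≤ n, ∀ c : Ω → Vec d,
        ∫ x, PolT β h (fun p => ω p x) {s : Fin n → Step d | ‖emb (pos s t) - c x‖ ≤ L} ∂μ ≤
          1 - κ).card : ℝ) ≤ κ * N := by
  intro κ hκ
  obtain ⟨L, N₀, hN⟩ := hM (κ / 2) (by linarith)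
  refine ⟨L, ?_⟩
  filter_upwards [eventually_ge_atTop N₀] with N hN'
  have h1 := hN N hN'
  have h2 : κ / 2 * (N : ℝ) ≤ κ * N := by
    have := Nat.cast_nonneg (α := ℝ) N
    nlinarith
  refine le_trans ?_ (h1.trans h2)
  have h3 : ((Finset.Ico N (2 * N)).filter fun n => ∃ t ≤ n, ∀ c : Ω → Vec d,
        ∫ x, PolT β h (fun p => ω p x) {s : Fin n → Step d | ‖emb (pos s t) - c x‖ ≤ L} ∂μ ≤
          1 - κ) ⊆
      ((Finset.Ico N (2 * N)).filter fun n => ∃ t : ℕ, t ≤ n ∧
        κ / 2 < ∫ η, ∑ x ∈ boxF d t, ∑ y ∈ boxF d t, (if L < W_7d29a1_V.l1 (x - y) then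
          Qt β h n t x η * Qt β h n t y η else 0) ∂(law d ρ)) := by
    intro n hn
    rw [Finset.mem_filter] at hn ⊢
    obtain ⟨hn1, t, ht, hc⟩ := hn
    refine ⟨hn1, t, ht, ?_⟩
    obtain ⟨c, hc'⟩ := ball92 (β := β) hd hω h ht L
    have h4 := hc c
    have h5 : ∫ η, pr92 β h n t L η ∂(law d ρ) = ∫ η, ∑ x ∈ boxF d t, ∑ y ∈ boxF d t,
        (if L < W_7d29a1_V.l1 (x - y) then
          Qt β h n t x η * Qt β h n t y η else 0) ∂(law d ρ) := rfl
    rw [← h5]
    linarith
  exact_mod_cast Finset.card_le_card h3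

/-- Sums over one replica are sums over its position. -/
lemma one_rep92 (β : ℝ) (h : Vec d) {n t : ℕ} (ht : t ≤ n) (η : Env d) (f : Site d → ℝ) :
    ∑ s : Fin n → Step d, PolT β h η {s} * f (pos s t) =
      ∑ y ∈ boxF d t, Qt β h n t y η * f y := by
  classical
  have h1 : ∀ y : Site d, Qt β h n t y η * f y =
      (∑ s : Fin n → Step d, if pos s t = y then wgt β h η s * f (pos s t) else 0) /
        Z β h η n := by
    intro y
    rw [Qt_eq39 β h ht, div_mul_eq_mul_div, Finset.sum_mul]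
    congr 1
    refine Finset.sum_congr rfl fun s _ => ?_
    split_ifs with hs
    · rw [hs]
    · rw [zero_mul]
  have h2 : ∀ s : Fin n → Step d, PolT β h η {s} * f (pos s t) =
      wgt β h η s * f (pos s t) / Z β h η n := by
    intro s
    have h3 : ZT β h η ({s} : Set (Fin n → Step d)) = wgt β h η s := by
      unfold ZT
      simp only [Set.mem_singleton_iff]
      rw [Finset.sum_ite_eq' Finset.univ s, if_pos (Finset.mem_univ _)]
    unfold PolT
    rw [h3, div_mul_eq_mul_div]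
    rfl
  rw [Finset.sum_congr rfl fun y _ => h1 y, Finset.sum_congr rfl fun s _ => h2 s,
    ← Finset.sum_div, ← Finset.sum_div, Finset.sum_comm]
  congr 1
  refine Finset.sum_congr rfl fun s _ => ?_
  rw [Finset.sum_ite_eq, if_pos (pos_mem_boxF39 s le_rfl)]

/-- The mass of the pairs of replicas at distance more than `L`. -/
lemma two_rep92 (β : ℝ) (h : Vec d) {n t : ℕ} (ht : t ≤ n) (L : ℕ) (η : Env d) :
    ∑ s : Fin n → Step d, PolT β h η {s} *
      PolT β h η {s' : Fin n → Step d | (L : ℝ) < ‖emb (pos s t) - emb (pos s' t)‖} ≤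
      pr92 β h n t L η := by
  classical
  rw [one_rep92 β h ht η fun y =>
    PolT β h η {s' : Fin n → Step d | (L : ℝ) < ‖emb y - emb (pos s' t)‖}, pr_eq92]
  refine Finset.sum_le_sum fun x _ => mul_le_mul_of_nonneg_left ?_ (Qt_nonneg39 β h n t x η)
  have h2 := pol_pos92 β h ht η {y : Site d | (L : ℝ) < ‖emb x - emb y‖}
  have h3 : {s : Fin n → Step d | pos s t ∈ {y : Site d | (L : ℝ) < ‖emb x - emb y‖}} =
      {s : Fin n → Step d | (L : ℝ) < ‖emb x - emb (pos s t)‖} := rfl
  rw [h3] at h2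
  rw [h2]
  refine Finset.sum_le_sum fun y _ => ?_
  by_cases hy : y ∈ {y : Site d | (L : ℝ) < ‖emb x - emb y‖}
  · rw [if_pos hy, if_pos]
    have hy' : (L : ℝ) < ‖emb x - emb y‖ := hy
    have h4 : emb x - emb y = emb (x - y) := by
      rw [sub_eq_iff_eq_add, ← Walk_emb_add, sub_add_cancel]
    rw [h4] at hy'
    have h5 := W_7d29a1_V.Tr70.norm_emb_le (x - y)
    exact_mod_cast hy'.trans_le h5
  · rw [if_neg hy]
    split_ifs
    · exact Qt_nonneg39 β h n t y η
    · exact le_rfl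

open Classical in
/-- **Theorem LOC, two replicas**: for all but `κ N` of the lengths `n` in `[N, 2 N)`, at all times
`t ≤ n`, two replicas are at distance at most `L` with probability at least `1 - κ` in mean. -/
theorem trLr92 (hd : 0 < d) (hω : IID μ ρ ω) {h : Vec d} (hM : MainL d ρ β h) :
    ∀ κ : ℝ, 0 < κ → ∃ L : ℝ, ∀ᶠ N : ℕ in atTop,
      (((Finset.Ico N (2 * N)).filter fun n => ∃ t ≤ n, κ < ∫ x, ∑ s : Fin n → Step d,
        PolT β h (fun p => ω p x) {s} * PolT β h (fun p => ω p x)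
          {s' : Fin n → Step d | L < ‖emb (pos s t) - emb (pos s' t)‖} ∂μ).card : ℝ) ≤ κ * N := by
  intro κ hκ
  obtain ⟨L, N₀, hN⟩ := hM κ hκ
  refine ⟨L, ?_⟩
  filter_upwards [eventually_ge_atTop N₀] with N hN'
  refine le_trans ?_ (hN N hN')
  have h3 : ((Finset.Ico N (2 * N)).filter fun n => ∃ t ≤ n, κ < ∫ x, ∑ s : Fin n → Step d,
        PolT β h (fun p => ω p x) {s} * PolT β h (fun p => ω p x)
          {s' : Fin n → Step d | (L : ℝ) < ‖emb (pos s t) - emb (pos s' t)‖} ∂μ) ⊆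
      ((Finset.Ico N (2 * N)).filter fun n => ∃ t : ℕ, t ≤ n ∧
        κ < ∫ η, ∑ x ∈ boxF d t, ∑ y ∈ boxF d t, (if L < W_7d29a1_V.l1 (x - y) then
          Qt β h n t x η * Qt β h n t y η else 0) ∂(law d ρ)) := by
    intro n hn
    rw [Finset.mem_filter] at hn ⊢
    obtain ⟨hn1, t, ht, hc⟩ := hn
    refine ⟨hn1, t, ht, lt_of_lt_of_le hc ?_⟩
    have hm : Measurable fun η : Env d => ∑ s : Fin n → Step d, PolT β h η {s} *
        PolT β h η {s' : Fin n → Step d | (L : ℝ) < ‖emb (pos s t) - emb (pos s' t)‖} :=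
      Finset.measurable_sum _ fun s _ => (measurable_PolT β h _).mul (measurable_PolT β h _)
    have e := StrA_int hω hm
    rw [e]
    have i1 : Integrable (pr92 β h n t L) (law d ρ) := by
      refine Integrable.of_bound (pr_meas92 β h n t L).aestronglyMeasurable 1
        (Eventually.of_forall fun η => ?_)
      rw [Real.norm_eq_abs, abs_of_nonneg (pr_nonneg92 β h n t L η)]
      exact pr_le92 hd β h ht L η
    have h0 : ∀ η : Env d, 0 ≤ ∑ s : Fin n → Step d, PolT β h η {s} *
        PolT β h η {s' : Fin n → Step d | (L : ℝ) < ‖emb (pos s t) - emb (pos s' t)‖} :=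
      fun η => Finset.sum_nonneg fun s _ =>
        mul_nonneg (PolT_nonneg β h η _) (PolT_nonneg β h η _)
    exact integral_mono_of_nonneg (Eventually.of_forall h0) i1
      (Eventually.of_forall fun η => two_rep92 β h ht L η)
  exact_mod_cast Finset.card_le_card h3

end

end Pool.Agent.W_7d29a1_LOC
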