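import Pool.Agent.W_7d29a1_LOC.DefsL99
import Pool.Agent.W_7d29a1_AC.TvB77
import Pool.Agent.W_7d29a1_NV.Chn20

/-!
Theorem LOC, leaf T: the dependence of the position at the separator on the block.
-/

set_option autoImplicit false

namespace Pool.Agent.W_7d29a1_LOC

open MeasureTheory ProbabilityTheory Filter Topology Pool.Agent.W_MP_7d29a1_pr
  Pool.Agent.W_7d29a1_h46 Pool.Agent.W_7d29a1_h46u Pool.Agent.W_7d29a1_D2.B35
  Pool.Agent.W_7d29a1_Q29 Pool.Agent.W_7d29a1_P89 Pool.Agent.W_7d29a1_P78 Pool.Agent.W_7d29a1_NV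
  Pool.Agent.W_7d29a1_AC

variable {d : ℕ} {ρ : Measure ℝ} {β b : ℝ}

/-- The marginal at the first separator. -/
lemma marg_tv77 (β : ℝ) (h : Vec d) {n t J r₀ r₁ : ℕ} (hJ : 1 ≤ J) (h1 : r₀ ≤ t)
    (h2 : t + J ≤ r₁) (h3 : r₁ ≤ n) (η η' : Env d) :
    ∑ x ∈ boxF d r₀, |Qt β h n r₀ x η - Qt β h n r₀ x η'| ≤
      tvS77 β h n (![r₀, r₁] : Fin 2 → ℕ) η η' := by
  classical
  have hO : Ord n (fun _ : Fin 1 => t + J) (![r₀, r₁] : Fin 2 → ℕ) := by
    refine ⟨fun i => ?_, h3⟩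
    rw [Fin.fin_one_eq_zero i]
    exact ⟨show r₀ < t + J by omega, h2⟩
  have hsub : boxF d r₀ ⊆ boxF d n := by
    intro x hx
    rw [mem_boxF] at hx ⊢
    intro i
    have h4 := hx i
    have h5 : (r₀ : ℤ) ≤ n := by exact_mod_cast (by omega : r₀ ≤ n)
    exact h4.trans (by exact_mod_cast h5)
  have h4 : ∀ (ζ : Env d) (x : {x : Site d // x ∈ boxF d n}), Qt β h n r₀ x ζ =
      ∑ s : Sp d n 1, if s 0 = x then msp β h n (![r₀, r₁] : Fin 2 → ℕ) s ζ else 0 := by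
    intro ζ x
    exact ((K20.marT20 (d := d) β h n 1 _ _ hO ζ x).1).symm
  calc ∑ x ∈ boxF d r₀, |Qt β h n r₀ x η - Qt β h n r₀ x η'|
      ≤ ∑ x ∈ boxF d n, |Qt β h n r₀ x η - Qt β h n r₀ x η'| :=
        Finset.sum_le_sum_of_subset_of_nonneg hsub fun x _ _ => abs_nonneg _
    _ = ∑ x : {x : Site d // x ∈ boxF d n}, |Qt β h n r₀ x η - Qt β h n r₀ x η'| :=
        (Finset.sum_coe_sort (boxF d n) fun x => |Qt β h n r₀ x η - Qt β h n r₀ x η'|).symm
    _ ≤ ∑ x : {x : Site d // x ∈ boxF d n}, ∑ s : Sp d n 1,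
          (if s 0 = x then |msp β h n (![r₀, r₁] : Fin 2 → ℕ) s η -
            msp β h n (![r₀, r₁] : Fin 2 → ℕ) s η'| else 0) := by
        refine Finset.sum_le_sum fun x _ => ?_
        rw [h4 η x, h4 η' x, ← Finset.sum_sub_distrib]
        refine (Finset.abs_sum_le_sum_abs _ _).trans (Finset.sum_le_sum fun s _ => ?_)
        split_ifs
        · exact le_rfl
        · simp
    _ = tvS77 β h n (![r₀, r₁] : Fin 2 → ℕ) η η' := by
        rw [Finset.sum_comm]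
        unfold tvS77
        refine Finset.sum_congr rfl fun s _ => ?_
        rw [Finset.sum_ite_eq, if_pos (Finset.mem_univ _)]

/-- **Leaf T.** -/
theorem tvM77 [IsProbabilityMeasure ρ] (hd : 0 < d) (hb : HB ρ b) : TvM d ρ β b := by
  intro h n t J r₀ r₁ hJ h1 h2 h3 a M s hM hs hk
  have hP := prob_rb31 hb
  have hO : OrdB n J (fun _ : Fin 1 => t) (![r₀, r₁] : Fin 2 → ℕ) := by
    refine ⟨fun i => ?_, h3⟩
    rw [Fin.fin_one_eq_zero i]
    exact ⟨h1, h2⟩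
  have hr' : ∀ i : Fin 1, (![r₀, r₁] : Fin 2 → ℕ) i.castSucc ≤ (![r₀, r₁] : Fin 2 → ℕ) i.succ := by
    intro i
    rw [Fin.fin_one_eq_zero i]
    exact h1.trans ((Nat.le_add_right _ _).trans h2)
  have h4 := tvB77 hd hb h n 1 J (fun _ => t) (![r₀, r₁] : Fin 2 → ℕ) hJ hO 0 a M s hM hs
    fun l hl hl' => hk l hl hl'
  change (∫ η in win β h n a M, ∫ ξ, tvS77 β h n (![r₀, r₁] : Fin 2 → ℕ) η (mxR b t J η ξ)
    ∂(law d (rb ρ b)) ∂(law d ρ)) ≤ J * Real.sqrt (2 * s) at h4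
  have tvb : ∀ ζ ζ' : Env d, |tvS77 β h n (![r₀, r₁] : Fin 2 → ℕ) ζ ζ'| ≤ 2 := fun ζ ζ' => by
    rw [abs_of_nonneg (tvS_nonneg77 β h n _ ζ ζ')]
    exact tvS_le77 β h _ hr' h3 hd ζ ζ'
  have m1 := measurable_tvR77 hb β h n (![r₀, r₁] : Fin 2 → ℕ) t J
  have i1 : ∀ η : Env d, Integrable (fun ξ : Env d =>
      tvS77 β h n (![r₀, r₁] : Fin 2 → ℕ) η (mxR b t J η ξ)) (law d (rb ρ b)) := fun η =>
    Integrable.of_bound (slice77 (F := fun η ξ => tvS77 β h n (![r₀, r₁] : Fin 2 → ℕ) η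
      (mxR b t J η ξ)) m1 η).aestronglyMeasurable 2 (Eventually.of_forall fun ξ => by
        rw [Real.norm_eq_abs]
        exact tvb _ _)
  have m8 : Measurable fun η : Env d => ∫ ξ, tvS77 β h n (![r₀, r₁] : Fin 2 → ℕ) η
      (mxR b t J η ξ) ∂(law d (rb ρ b)) := (StronglyMeasurable.integral_prod_right
        (f := fun η ξ => tvS77 β h n (![r₀, r₁] : Fin 2 → ℕ) η (mxR b t J η ξ))
          m1.stronglyMeasurable).measurable
  have i8 : Integrable (fun η : Env d => ∫ ξ, tvS77 β h n (![r₀, r₁] : Fin 2 → ℕ) η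
      (mxR b t J η ξ) ∂(law d (rb ρ b))) (law d ρ) :=
    Integrable.of_bound m8.aestronglyMeasurable 2 (Eventually.of_forall fun η => by
      have h2 := norm_integral_le_of_norm_le_const (μ := law d (rb ρ b))
        (f := fun ξ => tvS77 β h n (![r₀, r₁] : Fin 2 → ℕ) η (mxR b t J η ξ)) (C := 2)
        (Eventually.of_forall fun ξ => by
          rw [Real.norm_eq_abs]
          exact tvb _ _)
      rwa [probReal_univ, mul_one] at h2)
  refine le_trans ?_ h4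
  exact integral_mono_of_nonneg (Eventually.of_forall fun η => integral_nonneg fun ξ =>
    Finset.sum_nonneg fun x _ => abs_nonneg _) i8.integrableOn
    (Eventually.of_forall fun η => integral_mono_of_nonneg (Eventually.of_forall fun ξ =>
      Finset.sum_nonneg fun x _ => abs_nonneg _) (i1 η)
      (Eventually.of_forall fun ξ => marg_tv77 β h hJ h1 h2 h3 η (mxR b t J η ξ)))

end Pool.Agent.W_7d29a1_LOC
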