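import Pool.Agent.W_7d29a1_LOC.DefsL99
import Pool.Agent.W_7d29a1_AC.ZlowC86

/-!
Leaf C4 of Theorem LOC: the averaged partition function from below, with a random level.
-/

set_option autoImplicit false

namespace Pool.Agent.W_7d29a1_LOC

open MeasureTheory ProbabilityTheory Filter Topology Pool.Agent.W_MP_7d29a1_pr
  Pool.Agent.W_7d29a1_h46 Pool.Agent.W_7d29a1_h46u Pool.Agent.W_7d29a1_D2.B35
  Pool.Agent.W_7d29a1_Q29 Pool.Agent.W_7d29a1_Q29.Csy42 Pool.Agent.W_7d29a1_NV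
  Pool.Agent.W_7d29a1_NV.Eq41 Pool.Agent.W_7d29a1_AC Pool.Agent.W_7d29a1_AC.EqB41
  Pool.Agent.W_7d29a1_AC.Z86

variable {d : ℕ} {ρ : Measure ℝ} {β : ℝ}

open Classical in
/-- **Leaf C4 of Theorem LOC.** -/
theorem zlowR86 [IsProbabilityMeasure ρ] (hd : 0 < d) (hρ : EM ρ) (hnc : ∀ c : ℝ, ρ {c} ≠ 1)
    (hβ : 0 < β) : ZlowR d ρ β := by
  intro h ϑ hϑ
  have hT := tendsto_c021 hρ hβ.ne'
  have hε : 0 < min 1 (ϑ / 2) := lt_min one_pos (by positivity)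
  have h1 : ∀ᶠ b in atTop, |β * c0 ρ β b - cb ρ β| < min 1 (ϑ / 2) := by
    have h2 := (Metric.tendsto_nhds.1 hT) (min 1 (ϑ / 2)) hε
    filter_upwards [h2] with b hb
    rwa [Real.dist_eq] at hb
  have h3 : ∀ᶠ b in atTop, ∫ v, el ρ β b v ∂ρ < ϑ ^ 2 / 4 :=
    (el_lim86 hρ β).eventually (gt_mem_nhds (by positivity))
  obtain ⟨b₃, hb₃⟩ := eventually_atTop.1 ((eventually_HB21 hnc).and (h1.and h3))
  refine ⟨b₃, fun b hb J t n a R hJ ht => ?_⟩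
  obtain ⟨hHB, hcb, hel⟩ := hb₃ b hb
  have hc : |β * c0 ρ β b - cb ρ β| ≤ 1 := hcb.le.trans (min_le_left _ _)
  have hc2 : |β * c0 ρ β b - cb ρ β| ≤ ϑ / 2 := hcb.le.trans (min_le_right _ _)
  obtain ⟨m, rfl⟩ := Nat.exists_eq_add_of_le ht
  have hint := el_int86 (ρ := ρ) hρ β b
  have hDi := D86_int hd hint h J t m
  have hPhi : 0 < Phi h := Phi_pos61 hd h
  have hPJ : 0 < Phi h ^ J := pow_pos hPhi J
  have hJ0 : (0 : ℝ) < J := by exact_mod_cast hJ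
  have hM := mul_meas_ge_le_integral_of_nonneg
    (Filter.Eventually.of_forall fun η => D86_nonneg hd ρ β b h J t m η) hDi.1
    (Phi h ^ J * (ϑ * J / 4))
  have hsub : {η : Env d | Phi h ^ J / 2 ≤
        (∑ z ∈ boxF d J, if |X β h (remE J t z η) (t + m) - a η| ≤ R then
          PP β h (fun _ => 0) J z else 0) ∧
      Real.log (zB ρ β b h (t + m + J) t J η) <
        a η - R + J * (Real.log (Phi h) + Real.log (∫ x, Real.exp (β * x) ∂ρ)) - ϑ * J - 1} ⊆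
      {η | Phi h ^ J * (ϑ * J / 4) ≤ D86 ρ β b h J t m η} := by
    intro η hη
    obtain ⟨hg, hl⟩ := hη
    have h5 := path_low86 hd hβ hHB hc h J t m (a η) R η hg
    have h6 : a η - R + J * (Real.log (Phi h) + β * c0 ρ β b) - Real.log 2 -
        2 * D86 ρ β b h J t m η / Phi h ^ J <
        a η - R + J * (Real.log (Phi h) + cb ρ β) - ϑ * J - 1 := lt_of_le_of_lt h5 hl
    have h7 := Real.log_two_lt_d9
    have h8 := mul_le_mul_of_nonneg_left (abs_le.1 hc2).1 hJ0.le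
    have h9 : ϑ * J / 2 < 2 * D86 ρ β b h J t m η / Phi h ^ J := by nlinarith
    rw [lt_div_iff₀ hPJ] at h9
    show Phi h ^ J * (ϑ * J / 4) ≤ D86 ρ β b h J t m η
    linarith
  refine (measureReal_mono hsub).trans ?_
  rw [hDi.2] at hM
  have hM' : Phi h ^ J * (ϑ * J / 4) *
      (law d ρ).real {η | Phi h ^ J * (ϑ * J / 4) ≤ D86 ρ β b h J t m η} ≤
      Phi h ^ J * (J * ∫ v, el ρ β b v ∂ρ) := hM
  have h10 : Phi h ^ J * (J * ∫ v, el ρ β b v ∂ρ) ≤ Phi h ^ J * (ϑ * J / 4) * ϑ := by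
    have h11 : J * ∫ v, el ρ β b v ∂ρ ≤ J * (ϑ ^ 2 / 4) :=
      mul_le_mul_of_nonneg_left hel.le hJ0.le
    calc Phi h ^ J * (J * ∫ v, el ρ β b v ∂ρ) ≤ Phi h ^ J * (J * (ϑ ^ 2 / 4)) :=
          mul_le_mul_of_nonneg_left h11 hPJ.le
      _ = Phi h ^ J * (ϑ * J / 4) * ϑ := by ring
  exact le_of_mul_le_mul_left (hM'.trans h10) (by positivity)

end Pool.Agent.W_7d29a1_LOC
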