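import Pool.Agent.W_7d29a1_LOC.AbsF99
import Pool.Agent.W_7d29a1_LOC.FarB66
import Pool.Agent.W_7d29a1_LOC.LocH86
import Pool.Agent.W_7d29a1_LOC.Luck21
import Pool.Agent.W_7d29a1_LOC.MainL86
import Pool.Agent.W_7d29a1_LOC.Med64
import Pool.Agent.W_7d29a1_LOC.MulH89
import Pool.Agent.W_7d29a1_LOC.Ret67
import Pool.Agent.W_7d29a1_LOC.RowsU92
import Pool.Agent.W_7d29a1_LOC.Sh66
import Pool.Agent.W_7d29a1_LOC.TrL92
import Pool.Agent.W_7d29a1_LOC.TvM77
import Pool.Agent.W_7d29a1_LOC.Up67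
import Pool.Agent.W_7d29a1_LOC.ZlowR86
import Pool.Agent.W_7d29a1_AC.OneC30
import Pool.Agent.W_7d29a1_SDP.GainU94
import Pool.Agent.W_7d29a1_NV.BigB21

/-!
Theorem LOC (one region), unconditional: in every dimension, at force zero in very strong disorder,
for most lengths `n` and all times `t <= n`, the position at time `t` is localised in one ball of
bounded radius.
-/

set_option autoImplicit false

namespace Pool.Agent.W_7d29a1_LOC

open MeasureTheory ProbabilityTheory Filter Topology Pool.Agent.W_MP_7d29a1_pr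
  Pool.Agent.W_7d29a1_h46 Pool.Agent.W_7d29a1_h46u Pool.Agent.W_7d29a1_D2.B35
  Pool.Agent.W_7d29a1_Q29 Pool.Agent.W_7d29a1_P89 Pool.Agent.W_7d29a1_P78 Pool.Agent.W_7d29a1_NV
  Pool.Agent.W_7d29a1_AC

/-- **Theorem LOC at a tilt**, from the multiplicity and the localisation of the blocks. -/
theorem mainT99 {d : ℕ} {ρ : Measure ℝ} [IsProbabilityMeasure ρ] {β : ℝ} (hd : 0 < d)
    (hρ : EM ρ) (hnc : ∀ c : ℝ, ρ {c} ≠ 1) (hβ : 0 < β) {h : Vec d} (hV : VSD ρ β h)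
    (hL : LuckH d ρ β h) (hB : LocH d ρ β h) : MainL d ρ β h :=
  mainL86 hd hρ (eventually_atTop.1 (eventually_HB21 hnc)) hV
    (mulH89 hd hρ hL (W_7d29a1_SDP.gainU94 hd β))
    (fun _ hb => rowsU92 hd hb (oneC30 hd hβ hb)) (fun _ hb => tvM77 hd hb)
    (fun _ hb => farP66 absF99 hd β hb) hB

/-- **Theorem LOC at force zero**: one region, in the whole phase of very strong disorder. -/
theorem main99 {d : ℕ} {ρ : Measure ℝ} [IsProbabilityMeasure ρ] {β : ℝ} (hd : 0 < d)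
    (hρ : EM ρ) (hnc : ∀ c : ℝ, ρ {c} ≠ 1) (hβ : 0 < β) (hV : VSD ρ β (0 : Vec d)) :
    MainL d ρ β (0 : Vec d) :=
  mainT99 hd hρ hnc hβ hV (luck0_21 hd hρ (ret67 hd hρ β) hV)
    (locH86 (zlowR86 hd hρ hnc hβ) (med64 hd hρ (sh66 hd hρ β)) (up67 hd hρ β))

end Pool.Agent.W_7d29a1_LOC
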