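import Pool.Agent.W_7d29a1_LOC.DefsL99

/-!
Theorem LOC: leaf C (`LocH` at force zero) from `ZlowR`, `Med0` and `Up0`.
-/

set_option autoImplicit false

namespace Pool.Agent.W_7d29a1_LOC

open MeasureTheory ProbabilityTheory Filter Topology Pool.Agent.W_MP_7d29a1_pr
  Pool.Agent.W_7d29a1_h46 Pool.Agent.W_7d29a1_h46u Pool.Agent.W_7d29a1_D2.B35
  Pool.Agent.W_7d29a1_Q29 Pool.Agent.W_7d29a1_P89 Pool.Agent.W_7d29a1_P78 Pool.Agent.W_7d29a1_NV
  Pool.Agent.W_7d29a1_AC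

/-- The blocks are localised in probability at force zero, at most lengths. -/
theorem locH1 {d : ℕ} {ρ : Measure ℝ} [IsProbabilityMeasure ρ] {β : ℝ} (hZ : ZlowR d ρ β)
    (hM : Med0 d ρ β) (hU : Up0 d ρ β) : LocH d ρ β 0 := by
  classical
  intro g κ hg hκ hlam
  obtain ⟨ϑ, hϑ, hϑg, hϑκ⟩ : ∃ ϑ : ℝ, 0 < ϑ ∧ ϑ ≤ g / 16 ∧ ϑ ≤ κ / 4 :=
    ⟨min (g / 16) (κ / 4), lt_min (by positivity) (by positivity), min_le_left _ _,
      min_le_right _ _⟩
  obtain ⟨b₃, hb₃⟩ := hZ 0 ϑ hϑ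
  obtain ⟨J₂, hJ₂⟩ := hM ϑ hϑ
  obtain ⟨J₃, hJ₃⟩ := hU ϑ hϑ
  refine ⟨b₃, fun b hb => ⟨max (max J₂ J₃) (max 1 ⌈4 / g⌉₊), fun J hJ hJe => ?_⟩⟩
  have hJ2 : J₂ ≤ J := le_trans (le_trans (le_max_left _ _) (le_max_left _ _)) hJ
  have hJ3 : J₃ ≤ J := le_trans (le_trans (le_max_right _ _) (le_max_left _ _)) hJ
  have hJ1 : 1 ≤ J := le_trans (le_trans (le_max_left _ _) (le_max_right _ _)) hJ
  have hJc : ⌈4 / g⌉₊ ≤ J := le_trans (le_trans (le_max_right _ _) (le_max_right _ _)) hJ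
  have hJg : 4 / g ≤ J := le_trans (Nat.le_ceil _) (by exact_mod_cast hJc)
  have hJg' : 1 ≤ g / 4 * J := by
    rw [div_le_iff₀ hg] at hJg
    linarith
  have hJ0 : (0 : ℝ) < J := by exact_mod_cast hJ1
  have hmed := hJ₂ J hJ2 hJe
  obtain ⟨N₀, hN₀⟩ := hJ₃ J hJ3 hJe
  refine ⟨N₀, fun N hN => ?_⟩
  have hkey : ∀ n t : ℕ, t ≤ n →
      (law d ρ).real {η | X β 0 (remE J t 0 η) n + (lam ρ β (0 : Vec d) + ϑ) * J <
        X β 0 η (n + J)} ≤ ϑ →
      (law d ρ).real {η | -(g / 2 * J) < X β 0 η (n + J) -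
        Real.log (zB ρ β b 0 (n + J) t J η)} ≤ κ := by
    intro n t ht hup
    have hm := hmed n t ht
    have hz := hb₃ b hb J t n (fun η => X β 0 (remE J t 0 η) n) (ϑ * J) hJ1 ht
    have hsub : {η : Env d | -(g / 2 * J) < X β 0 η (n + J) -
        Real.log (zB ρ β b 0 (n + J) t J η)} ⊆
        ({η : Env d | X β 0 (remE J t 0 η) n + (lam ρ β (0 : Vec d) + ϑ) * J <
          X β 0 η (n + J)} ∪
        {η : Env d | (∑ z ∈ boxF d J,
          if |X β 0 (remE J t z η) n - X β 0 (remE J t 0 η) n| ≤ ϑ * J then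
            PP β 0 (fun _ => 0) J z else 0) < Phi (0 : Vec d) ^ J / 2}) ∪
        {η : Env d | Phi (0 : Vec d) ^ J / 2 ≤ (∑ z ∈ boxF d J,
          if |X β 0 (remE J t z η) n - X β 0 (remE J t 0 η) n| ≤ ϑ * J then
            PP β 0 (fun _ => 0) J z else 0) ∧
          Real.log (zB ρ β b 0 (n + J) t J η) <
            X β 0 (remE J t 0 η) n - ϑ * J + J * (Real.log (Phi (0 : Vec d)) +
              Real.log (∫ x, Real.exp (β * x) ∂ρ)) - ϑ * J - 1} := by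
      intro η hx
      have hx' : -(g / 2 * J) < X β 0 η (n + J) - Real.log (zB ρ β b 0 (n + J) t J η) := hx
      by_contra hcon
      simp only [Set.mem_union, Set.mem_ofPred_eq, not_or, not_and, not_lt] at hcon
      obtain ⟨⟨h1, h2⟩, h3⟩ := hcon
      have h6 := h3 h2
      have h8 : (J : ℝ) * (lam ρ β (0 : Vec d) + g) ≤
          J * (Real.log (Phi (0 : Vec d)) + Real.log (∫ x, Real.exp (β * x) ∂ρ)) :=
        mul_le_mul_of_nonneg_left hlam hJ0.le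
      have h9 : ϑ * J ≤ g / 16 * J := mul_le_mul_of_nonneg_right hϑg hJ0.le
      nlinarith
    have hu1 := measureReal_union_le (μ := law d ρ)
      ({η : Env d | X β 0 (remE J t 0 η) n + (lam ρ β (0 : Vec d) + ϑ) * J <
          X β 0 η (n + J)} ∪
        {η : Env d | (∑ z ∈ boxF d J,
          if |X β 0 (remE J t z η) n - X β 0 (remE J t 0 η) n| ≤ ϑ * J then
            PP β 0 (fun _ => 0) J z else 0) < Phi (0 : Vec d) ^ J / 2})
      {η : Env d | Phi (0 : Vec d) ^ J / 2 ≤ (∑ z ∈ boxF d J,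
          if |X β 0 (remE J t z η) n - X β 0 (remE J t 0 η) n| ≤ ϑ * J then
            PP β 0 (fun _ => 0) J z else 0) ∧
          Real.log (zB ρ β b 0 (n + J) t J η) <
            X β 0 (remE J t 0 η) n - ϑ * J + J * (Real.log (Phi (0 : Vec d)) +
              Real.log (∫ x, Real.exp (β * x) ∂ρ)) - ϑ * J - 1}
    have hu2 := measureReal_union_le (μ := law d ρ)
      {η : Env d | X β 0 (remE J t 0 η) n + (lam ρ β (0 : Vec d) + ϑ) * J <
          X β 0 η (n + J)}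
      {η : Env d | (∑ z ∈ boxF d J,
          if |X β 0 (remE J t z η) n - X β 0 (remE J t 0 η) n| ≤ ϑ * J then
            PP β 0 (fun _ => 0) J z else 0) < Phi (0 : Vec d) ^ J / 2}
    have hmono := measureReal_mono (μ := law d ρ) hsub (measure_ne_top _ _)
    linarith
  have hcard := hN₀ N hN
  have hle : ((Finset.Ico N (2 * N)).filter fun n => ∃ t : ℕ, t ≤ n ∧
      ¬ (law d ρ).real {η | -(g / 2 * J) < X β 0 η (n + J) -
        Real.log (zB ρ β b 0 (n + J) t J η)} ≤ κ).card ≤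
      ((Finset.Ico N (2 * N)).filter fun n => ∃ t : ℕ, t ≤ n ∧
      ¬ (law d ρ).real {η | X β 0 (remE J t 0 η) n + (lam ρ β (0 : Vec d) + ϑ) * J <
        X β 0 η (n + J)} ≤ ϑ).card := by
    apply Finset.card_le_card
    intro n hn
    rw [Finset.mem_filter] at hn ⊢
    obtain ⟨hn1, t, ht, hnot⟩ := hn
    exact ⟨hn1, t, ht, fun hc => hnot (hkey n t ht hc)⟩
  have hN0 : (0 : ℝ) ≤ N := Nat.cast_nonneg N
  calc ((((Finset.Ico N (2 * N)).filter fun n => ∃ t : ℕ, t ≤ n ∧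
      ¬ (law d ρ).real {η | -(g / 2 * J) < X β 0 η (n + J) -
        Real.log (zB ρ β b 0 (n + J) t J η)} ≤ κ).card : ℕ) : ℝ) ≤
      (((Finset.Ico N (2 * N)).filter fun n => ∃ t : ℕ, t ≤ n ∧
      ¬ (law d ρ).real {η | X β 0 (remE J t 0 η) n + (lam ρ β (0 : Vec d) + ϑ) * J <
        X β 0 η (n + J)} ≤ ϑ).card : ℝ) := by exact_mod_cast hle
    _ ≤ ϑ * N := hcard
    _ ≤ κ * N := by nlinarith

end Pool.Agent.W_7d29a1_LOC
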