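import Pool.Agent.W_7d29a1_LOC.DefsL99
import Pool.Agent.W_7d29a1_SDP.MulU89
import Pool.Agent.W_7d29a1_AC.FlaC27

/-!
Theorem LOC, leaf C1: at force zero the shift of the future by `z` costs at most a multiple of its
length (two insertions which give the same environment).
-/

set_option autoImplicit false

namespace Pool.Agent.W_7d29a1_LOC

open MeasureTheory ProbabilityTheory Filter Topology Pool.Agent.W_MP_7d29a1_pr
  Pool.Agent.W_7d29a1_h46 Pool.Agent.W_7d29a1_h46u Pool.Agent.W_7d29a1_D2.B35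
  Pool.Agent.W_7d29a1_Q29 Pool.Agent.W_7d29a1_P89 Pool.Agent.W_7d29a1_P78 Pool.Agent.W_7d29a1_NV
  Pool.Agent.W_7d29a1_AC Pool.Agent.W_7d29a1_SDP

variable {d : ℕ} {ρ : Measure ℝ} [IsProbabilityMeasure ρ]

/-- The shifted environment has the law of the environment. -/
lemma mp_fsh51 (t : ℕ) (z : Site d) : MeasurePreserving (fsh t z) (law d ρ) (law d ρ) := by
  have h1 := LawU_reindex (ρ := ρ)
    (f := fun p : ℕ × Site d => if p.1 ≤ t then p else (p.1, p.2 + z)) (by
      rintro ⟨i, y⟩ ⟨j, w⟩ h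
      simp only at h
      by_cases h1 : i ≤ t <;> by_cases h2 : j ≤ t
      · simpa [h1, h2] using h
      · rw [if_pos h1, if_neg h2] at h
        have h3 := congrArg Prod.fst h
        simp only at h3
        omega
      · rw [if_neg h1, if_pos h2] at h
        have h3 := congrArg Prod.fst h
        simp only at h3
        omega
      · rw [if_neg h1, if_neg h2] at h
        simp only [Prod.mk.injEq, add_left_inj] at h
        exact Prod.ext h.1 h.2)
  have h2 : (fsh t z : Env d → Env d) =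
      fun (η : Env d) (p : ℕ × Site d) => η (if p.1 ≤ t then p else (p.1, p.2 + z)) := by
    funext η p
    unfold fsh
    split_ifs <;> rfl
  rw [h2]
  exact h1

/-- The two insertions give the same environment. -/
lemma ins_fsh51 (t m : ℕ) (z : Site d) (η ξ : Env d) :
    insE t m z (fsh t z η) ξ = insE t m 0 η ξ := by
  funext p
  unfold insE fsh
  by_cases h1 : p.1 ≤ t
  · simp only [if_pos h1]
  · by_cases h2 : p.1 ≤ t + m
    · simp only [if_neg h1, if_pos h2]
    · simp only [if_neg h1, if_neg h2]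
      rw [if_neg (show ¬ p.1 - m ≤ t by omega), sub_add_cancel, sub_zero]

/-- The mean loss of an insertion. -/
lemma los51 (hρ : EM ρ) (β : ℝ) (h : Vec d) {m : ℕ} {z : Site d} (hz : W_7d29a1_V.Rch m z) :
    Integrable (los89 β h 0 m z) (law d ρ) ∧
      ∫ η, los89 β h 0 m z η ∂(law d ρ) ≤ Cp ρ β h * m := by
  obtain ⟨q, hq⟩ := hz
  obtain ⟨h1, h2⟩ := cost92 (ρ := ρ) hρ β h q
  have hLi : Integrable (fun η : Env d => Real.log (PP β h η m z)) (law d ρ) :=
    (W_7d29a1_V.Conc42_exp hρ β h m ⟨q, hq⟩).1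
  have hli : Integrable (los89 β h 0 m z) (law d ρ) := by
    have h3 : Integrable (fun η : Env d => max 0 (0 * (m : ℝ) - Real.log (PP β h η m z)))
        (law d ρ) := (integrable_const (0 : ℝ)).sup ((integrable_const _).sub hLi)
    exact h3
  refine ⟨hli, (integral_mono hli h1 fun η => ?_).trans h2⟩
  unfold los89
  refine max_le (abs_nonneg _) ?_
  have h3 : wgt β h η q ≤ PP β h η m z := by
    have h6 : (@ite ℝ (q ∈ {s : Fin m → Step d | pos s m = z}) (Classical.propDecidable _)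
        (wgt β h η q) 0) ≤ PP β h η m z := by
      unfold PP ZT
      refine Finset.single_le_sum (f := fun s : Fin m → Step d =>
        @ite ℝ (s ∈ {s : Fin m → Step d | pos s m = z}) (Classical.propDecidable _)
          (wgt β h η s) 0) (fun s _ => ?_) (Finset.mem_univ q)
      split_ifs
      · exact (wgt_pos _ _ _ _).le
      · exact le_rfl
    rwa [if_pos (show q ∈ {s : Fin m → Step d | pos s m = z} from hq)] at h6
  have h4 := Real.log_le_log (wgt_pos β h η q) h3
  have h5 := neg_abs_le (Real.log (wgt β h η q))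
  show 0 * (m : ℝ) - Real.log (PP β h η m z) ≤ |Real.log (wgt β h η q)|
  rw [zero_mul]
  linarith

/-- The weighted loss. -/
noncomputable def lw51 (β : ℝ) (h : Vec d) (n t m : ℕ) (z : Site d) (w : Env d × Env d) : ℝ :=
  ∑ x ∈ boxF d t, Qt β h n t x w.1 * los89 β h 0 m z (sh t x w.2)

lemma lw_nonneg51 (hd : 0 < d) (β : ℝ) (h : Vec d) (n t m : ℕ) (z : Site d) (w : Env d × Env d) :
    0 ≤ lw51 β h n t m z w :=
  Finset.sum_nonneg fun x _ => mul_nonneg (S98.Qt_nonneg hd β h n t x w.1) (le_max_left _ _)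

lemma lw_int51 (hd : 0 < d) (hρ : EM ρ) (β : ℝ) (h : Vec d) {n t m : ℕ} (ht : t ≤ n) {z : Site d}
    (hz : W_7d29a1_V.Rch m z) : Integrable (lw51 β h n t m z) ((law d ρ).prod (law d ρ)) ∧
      ∫ w, lw51 β h n t m z w ∂((law d ρ).prod (law d ρ)) ≤ Cp ρ β h * m := by
  obtain ⟨hli, hl2⟩ := los51 (ρ := ρ) hρ β h hz
  have hQm : ∀ x, Integrable (Qt β h n t x) (law d ρ) := by
    intro x
    refine Integrable.of_bound (S98.measurable_Qt β h n t x).aestronglyMeasurable 1
      (Eventually.of_forall fun η => ?_)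
    rw [Real.norm_eq_abs]
    exact S98.Qt_abs hd β h ht x η
  have hsi : ∀ x, Integrable (fun ξ => los89 β h 0 m z (sh t x ξ)) (law d ρ) :=
    fun x => (mp_sh (ρ := ρ) t x).integrable_comp_of_integrable hli
  have hFi : ∀ x, Integrable (fun w : Env d × Env d =>
      Qt β h n t x w.1 * los89 β h 0 m z (sh t x w.2)) ((law d ρ).prod (law d ρ)) :=
    fun x => (hQm x).mul_prod (hsi x)
  have hFI : ∀ x, ∫ w : Env d × Env d, Qt β h n t x w.1 * los89 β h 0 m z (sh t x w.2)
      ∂((law d ρ).prod (law d ρ)) =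
      (∫ η, Qt β h n t x η ∂(law d ρ)) * ∫ η, los89 β h 0 m z η ∂(law d ρ) := by
    intro x
    have h1 : ∫ ξ, los89 β h 0 m z (sh t x ξ) ∂(law d ρ) =
        ∫ η, los89 β h 0 m z η ∂(law d ρ) :=
      LawU_integral (mp_sh (ρ := ρ) t x) hli.aestronglyMeasurable
    rw [← h1]
    exact integral_prod_mul (μ := law d ρ) (ν := law d ρ) (fun η => Qt β h n t x η)
      (fun ξ => los89 β h 0 m z (sh t x ξ))
  refine ⟨integrable_finsetSum _ fun x _ => hFi x, ?_⟩
  unfold lw51
  rw [integral_finsetSum _ fun x _ => hFi x]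
  simp only [hFI]
  rw [← Finset.sum_mul, ← integral_finsetSum _ fun x _ => hQm x]
  have h1 : ∀ η : Env d, ∑ x ∈ boxF d t, Qt β h n t x η = 1 := fun η => S98.Qt_sum hd β h ht η
  simp only [h1]
  rw [integral_const]
  simpa using hl2

/-- The shift of the future, for every tilt, when the two displacements are reachable. -/
theorem sh51 (hd : 0 < d) (hρ : EM ρ) (β : ℝ) (h : Vec d) {n t m : ℕ} (ht : t ≤ n) {z : Site d}
    (hz : W_7d29a1_V.Rch m z) (h0 : W_7d29a1_V.Rch m (0 : Site d)) :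
    ∫ η, |X β h (fsh t z η) n - X β h η n| ∂(law d ρ) ≤
      2 * (A ρ β h (n + m) - A ρ β h n) + 4 * (Cp ρ β h * m) := by
  obtain ⟨i0, b0⟩ := lw_int51 (ρ := ρ) hd hρ β h ht h0
  obtain ⟨iz, bz⟩ := lw_int51 (ρ := ρ) hd hρ β h ht hz
  have hX := fun k => (concU (ρ := ρ) hd hρ β h k).1
  have hmp := mp_ins (d := d) (ρ := ρ) t m (0 : Site d)
  have hf := mp_fsh51 (ρ := ρ) t z
  set μ : Measure (Env d × Env d) := (law d ρ).prod (law d ρ) with hμ
  have hff : MeasurePreserving (fun w : Env d × Env d => ((fsh t z w.1, w.2) : Env d × Env d))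
      μ μ := hf.prod (MeasurePreserving.id (law d ρ))
  have i1 : Integrable (fun w : Env d × Env d => X β h (insE t m 0 w.1 w.2) (n + m)) μ :=
    hmp.integrable_comp_of_integrable (hX (n + m))
  have i2 : Integrable (fun w : Env d × Env d => X β h w.1 n) μ :=
    (hX n).comp_fst (law d ρ)
  have i3 : Integrable (fun w : Env d × Env d => X β h (fsh t z w.1) n) μ :=
    (hf.integrable_comp_of_integrable (hX n)).comp_fst (law d ρ)
  have i4 : Integrable (fun w : Env d × Env d => lw51 β h n t m z (fsh t z w.1, w.2)) μ :=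
    hff.integrable_comp_of_integrable iz
  have j1 : ∫ w : Env d × Env d, X β h (insE t m 0 w.1 w.2) (n + m) ∂μ = A ρ β h (n + m) :=
    LawU_integral hmp (F := fun g => X β h g (n + m)) (hX (n + m)).aestronglyMeasurable
  have j2 : ∫ w : Env d × Env d, X β h w.1 n ∂μ = A ρ β h n :=
    LawU_integral (measurePreserving_fst (μ := law d ρ) (ν := law d ρ))
      (F := fun g => X β h g n) (hX n).aestronglyMeasurable
  have j3 : ∫ w : Env d × Env d, X β h (fsh t z w.1) n ∂μ = A ρ β h n :=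
    LawU_integral (hf.comp (measurePreserving_fst (μ := law d ρ) (ν := law d ρ)))
      (F := fun g => X β h g n) (hX n).aestronglyMeasurable
  have j4 : ∫ w : Env d × Env d, lw51 β h n t m z (fsh t z w.1, w.2) ∂μ =
      ∫ w, lw51 β h n t m z w ∂μ :=
    LawU_integral hff (F := fun w => lw51 β h n t m z w) iz.aestronglyMeasurable
  have j5 : ∫ w : Env d × Env d, |X β h (fsh t z w.1) n - X β h w.1 n| ∂μ =
      ∫ η, |X β h (fsh t z η) n - X β h η n| ∂(law d ρ) :=
    LawU_integral (measurePreserving_fst (μ := law d ρ) (ν := law d ρ))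
      (F := fun g => |X β h (fsh t z g) n - X β h g n|)
      ((hf.integrable_comp_of_integrable (hX n)).sub (hX n)).abs.aestronglyMeasurable
  rw [← j5]
  -- the pointwise bound
  have hpt : ∀ w : Env d × Env d, |X β h (fsh t z w.1) n - X β h w.1 n| ≤
      ((2 * X β h (insE t m 0 w.1 w.2) (n + m) - X β h w.1 n) - X β h (fsh t z w.1) n) +
        (2 * lw51 β h n t m 0 w + 2 * lw51 β h n t m z (fsh t z w.1, w.2)) := by
    intro w
    have h1 := low89 hd β h 0 (n := n) (τ := t) ht h0 w.1 w.2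
    have h2 := low89 hd β h 0 (n := n) (τ := t) ht hz (fsh t z w.1) w.2
    rw [ins_fsh51] at h2
    have e1 : X β h w.1 n + 0 * (m : ℝ) - lw51 β h n t m 0 w ≤
        X β h (insE t m 0 w.1 w.2) (n + m) := h1
    have e2 : X β h (fsh t z w.1) n + 0 * (m : ℝ) - lw51 β h n t m z (fsh t z w.1, w.2) ≤
        X β h (insE t m 0 w.1 w.2) (n + m) := h2
    rw [zero_mul, add_zero] at e1 e2
    have p1 := lw_nonneg51 hd β h n t m 0 w
    have p2 := lw_nonneg51 hd β h n t m z (fsh t z w.1, w.2)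
    rw [abs_le]
    constructor <;> linarith
  have k1 : Integrable (fun w : Env d × Env d => 2 * X β h (insE t m 0 w.1 w.2) (n + m) -
      X β h w.1 n) μ := (i1.const_mul 2).sub i2
  have k2 : Integrable (fun w : Env d × Env d => (2 * X β h (insE t m 0 w.1 w.2) (n + m) -
      X β h w.1 n) - X β h (fsh t z w.1) n) μ := k1.sub i3
  have k3 : Integrable (fun w : Env d × Env d => 2 * lw51 β h n t m 0 w +
      2 * lw51 β h n t m z (fsh t z w.1, w.2)) μ := (i0.const_mul 2).add (i4.const_mul 2)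
  have h5 := integral_mono (i3.sub i2).abs (k2.add k3) hpt
  have h6 : ∫ w : Env d × Env d, (((2 * X β h (insE t m 0 w.1 w.2) (n + m) - X β h w.1 n) -
      X β h (fsh t z w.1) n) +
        (2 * lw51 β h n t m 0 w + 2 * lw51 β h n t m z (fsh t z w.1, w.2))) ∂μ =
      2 * A ρ β h (n + m) - A ρ β h n - A ρ β h n + (2 * ∫ w, lw51 β h n t m 0 w ∂μ +
        2 * ∫ w, lw51 β h n t m z w ∂μ) := by
    rw [integral_add k2 k3, integral_sub k1 i3, integral_sub (i1.const_mul 2) i2,
      integral_const_mul, integral_add (i0.const_mul 2) (i4.const_mul 2), integral_const_mul,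
      integral_const_mul, j1, j2, j3, j4]
  have h7 : ∫ w : Env d × Env d, |X β h (fsh t z w.1) n - X β h w.1 n| ∂μ ≤
      2 * A ρ β h (n + m) - A ρ β h n - A ρ β h n + (2 * ∫ w, lw51 β h n t m 0 w ∂μ +
        2 * ∫ w, lw51 β h n t m z w ∂μ) := by
    rw [← h6]
    exact h5
  linarith

/-- **Leaf C1.** -/
theorem sh0_51 (hd : 0 < d) (hρ : EM ρ) (β : ℝ) : Sh0 d ρ β := by
  obtain ⟨D, hD⟩ : ∃ D : ℝ, D = Real.sqrt (2 * Real.log (Phi (0 : Vec d)) ^ 2 +
    2 * ((∫ r, Real.exp (β * r) ∂ρ) + ∫ r, Real.exp (-β * r) ∂ρ)) := ⟨_, rfl⟩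
  obtain ⟨E, hE⟩ : ∃ E : ℝ, E = Cp ρ β (0 : Vec d) := ⟨_, rfl⟩
  have hD0 : 0 ≤ D := by rw [hD]; exact Real.sqrt_nonneg _
  have hC0 : 0 ≤ E := by rw [hE]; exact Cp_nonneg (ρ := ρ) β (0 : Vec d)
  refine ⟨2 * D + 4 * E, by positivity, fun n t m z ht hm hz => ?_⟩
  have h0 : W_7d29a1_V.Rch m (0 : Site d) := by
    rw [W_7d29a1_V.R48.rch_iff hd, W_7d29a1_V.R48.l1_zero, add_zero]
    exact ⟨Nat.zero_le _, hm⟩
  have h1 := sh51 (ρ := ρ) hd hρ β 0 ht hz h0
  have h2 := Pool.Agent.W_7d29a1_AC.Fl27.incA27 (ρ := ρ) hd hρ β (0 : Vec d) n m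
  rw [← hD] at h2
  rw [← hE] at h1
  have h3 : (2 * D + 4 * E) * (m : ℝ) = 2 * (D * m) + 4 * (E * m) := by ring
  rw [h3]
  linarith

end Pool.Agent.W_7d29a1_LOC
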