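import Pool.Agent.W_7d29a1_LOC.Pair58
import Pool.Agent.W_7d29a1_Q29.Tr29
import Pool.Agent.W_7d29a1_NV.Chn20
import Pool.Agent.W_7d29a1_V.Tr70

/-!
Theorem LOC: the transfer to the letters of the problem.
-/

set_option autoImplicit false

namespace Pool.Agent.W_7d29a1_LOC

open MeasureTheory ProbabilityTheory Filter Topology Pool.Agent.W_MP_7d29a1_pr
  Pool.Agent.W_7d29a1_h46 Pool.Agent.W_7d29a1_h46u Pool.Agent.W_7d29a1_D2.B35
  Pool.Agent.W_7d29a1_Q29 Pool.Agent.W_7d29a1_P89 Pool.Agent.W_7d29a1_P78 Pool.Agent.W_7d29a1_NV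
  Pool.Agent.W_7d29a1_AC

variable {d : ℕ} {ρ : Measure ℝ} {β : ℝ}

/-- Two far replicas: the mean over the second of the mass far from it. -/
lemma fpPol58 (hd : 0 < d) (β : ℝ) (h : Vec d) (η : Env d) {n t : ℕ} (ht : t ≤ n) (L : ℕ) {κ : ℝ}
    (hη : ∀ y : Site d, κ < PolT β h η {s : Fin n → Step d | L < W_7d29a1_V.l1 (pos s t - y)}) :
    κ < fp58 β h n t L η := by
  classical
  have h1 : fp58 β h n t L η = ∑ q' : Fin n → Step d, wgt β h η q' / Z β h η n *
      PolT β h η {s : Fin n → Step d | L < W_7d29a1_V.l1 (pos s t - pos q' t)} := by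
    rw [pair58 β h η ht, Finset.sum_comm]
    refine Finset.sum_congr rfl fun q' _ => ?_
    have h2 : ZT β h η (Set.univ : Set (Fin n → Step d)) = Z β h η n := rfl
    unfold PolT
    rw [h2]
    unfold ZT
    rw [Finset.sum_div, Finset.mul_sum]
    refine Finset.sum_congr rfl fun q _ => ?_
    by_cases h3 : L < W_7d29a1_V.l1 (pos q t - pos q' t)
    · rw [if_pos h3, if_pos (show q ∈ {s : Fin n → Step d |
        L < W_7d29a1_V.l1 (pos s t - pos q' t)} from h3)]
      ring
    · rw [if_neg h3, if_neg (show q ∉ {s : Fin n → Step d |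
        L < W_7d29a1_V.l1 (pos s t - pos q' t)} from h3)]
      simp
  have h4 := K20.sum_wgt20 hd β h η n
  have h5 : κ = ∑ q' : Fin n → Step d, wgt β h η q' / Z β h η n * κ := by
    rw [← Finset.sum_mul, h4, one_mul]
  have hne : (Finset.univ : Finset (Fin n → Step d)).Nonempty := by
    by_contra h6
    rw [Finset.not_nonempty_iff_eq_empty] at h6
    rw [h6, Finset.sum_empty] at h4
    exact zero_ne_one h4
  rw [h1, h5]
  refine Finset.sum_lt_sum_of_nonempty hne fun q' _ => ?_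
  have h7 : 0 < wgt β h η q' / Z β h η n := div_pos (wgt_pos _ _ _ _) (Z_pos hd _ _ _ _)
  exact mul_lt_mul_of_pos_left (hη _) h7

/-- **One region, in the letters of the problem**: at most lengths `n` and for all times `t ≤ n`,
with probability at least `1 - κ` some ball of radius `L` carries the mass `1 - κ` of `S_t`. -/
theorem trL58 {Ω : Type*} [MeasurableSpace Ω] {μ : Measure Ω} [IsProbabilityMeasure μ]
    [IsProbabilityMeasure ρ] {ω : ℕ × Site d → Ω → ℝ} (hd : 0 < d) (hω : IID μ ρ ω) {h : Vec d}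
    (hM : MainL d ρ β h) {κ : ℝ} (hκ : 0 < κ) : ∃ L N₀ : ℕ, ∀ N : ℕ, N₀ ≤ N →
      ∃ B : Finset ℕ, (B.card : ℝ) ≤ κ * N ∧ ∀ n : ℕ, N ≤ n → n < 2 * N → n ∉ B → ∀ t : ℕ, t ≤ n →
        μ.real {x | ∀ v : Vec d, κ < PolT β h (fun p => ω p x)
          {s : Fin n → Step d | (L : ℝ) < ‖emb (pos s t) - v‖}} ≤ κ := by
  classical
  -- the level
  set κ' : ℝ := min (κ ^ 2) κ with hκ'
  have hκ'0 : 0 < κ' := lt_min (by positivity) hκ
  obtain ⟨L, N₀, hL⟩ := hM κ' hκ'0
  refine ⟨L, N₀, fun N hN => ⟨_, (hL N hN).trans (mul_le_mul_of_nonneg_right (min_le_right _ _)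
    (Nat.cast_nonneg N)), fun n hn1 hn2 hn t ht => ?_⟩⟩
  rw [Finset.mem_filter, Finset.mem_Ico, not_and] at hn
  have h1 := hn ⟨hn1, hn2⟩
  push Not at h1
  have h2 : ∫ η, fp58 β h n t L η ∂(law d ρ) ≤ κ' := h1 t ht
  -- the transfer
  have hmp := mp_env hω
  set G : Set (Env d) := {η | κ ≤ fp58 β h n t L η} with hG
  have hGm : MeasurableSet G := measurableSet_le measurable_const (fp58_meas β h n t L)
  have h3 : {x | ∀ v : Vec d, κ < PolT β h (fun p => ω p x)
      {s : Fin n → Step d | (L : ℝ) < ‖emb (pos s t) - v‖}} ⊆ (fun x => fun p => ω p x) ⁻¹' G := by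
    intro x hx
    show κ ≤ fp58 β h n t L (fun p => ω p x)
    refine (fpPol58 hd β h (fun p => ω p x) ht L fun y => ?_).le
    refine (hx (emb y)).trans_le ?_
    have h4 : {s : Fin n → Step d | (L : ℝ) < ‖emb (pos s t) - emb y‖} ⊆
        {s : Fin n → Step d | L < W_7d29a1_V.l1 (pos s t - y)} := by
      intro s hs
      have h5 : ‖emb (pos s t) - emb y‖ ≤ (W_7d29a1_V.l1 (pos s t - y) : ℝ) := by
        have h6 : emb (pos s t) - emb y = emb (pos s t - y) := by
          ext i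
          simp [emb]
        rw [h6]
        exact W_7d29a1_V.Tr70.norm_emb_le (pos s t - y)
      have h9 : (L : ℝ) < (W_7d29a1_V.l1 (pos s t - y) : ℝ) := lt_of_lt_of_le hs h5
      exact_mod_cast h9
    unfold PolT
    have hZ : 0 < ZT β h (fun p => ω p x) (Set.univ : Set (Fin n → Step d)) :=
      Z_pos hd β h (fun p => ω p x) n
    refine div_le_div_of_nonneg_right ?_ hZ.le
    unfold ZT
    refine Finset.sum_le_sum fun s _ => ?_
    by_cases h10 : s ∈ {s : Fin n → Step d | (L : ℝ) < ‖emb (pos s t) - emb y‖}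
    · rw [if_pos h10, if_pos (h4 h10)]
    · rw [if_neg h10]
      split_ifs
      · exact (wgt_pos _ _ _ _).le
      · exact le_rfl
  refine (measureReal_mono h3 (measure_ne_top _ _)).trans ?_
  rw [hmp.measureReal_preimage hGm.nullMeasurableSet]
  have h11 := mul_meas_ge_le_integral_of_nonneg (μ := law d ρ)
    (ae_of_all _ fun η => fp58_nonneg β h n t L η) (fp58_int hd β h ht L) κ
  have h12 : κ * (law d ρ).real G ≤ κ ^ 2 := h11.trans (h2.trans (min_le_left _ _))
  have h13 : κ * (law d ρ).real G ≤ κ * κ := by rwa [← sq]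
  exact le_of_mul_le_mul_left h13 hκ

end Pool.Agent.W_7d29a1_LOC
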