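import Pool.Agent.W_7d29a1_LOC.DefsL99
import Pool.Agent.W_7d29a1_AC.TvB92d
import Pool.Agent.W_7d29a1_NV.Site62

/-!
Theorem LOC: the dependence of the position at the separator on the block (marginal of `TvB`).
-/

set_option autoImplicit false

namespace Pool.Agent.W_7d29a1_LOC.TvM41

open MeasureTheory ProbabilityTheory Filter Topology Pool.Agent.W_MP_7d29a1_pr
  Pool.Agent.W_7d29a1_h46 Pool.Agent.W_7d29a1_h46u Pool.Agent.W_7d29a1_D2.B35
  Pool.Agent.W_7d29a1_Q29 Pool.Agent.W_7d29a1_NV Pool.Agent.W_7d29a1_AC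
  Pool.Agent.W_7d29a1_AC.TV92 Pool.Agent.W_7d29a1_NV.K20 Pool.Agent.W_7d29a1_NV.S62

variable {d n q : ℕ} {ρ : Measure ℝ} {β b : ℝ}

open Classical in
/-- The position at the first separator is a marginal of the separators. -/
lemma marg (β : ℝ) (h : Vec d) (η : Env d) {r : Fin (q + 1) → ℕ} (hr : Monotone r)
    (hn : r (Fin.last q) ≤ n) (x : Site d) :
    Qt β h n (r 0) x η =
      ∑ s : Sp d n q, msp β h n r s η * (if (s 0 : Site d) = x then 1 else 0) := by
  have h0 : r 0 ≤ n := (hr (Fin.zero_le _)).trans hn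
  rw [sum_msp20 β h η hr hn (fun s : Sp d n q => if (s 0 : Site d) = x then (1 : ℝ) else 0),
    Qt_eq β h η h0 x]

lemma Qt_tv (β : ℝ) (h : Vec d) (η ζ : Env d) {r : Fin (q + 1) → ℕ} (hr : Monotone r)
    (hn : r (Fin.last q) ≤ n) (m : ℕ) :
    ∑ x ∈ boxF d m, |Qt β h n (r 0) x η - Qt β h n (r 0) x ζ| ≤ tv β h n r η ζ := by
  classical
  have h1 : ∀ x ∈ boxF d m, |Qt β h n (r 0) x η - Qt β h n (r 0) x ζ| ≤
      ∑ s : Sp d n q, (if (s 0 : Site d) = x then |msp β h n r s η - msp β h n r s ζ| else 0) := by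
    intro x _
    rw [marg β h η hr hn x, marg β h ζ hr hn x, ← Finset.sum_sub_distrib]
    refine (Finset.abs_sum_le_sum_abs _ _).trans (Finset.sum_le_sum fun s _ => ?_)
    split_ifs
    · rw [mul_one, mul_one]
    · rw [mul_zero, mul_zero, sub_zero, abs_zero]
  refine (Finset.sum_le_sum h1).trans ?_
  rw [Finset.sum_comm]
  unfold tv
  refine Finset.sum_le_sum fun s _ => ?_
  rw [Finset.sum_ite_eq]
  split_ifs
  · exact le_rfl
  · exact abs_nonneg _

/-- Leaf T. -/
theorem tvM41 (hd : 0 < d) [IsProbabilityMeasure ρ] (hb : HB ρ b) : TvM d ρ β b := by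
  intro h n t J r₀ r₁ hJ h0 h1 h2 a M s hM hs hk
  have := prob_rb31 hb
  obtain ⟨r, hr⟩ : ∃ r : Fin (1 + 1) → ℕ, r = ![r₀, r₁] := ⟨_, rfl⟩
  have hr0 : r 0 = r₀ := by rw [hr]; rfl
  have hr1 : r (Fin.last 1) = r₁ := by rw [hr]; rfl
  have hO : OrdB n J (fun _ : Fin 1 => t) r := by
    refine ⟨fun i => ?_, by rw [hr1]; exact h2⟩
    have e1 : i.castSucc = 0 := by rw [Fin.fin_one_eq_zero i]; rfl
    have e2 : i.succ = Fin.last 1 := by rw [Fin.fin_one_eq_zero i]; rfl
    rw [e1, e2, hr0, hr1]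
    exact ⟨h0, h1⟩
  have hrm : Monotone r := Fin.monotone_iff_le_succ.2 fun j => by
    have := hO.1 j
    omega
  have hT := tvB92 (β := β) hd hb h n 1 J (fun _ => t) r hJ hO 0 a M s hM hs (by
    intro l hl1 hl2
    have e1 : (0 : Fin 1).castSucc = 0 := rfl
    have e2 : (0 : Fin 1).succ = Fin.last 1 := rfl
    rw [e1, e2, hr0, hr1]
    exact hk l hl1 hl2)
  refine le_trans ?_ hT
  -- integrability
  have hmm : Measurable fun w : Env d × Env d => tv β h n r w.1 (mxR b t J w.1 w.2) :=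
    tv_meas (α := Env d × Env d) β h n r measurable_fst (mxR_meas92 (d := d) b t J)
  have hbd : ∀ w : Env d × Env d, ‖tv β h n r w.1 (mxR b t J w.1 w.2)‖ ≤ 2 := fun w => by
    rw [Real.norm_eq_abs, abs_of_nonneg (tv_nonneg _ _ _ _ _ _)]
    exact tv_le hd β h hrm hO.2 _ _
  have hI : Integrable (fun w : Env d × Env d => tv β h n r w.1 (mxR b t J w.1 w.2))
      ((law d ρ).prod (law d (rb ρ b))) :=
    Integrable.of_bound hmm.aestronglyMeasurable 2 (Eventually.of_forall hbd)
  have hIo : Integrable (fun η : Env d => ∫ ξ, tv β h n r η (mxR b t J η ξ) ∂(law d (rb ρ b)))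
      (law d ρ) := hI.integral_prod_left
  refine integral_mono_of_nonneg (Eventually.of_forall fun η => ?_) hIo.integrableOn
    (Eventually.of_forall fun η => ?_)
  · exact integral_nonneg fun ξ => Finset.sum_nonneg fun x _ => abs_nonneg _
  · refine integral_mono_of_nonneg (Eventually.of_forall fun ξ => ?_) ?_
      (Eventually.of_forall fun ξ => ?_)
    · exact Finset.sum_nonneg fun x _ => abs_nonneg _
    · refine Integrable.of_bound (C := 2) ?_ (Eventually.of_forall fun ξ => hbd (η, ξ))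
      exact (hmm.comp measurable_prodMk_left).aestronglyMeasurable
    · have := Qt_tv (n := n) β h η (mxR b t J η ξ) hrm hO.2 r₀
      rw [hr0] at this
      exact this

end Pool.Agent.W_7d29a1_LOC.TvM41
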