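import Pool.Agent.W_7d29a1_LOC.Main58
import Pool.Agent.W_7d29a1_LOC.Tr58
import Pool.Agent.W_7d29a1_LOC.AbsF99
import Pool.Agent.W_7d29a1_LOC.FarB66
import Pool.Agent.W_7d29a1_LOC.TvM41
import Pool.Agent.W_7d29a1_LOC.LocH1
import Pool.Agent.W_7d29a1_LOC.Luck21
import Pool.Agent.W_7d29a1_LOC.MulH89
import Pool.Agent.W_7d29a1_LOC.ZlowR86
import Pool.Agent.W_7d29a1_LOC.Med64
import Pool.Agent.W_7d29a1_LOC.Sh51
import Pool.Agent.W_7d29a1_LOC.Up67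
import Pool.Agent.W_7d29a1_LOC.RowsU92
import Pool.Agent.W_7d29a1_SDP.GainU94
import Pool.Agent.W_7d29a1_AC.OneC30

/-!
Theorem LOC: in very strong disorder at force zero the polymer is localised in one region of bounded
size, at all times, at most lengths.
-/

set_option autoImplicit false

namespace Pool.Agent.W_7d29a1_LOC

open MeasureTheory ProbabilityTheory Filter Topology Pool.Agent.W_MP_7d29a1_pr
  Pool.Agent.W_7d29a1_h46 Pool.Agent.W_7d29a1_h46u Pool.Agent.W_7d29a1_D2.B35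
  Pool.Agent.W_7d29a1_Q29 Pool.Agent.W_7d29a1_P89 Pool.Agent.W_7d29a1_P78 Pool.Agent.W_7d29a1_NV
  Pool.Agent.W_7d29a1_AC Pool.Agent.W_7d29a1_SDP

variable {d : ℕ} {ρ : Measure ℝ} {β : ℝ}

/-- **Theorem LOC at force zero.** -/
theorem finL58 [IsProbabilityMeasure ρ] (hd : 0 < d) (hρ : EM ρ) (hnc : ∀ c : ℝ, ρ {c} ≠ 1)
    (hβ : 0 < β) (hV : VSD ρ β (0 : Vec d)) : MainL d ρ β 0 :=
  mainL58 hd hnc 0 hV (mulH89 hd hρ (luck0_21 hd hρ (ret67 hd hρ β) hV) (gainU94 hd β))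
    (fun _ hb => rowsU92 hd hb (oneC30 hd hβ hb)) (fun _ hb => TvM41.tvM41 hd hb)
    (fun _ hb => farP66 absF99 hd β hb)
    (locH1 (zlowR86 hd hρ hnc hβ) (med64 hd hρ (sh0_51 hd hρ β)) (up67 hd hρ β))

/-- **Theorem LOC at force zero, in the letters of the problem.** -/
theorem locP58 {Ω : Type*} [MeasurableSpace Ω] {μ : Measure Ω} [IsProbabilityMeasure μ]
    [IsProbabilityMeasure ρ] {ω : ℕ × Site d → Ω → ℝ} (hd : 0 < d) (hω : IID μ ρ ω) (hρ : EM ρ)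
    (hnc : ∀ c : ℝ, ρ {c} ≠ 1) (hβ : 0 < β) (hV : VSD ρ β (0 : Vec d)) {κ : ℝ} (hκ : 0 < κ) :
    ∃ L N₀ : ℕ, ∀ N : ℕ, N₀ ≤ N →
      ∃ B : Finset ℕ, (B.card : ℝ) ≤ κ * N ∧ ∀ n : ℕ, N ≤ n → n < 2 * N → n ∉ B → ∀ t : ℕ, t ≤ n →
        μ.real {x | ∀ v : Vec d, κ < PolT β 0 (fun p => ω p x)
          {s : Fin n → Step d | (L : ℝ) < ‖emb (pos s t) - v‖}} ≤ κ :=
  trL58 hd hω (finL58 hd hρ hnc hβ hV) hκ

end Pool.Agent.W_7d29a1_LOC
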