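import Pool.Agent.W_7d29a1_LOC.Sh51
import Pool.Agent.W_7d29a1_AC.RemC41

/-!
Theorem LOC at the regular tilts: general forms of the shift and of the removal of a block, with
the loss of two displacements.
-/

set_option autoImplicit false

namespace Pool.Agent.W_7d29a1_LOC

open MeasureTheory ProbabilityTheory Filter Topology Pool.Agent.W_MP_7d29a1_pr
  Pool.Agent.W_7d29a1_h46 Pool.Agent.W_7d29a1_h46u Pool.Agent.W_7d29a1_D2.B35
  Pool.Agent.W_7d29a1_Q29 Pool.Agent.W_7d29a1_P89 Pool.Agent.W_7d29a1_P78 Pool.Agent.W_7d29a1_NV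
  Pool.Agent.W_7d29a1_AC Pool.Agent.W_7d29a1_SDP

variable {d : ℕ} {ρ : Measure ℝ} [IsProbabilityMeasure ρ]

/-- The two insertions give the same environment. -/
lemma ins_fshg51 (t m : ℕ) (z₁ z₂ : Site d) (η ξ : Env d) :
    insE t m z₁ (fsh t (z₁ - z₂) η) ξ = insE t m z₂ η ξ := by
  funext p
  unfold insE fsh
  by_cases h1 : p.1 ≤ t
  · simp only [if_pos h1]
  · by_cases h2 : p.1 ≤ t + m
    · simp only [if_neg h1, if_pos h2]
    · simp only [if_neg h1, if_neg h2]
      rw [if_neg (show ¬ p.1 - m ≤ t by omega)]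
      congr 2
      abel

lemma los_int51 (hρ : EM ρ) (β : ℝ) (h : Vec d) (lm : ℝ) {m : ℕ} {z : Site d}
    (hz : W_7d29a1_V.Rch m z) : Integrable (los89 β h lm m z) (law d ρ) := by
  have hLi : Integrable (fun η : Env d => Real.log (PP β h η m z)) (law d ρ) :=
    (W_7d29a1_V.Conc42_exp hρ β h m hz).1
  have h3 : Integrable (fun η : Env d => max 0 (lm * (m : ℝ) - Real.log (PP β h η m z)))
      (law d ρ) := (integrable_const (0 : ℝ)).sup ((integrable_const _).sub hLi)
  exact h3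

/-- The weighted loss. -/
noncomputable def lwg51 (β : ℝ) (h : Vec d) (lm : ℝ) (n t m : ℕ) (z : Site d)
    (w : Env d × Env d) : ℝ :=
  ∑ x ∈ boxF d t, Qt β h n t x w.1 * los89 β h lm m z (sh t x w.2)

lemma lwg_nonneg51 (hd : 0 < d) (β : ℝ) (h : Vec d) (lm : ℝ) (n t m : ℕ) (z : Site d)
    (w : Env d × Env d) : 0 ≤ lwg51 β h lm n t m z w :=
  Finset.sum_nonneg fun x _ => mul_nonneg (S98.Qt_nonneg hd β h n t x w.1) (le_max_left _ _)

lemma lwg_int51 (hd : 0 < d) (hρ : EM ρ) (β : ℝ) (h : Vec d) (lm : ℝ) {n t m : ℕ} (ht : t ≤ n)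
    {z : Site d} (hz : W_7d29a1_V.Rch m z) :
    Integrable (lwg51 β h lm n t m z) ((law d ρ).prod (law d ρ)) ∧
      ∫ w, lwg51 β h lm n t m z w ∂((law d ρ).prod (law d ρ)) =
        ∫ η, los89 β h lm m z η ∂(law d ρ) := by
  have hli := los_int51 (ρ := ρ) hρ β h lm hz
  have hQm : ∀ x, Integrable (Qt β h n t x) (law d ρ) := by
    intro x
    refine Integrable.of_bound (S98.measurable_Qt β h n t x).aestronglyMeasurable 1
      (Eventually.of_forall fun η => ?_)
    rw [Real.norm_eq_abs]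
    exact S98.Qt_abs hd β h ht x η
  have hsi : ∀ x, Integrable (fun ξ => los89 β h lm m z (sh t x ξ)) (law d ρ) :=
    fun x => (mp_sh (ρ := ρ) t x).integrable_comp_of_integrable hli
  have hFi : ∀ x, Integrable (fun w : Env d × Env d =>
      Qt β h n t x w.1 * los89 β h lm m z (sh t x w.2)) ((law d ρ).prod (law d ρ)) :=
    fun x => (hQm x).mul_prod (hsi x)
  have hFI : ∀ x, ∫ w : Env d × Env d, Qt β h n t x w.1 * los89 β h lm m z (sh t x w.2)
      ∂((law d ρ).prod (law d ρ)) =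
      (∫ η, Qt β h n t x η ∂(law d ρ)) * ∫ η, los89 β h lm m z η ∂(law d ρ) := by
    intro x
    have h1 : ∫ ξ, los89 β h lm m z (sh t x ξ) ∂(law d ρ) =
        ∫ η, los89 β h lm m z η ∂(law d ρ) :=
      LawU_integral (mp_sh (ρ := ρ) t x) hli.aestronglyMeasurable
    rw [← h1]
    exact integral_prod_mul (μ := law d ρ) (ν := law d ρ) (fun η => Qt β h n t x η)
      (fun ξ => los89 β h lm m z (sh t x ξ))
  refine ⟨integrable_finsetSum _ fun x _ => hFi x, ?_⟩
  unfold lwg51
  rw [integral_finsetSum _ fun x _ => hFi x]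
  simp only [hFI]
  rw [← Finset.sum_mul, ← integral_finsetSum _ fun x _ => hQm x]
  have h1 : ∀ η : Env d, ∑ x ∈ boxF d t, Qt β h n t x η = 1 := fun η => S98.Qt_sum hd β h ht η
  simp only [h1]
  rw [integral_const]
  simp

/-- The shift of the future by the difference of two displacements. -/
theorem shg51 (hd : 0 < d) (hρ : EM ρ) (β : ℝ) (h : Vec d) (lm : ℝ) {n t m : ℕ} (ht : t ≤ n)
    {z₁ z₂ : Site d} (hz₁ : W_7d29a1_V.Rch m z₁) (hz₂ : W_7d29a1_V.Rch m z₂) :
    ∫ η, |X β h (fsh t (z₁ - z₂) η) n - X β h η n| ∂(law d ρ) ≤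
      2 * (A ρ β h (n + m) - A ρ β h n - lm * m) + 2 * ∫ η, los89 β h lm m z₁ η ∂(law d ρ) +
        2 * ∫ η, los89 β h lm m z₂ η ∂(law d ρ) := by
  obtain ⟨i0, b0⟩ := lwg_int51 (ρ := ρ) hd hρ β h lm ht hz₂
  obtain ⟨iz, bz⟩ := lwg_int51 (ρ := ρ) hd hρ β h lm ht hz₁
  have hX := fun k => (concU (ρ := ρ) hd hρ β h k).1
  have hmp := mp_ins (d := d) (ρ := ρ) t m z₂
  have hf := mp_fsh51 (ρ := ρ) t (z₁ - z₂)
  set μ : Measure (Env d × Env d) := (law d ρ).prod (law d ρ) with hμ
  have hff : MeasurePreserving (fun w : Env d × Env d =>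
      ((fsh t (z₁ - z₂) w.1, w.2) : Env d × Env d)) μ μ := hf.prod (MeasurePreserving.id (law d ρ))
  have i1 : Integrable (fun w : Env d × Env d => X β h (insE t m z₂ w.1 w.2) (n + m)) μ :=
    hmp.integrable_comp_of_integrable (hX (n + m))
  have i2 : Integrable (fun w : Env d × Env d => X β h w.1 n) μ :=
    (hX n).comp_fst (law d ρ)
  have i3 : Integrable (fun w : Env d × Env d => X β h (fsh t (z₁ - z₂) w.1) n) μ :=
    (hf.integrable_comp_of_integrable (hX n)).comp_fst (law d ρ)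
  have i4 : Integrable (fun w : Env d × Env d =>
      lwg51 β h lm n t m z₁ (fsh t (z₁ - z₂) w.1, w.2)) μ :=
    hff.integrable_comp_of_integrable iz
  have j1 : ∫ w : Env d × Env d, X β h (insE t m z₂ w.1 w.2) (n + m) ∂μ = A ρ β h (n + m) :=
    LawU_integral hmp (F := fun g => X β h g (n + m)) (hX (n + m)).aestronglyMeasurable
  have j2 : ∫ w : Env d × Env d, X β h w.1 n ∂μ = A ρ β h n :=
    LawU_integral (measurePreserving_fst (μ := law d ρ) (ν := law d ρ))
      (F := fun g => X β h g n) (hX n).aestronglyMeasurable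
  have j3 : ∫ w : Env d × Env d, X β h (fsh t (z₁ - z₂) w.1) n ∂μ = A ρ β h n :=
    LawU_integral (hf.comp (measurePreserving_fst (μ := law d ρ) (ν := law d ρ)))
      (F := fun g => X β h g n) (hX n).aestronglyMeasurable
  have j4 : ∫ w : Env d × Env d, lwg51 β h lm n t m z₁ (fsh t (z₁ - z₂) w.1, w.2) ∂μ =
      ∫ w, lwg51 β h lm n t m z₁ w ∂μ :=
    LawU_integral hff (F := fun w => lwg51 β h lm n t m z₁ w) iz.aestronglyMeasurable
  have j5 : ∫ w : Env d × Env d, |X β h (fsh t (z₁ - z₂) w.1) n - X β h w.1 n| ∂μ =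
      ∫ η, |X β h (fsh t (z₁ - z₂) η) n - X β h η n| ∂(law d ρ) :=
    LawU_integral (measurePreserving_fst (μ := law d ρ) (ν := law d ρ))
      (F := fun g => |X β h (fsh t (z₁ - z₂) g) n - X β h g n|)
      ((hf.integrable_comp_of_integrable (hX n)).sub (hX n)).abs.aestronglyMeasurable
  rw [← j5]
  obtain ⟨c, hc⟩ : ∃ c : ℝ, c = 2 * (lm * m) := ⟨_, rfl⟩
  -- the pointwise bound
  have hpt : ∀ w : Env d × Env d, |X β h (fsh t (z₁ - z₂) w.1) n - X β h w.1 n| ≤
      (((2 * X β h (insE t m z₂ w.1 w.2) (n + m) - X β h w.1 n) -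
        X β h (fsh t (z₁ - z₂) w.1) n) - c) +
        (2 * lwg51 β h lm n t m z₂ w + 2 * lwg51 β h lm n t m z₁ (fsh t (z₁ - z₂) w.1, w.2)) := by
    intro w
    have h1 := low89 hd β h lm (n := n) (τ := t) ht hz₂ w.1 w.2
    have h2 := low89 hd β h lm (n := n) (τ := t) ht hz₁ (fsh t (z₁ - z₂) w.1) w.2
    rw [ins_fshg51] at h2
    have e1 : X β h w.1 n + lm * (m : ℝ) - lwg51 β h lm n t m z₂ w ≤
        X β h (insE t m z₂ w.1 w.2) (n + m) := h1
    have e2 : X β h (fsh t (z₁ - z₂) w.1) n + lm * (m : ℝ) -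
        lwg51 β h lm n t m z₁ (fsh t (z₁ - z₂) w.1, w.2) ≤
        X β h (insE t m z₂ w.1 w.2) (n + m) := h2
    have p1 := lwg_nonneg51 hd β h lm n t m z₂ w
    have p2 := lwg_nonneg51 hd β h lm n t m z₁ (fsh t (z₁ - z₂) w.1, w.2)
    rw [abs_le]
    constructor <;> linarith
  have k1 : Integrable (fun w : Env d × Env d => 2 * X β h (insE t m z₂ w.1 w.2) (n + m) -
      X β h w.1 n) μ := (i1.const_mul 2).sub i2
  have k2 : Integrable (fun w : Env d × Env d => (2 * X β h (insE t m z₂ w.1 w.2) (n + m) -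
      X β h w.1 n) - X β h (fsh t (z₁ - z₂) w.1) n) μ := k1.sub i3
  have k2' : Integrable (fun w : Env d × Env d => ((2 * X β h (insE t m z₂ w.1 w.2) (n + m) -
      X β h w.1 n) - X β h (fsh t (z₁ - z₂) w.1) n) - c) μ :=
    k2.sub (integrable_const _)
  have k3 : Integrable (fun w : Env d × Env d => 2 * lwg51 β h lm n t m z₂ w +
      2 * lwg51 β h lm n t m z₁ (fsh t (z₁ - z₂) w.1, w.2)) μ :=
    (i0.const_mul 2).add (i4.const_mul 2)
  have h5 := integral_mono (i3.sub i2).abs (k2'.add k3) hpt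
  have h6 : ∫ w : Env d × Env d, ((((2 * X β h (insE t m z₂ w.1 w.2) (n + m) - X β h w.1 n) -
      X β h (fsh t (z₁ - z₂) w.1) n) - c) +
        (2 * lwg51 β h lm n t m z₂ w + 2 * lwg51 β h lm n t m z₁ (fsh t (z₁ - z₂) w.1, w.2))) ∂μ =
      2 * A ρ β h (n + m) - A ρ β h n - A ρ β h n - c +
        (2 * ∫ w, lwg51 β h lm n t m z₂ w ∂μ + 2 * ∫ w, lwg51 β h lm n t m z₁ w ∂μ) := by
    rw [integral_add k2' k3, integral_sub k2 (integrable_const _), integral_sub k1 i3,
      integral_sub (i1.const_mul 2) i2,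
      integral_const_mul, integral_add (i0.const_mul 2) (i4.const_mul 2), integral_const_mul,
      integral_const_mul, j1, j2, j3, j4, integral_const, probReal_univ, one_smul]
  have h7 : ∫ w : Env d × Env d, |X β h (fsh t (z₁ - z₂) w.1) n - X β h w.1 n| ∂μ ≤
      2 * A ρ β h (n + m) - A ρ β h n - A ρ β h n - c +
        (2 * ∫ w, lwg51 β h lm n t m z₂ w ∂μ + 2 * ∫ w, lwg51 β h lm n t m z₁ w ∂μ) := by
    rw [← h6]
    exact h5
  rw [b0, bz] at h7
  linarith

/-- The removal of a block: the free energy of the shortened environment is not much smaller. -/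
theorem upg51 (hd : 0 < d) (hρ : EM ρ) (β : ℝ) (h : Vec d) (lm : ℝ) {n t J : ℕ} (ht : t ≤ n)
    {z : Site d} (hz : W_7d29a1_V.Rch J z) {D₁ D₂ b : ℝ}
    (hA : A ρ β h (n + J) - A ρ β h n ≤ lm * J + D₁)
    (hR : ∫ η, los89 β h lm J z η ∂(law d ρ) ≤ D₂) :
    (law d ρ).real {η | X β h (remE J t z η) n + (lm * J + b) < X β h η (n + J)} * b ≤
      D₁ + D₂ := by
  obtain ⟨i0, b0⟩ := lwg_int51 (ρ := ρ) hd hρ β h lm ht hz
  have hX := fun k => (concU (ρ := ρ) hd hρ β h k).1
  have hmp := mp_ins (d := d) (ρ := ρ) t J z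
  set μ : Measure (Env d × Env d) := (law d ρ).prod (law d ρ) with hμ
  set S : Set (Env d) := {η | X β h (remE J t z η) n + (lm * J + b) < X β h η (n + J)} with hS
  have hSm : MeasurableSet S := measurableSet_lt
    (((measurable_X β h n).comp (RemC41.remE_meas J t z)).add_const _) (measurable_X β h (n + J))
  have hpre : μ.real ((fun w : Env d × Env d => insE t J z w.1 w.2) ⁻¹' S) = (law d ρ).real S :=
    hmp.measureReal_preimage hSm.nullMeasurableSet
  rw [← hpre]
  set G : Set (Env d × Env d) := (fun w : Env d × Env d => insE t J z w.1 w.2) ⁻¹' S with hG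
  have hGm : MeasurableSet G := hmp.measurable hSm
  have i1 : Integrable (fun w : Env d × Env d => X β h (insE t J z w.1 w.2) (n + J)) μ :=
    hmp.integrable_comp_of_integrable (hX (n + J))
  have i2 : Integrable (fun w : Env d × Env d => X β h w.1 n) μ :=
    (hX n).comp_fst (law d ρ)
  have j1 : ∫ w : Env d × Env d, X β h (insE t J z w.1 w.2) (n + J) ∂μ = A ρ β h (n + J) :=
    LawU_integral hmp (F := fun g => X β h g (n + J)) (hX (n + J)).aestronglyMeasurable
  have j2 : ∫ w : Env d × Env d, X β h w.1 n ∂μ = A ρ β h n :=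
    LawU_integral (measurePreserving_fst (μ := law d ρ) (ν := law d ρ))
      (F := fun g => X β h g n) (hX n).aestronglyMeasurable
  have hle : ∀ w, G.indicator (fun _ => b) w ≤
      (X β h (insE t J z w.1 w.2) (n + J) - X β h w.1 n - lm * J) + lwg51 β h lm n t J z w := by
    intro w
    have hS0 := lwg_nonneg51 hd β h lm n t J z w
    by_cases hw : w ∈ G
    · rw [Set.indicator_of_mem hw]
      have h1 : X β h (remE J t z (insE t J z w.1 w.2)) n + (lm * J + b) <
        X β h (insE t J z w.1 w.2) (n + J) := hw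
      rw [RemC41.remE_insE] at h1
      linarith
    · rw [Set.indicator_of_notMem hw]
      have h1 := low89 hd β h lm (n := n) (τ := t) ht hz w.1 w.2
      change _ - lwg51 β h lm n t J z w ≤ _ at h1
      linarith
  have i3 : Integrable (fun w : Env d × Env d =>
      X β h (insE t J z w.1 w.2) (n + J) - X β h w.1 n) μ := i1.sub i2
  have i4 : Integrable (fun w : Env d × Env d =>
      X β h (insE t J z w.1 w.2) (n + J) - X β h w.1 n - lm * J) μ :=
    i3.sub (integrable_const (lm * J))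
  have hInt := integral_mono ((integrable_const (μ := μ) b).indicator hGm) (i4.add i0) hle
  rw [integral_indicator_const _ hGm, smul_eq_mul] at hInt
  simp only [Pi.add_apply] at hInt
  rw [integral_add i4 i0, integral_sub i3 (integrable_const (lm * J)),
    integral_sub i1 i2, j1, j2, integral_const, b0] at hInt
  simp only [probReal_univ, smul_eq_mul, one_mul] at hInt
  linarith

/-- The loss near the slope. -/
theorem cost51 (hρ : EM ρ) (β : ℝ) (hP : P2P d ρ β) {h v : Vec d}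
    (hLP : LP ρ β h v) {κ : ℝ} (hκ : 0 < κ) : ∃ r₁ : ℝ, 0 < r₁ ∧ r₁ ≤ 1 ∧ ∃ t₀ : ℕ,
      ∀ (t : ℕ) (z : Site d), t₀ ≤ t → W_7d29a1_V.Rch t z → ‖emb z - (t : ℝ) • v‖ ≤ r₁ * t →
        ∫ η, los89 β h (lam ρ β h) t z η ∂(law d ρ) ≤ 2 * κ * r₁ * t := by
  obtain ⟨r₁, hr0, hr1, t₀, H⟩ := hP h v hLP κ hκ
  obtain ⟨C, hC0, hC⟩ := W_7d29a1_V.Conc42_mom (d := d) hρ β 1
  obtain ⟨t₁, ht₁⟩ := exists_nat_ge ((C / (κ * r₁)) ^ 2)
  refine ⟨r₁, hr0, hr1, max t₀ (max t₁ 1), fun t z ht hz hzv => ?_⟩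
  have ht0 : t₀ ≤ t := (le_max_left _ _).trans ht
  have ht1 : t₁ ≤ t := (le_max_left _ _).trans ((le_max_right _ _).trans ht)
  have ht2 : 1 ≤ t := (le_max_right _ _).trans ((le_max_right _ _).trans ht)
  have h1 := H t z ht0 hz hzv
  obtain ⟨i1, b1⟩ := hC h t z ht2 hz
  simp only [pow_one] at i1 b1
  have htr : (0 : ℝ) < t := by exact_mod_cast ht2
  have hkr : 0 < κ * r₁ := by positivity
  have h2 : C * Real.sqrt t ≤ κ * r₁ * t := by
    have h3 : C / (κ * r₁) ≤ Real.sqrt t := by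
      apply Real.le_sqrt_of_sq_le
      exact ht₁.trans (by exact_mod_cast ht1)
    rw [div_le_iff₀ hkr] at h3
    have h4 : C * Real.sqrt t ≤ Real.sqrt t * (κ * r₁) * Real.sqrt t :=
      mul_le_mul_of_nonneg_right h3 (Real.sqrt_nonneg _)
    have h5 : Real.sqrt t * (κ * r₁) * Real.sqrt t = κ * r₁ * t := by
      calc Real.sqrt t * (κ * r₁) * Real.sqrt t = (Real.sqrt t * Real.sqrt t) * (κ * r₁) := by ring
        _ = κ * r₁ * t := by rw [Real.mul_self_sqrt htr.le]; ring
    linarith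
  have h6 : ∫ η, los89 β h (lam ρ β h) t z η ∂(law d ρ) ≤
      ∫ η, (κ * r₁ * t + |Real.log (PP β h η t z) - W_7d29a1_V.aM ρ β h t z|) ∂(law d ρ) := by
    refine integral_mono (los_int51 hρ β h _ hz) ((integrable_const _).add i1) fun η => ?_
    unfold los89
    have h7 := neg_abs_le (Real.log (PP β h η t z) - W_7d29a1_V.aM ρ β h t z)
    have h8 := abs_nonneg (Real.log (PP β h η t z) - W_7d29a1_V.aM ρ β h t z)
    refine max_le (by positivity) ?_
    show lam ρ β h * t - Real.log (PP β h η t z) ≤ _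
    have h9 : (lam ρ β h - κ * r₁) * t = lam ρ β h * t - κ * r₁ * t := by ring
    linarith
  rw [integral_add (integrable_const _) i1, integral_const, probReal_univ, one_smul] at h6
  have h10 : 2 * κ * r₁ * t = κ * r₁ * t + κ * r₁ * t := by ring
  linarith

end Pool.Agent.W_7d29a1_LOC
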