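import Pool.Agent.W_7d29a1_LOC.DefsV51
import Pool.Agent.W_7d29a1_LOC.ShG51
import Pool.Agent.W_7d29a1_SDP.LuckU21
import Pool.Agent.W_7d29a1_V.Tr70

/-!
Theorem LOC at the regular tilts, leaf ShV: the shift of the future is cheap, at most lengths.
-/

set_option autoImplicit false

namespace Pool.Agent.W_7d29a1_LOC

open MeasureTheory ProbabilityTheory Filter Topology Pool.Agent.W_MP_7d29a1_pr
  Pool.Agent.W_7d29a1_h46 Pool.Agent.W_7d29a1_h46u Pool.Agent.W_7d29a1_D2.B35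
  Pool.Agent.W_7d29a1_Q29 Pool.Agent.W_7d29a1_P89 Pool.Agent.W_7d29a1_P78 Pool.Agent.W_7d29a1_NV
  Pool.Agent.W_7d29a1_AC Pool.Agent.W_7d29a1_SDP

variable {d : ℕ} {ρ : Measure ℝ} [IsProbabilityMeasure ρ]

lemma l1_near51 (z : Site d) (v : Vec d) (t : ℝ) (ht : 0 ≤ t) :
    ((W_7d29a1_V.l1 z : ℕ) : ℝ) ≤ d * ‖emb z - t • v‖ + t * ∑ i, |v i| := by
  have h1 : ((W_7d29a1_V.l1 z : ℕ) : ℝ) = ∑ i : Fin d, |((z i : ℤ) : ℝ)| := by
    unfold W_7d29a1_V.l1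
    push_cast
    refine Finset.sum_congr rfl fun i _ => ?_
    rw [Nat.cast_natAbs, Int.cast_abs]
  rw [h1, Finset.mul_sum]
  have h2 : ∀ i : Fin d, |((z i : ℤ) : ℝ)| ≤ ‖emb z - t • v‖ + t * |v i| := by
    intro i
    have h3 : |(emb z - t • v) i| ≤ ‖emb z - t • v‖ := by
      have := PiLp.norm_apply_le (emb z - t • v) i
      rwa [Real.norm_eq_abs] at this
    have h4 : (emb z - t • v) i = ((z i : ℤ) : ℝ) - t * v i := rfl
    rw [h4] at h3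
    have h5 : ((z i : ℤ) : ℝ) = (((z i : ℤ) : ℝ) - t * v i) + t * v i := by ring
    rw [h5]
    refine (abs_add_le _ _).trans ?_
    rw [abs_mul, abs_of_nonneg ht]
    linarith
  refine (Finset.sum_le_sum fun i _ => h2 i).trans (le_of_eq ?_)
  rw [Finset.sum_add_distrib, Finset.sum_const, Finset.card_univ, Fintype.card_fin, nsmul_eq_mul]

lemma emb_sub51 (x y : Site d) : emb (x - y) = emb x - emb y := by
  ext i
  show (((x - y) i : ℤ) : ℝ) = ((x i : ℤ) : ℝ) - ((y i : ℤ) : ℝ)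
  rw [Pi.sub_apply, Int.cast_sub]

open Classical in
/-- **Leaf ShV.** -/
theorem shV51 (hd : 0 < d) (hρ : EM ρ) {β : ℝ} (hP : P2P d ρ β) : ShV d ρ β := by
  intro h v hLP ϑ hϑ
  obtain ⟨s, hs⟩ : ∃ s : ℝ, s = ∑ i, |v i| := ⟨_, rfl⟩
  have hs1 : 0 < 1 - s := by
    have := hLP.int
    rw [← hs] at this
    linarith
  have hs0 : 0 ≤ s := by rw [hs]; exact Finset.sum_nonneg fun i _ => abs_nonneg _
  obtain ⟨κ, hκ⟩ : ∃ κ : ℝ, κ = ϑ * (1 - s) / 80 := ⟨_, rfl⟩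
  have hκ0 : 0 < κ := by rw [hκ]; positivity
  obtain ⟨r₁, hr0, hr1, t₀, hc⟩ := cost51 (ρ := ρ) hρ β hP hLP hκ0
  obtain ⟨t₁, ht₁⟩ := near21 hd v hLP.int
  obtain ⟨K, hK⟩ := exists_nat_ge (4 / (r₁ * (1 - s)))
  obtain ⟨K', hKd⟩ : ∃ K' : ℕ, K' = ⌈4 / (r₁ * (1 - s))⌉₊ := ⟨_, rfl⟩
  have hq0 : 0 < 4 / (r₁ * (1 - s)) := by positivity
  have hK1 : 4 / (r₁ * (1 - s)) ≤ K' := by rw [hKd]; exact Nat.le_ceil _
  have hK2 : (K' : ℝ) < 4 / (r₁ * (1 - s)) + 1 := by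
    rw [hKd]
    exact Nat.ceil_lt_add_one hq0.le
  have hK0 : (0 : ℝ) < K' := hq0.trans_le hK1
  have hKn : 1 ≤ K' := by exact_mod_cast hK0
  have hKa : 4 ≤ r₁ * (1 - s) * K' := by
    rw [div_le_iff₀ (by positivity)] at hK1
    linarith
  have hKb : 4 ≤ (1 - s) * K' := by nlinarith
  have hKc : 4 ≤ r₁ * K' := by nlinarith [mul_pos hr0 hK0]
  have hKe : r₁ * K' ≤ 5 / (1 - s) := by
    have h1 : r₁ * K' ≤ r₁ * (4 / (r₁ * (1 - s)) + 1) := mul_le_mul_of_nonneg_left hK2.le hr0.le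
    have h2 : r₁ * (4 / (r₁ * (1 - s)) + 1) = 4 / (1 - s) + r₁ := by
      field_simp
    have h3 : r₁ ≤ 1 / (1 - s) := by
      rw [le_div_iff₀ hs1]
      nlinarith
    have h4 : 5 / (1 - s) = 4 / (1 - s) + 1 / (1 - s) := by ring
    linarith
  obtain ⟨M, hM⟩ := eventually_atTop.1 (dm89 (ρ := ρ) hd hρ β h
    (show (0 : ℝ) < ϑ ^ 2 / (8 * K') by positivity))
  obtain ⟨J₂, hJ₂⟩ := exists_nat_ge ((d : ℝ) * (d + 1) + (d + 1))
  refine ⟨max 1 (max (max t₀ t₁) (max M J₂)), fun J hJ => ?_⟩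
  have e1 : 1 ≤ J := (le_max_left _ _).trans hJ
  have e2 : t₀ ≤ J := (le_max_left _ _).trans ((le_max_left _ _).trans ((le_max_right _ _).trans hJ))
  have e3 : t₁ ≤ J := (le_max_right _ _).trans ((le_max_left _ _).trans ((le_max_right _ _).trans hJ))
  have e4 : M ≤ J := (le_max_left _ _).trans ((le_max_right _ _).trans ((le_max_right _ _).trans hJ))
  have e5 : J₂ ≤ J := (le_max_right _ _).trans ((le_max_right _ _).trans ((le_max_right _ _).trans hJ))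
  have hJ0 : (0 : ℝ) < J := by exact_mod_cast e1
  have hJd : (d : ℝ) * (d + 1) + (d + 1) ≤ J := hJ₂.trans (by exact_mod_cast e5)
  obtain ⟨m, hm⟩ : ∃ m : ℕ, m = K' * J := ⟨_, rfl⟩
  have hmJ : J ≤ m := by rw [hm]; exact Nat.le_mul_of_pos_left J hKn
  have hmr : (m : ℝ) = K' * J := by rw [hm]; push_cast; ring
  obtain ⟨z₁, hz₁, hn₁⟩ := ht₁ m (e3.trans hmJ)
  obtain ⟨N₀, hN₀⟩ := densm89 hd hρ β h (m := m) (b := ϑ * J) (δ := ϑ) (by positivity) hϑ (by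
    have h1 := hM m (e4.trans hmJ)
    refine h1.trans (le_of_eq ?_)
    rw [hmr]
    field_simp)
  refine ⟨N₀, fun N hN => ?_⟩
  refine le_trans ?_ (hN₀ N hN)
  have hd0 : (0 : ℝ) ≤ d := Nat.cast_nonneg _
  have hz₁r : ‖emb z₁ - (m : ℝ) • v‖ ≤ r₁ * m := by
    have h1 : 4 * (J : ℝ) ≤ r₁ * m := by
      rw [hmr]
      nlinarith
    nlinarith
  have hcost₁ := hc m z₁ (e2.trans hmJ) hz₁ hz₁r
  have hbud : 2 * κ * r₁ * m ≤ ϑ / 8 * J := by
    have h1 : 2 * κ * r₁ * m = 2 * κ * J * (r₁ * K') := by rw [hmr]; ring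
    rw [h1]
    have h2 : 2 * κ * J * (r₁ * K') ≤ 2 * κ * J * (5 / (1 - s)) :=
      mul_le_mul_of_nonneg_left hKe (by positivity)
    have h3 : 2 * κ * J * (5 / (1 - s)) = ϑ / 8 * J := by
      rw [hκ]
      field_simp
      ring
    linarith
  have hsub : ((Finset.Ico N (2 * N)).filter fun n =>
      ∃ (t : ℕ) (w : Site d), t ≤ n ∧ W_7d29a1_V.l1 w ≤ 2 * J ∧ Even (W_7d29a1_V.l1 w) ∧
        ϑ * J < ∫ η, |X β h (fsh t w η) n - X β h η n| ∂(law d ρ)) ⊆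
      (Finset.Ico N (2 * N)).filter fun n =>
        ¬ (A ρ β h (n + m) - A ρ β h n ≤ lam ρ β h * m + ϑ * J / 4) := by
    intro n hn
    rw [Finset.mem_filter] at hn ⊢
    refine ⟨hn.1, fun hA => ?_⟩
    obtain ⟨t, w, ht, hw, hwe, hbad⟩ := hn.2
    have hwr : ((W_7d29a1_V.l1 w : ℕ) : ℝ) ≤ 2 * J := by exact_mod_cast hw
    have hz₂ : W_7d29a1_V.Rch m (z₁ - w) := by
      refine W_7d29a1_V.R48.rch_shift hd hz₁ ?_ ?_
      · have h1 : W_7d29a1_V.l1 (z₁ - w) ≤ W_7d29a1_V.l1 z₁ + W_7d29a1_V.l1 w :=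
          W_7d29a1_V.LipA74.l1_sub_le z₁ w
        have h2 := l1_near51 z₁ v (m : ℝ) (Nat.cast_nonneg _)
        rw [← hs] at h2
        have h3 : (d : ℝ) * ‖emb z₁ - (m : ℝ) • v‖ ≤ d * (d + 1) :=
          mul_le_mul_of_nonneg_left hn₁ hd0
        have h4 : 4 * (J : ℝ) ≤ (1 - s) * m := by
          rw [hmr]
          nlinarith
        have h5 : ((W_7d29a1_V.l1 (z₁ - w) : ℕ) : ℝ) ≤ m := by
          have h6 : ((W_7d29a1_V.l1 (z₁ - w) : ℕ) : ℝ) ≤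
              ((W_7d29a1_V.l1 z₁ : ℕ) : ℝ) + ((W_7d29a1_V.l1 w : ℕ) : ℝ) := by exact_mod_cast h1
          nlinarith
        exact_mod_cast h5
      · have h1 : z₁ - w - z₁ = -w := by abel
        rw [h1, W_7d29a1_V.LipA74.l1_neg]
        exact hwe
    have hz₂r : ‖emb (z₁ - w) - (m : ℝ) • v‖ ≤ r₁ * m := by
      have h1 : emb (z₁ - w) - (m : ℝ) • v = (emb z₁ - (m : ℝ) • v) - emb w := by
        rw [emb_sub51]
        abel
      rw [h1]
      have h2 := norm_sub_le (emb z₁ - (m : ℝ) • v) (emb w)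
      have h3 := W_7d29a1_V.Tr70.norm_emb_le w
      have h4 : 4 * (J : ℝ) ≤ r₁ * m := by
        rw [hmr]
        nlinarith
      nlinarith
    have hcost₂ := hc m (z₁ - w) (e2.trans hmJ) hz₂ hz₂r
    have h1 := shg51 hd hρ β h (lam ρ β h) ht hz₁ hz₂
    have h2 : z₁ - (z₁ - w) = w := by abel
    rw [h2] at h1
    linarith
  convert (Nat.cast_le (α := ℝ)).2 (Finset.card_le_card hsub) using 2

end Pool.Agent.W_7d29a1_LOC
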