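import Pool.Agent.W_7d29a1_LOC.Up56
import Pool.Agent.W_7d29a1_SDP.P2P67

/-!
Theorem LOC, leaf C2 at a regular tilt: a block is not longer than `lam J`, at most lengths, for every
displacement near the slope.
-/

set_option autoImplicit false

namespace Pool.Agent.W_7d29a1_LOC

open MeasureTheory ProbabilityTheory Filter Topology Pool.Agent.W_MP_7d29a1_pr
  Pool.Agent.W_7d29a1_h46 Pool.Agent.W_7d29a1_h46u Pool.Agent.W_7d29a1_D2.B35
  Pool.Agent.W_7d29a1_Q29 Pool.Agent.W_7d29a1_NV Pool.Agent.W_7d29a1_P89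
  Pool.Agent.W_7d29a1_SD Pool.Agent.W_7d29a1_SDP Pool.Agent.W_7d29a1_AC

variable {d : ℕ} {ρ : Measure ℝ} [IsProbabilityMeasure ρ]

/-- The probability that the block is long, any displacement. -/
theorem longZ56 (hd : 0 < d) (hρ : EM ρ) (β : ℝ) (h : Vec d) {n t J : ℕ} (ht : t ≤ n)
    {z : Site d} (hz : W_7d29a1_V.Rch J z) {b D₁ D₂ : ℝ} (hb : 0 < b)
    (hA : A ρ β h (n + J) - A ρ β h n ≤ lam ρ β h * J + D₁)
    (hR : ∫ η, los89 β h (lam ρ β h) J z η ∂(law d ρ) ≤ D₂) :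
    (law d ρ).real {η | X β h (remE J t z η) n + (lam ρ β h * J + b) < X β h η (n + J)} * b ≤
      D₁ + D₂ := by
  refine le_trans (mul_le_mul_of_nonneg_right ?_ hb.le) (gain56 hd hρ β h ht hz hA hR)
  have hmp := mp_ins (d := d) (ρ := ρ) t J z
  have hm : MeasurableSet {η : Env d | X β h (remE J t z η) n + (lam ρ β h * J + b) <
      X β h η (n + J)} := measurableSet_lt
    (((measurable_X β h n).comp (rem_meas56 J t z)).add_const _) (measurable_X β h (n + J))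
  have h1 : (law d ρ).real {η | X β h (remE J t z η) n + (lam ρ β h * J + b) <
      X β h η (n + J)} = ((law d ρ).prod (law d ρ)).real
      ((fun w : Env d × Env d => insE t J z w.1 w.2) ⁻¹' {η | X β h (remE J t z η) n +
        (lam ρ β h * J + b) < X β h η (n + J)}) := by
    rw [measureReal_def, measureReal_def, hmp.measure_preimage hm.nullMeasurableSet]
  rw [h1]
  refine measureReal_mono (fun w hw => ?_) (measure_ne_top _ _)
  have h2 : X β h (remE J t z (insE t J z w.1 w.2)) n + (lam ρ β h * J + b) <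
      X β h (insE t J z w.1 w.2) (n + J) := hw
  rw [rem_ins56] at h2
  exact h2.le

open Classical in
/-- At most lengths the block is not long, for every displacement with a small loss. -/
theorem upZ56 (hd : 0 < d) (hρ : EM ρ) (β : ℝ) (h : Vec d) {ϑ : ℝ} (hϑ : 0 < ϑ) :
    ∃ J₁ : ℕ, 1 ≤ J₁ ∧ ∀ J : ℕ, J₁ ≤ J → ∃ N₀ : ℕ, ∀ N : ℕ, N₀ ≤ N → ∀ z : Site d,
      W_7d29a1_V.Rch J z → ∫ η, los89 β h (lam ρ β h) J z η ∂(law d ρ) ≤ ϑ ^ 2 / 2 * J →
      (((Finset.Ico N (2 * N)).filter fun n => ∃ t : ℕ, t ≤ n ∧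
        ¬ (law d ρ).real {η | X β h (remE J t z η) n + (lam ρ β h + ϑ) * J <
          X β h η (n + J)} ≤ ϑ).card : ℝ) ≤ ϑ * N := by
  obtain ⟨M, hM⟩ := eventually_atTop.1 (dm89 (ρ := ρ) hd hρ β h
    (show (0 : ℝ) < ϑ ^ 3 / 4 by positivity))
  refine ⟨max 1 M, le_max_left _ _, fun J hJ => ?_⟩
  have hJ1 : 1 ≤ J := (le_max_left _ _).trans hJ
  have hJM : M ≤ J := (le_max_right _ _).trans hJ
  have hJ0 : (0 : ℝ) < J := by exact_mod_cast hJ1
  obtain ⟨N₀, hN₀⟩ := densm89 hd hρ β h (m := J) (b := 2 * ϑ ^ 2 * J) (δ := ϑ)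
    (by positivity) hϑ (by
      have h1 := hM J hJM
      refine h1.trans (le_of_eq ?_)
      ring)
  refine ⟨N₀, fun N hN z hz hres => ?_⟩
  refine le_trans ?_ (hN₀ N hN)
  have hsub : ((Finset.Ico N (2 * N)).filter fun n => ∃ t : ℕ, t ≤ n ∧
      ¬ (law d ρ).real {η | X β h (remE J t z η) n + (lam ρ β h + ϑ) * J <
        X β h η (n + J)} ≤ ϑ) ⊆
      (Finset.Ico N (2 * N)).filter fun n =>
        ¬ (A ρ β h (n + J) - A ρ β h n ≤ lam ρ β h * J + 2 * ϑ ^ 2 * J / 4) := by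
    intro n hn
    rw [Finset.mem_filter] at hn ⊢
    refine ⟨hn.1, fun hA => ?_⟩
    obtain ⟨t, ht, hbad⟩ := hn.2
    refine hbad ?_
    have h1 := longZ56 hd hρ β h ht hz (b := ϑ * J) (D₁ := 2 * ϑ ^ 2 * J / 4)
      (D₂ := ϑ ^ 2 / 2 * J) (by positivity) hA hres
    have h2 : {η : Env d | X β h (remE J t z η) n + (lam ρ β h + ϑ) * J <
        X β h η (n + J)} = {η | X β h (remE J t z η) n + (lam ρ β h * J + ϑ * J) <
        X β h η (n + J)} := by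
      rw [add_mul]
    rw [h2]
    have h3 : 2 * ϑ ^ 2 * J / 4 + ϑ ^ 2 / 2 * J = ϑ * (ϑ * J) := by ring
    rw [h3] at h1
    exact le_of_mul_le_mul_right h1 (by positivity)
  convert (Nat.cast_le (α := ℝ)).2 (Finset.card_le_card hsub) using 2

/-- At a regular tilt the loss of a displacement near the slope is small. -/
theorem losLP56 (hρ : EM ρ) (β : ℝ) (hP : P2P d ρ β) {h v : Vec d}
    (hL : LP ρ β h v) {δ : ℝ} (hδ : 0 < δ) : ∃ r₁ : ℝ, 0 < r₁ ∧ r₁ ≤ 1 ∧ ∃ t₀ : ℕ,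
      ∀ (t : ℕ) (z : Site d), t₀ ≤ t → W_7d29a1_V.Rch t z → ‖emb z - (t : ℝ) • v‖ ≤ r₁ * t →
        ∫ η, los89 β h (lam ρ β h) t z η ∂(law d ρ) ≤ δ * t := by
  obtain ⟨r₁, hr0, hr1, t₁, ht₁⟩ := hP h v hL (δ / 2) (by positivity)
  obtain ⟨C, hC, H⟩ := W_7d29a1_V.ConcV16.momP (d := d) (ρ := ρ) hρ β 1
  refine ⟨r₁, hr0, hr1, max t₁ (max 1 ⌈(2 * C / δ) ^ 2⌉₊), fun t z ht hz hzv => ?_⟩
  have ht1 : t₁ ≤ t := (le_max_left _ _).trans ht
  have ht2 : 1 ≤ t := (le_max_left _ _).trans ((le_max_right _ _).trans ht)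
  have ht3 : ⌈(2 * C / δ) ^ 2⌉₊ ≤ t := (le_max_right _ _).trans ((le_max_right _ _).trans ht)
  have ht0 : (0 : ℝ) < t := by exact_mod_cast ht2
  have h3 : lam ρ β h * t - W_7d29a1_V.aM ρ β h t z ≤ δ / 2 * t := by
    have h1 := ht₁ t z ht1 hz hzv
    have h2 : δ / 2 * r₁ ≤ δ / 2 := mul_le_of_le_one_right (by positivity) hr1
    nlinarith
  obtain ⟨hi, hb⟩ := H h t z ht2 hz
  have h4 : ∫ η, los89 β h (lam ρ β h) t z η ∂(law d ρ) ≤
      ∫ η, (δ / 2 * t + |Real.log (PP β h η t z) - W_7d29a1_V.aM ρ β h t z| ^ 1) ∂(law d ρ) := by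
    refine integral_mono_of_nonneg (ae_of_all _ fun η => le_max_left _ _)
      ((integrable_const _).add hi) (ae_of_all _ fun η => ?_)
    unfold los89
    simp only [pow_one]
    have h5 := neg_abs_le (Real.log (PP β h η t z) - W_7d29a1_V.aM ρ β h t z)
    have h6 := abs_nonneg (Real.log (PP β h η t z) - W_7d29a1_V.aM ρ β h t z)
    have h7 : 0 ≤ δ / 2 * t := by positivity
    exact max_le (by linarith) (by linarith)
  rw [integral_add (integrable_const _) hi, integral_const] at h4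
  rw [pow_one] at hb
  have h8 : C * Real.sqrt t ≤ δ / 2 * t := by
    have e1 : (2 * C / δ) ^ 2 ≤ t := (Nat.le_ceil _).trans (by exact_mod_cast ht3)
    have e2 : 2 * C / δ ≤ Real.sqrt t := Real.le_sqrt_of_sq_le e1
    rw [div_le_iff₀ hδ] at e2
    have e3 : Real.sqrt t * Real.sqrt t = t := Real.mul_self_sqrt ht0.le
    have e4 := mul_le_mul_of_nonneg_right e2 (Real.sqrt_nonneg t)
    nlinarith
  simp only [probReal_univ, smul_eq_mul, one_mul] at h4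
  linarith

open Classical in
/-- **Leaf C2 at a regular tilt.** -/
theorem upLP56 (hd : 0 < d) (hρ : EM ρ) (β : ℝ) (hP : P2P d ρ β) {h v : Vec d}
    (hL : LP ρ β h v) {ϑ : ℝ} (hϑ : 0 < ϑ) : ∃ r₁ : ℝ, 0 < r₁ ∧ r₁ ≤ 1 ∧ ∃ J₁ : ℕ, 1 ≤ J₁ ∧
      ∀ J : ℕ, J₁ ≤ J → ∃ N₀ : ℕ, ∀ N : ℕ, N₀ ≤ N → ∀ z : Site d, W_7d29a1_V.Rch J z →
        ‖emb z - (J : ℝ) • v‖ ≤ r₁ * J →
        (((Finset.Ico N (2 * N)).filter fun n => ∃ t : ℕ, t ≤ n ∧
          ¬ (law d ρ).real {η | X β h (remE J t z η) n + (lam ρ β h + ϑ) * J <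
            X β h η (n + J)} ≤ ϑ).card : ℝ) ≤ ϑ * N := by
  obtain ⟨r₁, hr0, hr1, t₀, ht₀⟩ := losLP56 hρ β hP hL (δ := ϑ ^ 2 / 2) (by positivity)
  obtain ⟨J₁, hJ1, hJ⟩ := upZ56 (ρ := ρ) hd hρ β h hϑ
  refine ⟨r₁, hr0, hr1, max J₁ t₀, hJ1.trans (le_max_left _ _), fun J hJJ => ?_⟩
  obtain ⟨N₀, hN₀⟩ := hJ J ((le_max_left _ _).trans hJJ)
  exact ⟨N₀, fun N hN z hz hzv => hN₀ N hN z hz (ht₀ J z ((le_max_right _ _).trans hJJ) hz hzv)⟩

end Pool.Agent.W_7d29a1_LOC
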