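import Pool.Agent.W_7d29a1_LOC.MedV51
import Pool.Agent.W_7d29a1_LOC.ShV51
import Pool.Agent.W_7d29a1_LOC.UpV56

/-!
Theorem LOC at the regular tilts: the blocks are localised in probability, at most lengths.
-/

set_option autoImplicit false

namespace Pool.Agent.W_7d29a1_LOC

open MeasureTheory ProbabilityTheory Filter Topology Pool.Agent.W_MP_7d29a1_pr
  Pool.Agent.W_7d29a1_h46 Pool.Agent.W_7d29a1_h46u Pool.Agent.W_7d29a1_D2.B35
  Pool.Agent.W_7d29a1_Q29 Pool.Agent.W_7d29a1_P89 Pool.Agent.W_7d29a1_P78 Pool.Agent.W_7d29a1_NV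
  Pool.Agent.W_7d29a1_AC Pool.Agent.W_7d29a1_SDP

variable {d : ℕ} {ρ : Measure ℝ}

open Classical in
/-- **Leaf UpV.** -/
theorem upV51 [IsProbabilityMeasure ρ] (hd : 0 < d) (hρ : EM ρ) {β : ℝ} (hP : P2P d ρ β) :
    UpV d ρ β := by
  intro h v hLP ϑ hϑ
  obtain ⟨r₁, hr0, hr1, J₁, hJ1, hJ⟩ := upLP56 hd hρ β hP hLP hϑ
  obtain ⟨J₂, hJ₂⟩ := exists_nat_ge (((d : ℝ) + 1) / r₁)
  refine ⟨max J₁ J₂, fun J hJJ z hz hzv => ?_⟩
  obtain ⟨N₀, hN₀⟩ := hJ J ((le_max_left _ _).trans hJJ)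
  refine ⟨N₀, fun N hN => hN₀ N hN z hz (hzv.trans ?_)⟩
  have h1 : ((d : ℝ) + 1) / r₁ ≤ J := hJ₂.trans (by exact_mod_cast (le_max_right _ _).trans hJJ)
  rw [div_le_iff₀ hr0] at h1
  linarith

open Classical in
/-- **Leaf LocV.** -/
theorem locV51 {β : ℝ} [IsProbabilityMeasure ρ] (hd : 0 < d) (hZ : ZlowR d ρ β)
    (hM : MedV d ρ β) (hU : UpV d ρ β) : LocV d ρ β := by
  intro h v hLP g κ hg hκ hgap
  obtain ⟨ϑ, hϑ⟩ : ∃ ϑ : ℝ, ϑ = min (κ / 4) (g / 16) := ⟨_, rfl⟩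
  have hϑ0 : 0 < ϑ := by rw [hϑ]; exact lt_min (by positivity) (by positivity)
  have hϑ1 : ϑ ≤ κ / 4 := by rw [hϑ]; exact min_le_left _ _
  have hϑ2 : ϑ ≤ g / 16 := by rw [hϑ]; exact min_le_right _ _
  obtain ⟨b₃, hb₃⟩ := hZ h ϑ hϑ0
  obtain ⟨J₁, hJ₁⟩ := hM h v hLP ϑ hϑ0
  obtain ⟨J₂, hJ₂⟩ := hU h v hLP ϑ hϑ0
  obtain ⟨J₃, hJ₃⟩ := near21 hd v hLP.int
  refine ⟨b₃, fun b hb => ⟨max (max J₁ J₂) (max (max 1 ⌈4 / g⌉₊) J₃), fun J hJ _ => ?_⟩⟩
  have hJa : J₁ ≤ J := (le_max_left _ _).trans ((le_max_left _ _).trans hJ)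
  have hJb : J₂ ≤ J := (le_max_right _ _).trans ((le_max_left _ _).trans hJ)
  have hJm : max (max 1 ⌈4 / g⌉₊) J₃ ≤ J := (le_max_right _ _).trans hJ
  have hJc : 1 ≤ J := (le_max_left _ _).trans ((le_max_left _ _).trans hJm)
  have hJd : ⌈4 / g⌉₊ ≤ J := (le_max_right _ _).trans ((le_max_left _ _).trans hJm)
  have hJe : J₃ ≤ J := (le_max_right _ _).trans hJm
  have hJ0 : (0 : ℝ) < J := by exact_mod_cast hJc
  have hJ2 : 1 ≤ g / 4 * J := by
    have h1 : 4 / g ≤ J := (Nat.le_ceil _).trans (by exact_mod_cast hJd)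
    rw [div_le_iff₀ hg] at h1
    linarith
  obtain ⟨z₀, hz₀, hzv⟩ := hJ₃ J hJe
  obtain ⟨N₁, hN₁⟩ := hJ₁ J hJa z₀ hz₀
  obtain ⟨N₂, hN₂⟩ := hJ₂ J hJb z₀ hz₀ hzv
  refine ⟨max N₁ N₂, fun N hN => ?_⟩
  have hc1 := hN₁ N ((le_max_left _ _).trans hN)
  have hc2 := hN₂ N ((le_max_right _ _).trans hN)
  have hsubF : ((Finset.Ico N (2 * N)).filter fun n => ∃ t : ℕ, t ≤ n ∧
      ¬ (law d ρ).real {η | -(g / 2 * J) < X β h η (n + J) -
        Real.log (zB ρ β b h (n + J) t J η)} ≤ κ) ⊆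
      ((Finset.Ico N (2 * N)).filter fun n => ∃ t : ℕ, t ≤ n ∧
        ¬ (law d ρ).real {η | (∑ z ∈ boxF d J,
          if |X β h (remE J t z η) n - X β h (remE J t z₀ η) n| ≤ ϑ * J then
            PP β h (fun _ => 0) J z else 0) < Phi h ^ J / 2} ≤ ϑ) ∪
      ((Finset.Ico N (2 * N)).filter fun n => ∃ t : ℕ, t ≤ n ∧
        ¬ (law d ρ).real {η | X β h (remE J t z₀ η) n + (lam ρ β h + ϑ) * J <
          X β h η (n + J)} ≤ ϑ) := by
    intro n hn
    rw [Finset.mem_union, Finset.mem_filter, Finset.mem_filter]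
    rw [Finset.mem_filter] at hn
    obtain ⟨t, ht, hbad⟩ := hn.2
    by_cases hm : (law d ρ).real {η | (∑ z ∈ boxF d J,
          if |X β h (remE J t z η) n - X β h (remE J t z₀ η) n| ≤ ϑ * J then
            PP β h (fun _ => 0) J z else 0) < Phi h ^ J / 2} ≤ ϑ
    swap
    · exact Or.inl ⟨hn.1, t, ht, hm⟩
    refine Or.inr ⟨hn.1, t, ht, fun hup => hbad ?_⟩
    have hz := hb₃ b hb J t n (fun η => X β h (remE J t z₀ η) n) (ϑ * J) hJc ht
    have hsub : {η | -(g / 2 * J) < X β h η (n + J) -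
        Real.log (zB ρ β b h (n + J) t J η)} ⊆
        ({η | X β h (remE J t z₀ η) n + (lam ρ β h + ϑ) * J < X β h η (n + J)} ∪
        {η | (∑ z ∈ boxF d J, if |X β h (remE J t z η) n - X β h (remE J t z₀ η) n| ≤
          ϑ * J then PP β h (fun _ => 0) J z else 0) < Phi h ^ J / 2}) ∪
        {η | Phi h ^ J / 2 ≤
          (∑ z ∈ boxF d J, if |X β h (remE J t z η) n - X β h (remE J t z₀ η) n| ≤ ϑ * J then
            PP β h (fun _ => 0) J z else 0) ∧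
          Real.log (zB ρ β b h (n + J) t J η) < X β h (remE J t z₀ η) n - ϑ * J +
            J * (Real.log (Phi h) + Real.log (∫ x, Real.exp (β * x) ∂ρ)) -
            ϑ * J - 1} := by
      intro η hη
      have hl : -(g / 2 * J) < X β h η (n + J) -
        Real.log (zB ρ β b h (n + J) t J η) := hη
      by_cases h1 : X β h (remE J t z₀ η) n + (lam ρ β h + ϑ) * J < X β h η (n + J)
      · exact Or.inl (Or.inl h1)
      · by_cases h2 : (∑ z ∈ boxF d J, if |X β h (remE J t z η) n - X β h (remE J t z₀ η) n| ≤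
            ϑ * J then PP β h (fun _ => 0) J z else 0) < Phi h ^ J / 2
        · exact Or.inl (Or.inr h2)
        · refine Or.inr ⟨not_lt.1 h2, ?_⟩
          push Not at h1
          have h4 := mul_le_mul_of_nonneg_left hgap hJ0.le
          have h5 := mul_le_mul_of_nonneg_right hϑ2 hJ0.le
          nlinarith
    have hmm := measureReal_mono (μ := law d ρ) hsub
    refine hmm.trans ((measureReal_union_le _ _).trans ?_)
    have h6 := measureReal_union_le (μ := law d ρ)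
      {η | X β h (remE J t z₀ η) n + (lam ρ β h + ϑ) * J < X β h η (n + J)}
      {η | (∑ z ∈ boxF d J, if |X β h (remE J t z η) n - X β h (remE J t z₀ η) n| ≤
        ϑ * J then PP β h (fun _ => 0) J z else 0) < Phi h ^ J / 2}
    linarith
  have hcu := (Finset.card_le_card hsubF).trans (Finset.card_union_le _ _)
  have hcr : (((Finset.Ico N (2 * N)).filter fun n => ∃ t : ℕ, t ≤ n ∧
      ¬ (law d ρ).real {η | -(g / 2 * J) < X β h η (n + J) -
        Real.log (zB ρ β b h (n + J) t J η)} ≤ κ).card : ℝ) ≤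
      (((Finset.Ico N (2 * N)).filter fun n => ∃ t : ℕ, t ≤ n ∧
        ¬ (law d ρ).real {η | (∑ z ∈ boxF d J,
          if |X β h (remE J t z η) n - X β h (remE J t z₀ η) n| ≤ ϑ * J then
            PP β h (fun _ => 0) J z else 0) < Phi h ^ J / 2} ≤ ϑ).card : ℝ) +
      (((Finset.Ico N (2 * N)).filter fun n => ∃ t : ℕ, t ≤ n ∧
        ¬ (law d ρ).real {η | X β h (remE J t z₀ η) n + (lam ρ β h + ϑ) * J <
          X β h η (n + J)} ≤ ϑ).card : ℝ) := by exact_mod_cast hcu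
  have hN0 : (0 : ℝ) ≤ N := Nat.cast_nonneg _
  have h7 : ϑ * (N : ℝ) ≤ κ / 4 * N := mul_le_mul_of_nonneg_right hϑ1 hN0
  have h8 : 0 ≤ κ * (N : ℝ) := by positivity
  linarith

end Pool.Agent.W_7d29a1_LOC
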