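import Pool.Agent.W_7d29a1_LOC.FinL58
import Pool.Agent.W_7d29a1_LOC.TrL92
import Pool.Agent.W_7d29a1_LOC.LocV51
import Pool.Agent.W_7d29a1_SDP.AeLP96
import Pool.Agent.W_7d29a1_SDP.P2P67

/-!
Theorem LOC at almost every velocity: in very strong disorder the polymer is localised in one region
of bounded size, at all times, at most lengths.
-/

set_option autoImplicit false

namespace Pool.Agent.W_7d29a1_LOC

open MeasureTheory ProbabilityTheory Filter Topology Pool.Agent.W_MP_7d29a1_pr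
  Pool.Agent.W_7d29a1_h46 Pool.Agent.W_7d29a1_h46u Pool.Agent.W_7d29a1_D2.B35
  Pool.Agent.W_7d29a1_Q29 Pool.Agent.W_7d29a1_P89 Pool.Agent.W_7d29a1_P78 Pool.Agent.W_7d29a1_NV
  Pool.Agent.W_7d29a1_AC Pool.Agent.W_7d29a1_SDP

variable {d : ℕ} {ρ : Measure ℝ} {β : ℝ}

/-- **Theorem LOC at every limit pair.** -/
theorem mainLV51 [IsProbabilityMeasure ρ] (hd : 0 < d) (hρ : EM ρ) (hnc : ∀ c : ℝ, ρ {c} ≠ 1)
    (hβ : 0 < β) : MainLV d ρ β := by
  intro h v hV hLP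
  exact mainL58 hd hnc h hV
    (mulH89 hd hρ (luckH89 (luckU21 hd hρ (p2p67 hd hρ β)) hV hLP) (gainU94 hd β))
    (fun _ hb => rowsU92 hd hb (oneC30 hd hβ hb)) (fun _ hb => TvM41.tvM41 hd hb)
    (fun _ hb => farP66 absF99 hd β hb)
    (locV51 hd (zlowR86 hd hρ hnc hβ) (medV51 hd hρ (shV51 hd hρ (p2p67 hd hρ β)))
      (upV51 hd hρ (p2p67 hd hρ β)) h v hLP)

/-- **Theorem LOC at almost every velocity.** -/
theorem aeLV51 [IsProbabilityMeasure ρ] (hd : 0 < d) (hρ : EM ρ) (hnc : ∀ c : ℝ, ρ {c} ≠ 1)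
    (hβ : 0 < β) : ∀ᵐ v : Vec d, ∀ h : Vec d, VSD ρ β h →
      (∀ k : Vec d, lam ρ β h + inner ℝ v k ≤ lam ρ β (h + k)) → MainL d ρ β h := by
  filter_upwards [aeLP96 (ρ := ρ) hd hρ β] with v hv h hV hs
  exact mainLV51 hd hρ hnc hβ h v hV (hv h hs)

open Classical in
/-- **Theorem LOC in the letters of the problem**, one ball: for almost every velocity `v` and every
tilt `h` of very strong disorder with slope `v`, for all but `κ N` of the lengths `n` in `[N, 2N)`,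
at every time `t ≤ n` a ball of radius `L` whose centre depends on the environment carries in mean
more than `1 - κ` of the mass of `S_t`. -/
theorem locLV51 {Ω : Type*} [MeasurableSpace Ω] {μ : Measure Ω} [IsProbabilityMeasure μ]
    [IsProbabilityMeasure ρ] {ω : ℕ × Site d → Ω → ℝ} (hd : 0 < d) (hω : IID μ ρ ω) (hρ : EM ρ)
    (hnc : ∀ c : ℝ, ρ {c} ≠ 1) (hβ : 0 < β) : ∀ᵐ v : Vec d, ∀ h : Vec d, VSD ρ β h →
      (∀ k : Vec d, lam ρ β h + inner ℝ v k ≤ lam ρ β (h + k)) →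
      ∀ κ : ℝ, 0 < κ → ∃ L : ℝ, ∀ᶠ N : ℕ in atTop,
        (((Finset.Ico N (2 * N)).filter fun n => ∃ t ≤ n, ∀ c : Ω → Vec d,
          ∫ x, PolT β h (fun p => ω p x) {s : Fin n → Step d | ‖emb (pos s t) - c x‖ ≤ L} ∂μ ≤
            1 - κ).card : ℝ) ≤ κ * N := by
  filter_upwards [aeLV51 (ρ := ρ) hd hρ hnc hβ] with v hv h hV hs
  exact trL92 hd hω (hv h hV hs)

end Pool.Agent.W_7d29a1_LOC
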