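import Pool.Agent.W_7d29a1_LOC.DefsV51
import Pool.Agent.W_7d29a1_SDP.LuckU21

/-!
Leaf LocV of Theorem LOC: the blocks are localised in probability, at the regular tilts.
-/

set_option autoImplicit false

namespace Pool.Agent.W_7d29a1_LOC

open MeasureTheory ProbabilityTheory Filter Topology Pool.Agent.W_MP_7d29a1_pr
  Pool.Agent.W_7d29a1_h46 Pool.Agent.W_7d29a1_h46u Pool.Agent.W_7d29a1_D2.B35
  Pool.Agent.W_7d29a1_Q29 Pool.Agent.W_7d29a1_P89 Pool.Agent.W_7d29a1_P78 Pool.Agent.W_7d29a1_NV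
  Pool.Agent.W_7d29a1_AC Pool.Agent.W_7d29a1_SDP

open Classical in
/-- **Leaf LocV** from `ZlowR`, `MedV`, `UpV`. -/
theorem locV86 {d : ℕ} {ρ : Measure ℝ} [IsProbabilityMeasure ρ] {β : ℝ} (hd : 0 < d)
    (hZ : ZlowR d ρ β) (hM : MedV d ρ β) (hU : UpV d ρ β) : LocV d ρ β := by
  intro h v hLP g κ hg hκ hgap
  have hϑ0 : 0 < min (κ / 3) (g / 16) := lt_min (by positivity) (by positivity)
  obtain ⟨b₃, hb₃⟩ := hZ h (min (κ / 3) (g / 16)) hϑ0
  obtain ⟨J₁, hJ₁⟩ := hM h v hLP (min (κ / 3) (g / 16)) hϑ0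
  obtain ⟨J₂, hJ₂⟩ := hU h v hLP (min (κ / 3) (g / 16)) hϑ0
  obtain ⟨J₃, hJ₃⟩ := near21 hd v hLP.int
  set ϑ : ℝ := min (κ / 3) (g / 16) with hϑ
  have hϑ1 : ϑ ≤ κ / 3 := min_le_left _ _
  have hϑ2 : ϑ ≤ g / 16 := min_le_right _ _
  -- the two exceptional sets have density `ϑ / 2` each: use the leaves at `ϑ' = ϑ / 2`
  have hϑ3 : 0 < ϑ / 2 := by positivity
  obtain ⟨J₄, hJ₄⟩ := hM h v hLP (ϑ / 2) hϑ3
  obtain ⟨J₅, hJ₅⟩ := hU h v hLP (ϑ / 2) hϑ3
  refine ⟨b₃, fun b hb => ⟨max (max (max J₄ J₅) J₃) (max 1 ⌈4 / g⌉₊), fun J hJ _ => ?_⟩⟩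
  have hJa : J₄ ≤ J := (le_max_left _ _).trans ((le_max_left _ _).trans
    ((le_max_left _ _).trans hJ))
  have hJb : J₅ ≤ J := (le_max_right _ _).trans ((le_max_left _ _).trans
    ((le_max_left _ _).trans hJ))
  have hJe : J₃ ≤ J := (le_max_right _ _).trans ((le_max_left _ _).trans hJ)
  have hJc : 1 ≤ J := (le_max_left _ _).trans ((le_max_right _ _).trans hJ)
  have hJd : ⌈4 / g⌉₊ ≤ J := (le_max_right _ _).trans ((le_max_right _ _).trans hJ)
  have hJ0 : (0 : ℝ) < J := by exact_mod_cast hJc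
  have hJ2 : 1 ≤ g / 4 * J := by
    have h1 : 4 / g ≤ J := (Nat.le_ceil _).trans (by exact_mod_cast hJd)
    rw [div_le_iff₀ hg] at h1
    linarith
  obtain ⟨z₀, hz₀, hz₁⟩ := hJ₃ J hJe
  obtain ⟨N₁, hN₁⟩ := hJ₄ J hJa z₀ hz₀
  obtain ⟨N₂, hN₂⟩ := hJ₅ J hJb z₀ hz₀ hz₁
  refine ⟨max N₁ N₂, fun N hN => ?_⟩
  have c1 := hN₁ N ((le_max_left _ _).trans hN)
  have c2 := hN₂ N ((le_max_right _ _).trans hN)
  have hsubF : ((Finset.Ico N (2 * N)).filter fun n => ∃ t : ℕ, t ≤ n ∧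
      ¬ (law d ρ).real {η | -(g / 2 * J) < X β h η (n + J) -
        Real.log (zB ρ β b h (n + J) t J η)} ≤ κ) ⊆
      ((Finset.Ico N (2 * N)).filter fun n => ∃ t : ℕ, t ≤ n ∧
        ¬ (law d ρ).real {η | (∑ z ∈ boxF d J,
          if |X β h (remE J t z η) n - X β h (remE J t z₀ η) n| ≤ ϑ / 2 * J then
            PP β h (fun _ => 0) J z else 0) < Phi h ^ J / 2} ≤ ϑ / 2) ∪
      ((Finset.Ico N (2 * N)).filter fun n => ∃ t : ℕ, t ≤ n ∧
        ¬ (law d ρ).real {η | X β h (remE J t z₀ η) n + (lam ρ β h + ϑ / 2) * J <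
          X β h η (n + J)} ≤ ϑ / 2) := by
    intro n hn
    rw [Finset.mem_filter] at hn
    obtain ⟨hnI, t, ht, hbad⟩ := hn
    by_contra hcon
    rw [Finset.mem_union, not_or] at hcon
    obtain ⟨g1, g2⟩ := hcon
    have hm : (law d ρ).real {η | (∑ z ∈ boxF d J,
          if |X β h (remE J t z η) n - X β h (remE J t z₀ η) n| ≤ ϑ / 2 * J then
            PP β h (fun _ => 0) J z else 0) < Phi h ^ J / 2} ≤ ϑ / 2 := by
      by_contra hh
      exact g1 (Finset.mem_filter.2 ⟨hnI, t, ht, hh⟩)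
    have hup : (law d ρ).real {η | X β h (remE J t z₀ η) n + (lam ρ β h + ϑ / 2) * J <
          X β h η (n + J)} ≤ ϑ / 2 := by
      by_contra hh
      exact g2 (Finset.mem_filter.2 ⟨hnI, t, ht, hh⟩)
    have hz := hb₃ b hb J t n (fun η => X β h (remE J t z₀ η) n) (ϑ / 2 * J) hJc ht
    refine hbad ?_
    have hsub : {η | -(g / 2 * J) < X β h η (n + J) -
        Real.log (zB ρ β b h (n + J) t J η)} ⊆
        ({η | X β h (remE J t z₀ η) n + (lam ρ β h + ϑ / 2) * J < X β h η (n + J)} ∪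
        {η | (∑ z ∈ boxF d J, if |X β h (remE J t z η) n - X β h (remE J t z₀ η) n| ≤
          ϑ / 2 * J then PP β h (fun _ => 0) J z else 0) < Phi h ^ J / 2}) ∪
        {η | Phi h ^ J / 2 ≤
          (∑ z ∈ boxF d J, if |X β h (remE J t z η) n - X β h (remE J t z₀ η) n| ≤
            ϑ / 2 * J then PP β h (fun _ => 0) J z else 0) ∧
          Real.log (zB ρ β b h (n + J) t J η) < X β h (remE J t z₀ η) n - ϑ / 2 * J +
            J * (Real.log (Phi h) + Real.log (∫ x, Real.exp (β * x) ∂ρ)) -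
            ϑ * J - 1} := by
      intro η hη
      have hl : -(g / 2 * J) < X β h η (n + J) -
        Real.log (zB ρ β b h (n + J) t J η) := hη
      by_cases h1 : X β h (remE J t z₀ η) n + (lam ρ β h + ϑ / 2) * J < X β h η (n + J)
      · exact Or.inl (Or.inl h1)
      · by_cases h2 : (∑ z ∈ boxF d J, if |X β h (remE J t z η) n - X β h (remE J t z₀ η) n| ≤
            ϑ / 2 * J then PP β h (fun _ => 0) J z else 0) < Phi h ^ J / 2
        · exact Or.inl (Or.inr h2)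
        · refine Or.inr ⟨not_lt.1 h2, ?_⟩
          push Not at h1
          have h4 := mul_le_mul_of_nonneg_left hgap hJ0.le
          have h5 := mul_le_mul_of_nonneg_right hϑ2 hJ0.le
          nlinarith
    have hmm := measureReal_mono (μ := law d ρ) hsub
    refine hmm.trans ((measureReal_union_le _ _).trans ?_)
    have h6 := measureReal_union_le (μ := law d ρ)
      {η | X β h (remE J t z₀ η) n + (lam ρ β h + ϑ / 2) * J < X β h η (n + J)}
      {η | (∑ z ∈ boxF d J, if |X β h (remE J t z η) n - X β h (remE J t z₀ η) n| ≤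
        ϑ / 2 * J then PP β h (fun _ => 0) J z else 0) < Phi h ^ J / 2}
    linarith
  have hc := (Finset.card_le_card hsubF).trans (Finset.card_union_le _ _)
  have hc' : (((Finset.Ico N (2 * N)).filter fun n => ∃ t : ℕ, t ≤ n ∧
      ¬ (law d ρ).real {η | -(g / 2 * J) < X β h η (n + J) -
        Real.log (zB ρ β b h (n + J) t J η)} ≤ κ).card : ℝ) ≤
      (((Finset.Ico N (2 * N)).filter fun n => ∃ t : ℕ, t ≤ n ∧
        ¬ (law d ρ).real {η | (∑ z ∈ boxF d J,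
          if |X β h (remE J t z η) n - X β h (remE J t z₀ η) n| ≤ ϑ / 2 * J then
            PP β h (fun _ => 0) J z else 0) < Phi h ^ J / 2} ≤ ϑ / 2).card : ℝ) +
      (((Finset.Ico N (2 * N)).filter fun n => ∃ t : ℕ, t ≤ n ∧
        ¬ (law d ρ).real {η | X β h (remE J t z₀ η) n + (lam ρ β h + ϑ / 2) * J <
          X β h η (n + J)} ≤ ϑ / 2).card : ℝ) := by
    exact_mod_cast hc
  have hN0 : (0 : ℝ) ≤ N := Nat.cast_nonneg _
  have h9 : ϑ * N ≤ κ * N := mul_le_mul_of_nonneg_right (by linarith) hN0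
  linarith

end Pool.Agent.W_7d29a1_LOC
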