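import Pool.Agent.W_7d29a1_LOC.Pair58
import Pool.Agent.W_7d29a1_AC.LoP41
import Pool.Agent.W_7d29a1_NV.BigB21

/-!
Theorem LOC, the assembly.
-/

set_option autoImplicit false

namespace Pool.Agent.W_7d29a1_LOC

open MeasureTheory ProbabilityTheory Filter Topology Pool.Agent.W_MP_7d29a1_pr
  Pool.Agent.W_7d29a1_h46 Pool.Agent.W_7d29a1_h46u Pool.Agent.W_7d29a1_D2.B35
  Pool.Agent.W_7d29a1_Q29 Pool.Agent.W_7d29a1_P89 Pool.Agent.W_7d29a1_P78 Pool.Agent.W_7d29a1_NV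
  Pool.Agent.W_7d29a1_AC

variable {d : ℕ} {ρ : Measure ℝ} {β : ℝ}

/-- A real random variable is large with small probability. -/
lemma tail58 {Ω : Type*} [MeasurableSpace Ω] (μ : Measure Ω) [IsProbabilityMeasure μ] {f : Ω → ℝ}
    (hf : Measurable f) {ε : ℝ} (hε : 0 < ε) : ∃ M : ℝ, 0 ≤ M ∧ μ.real {x | |f x| ≤ M}ᶜ ≤ ε := by
  have h1 : Tendsto (μ ∘ fun k : ℕ => {x | |f x| ≤ (k : ℝ)}ᶜ) atTop
      (𝓝 (μ (⋂ k : ℕ, {x | |f x| ≤ (k : ℝ)}ᶜ))) := by
    refine tendsto_measure_iInter_atTop (fun k => ?_) ?_ ⟨0, measure_ne_top _ _⟩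
    · exact (measurableSet_le hf.abs measurable_const).compl.nullMeasurableSet
    · intro k l hkl
      refine Set.compl_subset_compl.2 fun x hx => ?_
      have : (k : ℝ) ≤ l := by exact_mod_cast hkl
      exact le_trans hx this
  have h2 : (⋂ k : ℕ, {x | |f x| ≤ (k : ℝ)}ᶜ) = ∅ := by
    ext x
    simp only [Set.mem_iInter, Set.mem_compl_iff, Set.mem_empty_iff_false, iff_false, not_forall,
      not_not]
    exact exists_nat_ge |f x|
  rw [h2, measure_empty] at h1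
  have h3 : ∀ᶠ k : ℕ in atTop, (μ ∘ fun k : ℕ => {x | |f x| ≤ (k : ℝ)}ᶜ) k < ENNReal.ofReal ε :=
    h1.eventually (gt_mem_nhds (ENNReal.ofReal_pos.2 hε))
  obtain ⟨k, hk⟩ := h3.exists
  refine ⟨k, Nat.cast_nonneg k, ?_⟩
  rw [measureReal_def]
  exact ENNReal.toReal_le_of_le_ofReal hε.le hk.le

/-- The dependence on the block, from the one in the window. -/
lemma whole58 [IsProbabilityMeasure ρ] (hd : 0 < d) {b : ℝ} (hb : HB ρ b) (h : Vec d)
    {n t J r₀ : ℕ} (hr : r₀ ≤ n) {M V τ : ℝ}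
    (h1 : (∫ η in win β h n 0 M, ∫ ξ, ∑ x ∈ boxF d r₀,
        |Qt β h n r₀ x η - Qt β h n r₀ x (mxR b t J η ξ)| ∂(law d (rb ρ b)) ∂(law d ρ)) ≤ V)
    (h2 : (law d ρ).real (win β h n 0 M)ᶜ ≤ τ) :
    (∫ η, ∫ ξ, ∑ x ∈ boxF d r₀,
        |Qt β h n r₀ x η - Qt β h n r₀ x (mxR b t J η ξ)| ∂(law d (rb ρ b)) ∂(law d ρ)) ≤
      V + 2 * τ := by
  have := W_7d29a1_NV.M66.prob_rb hb
  set φ : Env d → ℝ := fun η => ∫ ξ, ∑ x ∈ boxF d r₀,
    |Qt β h n r₀ x η - Qt β h n r₀ x (mxR b t J η ξ)| ∂(law d (rb ρ b)) with hφ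
  have hm : Measurable fun w : Env d × Env d => ∑ x ∈ boxF d r₀,
      |Qt β h n r₀ x w.1 - Qt β h n r₀ x (mxR b t J w.1 w.2)| := by
    refine Finset.measurable_sum _ fun x _ => Measurable.abs ?_
    exact ((measurable_Qt94 β h n r₀ x).comp measurable_fst).sub
      ((measurable_Qt94 β h n r₀ x).comp (LoP41.mxR_meas b t J))
  have hb2 : ∀ η ξ : Env d, (∑ x ∈ boxF d r₀,
      |Qt β h n r₀ x η - Qt β h n r₀ x (mxR b t J η ξ)|) ≤ 2 := by
    intro η ξ
    have h3 : (∑ x ∈ boxF d r₀, |Qt β h n r₀ x η - Qt β h n r₀ x (mxR b t J η ξ)|) ≤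
        ∑ x ∈ boxF d r₀, (Qt β h n r₀ x η + Qt β h n r₀ x (mxR b t J η ξ)) := by
      refine Finset.sum_le_sum fun x _ => ?_
      have h4 := Qt_nonneg94 β h n r₀ x η
      have h5 := Qt_nonneg94 β h n r₀ x (mxR b t J η ξ)
      rw [abs_le]
      constructor <;> linarith
    refine h3.trans (le_of_eq ?_)
    rw [Finset.sum_add_distrib, sumQt_eq94 hd β h hr subset_rfl, sumQt_eq94 hd β h hr subset_rfl]
    norm_num
  have h0 : ∀ η ξ : Env d, 0 ≤ ∑ x ∈ boxF d r₀,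
      |Qt β h n r₀ x η - Qt β h n r₀ x (mxR b t J η ξ)| :=
    fun η ξ => Finset.sum_nonneg fun x _ => abs_nonneg _
  have hφm : StronglyMeasurable φ := hm.stronglyMeasurable.integral_prod_right
  have hφ0 : ∀ η, 0 ≤ φ η := fun η => integral_nonneg fun ξ => h0 η ξ
  have hφ2 : ∀ η, φ η ≤ 2 := by
    intro η
    have h6 : Integrable (fun ξ : Env d => ∑ x ∈ boxF d r₀,
        |Qt β h n r₀ x η - Qt β h n r₀ x (mxR b t J η ξ)|) (law d (rb ρ b)) := by
      refine Integrable.of_bound ((hm.comp measurable_prodMk_left).aestronglyMeasurable) 2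
        (ae_of_all _ fun ξ => ?_)
      rw [Real.norm_of_nonneg (h0 η ξ)]
      exact hb2 η ξ
    have h7 := integral_mono h6 (integrable_const (2 : ℝ)) fun ξ => hb2 η ξ
    simpa using h7
  have hφi : Integrable φ (law d ρ) := by
    refine Integrable.of_bound hφm.aestronglyMeasurable 2 (ae_of_all _ fun η => ?_)
    rw [Real.norm_of_nonneg (hφ0 η)]
    exact hφ2 η
  have hW : MeasurableSet (win β h n (0 : ℝ) M : Set (Env d)) :=
    measurableSet_le ((measurable_X β h n).sub_const _).abs measurable_const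
  have h8 : ∫ η, φ η ∂(law d ρ) = (∫ η in win β h n 0 M, φ η ∂(law d ρ)) +
      ∫ η in (win β h n 0 M)ᶜ, φ η ∂(law d ρ) := (integral_add_compl hW hφi).symm
  have h9 : ∫ η in (win β h n 0 M)ᶜ, φ η ∂(law d ρ) ≤ 2 * τ := by
    have h10 : ∫ η in (win β h n 0 M)ᶜ, φ η ∂(law d ρ) ≤
        ∫ _ in (win β h n 0 M)ᶜ, (2 : ℝ) ∂(law d ρ) :=
      integral_mono hφi.integrableOn (integrable_const _) fun η => hφ2 η
    rw [setIntegral_const, smul_eq_mul] at h10
    linarith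
  show ∫ η, φ η ∂(law d ρ) ≤ _
  rw [h8]
  exact add_le_add h1 h9

/-- **The assembly.** -/
theorem mainL58 [IsProbabilityMeasure ρ] (hd : 0 < d) (hnc : ∀ c : ℝ, ρ {c} ≠ 1) (h : Vec d)
    (hV : VSD ρ β h) (hM : MulH d ρ β h) (hR : ∀ b, HB ρ b → RowsU d ρ β b)
    (hT : ∀ b, HB ρ b → TvM d ρ β b) (hF : ∀ b, HB ρ b → FarP d ρ β b) (hL : LocH d ρ β h) :
    MainL d ρ β h := by
  classical
  intro κ hκ
  -- the gap
  set g : ℝ := Real.log (Phi h) + Real.log (∫ t, Real.exp (β * t) ∂ρ) - lam ρ β h with hg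
  have hg0 : 0 < g := by
    have := hV
    unfold VSD at this
    linarith
  obtain ⟨b₃, hb₃⟩ := hL g (κ / 16) hg0 (by positivity) (by rw [hg]; linarith)
  obtain ⟨b, hb, hb3⟩ := ((eventually_HB21 hnc).and (eventually_ge_atTop b₃)).exists
  obtain ⟨J₁, hJ₁⟩ := hb₃ b hb3
  -- the length of the block
  have hlim : Tendsto (fun J : ℕ => 80 * Real.exp (-(g / 2 * (J : ℝ)))) atTop (𝓝 (80 * 0)) := by
    refine Tendsto.const_mul _ (Real.tendsto_exp_atBot.comp ?_)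
    refine tendsto_neg_atTop_atBot.comp ?_
    exact (tendsto_natCast_atTop_atTop (R := ℝ)).const_mul_atTop (by positivity)
  rw [mul_zero] at hlim
  obtain ⟨J₀, hJ₀⟩ := eventually_atTop.1 (hlim.eventually (gt_mem_nhds
    (show (0 : ℝ) < κ / 4 by positivity)))
  set J : ℕ := 2 * (J₀ + J₁ + 1) with hJ
  have hJe : Even J := ⟨J₀ + J₁ + 1, by omega⟩
  have hJ1 : 1 ≤ J := by omega
  have hJexp : 80 * Real.exp (-(g / 2 * (J : ℝ))) ≤ κ / 4 := (hJ₀ J (by omega)).le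
  have hJr : (1 : ℝ) ≤ J := by exact_mod_cast hJ1
  set P : ℝ := 68 * Real.exp (J * Bc β b) ^ 12 with hP
  have hP0 : 0 < P := by positivity
  -- the size of the selections
  set v : ℝ := κ / (8 * P * J) with hv
  have hv0 : 0 < v := by positivity
  set s : ℝ := v ^ 2 / 2 with hs
  have hs0 : 0 < s := by positivity
  have hsq : Real.sqrt (2 * s) = v := by
    rw [hs, mul_div_cancel₀ _ (two_ne_zero), Real.sqrt_sq hv0.le]
  have hPs : P * (J * Real.sqrt (2 * s)) = κ / 8 := by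
    rw [hsq, hv]
    field_simp
  obtain ⟨ε, δ, b₂, hε, hδ, hb₂⟩ := hR b hb J s hJ1 hs0
  obtain ⟨b₁, hb₁⟩ := hM ε (min δ (κ / 2)) hε (lt_min hδ (by positivity))
  set b₀ : ℝ := max b₁ b₂ with hb0
  obtain ⟨N₁, hN₁⟩ := hb₁ b₀ (le_max_left _ _)
  obtain ⟨W, Λ, hΛ, hW⟩ := hb₂ b₀ (le_max_right _ _)
  obtain ⟨N₂, hN₂⟩ := hJ₁ J (by omega) hJe
  obtain ⟨N₃, hN₃⟩ := exists_nat_ge (4 * (J : ℝ) / κ)
  refine ⟨4 * W, N₁ + N₂ + N₃ + J, fun N hN => ?_⟩
  -- the bad lengths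
  set B₁ : Finset ℕ := (Finset.Ico N (2 * N)).filter fun n => ∃ τ : ℕ, τ ≤ n ∧
    ¬ (law d ρ).real {η | ¬ GoodN β h n τ b₀ ε η} ≤ min δ (κ / 2) with hB₁
  set B₂ : Finset ℕ := (Finset.Ico (N - J) (2 * (N - J))).filter fun n => ∃ t : ℕ, t ≤ n ∧
    ¬ (law d ρ).real {η | -(g / 2 * J) < X β h η (n + J) -
      Real.log (zB ρ β b h (n + J) t J η)} ≤ κ / 16 with hB₂
  have hc₁ : (B₁.card : ℝ) ≤ κ / 2 * N := by
    refine (hN₁ N (by omega)).trans ?_
    exact mul_le_mul_of_nonneg_right (min_le_right _ _) (Nat.cast_nonneg N)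
  have hc₂ : (B₂.card : ℝ) ≤ κ / 16 * N := by
    refine (hN₂ (N - J) (by omega)).trans ?_
    refine mul_le_mul_of_nonneg_left ?_ (by positivity)
    exact_mod_cast Nat.sub_le N J
  have hJN : (J : ℝ) ≤ κ / 4 * N := by
    have h1 : 4 * (J : ℝ) / κ ≤ N := hN₃.trans (by exact_mod_cast (by omega : N₃ ≤ N))
    rw [div_le_iff₀ hκ] at h1
    linarith
  have hsub : ((Finset.Ico N (2 * N)).filter fun n => ∃ t : ℕ, t ≤ n ∧
      κ < ∫ η, ∑ x ∈ boxF d t, ∑ y ∈ boxF d t, (if 4 * W < W_7d29a1_V.l1 (x - y) then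
        Qt β h n t x η * Qt β h n t y η else 0) ∂(law d ρ)) ⊆
      B₁ ∪ (B₂.image (fun n => n + J) ∪ Finset.Ico (2 * N - J) (2 * N)) := by
    intro n hn
    rw [Finset.mem_filter, Finset.mem_Ico] at hn
    obtain ⟨⟨hn1, hn2⟩, T, hT1, hT2⟩ := hn
    by_contra hcon
    rw [Finset.mem_union, Finset.mem_union, not_or, not_or] at hcon
    obtain ⟨hc1, hc2, hc3⟩ := hcon
    have hg1 : ∀ τ : ℕ, τ ≤ n → (law d ρ).real {η | ¬ GoodN β h n τ b₀ ε η} ≤ δ := by
      intro τ hτ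
      by_contra h1
      refine hc1 ?_
      rw [hB₁, Finset.mem_filter, Finset.mem_Ico]
      refine ⟨⟨hn1, hn2⟩, τ, hτ, fun h2 => h1 (h2.trans (min_le_left _ _))⟩
    obtain ⟨m, rfl⟩ : ∃ m, n = m + J := ⟨n - J, by omega⟩
    have hn3 : m + J < 2 * N - J := by
      by_contra h1
      exact hc3 (Finset.mem_Ico.2 ⟨by omega, hn2⟩)
    have hg2 : ∀ t : ℕ, t ≤ m → (law d ρ).real {η | -(g / 2 * J) < X β h η (m + J) -
        Real.log (zB ρ β b h (m + J) t J η)} ≤ κ / 16 := by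
      intro t ht
      by_contra h1
      refine hc2 (Finset.mem_image.2 ⟨m, ?_, rfl⟩)
      rw [hB₂, Finset.mem_filter, Finset.mem_Ico]
      exact ⟨⟨by omega, by omega⟩, t, ht, h1⟩
    revert hT2
    change ¬ (κ < ∫ η, fp58 β h (m + J) T (4 * W) η ∂(law d ρ))
    rw [not_lt]
    by_cases hTW : T ≤ W
    · rw [integral_congr_ae (ae_of_all _ fun η => early58 β h η hT1 hTW), integral_zero]
      exact hκ.le
    obtain ⟨M, hM0, hM1⟩ := tail58 (law d ρ) (f := fun η : Env d => X β h η (m + J) - 0)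
      ((measurable_X β h (m + J)).sub_const _) (show (0 : ℝ) < κ / (16 * P) by positivity)
    have hB0 : 0 ≤ Bc β b := by
      unfold Bc
      have := hb.b0
      positivity
    have hM'0 : 0 ≤ M + 4 * Bc β b * (J + 1) := by positivity
    obtain ⟨t, r₀, r₁, hr1, hr2, hr3, hr4, hsel⟩ := hW h (m + J) T 0 (M + 4 * Bc β b * (J + 1))
      (by omega) hT1 hM'0 (fun τ _ hτ =>
        (measureReal_mono (fun η hη => hη.2) (measure_ne_top _ _)).trans (hg1 τ hτ))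
    have hTv := hT b hb h (m + J) t J r₀ r₁ hJ1 hr2 hr3 (by omega) 0 M s hM0 hs0.le hsel
    have hI := whole58 hd hb h (n := m + J) (t := t) (J := J) (r₀ := r₀) (by omega) hTv hM1
    have hFar := hF b hb h (m + J) t J r₀ (2 * W) (g / 2 * J) hr2 (by omega) (by omega)
    have h1 : ∫ η, fp58 β h (m + J) T (4 * W) η ∂(law d ρ) ≤
        ∫ η, fp58 β h (m + J) r₀ (2 * W) η ∂(law d ρ) :=
      integral_mono (fp58_int hd β h hT1 _) (fp58_int hd β h (by omega) _) fun η =>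
        far58 hd β h η (by omega) hT1 (by omega)
    refine h1.trans (le_trans hFar ?_)
    have h2 := hg2 t (by omega)
    have h3 : P * (J * Real.sqrt (2 * s) + 2 * (κ / (16 * P))) = κ / 4 := by
      rw [mul_add, hPs]
      field_simp
      norm_num
    have h4 := mul_le_mul_of_nonneg_left hI hP0.le
    rw [h3] at h4
    linarith
  have hcard := Finset.card_le_card hsub
  have hcu := hcard.trans ((Finset.card_union_le _ _).trans (Nat.add_le_add_left
    (Finset.card_union_le _ _) _))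
  have hci : (B₂.image (fun n => n + J)).card ≤ B₂.card := Finset.card_image_le
  have hcI : (Finset.Ico (2 * N - J) (2 * N)).card ≤ J := by
    rw [Nat.card_Ico]
    omega
  have h5 := hcu.trans (Nat.add_le_add_left (Nat.add_le_add hci hcI) _)
  have h6 : (((Finset.Ico N (2 * N)).filter fun n => ∃ t : ℕ, t ≤ n ∧
      κ < ∫ η, ∑ x ∈ boxF d t, ∑ y ∈ boxF d t, (if 4 * W < W_7d29a1_V.l1 (x - y) then
        Qt β h n t x η * Qt β h n t y η else 0) ∂(law d ρ)).card : ℝ) ≤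
      B₁.card + (B₂.card + J) := by exact_mod_cast h5
  refine h6.trans ?_
  have hN0 : (0 : ℝ) ≤ N := Nat.cast_nonneg N
  nlinarith [mul_nonneg hκ.le hN0]

end Pool.Agent.W_7d29a1_LOC
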