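import Pool.Agent.W_7d29a1_LOC.DefsL99
import Pool.Agent.W_7d29a1_AC.EqB6
import Pool.Agent.W_7d29a1_V.Five58
import Pool.Agent.W_7d29a1_Q29.Qf39
import Pool.Agent.W_7d29a1_Q29.Npb39

/-!
Theorem LOC, the assembly: tools.
-/

set_option autoImplicit false

namespace Pool.Agent.W_7d29a1_LOC.Ma86

open MeasureTheory ProbabilityTheory Filter Topology Pool.Agent.W_MP_7d29a1_pr
  Pool.Agent.W_7d29a1_h46 Pool.Agent.W_7d29a1_h46u Pool.Agent.W_7d29a1_D2.B35
  Pool.Agent.W_7d29a1_Q29 Pool.Agent.W_7d29a1_NV Pool.Agent.W_7d29a1_AC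

variable {d : ℕ} {ρ : Measure ℝ} {β b : ℝ}

/-- The mean of a function of the position at the time `t`. -/
lemma mean86 (β : ℝ) (h : Vec d) {n t : ℕ} (ht : t ≤ n) (η : Env d) (F : Site d → ℝ) :
    ∑ x ∈ boxF d t, Qt β h n t x η * F x =
      (∑ s : Fin n → Step d, wgt β h η s * F (pos s t)) / Z β h η n := by
  classical
  have h1 : ∀ x ∈ boxF d t, Qt β h n t x η * F x =
      (∑ s : Fin n → Step d, (if pos s t = x then wgt β h η s * F (pos s t) else 0)) /
        Z β h η n := by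
    intro x _
    rw [Qt_eq39 β h ht, div_mul_eq_mul_div, Finset.sum_mul]
    congr 1
    refine Finset.sum_congr rfl fun s _ => ?_
    by_cases hs : pos s t = x
    · rw [if_pos hs, if_pos hs, hs]
    · rw [if_neg hs, if_neg hs, zero_mul]
  rw [Finset.sum_congr rfl h1, ← Finset.sum_div, Finset.sum_comm]
  congr 1
  refine Finset.sum_congr rfl fun s _ => ?_
  rw [Finset.sum_ite_eq, if_pos (pos_mem_boxF39 s le_rfl)]

open Classical in
/-- The probability that two replicas are at distance more than `L` at the time `t`. -/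
noncomputable def pr2 (β : ℝ) (h : Vec d) (n t L : ℕ) (η : Env d) : ℝ :=
  ∑ x ∈ boxF d t, ∑ y ∈ boxF d t, (if L < W_7d29a1_V.l1 (x - y) then
      Qt β h n t x η * Qt β h n t y η else 0)

open Classical in
lemma pr2_eq (β : ℝ) (h : Vec d) {n t : ℕ} (ht : t ≤ n) (L : ℕ) (η : Env d) :
    pr2 β h n t L η = (∑ s : Fin n → Step d, wgt β h η s *
      ((∑ s' : Fin n → Step d, wgt β h η s' *
        (if L < W_7d29a1_V.l1 (pos s t - pos s' t) then 1 else 0)) / Z β h η n)) /
          Z β h η n := by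
  rw [← mean86 β h ht η (fun x => (∑ s' : Fin n → Step d, wgt β h η s' *
        (if L < W_7d29a1_V.l1 (x - pos s' t) then 1 else 0)) / Z β h η n)]
  unfold pr2
  refine Finset.sum_congr rfl fun x _ => ?_
  rw [← mean86 β h ht η (fun y => if L < W_7d29a1_V.l1 (x - y) then 1 else 0), Finset.mul_sum]
  refine Finset.sum_congr rfl fun y _ => ?_
  by_cases hy : L < W_7d29a1_V.l1 (x - y)
  · rw [if_pos hy, if_pos hy, mul_one]
  · rw [if_neg hy, if_neg hy, mul_zero, mul_zero]

/-- The distance of two replicas changes by at most two for each step. -/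
lemma pr2_mono (hd : 0 < d) (β : ℝ) (h : Vec d) {n r T : ℕ} (hr : r ≤ T) (hT : T ≤ n)
    {L D : ℕ} (hL : D + 2 * (T - r) ≤ L) (η : Env d) :
    pr2 β h n T L η ≤ pr2 β h n r D η := by
  classical
  have hZ := Z_pos hd β h η n
  rw [pr2_eq β h hT, pr2_eq β h (hr.trans hT)]
  refine div_le_div_of_nonneg_right ?_ hZ.le
  refine Finset.sum_le_sum fun s _ => ?_
  refine mul_le_mul_of_nonneg_left ?_ (wgt_pos _ _ _ _).le
  refine div_le_div_of_nonneg_right ?_ hZ.le
  refine Finset.sum_le_sum fun s' _ => ?_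
  refine mul_le_mul_of_nonneg_left ?_ (wgt_pos _ _ _ _).le
  by_cases h1 : L < W_7d29a1_V.l1 (pos s T - pos s' T)
  · have h2 := W_7d29a1_V.l1_pos_sub58 s hr
    have h3 := W_7d29a1_V.l1_pos_sub58 s' hr
    have h4 : pos s T - pos s' T = (pos s T - pos s r) + ((pos s r - pos s' r) -
        (pos s' T - pos s' r)) := by abel
    have h5 := W_7d29a1_V.l1_add_le58 (pos s T - pos s r) ((pos s r - pos s' r) -
        (pos s' T - pos s' r))
    have h6 := W_7d29a1_V.l1_add_le58 (pos s r - pos s' r) (-(pos s' T - pos s' r))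
    rw [← sub_eq_add_neg, W_7d29a1_V.l1_neg58] at h6
    rw [← h4] at h5
    have h7 : D < W_7d29a1_V.l1 (pos s r - pos s' r) := by omega
    rw [if_pos h1, if_pos h7]
  · rw [if_neg h1]
    split_ifs
    · exact zero_le_one
    · exact le_rfl

lemma pr2_nonneg (β : ℝ) (h : Vec d) (n t L : ℕ) (η : Env d) : 0 ≤ pr2 β h n t L η := by
  classical
  refine Finset.sum_nonneg fun x _ => Finset.sum_nonneg fun y _ => ?_
  split_ifs
  · exact mul_nonneg (Qt_nonneg39 _ _ _ _ _ _) (Qt_nonneg39 _ _ _ _ _ _)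
  · exact le_rfl

lemma pr2_zero (β : ℝ) (h : Vec d) (n : ℕ) (η : Env d) : pr2 β h n 0 0 η = 0 := by
  classical
  refine Finset.sum_eq_zero fun x hx => Finset.sum_eq_zero fun y hy => if_neg ?_
  have h0 : ∀ z : Site d, z ∈ boxF d 0 → z = 0 := by
    intro z hz
    funext j
    have h1 := (mem_boxF.1 hz) j
    have h2 : |z j| ≤ 0 := by exact_mod_cast h1
    exact abs_nonpos_iff.1 h2
  rw [h0 x hx, h0 y hy, sub_zero, W_7d29a1_V.l1_zero58]
  exact lt_irrefl 0

lemma pr2_le (hd : 0 < d) (β : ℝ) (h : Vec d) {n t : ℕ} (ht : t ≤ n) (L : ℕ) (η : Env d) :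
    pr2 β h n t L η ≤ 1 := by
  classical
  have h1 : pr2 β h n t L η ≤ ∑ x ∈ boxF d t, ∑ y ∈ boxF d t,
      Qt β h n t x η * Qt β h n t y η := by
    refine Finset.sum_le_sum fun x _ => Finset.sum_le_sum fun y _ => ?_
    split_ifs
    · exact le_rfl
    · exact mul_nonneg (Qt_nonneg39 _ _ _ _ _ _) (Qt_nonneg39 _ _ _ _ _ _)
  refine h1.trans ?_
  rw [← Finset.sum_mul_sum, Qt_sum_box39 hd β h ht le_rfl, mul_one]

lemma pr2_meas (β : ℝ) (h : Vec d) (n t L : ℕ) : Measurable (pr2 β h n t L) := by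
  classical
  unfold pr2
  refine Finset.measurable_sum _ fun x _ => Finset.measurable_sum _ fun y _ => ?_
  by_cases hy : L < W_7d29a1_V.l1 (x - y)
  · simp only [if_pos hy]
    exact (measurable_Qt39 β h n t x).mul (measurable_Qt39 β h n t y)
  · simp only [if_neg hy]
    exact measurable_const

lemma pr2_int [IsProbabilityMeasure ρ] (hd : 0 < d) (β : ℝ) (h : Vec d) {n t : ℕ} (ht : t ≤ n)
    (L : ℕ) : Integrable (pr2 β h n t L) (law d ρ) :=
  Integrable.of_bound (C := 1) (pr2_meas β h n t L).aestronglyMeasurable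
    (Eventually.of_forall fun η => by
      rw [Real.norm_eq_abs, abs_of_nonneg (pr2_nonneg β h n t L η)]
      exact pr2_le hd β h ht L η)

/-- The change of the law of the position when the block is resampled. -/
noncomputable def ch86 (ρ : Measure ℝ) (β b : ℝ) (h : Vec d) (n t J r₀ : ℕ) (η : Env d) : ℝ :=
  ∫ ξ, ∑ x ∈ boxF d r₀, |Qt β h n r₀ x η - Qt β h n r₀ x (mxR b t J η ξ)| ∂(law d (rb ρ b))

lemma ch86_pt (hd : 0 < d) (β : ℝ) (h : Vec d) {n r₀ : ℕ} (hr : r₀ ≤ n) (η ζ : Env d) :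
    (∑ x ∈ boxF d r₀, |Qt β h n r₀ x η - Qt β h n r₀ x ζ|) ≤ 2 := by
  have h1 : (∑ x ∈ boxF d r₀, |Qt β h n r₀ x η - Qt β h n r₀ x ζ|) ≤
      ∑ x ∈ boxF d r₀, (Qt β h n r₀ x η + Qt β h n r₀ x ζ) := by
    refine Finset.sum_le_sum fun x _ => ?_
    have h2 := Qt_nonneg39 β h n r₀ x η
    have h3 := Qt_nonneg39 β h n r₀ x ζ
    rw [abs_le]
    constructor <;> linarith
  refine h1.trans ?_
  rw [Finset.sum_add_distrib, Qt_sum_box39 hd β h hr le_rfl, Qt_sum_box39 hd β h hr le_rfl]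
  norm_num

lemma ch86_meas [IsProbabilityMeasure ρ] (hb : HB ρ b) (β : ℝ) (h : Vec d) (n t J r₀ : ℕ) :
    StronglyMeasurable (ch86 (d := d) ρ β b h n t J r₀) := by
  have := Eq41.rb_prob hb
  have h1 : Measurable fun w : Env d × Env d =>
      ∑ x ∈ boxF d r₀, |Qt β h n r₀ x w.1 - Qt β h n r₀ x (mxR b t J w.1 w.2)| := by
    refine Finset.measurable_sum _ fun x _ => ?_
    have h2 : Measurable fun w : Env d × Env d => Qt β h n r₀ x w.1 :=
      (measurable_Qt39 β h n r₀ x).comp measurable_fst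
    have h3 : Measurable fun w : Env d × Env d => Qt β h n r₀ x (mxR b t J w.1 w.2) :=
      (measurable_Qt39 β h n r₀ x).comp (mixR6 (d := d) hb t J).measurable
    have h4 := (h2.sub h3).abs
    exact h4
  exact h1.stronglyMeasurable.integral_prod_right'

lemma ch86_nonneg (ρ : Measure ℝ) (β b : ℝ) (h : Vec d) (n t J r₀ : ℕ) (η : Env d) :
    0 ≤ ch86 ρ β b h n t J r₀ η :=
  integral_nonneg fun _ => Finset.sum_nonneg fun _ _ => abs_nonneg _

lemma ch86_le [IsProbabilityMeasure ρ] (hd : 0 < d) (hb : HB ρ b) (β : ℝ) (h : Vec d)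
    {n r₀ : ℕ} (hr : r₀ ≤ n) (t J : ℕ) (η : Env d) : ch86 ρ β b h n t J r₀ η ≤ 2 := by
  have := Eq41.rb_prob hb
  unfold ch86
  have h1 : ∫ ξ, ∑ x ∈ boxF d r₀, |Qt β h n r₀ x η - Qt β h n r₀ x (mxR b t J η ξ)|
      ∂(law d (rb ρ b)) ≤ ∫ _ : Env d, (2 : ℝ) ∂(law d (rb ρ b)) :=
    integral_mono_of_nonneg (Eventually.of_forall fun ξ => Finset.sum_nonneg fun _ _ =>
      abs_nonneg _) (integrable_const _) (Eventually.of_forall fun ξ => ch86_pt hd β h hr _ _)
  rwa [integral_const, probReal_univ, one_smul] at h1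

/-- The window is left with a small probability. -/
lemma win86 [IsProbabilityMeasure ρ] (hd : 0 < d) (hρ : EM ρ) (β : ℝ) (h : Vec d) (n : ℕ)
    {e : ℝ} (he : 0 < e) : ∃ M : ℝ, 0 ≤ M ∧ (law d ρ).real (win β h n 0 M)ᶜ ≤ e := by
  set E := ∫ η, X β h η n ^ 2 ∂(law d ρ) with hE
  have hE0 : 0 ≤ E := integral_nonneg fun _ => sq_nonneg _
  refine ⟨1 + E / e, by positivity, ?_⟩
  have hM1 : 1 ≤ 1 + E / e := by
    have : 0 ≤ E / e := by positivity
    linarith
  have h1 := mul_meas_ge_le_integral_of_nonneg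
    (Filter.Eventually.of_forall fun η : Env d => sq_nonneg (X β h η n))
    (integrable_X_sq39 (ρ := ρ) hd hρ β h n) ((1 + E / e) ^ 2)
  have hsub : (win β h n 0 (1 + E / e))ᶜ ⊆ {η : Env d | (1 + E / e) ^ 2 ≤ X β h η n ^ 2} := by
    intro η hη
    have h2 : ¬ |X β h η n - 0| ≤ 1 + E / e := hη
    rw [sub_zero, not_le] at h2
    show (1 + E / e) ^ 2 ≤ X β h η n ^ 2
    rw [← sq_abs (X β h η n)]
    exact pow_le_pow_left₀ (by linarith) h2.le 2
  have h3 := measureReal_mono (μ := law d ρ) hsub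
  refine h3.trans ?_
  have h4 : E ≤ (1 + E / e) ^ 2 * e := by
    have h5 : 1 + E / e ≤ (1 + E / e) ^ 2 := by nlinarith
    have h6 := mul_le_mul_of_nonneg_right h5 he.le
    have h7 : (1 + E / e) * e = e + E := by field_simp
    linarith
  exact le_of_mul_le_mul_left (h1.trans h4) (by positivity)

/-- The integral over the window and off the window. -/
lemma split86 [IsProbabilityMeasure ρ] (hd : 0 < d) (hb : HB ρ b) (β : ℝ) (h : Vec d)
    {n r₀ : ℕ} (hr : r₀ ≤ n) (t J : ℕ) (M : ℝ) :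
    ∫ η, ch86 ρ β b h n t J r₀ η ∂(law d ρ) ≤
      (∫ η in win β h n 0 M, ch86 ρ β b h n t J r₀ η ∂(law d ρ)) +
        2 * (law d ρ).real (win β h n 0 M)ᶜ := by
  have hW : MeasurableSet (win β h n 0 M : Set (Env d)) :=
    measurableSet_le ((measurable_X β h n).sub_const _).abs measurable_const
  have hi : Integrable (ch86 (d := d) ρ β b h n t J r₀) (law d ρ) :=
    Integrable.of_bound (C := 2) (ch86_meas hb β h n t J r₀).aestronglyMeasurable
      (Eventually.of_forall fun η => by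
        rw [Real.norm_eq_abs, abs_of_nonneg (ch86_nonneg ρ β b h n t J r₀ η)]
        exact ch86_le hd hb β h hr t J η)
  rw [← integral_add_compl hW hi]
  refine add_le_add le_rfl ?_
  have h1 : ∫ η in (win β h n 0 M)ᶜ, ch86 ρ β b h n t J r₀ η ∂(law d ρ) ≤
      ∫ _ in (win β h n 0 M : Set (Env d))ᶜ, (2 : ℝ) ∂(law d ρ) :=
    integral_mono_of_nonneg (Eventually.of_forall fun η => ch86_nonneg ρ β b h n t J r₀ η)
      (integrable_const _) (Eventually.of_forall fun η => ch86_le hd hb β h hr t J η)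
  refine h1.trans (le_of_eq ?_)
  rw [setIntegral_const, smul_eq_mul, mul_comm]

end Pool.Agent.W_7d29a1_LOC.Ma86
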