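import Pool.Agent.W_7d29a1_LOC.DefsV51
import Pool.Agent.W_7d29a1_LOC.Med64
import Pool.Agent.W_7d29a1_AC.RemC41
import Pool.Agent.W_7d29a1_V.Rch48

/-!
Theorem LOC at the regular tilts, leaf MedV: the shortened environments are close for most
displacements, at most lengths.
-/

set_option autoImplicit false

namespace Pool.Agent.W_7d29a1_LOC

open MeasureTheory ProbabilityTheory Filter Topology Pool.Agent.W_MP_7d29a1_pr
  Pool.Agent.W_7d29a1_h46 Pool.Agent.W_7d29a1_h46u Pool.Agent.W_7d29a1_D2.B35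
  Pool.Agent.W_7d29a1_Q29 Pool.Agent.W_7d29a1_P89 Pool.Agent.W_7d29a1_P78 Pool.Agent.W_7d29a1_NV
  Pool.Agent.W_7d29a1_AC Pool.Agent.W_7d29a1_SDP M64

variable {d : ℕ} {ρ : Measure ℝ} [IsProbabilityMeasure ρ]

lemma remE_fshz51 (J t : ℕ) (z z₀ : Site d) (η : Env d) :
    remE J t z η = fsh t (z - z₀) (remE J t z₀ η) := by
  funext p
  unfold fsh remE
  by_cases hp : p.1 ≤ t
  · simp [hp]
  · simp only [hp, if_false]
    congr 2
    abel

lemma mp_remEz51 (J t : ℕ) (z : Site d) :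
    MeasurePreserving (remE (d := d) J t z) (law d ρ) (law d ρ) := by
  have h1 := (mp_fsh (ρ := ρ) t z).comp (mp_remE (ρ := ρ) (d := d) J t)
  have h2 : (fsh t z ∘ remE J t (0 : Site d) : Env d → Env d) = remE J t z := by
    funext η
    exact (remE_fsh J t z η).symm
  rwa [h2] at h1

/-- One length. -/
lemma medn51 (hd : 0 < d) (hρ : EM ρ) (β : ℝ) (h : Vec d) {J n t : ℕ} (hJ1 : 1 ≤ J) {ϑ ϑ' : ℝ}
    (hϑ : 0 < ϑ) (hϑ' : ϑ' ≤ ϑ ^ 2 / 2) {z₀ : Site d}
    (hDz : ∀ z : Site d, W_7d29a1_V.Rch J z →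
      ∫ η, |X β h (fsh t (z - z₀) η) n - X β h η n| ∂(law d ρ) ≤ ϑ' * J) :
    (law d ρ).real {η | (∑ z ∈ boxF d J,
        if |X β h (remE J t z η) n - X β h (remE J t z₀ η) n| ≤ ϑ * J then
          PP β h (fun _ => 0) J z else 0) < Phi h ^ J / 2} ≤ ϑ := by
  classical
  have hJ0 : (0 : ℝ) < J := by exact_mod_cast hJ1
  obtain ⟨K, hK⟩ : ∃ K : ℝ, K = Phi h ^ J := ⟨_, rfl⟩
  have hPhi : 0 < Phi h := by
    haveI : Nonempty (Step d) := ⟨(⟨0, hd⟩, true)⟩
    unfold Phi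
    exact Finset.sum_pos (fun e _ => Real.exp_pos _) Finset.univ_nonempty
  have hK0 : 0 < K := by rw [hK]; exact pow_pos hPhi J
  have hXm : Measurable fun η : Env d => X β h η n := measurable_X β h n
  have hXi : Integrable (fun η : Env d => X β h η n) (law d ρ) := (concU hd hρ β h n).1
  set D : Site d → Env d → ℝ := fun z η =>
    |X β h (remE J t z η) n - X β h (remE J t z₀ η) n| with hD
  have hDf : ∀ z η, D z η =
      |X β h (fsh t (z - z₀) (remE J t z₀ η)) n - X β h (remE J t z₀ η) n| := by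
    intro z η
    rw [hD]
    simp only
    rw [remE_fshz51 J t z z₀ η]
  have hgm : ∀ w : Site d, Measurable fun ζ : Env d => |X β h (fsh t w ζ) n - X β h ζ n| :=
    fun w => ((hXm.comp (meas_fsh t w)).sub hXm).abs
  have hgi : ∀ w : Site d,
      Integrable (fun ζ : Env d => |X β h (fsh t w ζ) n - X β h ζ n|) (law d ρ) := fun w =>
    (((mp_fsh (ρ := ρ) t w).integrable_comp_of_integrable hXi).sub hXi).abs
  have hmr := mp_remEz51 (ρ := ρ) (d := d) J t z₀
  have hDi : ∀ z, Integrable (D z) (law d ρ) := by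
    intro z
    have h1 := hmr.integrable_comp_of_integrable (hgi (z - z₀))
    refine h1.congr (Eventually.of_forall fun η => ?_)
    exact (hDf z η).symm
  have hDint : ∀ z, ∫ η, D z η ∂(law d ρ) =
      ∫ ζ, |X β h (fsh t (z - z₀) ζ) n - X β h ζ n| ∂(law d ρ) := by
    intro z
    rw [← LawU_integral hmr (hgm (z - z₀)).aestronglyMeasurable]
    exact integral_congr_ae (Eventually.of_forall fun η => hDf z η)
  set P : Site d → ℝ := fun z => PP β h (fun _ => 0) J z with hP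
  have hP0 : ∀ z, 0 ≤ P z := fun z => RemC41.PP0_nonneg β h J z
  have htot : ∑ z ∈ boxF d J, P z = K := by
    rw [hK]
    exact RemC41.PP0_sum β h J
  set U : Env d → ℝ := fun η => ∑ z ∈ boxF d J, P z * D z η with hU
  have hUi : Integrable U (law d ρ) := integrable_finsetSum _ fun z _ => (hDi z).const_mul _
  have hU0 : ∀ η, 0 ≤ U η := fun η =>
    Finset.sum_nonneg fun z _ => mul_nonneg (hP0 z) (abs_nonneg _)
  have hUint : ∫ η, U η ∂(law d ρ) ≤ ϑ' * J * K := by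
    rw [hU, integral_finsetSum _ fun z _ => (hDi z).const_mul _]
    have h1 : ∀ z ∈ boxF d J, ∫ η, P z * D z η ∂(law d ρ) ≤ P z * (ϑ' * J) := by
      intro z _
      rw [integral_const_mul]
      by_cases hz : P z = 0
      · rw [hz]; simp
      · refine mul_le_mul_of_nonneg_left ?_ (hP0 z)
        rw [hDint]
        exact hDz z (RemC41.PP0_reach β h J hz)
    refine (Finset.sum_le_sum h1).trans (le_of_eq ?_)
    rw [← Finset.sum_mul, htot]
    ring
  have hset : {η : Env d | (∑ z ∈ boxF d J, if |X β h (remE J t z η) n -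
      X β h (remE J t z₀ η) n| ≤ ϑ * J then PP β h (fun _ => 0) J z else 0) < Phi h ^ J / 2} ⊆
      {η : Env d | ϑ * J * (K / 2) ≤ U η} := by
    intro η hη
    have hη' : (∑ z ∈ boxF d J, if D z η ≤ ϑ * J then P z else 0) < K / 2 := by
      rw [hK]
      exact hη
    show ϑ * J * (K / 2) ≤ U η
    have h1 : ∑ z ∈ boxF d J, (if D z η ≤ ϑ * J then P z else 0) +
        ∑ z ∈ boxF d J, (if D z η ≤ ϑ * J then 0 else P z) = K := by
      rw [← Finset.sum_add_distrib, ← htot]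
      refine Finset.sum_congr rfl fun z _ => ?_
      split_ifs <;> ring
    have h2 : ϑ * J * ∑ z ∈ boxF d J, (if D z η ≤ ϑ * J then 0 else P z) ≤ U η := by
      rw [Finset.mul_sum]
      refine Finset.sum_le_sum fun z _ => ?_
      split_ifs with h3
      · rw [mul_zero]
        exact mul_nonneg (hP0 z) (abs_nonneg _)
      · rw [mul_comm]
        exact mul_le_mul_of_nonneg_left (not_le.1 h3).le (hP0 z)
    refine le_trans ?_ h2
    exact mul_le_mul_of_nonneg_left (by linarith) (by positivity)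
  have hmk := mul_meas_ge_le_integral_of_nonneg (Eventually.of_forall hU0) hUi
    (ϑ * J * (K / 2))
  have h1 : (law d ρ).real {η : Env d | ϑ * J * (K / 2) ≤ U η} ≤ ϑ := by
    have h2 : 0 < ϑ * J * (K / 2) := by positivity
    have h3 : ϑ' * J * K ≤ ϑ * J * (K / 2) * ϑ := by
      have h4 : ϑ' * (J * K) ≤ ϑ ^ 2 / 2 * (J * K) :=
        mul_le_mul_of_nonneg_right hϑ' (by positivity)
      have h5 : ϑ * J * (K / 2) * ϑ = ϑ ^ 2 / 2 * (J * K) := by ring
      rw [h5]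
      linarith
    have h9 := (hmk.trans hUint).trans h3
    exact le_of_mul_le_mul_left h9 h2
  exact (measureReal_mono hset).trans h1

open Classical in
/-- **Leaf MedV.** -/
theorem medV51 (hd : 0 < d) (hρ : EM ρ) {β : ℝ} (hS : ShV d ρ β) : MedV d ρ β := by
  intro h v hLP ϑ hϑ
  obtain ⟨ϑ', hϑ'⟩ : ∃ ϑ' : ℝ, ϑ' = min ϑ (ϑ ^ 2 / 2) := ⟨_, rfl⟩
  have hp : 0 < ϑ' := by rw [hϑ']; exact lt_min hϑ (by positivity)
  have hl1 : ϑ' ≤ ϑ := by rw [hϑ']; exact min_le_left _ _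
  have hl2 : ϑ' ≤ ϑ ^ 2 / 2 := by rw [hϑ']; exact min_le_right _ _
  obtain ⟨J₁, hJ₁⟩ := hS h v hLP ϑ' hp
  refine ⟨max 1 J₁, fun J hJ z₀ hz₀ => ?_⟩
  have hJ1 : 1 ≤ J := (le_max_left _ _).trans hJ
  obtain ⟨N₀, hN₀⟩ := hJ₁ J ((le_max_right _ _).trans hJ)
  refine ⟨N₀, fun N hN => ?_⟩
  refine le_trans ?_ ((hN₀ N hN).trans (mul_le_mul_of_nonneg_right hl1 (Nat.cast_nonneg _)))
  have hsub : ((Finset.Ico N (2 * N)).filter fun n => ∃ t : ℕ, t ≤ n ∧
      ¬ (law d ρ).real {η | (∑ z ∈ boxF d J,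
        if |X β h (remE J t z η) n - X β h (remE J t z₀ η) n| ≤ ϑ * J then
          PP β h (fun _ => 0) J z else 0) < Phi h ^ J / 2} ≤ ϑ) ⊆
      (Finset.Ico N (2 * N)).filter fun n =>
        ∃ (t : ℕ) (w : Site d), t ≤ n ∧ W_7d29a1_V.l1 w ≤ 2 * J ∧ Even (W_7d29a1_V.l1 w) ∧
          ϑ' * J < ∫ η, |X β h (fsh t w η) n - X β h η n| ∂(law d ρ) := by
    intro n hn
    rw [Finset.mem_filter] at hn ⊢
    refine ⟨hn.1, ?_⟩
    obtain ⟨t, ht, hbad⟩ := hn.2
    by_contra hno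
    push Not at hno
    refine hbad (medn51 hd hρ β h hJ1 hϑ hl2 fun z hz => ?_)
    obtain ⟨a1, a2⟩ := (W_7d29a1_V.R48.rch_iff hd).1 hz
    obtain ⟨b1, b2⟩ := (W_7d29a1_V.R48.rch_iff hd).1 hz₀
    refine hno t (z - z₀) ht ?_ ?_
    · have h1 := W_7d29a1_V.LipA74.l1_sub_le z z₀
      omega
    · rw [W_7d29a1_V.R48.even_l1_sub]
      rw [Nat.even_add] at a2 b2 ⊢
      rw [← a2, ← b2]
  convert (Nat.cast_le (α := ℝ)).2 (Finset.card_le_card hsub) using 2

end Pool.Agent.W_7d29a1_LOC
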