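import Pool.Agent.W_7d29a1_LOC.DefsV51
import Pool.Agent.W_7d29a1_LOC.Med64
import Pool.Agent.W_7d29a1_Q29.Vsd61

/-!
Leaf MedV: the shortened environments are close for most displacements, at a limit pair.
-/

set_option autoImplicit false

namespace Pool.Agent.W_7d29a1_LOC

open MeasureTheory ProbabilityTheory Filter Topology Pool.Agent.W_MP_7d29a1_pr
  Pool.Agent.W_7d29a1_h46 Pool.Agent.W_7d29a1_h46u Pool.Agent.W_7d29a1_D2.B35
  Pool.Agent.W_7d29a1_Q29 Pool.Agent.W_7d29a1_AC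

namespace M64

variable {d : ℕ}

lemma remE_fshV (J t : ℕ) (z z₀ : Site d) (η : Env d) :
    remE J t z η = fsh t (z - z₀) (remE J t z₀ η) := by
  funext p
  unfold fsh remE
  by_cases hp : p.1 ≤ t
  · simp [hp]
  · simp only [hp, if_false]
    congr 2
    abel

lemma mp_remEV {ρ : Measure ℝ} [IsProbabilityMeasure ρ] (J t : ℕ) (z : Site d) :
    MeasurePreserving (remE J t z) (law d ρ) (law d ρ) := by
  have h1 := (mp_remE (ρ := ρ) (d := d) J t)
  have h2 := (mp_fsh (ρ := ρ) t z).comp h1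
  have h3 : (fsh t z : Env d → Env d) ∘ remE J t 0 = remE J t z := by
    funext η
    exact (remE_fsh J t z η).symm
  rwa [h3] at h2

lemma even_sub {J : ℕ} {z z₀ : Site d} (hz : W_7d29a1_V.Rch J z) (hz₀ : W_7d29a1_V.Rch J z₀) :
    W_7d29a1_V.l1 (z - z₀) ≤ 2 * J ∧ Even (W_7d29a1_V.l1 (z - z₀)) := by
  obtain ⟨h1, h2⟩ := W_7d29a1_V.LipA74.rch_l1 hz
  obtain ⟨h3, h4⟩ := W_7d29a1_V.LipA74.rch_l1 hz₀
  have h5 := W_7d29a1_V.LipA74.l1_sub_le z z₀
  refine ⟨by omega, ?_⟩
  have h6 := W_7d29a1_V.LipA74.l1_mod z (-z₀)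
  rw [W_7d29a1_V.LipA74.l1_neg, ← sub_eq_add_neg] at h6
  rw [Nat.even_iff, h6, Nat.add_mod, h2, h4]
  omega

lemma PP_rchV {J : ℕ} {β : ℝ} {h : Vec d} {z : Site d}
    (hne : PP β h (fun _ => 0) J z ≠ 0) : W_7d29a1_V.Rch J z := by
  classical
  unfold PP ZT at hne
  obtain ⟨q, -, hq⟩ := Finset.exists_ne_zero_of_sum_ne_zero hne
  refine ⟨q, ?_⟩
  by_contra hc
  exact hq (if_neg (show q ∉ {s : Fin J → Step d | pos s J = z} from hc))

lemma sum_PPV (β : ℝ) (h : Vec d) (J : ℕ) :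
    ∑ z ∈ boxF d J, PP β h (fun _ => 0) J z = Phi h ^ J := by
  classical
  have h1 : ∀ z ∈ boxF d J, PP β h (fun _ => 0) J z =
      ∑ q : Fin J → Step d, if pos q J = z then wgt β h (fun _ => 0) q else 0 := by
    intro z _
    unfold PP ZT
    refine Finset.sum_congr rfl fun q _ => ?_
    by_cases hq : pos q J = z
    · rw [if_pos hq, if_pos (show q ∈ {s : Fin J → Step d | pos s J = z} from hq)]
    · rw [if_neg hq, if_neg (show q ∉ {s : Fin J → Step d | pos s J = z} from hq)]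
  rw [Finset.sum_congr rfl h1, Finset.sum_comm, ← sum_walks61]
  refine Finset.sum_congr rfl fun q _ => ?_
  rw [Finset.sum_ite_eq, if_pos (pos_mem_boxF39 q le_rfl)]
  unfold wgt energy
  simp

end M64

open M64

variable {d : ℕ} {ρ : Measure ℝ} [IsProbabilityMeasure ρ]

open Classical in
/-- Leaf MedV. -/
theorem medV64 (hd : 0 < d) (hρ : EM ρ) {β : ℝ} (hS : ShV d ρ β) : MedV d ρ β := by
  intro h v hLP ϑ hϑ
  obtain ⟨ϑ', hϑ'⟩ : ∃ ϑ', ϑ' = min ϑ (ϑ ^ 2 / 2) := ⟨_, rfl⟩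
  have hϑ'0 : 0 < ϑ' := by rw [hϑ']; exact lt_min hϑ (by positivity)
  have hϑ'1 : ϑ' ≤ ϑ := by rw [hϑ']; exact min_le_left _ _
  have hϑ'2 : ϑ' ≤ ϑ ^ 2 / 2 := by rw [hϑ']; exact min_le_right _ _
  obtain ⟨J₁, hJ₁⟩ := hS h v hLP ϑ' hϑ'0
  refine ⟨J₁ + 1, fun J hJ z₀ hz₀ => ?_⟩
  have hJ1 : 1 ≤ J := by omega
  have hJ0 : (0 : ℝ) < J := by exact_mod_cast hJ1
  obtain ⟨N₀, hN₀⟩ := hJ₁ J (by omega)
  refine ⟨N₀, fun N hN => ?_⟩
  have hcount := hN₀ N hN
  refine le_trans (Nat.cast_le.2 (Finset.card_le_card fun n hn => ?_))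
    (hcount.trans (mul_le_mul_of_nonneg_right hϑ'1 (Nat.cast_nonneg N)))
  rw [Finset.mem_filter] at hn ⊢
  refine ⟨hn.1, ?_⟩
  obtain ⟨t, htn, hbad⟩ := hn.2
  by_contra hcon
  push Not at hcon
  apply hbad
  set K : ℝ := Phi h ^ J with hK
  have hPhi : 0 < Phi h := Phi_pos61 hd h
  have hK0 : 0 < K := pow_pos hPhi J
  have hXm : Measurable fun η : Env d => X β h η n := measurable_X β h n
  have hXi : Integrable (fun η : Env d => X β h η n) (law d ρ) := by
    have h2 : MemLp (fun η : Env d => X β h η n) 2 (law d ρ) :=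
      (memLp_two_iff_integrable_sq hXm.aestronglyMeasurable).2
        (integrable_X_sq39 hd hρ β h n)
    exact h2.integrable (by norm_num)
  -- the differences
  set D : Site d → Env d → ℝ := fun z η =>
    |X β h (remE J t z η) n - X β h (remE J t z₀ η) n| with hD
  have hDf : ∀ z η, D z η =
      |X β h (fsh t (z - z₀) (remE J t z₀ η)) n - X β h (remE J t z₀ η) n| := by
    intro z η
    rw [hD]
    simp only
    rw [remE_fshV J t z z₀ η]
  have hgm : ∀ w : Site d, Measurable fun ζ : Env d => |X β h (fsh t w ζ) n - X β h ζ n| :=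
    fun w => ((hXm.comp (meas_fsh t w)).sub hXm).abs
  have hgi : ∀ w : Site d,
      Integrable (fun ζ : Env d => |X β h (fsh t w ζ) n - X β h ζ n|) (law d ρ) := fun w =>
    (((mp_fsh (ρ := ρ) t w).integrable_comp_of_integrable hXi).sub hXi).abs
  have hDi : ∀ z, Integrable (D z) (law d ρ) := by
    intro z
    have h1 := (mp_remEV (ρ := ρ) (d := d) J t z₀).integrable_comp_of_integrable (hgi (z - z₀))
    refine h1.congr (Eventually.of_forall fun η => ?_)
    exact (hDf z η).symm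
  have hDint : ∀ z, ∫ η, D z η ∂(law d ρ) =
      ∫ ζ, |X β h (fsh t (z - z₀) ζ) n - X β h ζ n| ∂(law d ρ) := by
    intro z
    rw [← LawU_integral (mp_remEV (ρ := ρ) (d := d) J t z₀) (hgm (z - z₀)).aestronglyMeasurable]
    exact integral_congr_ae (Eventually.of_forall fun η => hDf z η)
  have hDb : ∀ z, W_7d29a1_V.Rch J z → ∫ η, D z η ∂(law d ρ) ≤ ϑ' * J := by
    intro z hz
    rw [hDint]
    obtain ⟨h1, h2⟩ := even_sub hz hz₀
    exact hcon t (z - z₀) htn h1 h2
  -- the bad sum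
  set P : Site d → ℝ := fun z => PP β h (fun _ => 0) J z with hP
  have hP0 : ∀ z, 0 ≤ P z := fun z => PP_nonneg _ _ _ _ _
  have htot : ∑ z ∈ boxF d J, P z = K := sum_PPV β h J
  set U : Env d → ℝ := fun η => ∑ z ∈ boxF d J, P z * D z η with hU
  have hUi : Integrable U (law d ρ) := integrable_finsetSum _ fun z _ => (hDi z).const_mul _
  have hU0 : ∀ η, 0 ≤ U η := fun η =>
    Finset.sum_nonneg fun z _ => mul_nonneg (hP0 z) (abs_nonneg _)
  have hUint : ∫ η, U η ∂(law d ρ) ≤ K * (ϑ' * J) := by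
    rw [hU, integral_finsetSum _ fun z _ => (hDi z).const_mul _, ← htot, Finset.sum_mul]
    refine Finset.sum_le_sum fun z _ => ?_
    rw [integral_const_mul]
    by_cases hz : P z = 0
    · rw [hz]; simp
    · exact mul_le_mul_of_nonneg_left (hDb z (PP_rchV hz)) (hP0 z)
  -- Markov
  have hset : {η : Env d | (∑ z ∈ boxF d J, if |X β h (remE J t z η) n -
      X β h (remE J t z₀ η) n| ≤ ϑ * J then PP β h (fun _ => 0) J z else 0) < K / 2} ⊆
      {η : Env d | ϑ * J * (K / 2) ≤ U η} := by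
    intro η hη
    have hη' : (∑ z ∈ boxF d J, if D z η ≤ ϑ * J then P z else 0) < K / 2 := hη
    show ϑ * J * (K / 2) ≤ U η
    have h1 : ∑ z ∈ boxF d J, (if D z η ≤ ϑ * J then P z else 0) +
        ∑ z ∈ boxF d J, (if D z η ≤ ϑ * J then 0 else P z) = K := by
      rw [← Finset.sum_add_distrib, ← htot]
      refine Finset.sum_congr rfl fun z _ => ?_
      split_ifs <;> ring
    have h2 : ϑ * J * ∑ z ∈ boxF d J, (if D z η ≤ ϑ * J then 0 else P z) ≤ U η := by
      rw [Finset.mul_sum]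
      refine Finset.sum_le_sum fun z _ => ?_
      split_ifs with h3
      · rw [mul_zero]
        exact mul_nonneg (hP0 z) (abs_nonneg _)
      · rw [mul_comm]
        exact mul_le_mul_of_nonneg_left (not_le.1 h3).le (hP0 z)
    refine le_trans ?_ h2
    exact mul_le_mul_of_nonneg_left (by linarith) (by positivity)
  have hmk := mul_meas_ge_le_integral_of_nonneg (Eventually.of_forall hU0) hUi
    (ϑ * J * (K / 2))
  have h1 : (law d ρ).real {η : Env d | ϑ * J * (K / 2) ≤ U η} ≤ ϑ := by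
    have h2 : 0 < ϑ * J * (K / 2) := by positivity
    have h3 : K * (ϑ' * J) ≤ ϑ * J * (K / 2) * ϑ := by
      have h8 := mul_le_mul_of_nonneg_right hϑ'2 (by positivity : 0 ≤ K * J)
      calc K * (ϑ' * J) = ϑ' * (K * J) := by ring
        _ ≤ ϑ ^ 2 / 2 * (K * J) := h8
        _ = _ := by ring
    exact le_of_mul_le_mul_left ((hmk.trans hUint).trans h3) h2
  exact (measureReal_mono hset).trans h1

end Pool.Agent.W_7d29a1_LOC
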