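import Pool.Agent.W_7d29a1_LOC.FinLV51

/-!
Theorem LOC, one text for force zero and for almost every velocity.
-/

set_option autoImplicit false

namespace Pool.Agent.W_7d29a1_LOC

open MeasureTheory ProbabilityTheory Filter Topology Pool.Agent.W_MP_7d29a1_pr
  Pool.Agent.W_7d29a1_h46 Pool.Agent.W_7d29a1_h46u Pool.Agent.W_7d29a1_D2.B35
  Pool.Agent.W_7d29a1_Q29 Pool.Agent.W_7d29a1_P89 Pool.Agent.W_7d29a1_P78 Pool.Agent.W_7d29a1_NV
  Pool.Agent.W_7d29a1_AC Pool.Agent.W_7d29a1_SDP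

open Classical in
/-- The polymer with tilt `h` is localised in one ball: for every `κ > 0` there is a radius `L` such
that for all large `N`, for all but `κ N` of the lengths `n` in `[N, 2 N)` and at every time
`t ≤ n`, some ball of radius `L`, whose centre depends on the environment, carries in mean more than
`1 - κ` of the law of `S_t`. -/
def OneBall {d : ℕ} {Ω : Type*} [MeasurableSpace Ω] (μ : Measure Ω) (β : ℝ)
    (ω : ℕ × Site d → Ω → ℝ) (h : Vec d) : Prop :=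
  ∀ κ : ℝ, 0 < κ → ∃ L : ℝ, ∀ᶠ N : ℕ in atTop,
    (((Finset.Ico N (2 * N)).filter fun n => ∃ t ≤ n, ∀ c : Ω → Vec d,
      ∫ x, PolT β h (fun p => ω p x) {s : Fin n → Step d | ‖emb (pos s t) - c x‖ ≤ L} ∂μ ≤
        1 - κ).card : ℝ) ≤ κ * N

variable {d : ℕ} {ρ : Measure ℝ} {β : ℝ}

/-- **Theorem LOC**: one ball, at force zero and at every tilt of very strong disorder of almost
every velocity. -/
theorem oneBall51 {Ω : Type*} [MeasurableSpace Ω] {μ : Measure Ω} [IsProbabilityMeasure μ]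
    [IsProbabilityMeasure ρ] {ω : ℕ × Site d → Ω → ℝ} (hd : 0 < d) (hω : IID μ ρ ω) (hρ : EM ρ)
    (hnc : ∀ c : ℝ, ρ {c} ≠ 1) (hβ : 0 < β) :
    (VSD ρ β (0 : Vec d) → OneBall μ β ω (0 : Vec d)) ∧
      ∀ᵐ v : Vec d, ∀ h : Vec d, VSD ρ β h →
        (∀ k : Vec d, lam ρ β h + inner ℝ v k ≤ lam ρ β (h + k)) → OneBall μ β ω h := by
  classical
  refine ⟨fun hV => ?_, ?_⟩
  · exact trL92 hd hω (finL58 hd hρ hnc hβ hV)
  · filter_upwards [aeLV51 (ρ := ρ) hd hρ hnc hβ] with v hv h hV hs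
    exact trL92 hd hω (hv h hV hs)

/-- **Theorem LOC** at every limit pair. -/
theorem oneBallLP51 {Ω : Type*} [MeasurableSpace Ω] {μ : Measure Ω} [IsProbabilityMeasure μ]
    [IsProbabilityMeasure ρ] {ω : ℕ × Site d → Ω → ℝ} (hd : 0 < d) (hω : IID μ ρ ω) (hρ : EM ρ)
    (hnc : ∀ c : ℝ, ρ {c} ≠ 1) (hβ : 0 < β) {h v : Vec d} (hV : VSD ρ β h) (hL : LP ρ β h v) :
    OneBall μ β ω h := by
  classical
  exact trL92 hd hω (mainLV51 hd hρ hnc hβ h v hV hL)

end Pool.Agent.W_7d29a1_LOC
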