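import Pool.Agent.W_7d29a1_LOC.DefsL99
import Pool.Agent.W_7d29a1_NV.Site62
import Pool.Agent.W_7d29a1_Q29.Pt94
import Pool.Agent.W_7d29a1_V.Five58

/-!
Theorem LOC, the assembly, first half: the pairs of replicas which are far at the time `T` are far at
the earlier time `r`.
-/

set_option autoImplicit false

namespace Pool.Agent.W_7d29a1_LOC

open MeasureTheory ProbabilityTheory Filter Topology Pool.Agent.W_MP_7d29a1_pr
  Pool.Agent.W_7d29a1_h46 Pool.Agent.W_7d29a1_h46u Pool.Agent.W_7d29a1_D2.B35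
  Pool.Agent.W_7d29a1_Q29 Pool.Agent.W_7d29a1_P89 Pool.Agent.W_7d29a1_P78 Pool.Agent.W_7d29a1_NV
  Pool.Agent.W_7d29a1_AC

variable {d : ℕ}

open Classical in
/-- The mass of the pairs of replicas of distance larger than `D` at the time `t`. -/
noncomputable def fp58 (β : ℝ) (h : Vec d) (n t D : ℕ) (η : Env d) : ℝ :=
  ∑ x ∈ boxF d t, ∑ y ∈ boxF d t, (if D < W_7d29a1_V.l1 (x - y) then
      Qt β h n t x η * Qt β h n t y η else 0)

lemma fp58_nonneg (β : ℝ) (h : Vec d) (n t D : ℕ) (η : Env d) : 0 ≤ fp58 β h n t D η := by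
  classical
  unfold fp58
  refine Finset.sum_nonneg fun x _ => Finset.sum_nonneg fun y _ => ?_
  split_ifs
  · exact mul_nonneg (Qt_nonneg94 _ _ _ _ _ _) (Qt_nonneg94 _ _ _ _ _ _)
  · exact le_rfl

lemma fp58_le_one (hd : 0 < d) (β : ℝ) (h : Vec d) {n t : ℕ} (ht : t ≤ n) (D : ℕ) (η : Env d) :
    fp58 β h n t D η ≤ 1 := by
  classical
  have h1 : fp58 β h n t D η ≤
      ∑ x ∈ boxF d t, ∑ y ∈ boxF d t, Qt β h n t x η * Qt β h n t y η := by
    unfold fp58
    refine Finset.sum_le_sum fun x _ => Finset.sum_le_sum fun y _ => ?_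
    split_ifs
    · exact le_rfl
    · exact mul_nonneg (Qt_nonneg94 _ _ _ _ _ _) (Qt_nonneg94 _ _ _ _ _ _)
  refine h1.trans (le_of_eq ?_)
  simp_rw [← Finset.mul_sum]
  rw [← Finset.sum_mul, sumQt_eq94 hd β h ht subset_rfl η, one_mul]

lemma fp58_meas (β : ℝ) (h : Vec d) (n t D : ℕ) : Measurable (fp58 β h n t D) := by
  classical
  unfold fp58
  refine Finset.measurable_sum _ fun x _ => Finset.measurable_sum _ fun y _ => ?_
  split_ifs
  · exact (measurable_Qt94 β h n t x).mul (measurable_Qt94 β h n t y)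
  · exact measurable_const

lemma fp58_int (hd : 0 < d) (β : ℝ) (h : Vec d) {n t : ℕ} (ht : t ≤ n) (D : ℕ)
    {μ : Measure (Env d)} [IsProbabilityMeasure μ] : Integrable (fp58 β h n t D) μ := by
  refine Integrable.of_bound (fp58_meas β h n t D).aestronglyMeasurable 1 (ae_of_all _ fun η => ?_)
  rw [Real.norm_of_nonneg (fp58_nonneg β h n t D η)]
  exact fp58_le_one hd β h ht D η

open Classical in
/-- Two replicas at one time as a sum over pairs of walks. -/
lemma pair58 (β : ℝ) (h : Vec d) (η : Env d) {n t : ℕ} (ht : t ≤ n) (D : ℕ) :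
    fp58 β h n t D η = ∑ q : Fin n → Step d, ∑ q' : Fin n → Step d,
      (wgt β h η q / Z β h η n * (wgt β h η q' / Z β h η n)) *
        if D < W_7d29a1_V.l1 (pos q t - pos q' t) then 1 else 0 := by
  unfold fp58
  have h1 : ∀ x y : Site d, (if D < W_7d29a1_V.l1 (x - y) then
      Qt β h n t x η * Qt β h n t y η else 0) =
      ∑ q : Fin n → Step d, ∑ q' : Fin n → Step d,
        if pos q t = x then (if pos q' t = y then
          (wgt β h η q / Z β h η n * (wgt β h η q' / Z β h η n)) *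
            (if D < W_7d29a1_V.l1 (pos q t - pos q' t) then 1 else 0) else 0) else 0 := by
    intro x y
    rw [S62.Qt_eq β h η ht x, S62.Qt_eq β h η ht y, Finset.sum_mul_sum]
    split_ifs with hD
    · refine Finset.sum_congr rfl fun q _ => Finset.sum_congr rfl fun q' _ => ?_
      by_cases hx : pos q t = x
      · by_cases hy : pos q' t = y
        · rw [if_pos hx, if_pos hy, if_pos hx, if_pos hy, hx, hy, if_pos hD]
          ring
        · rw [if_neg hy, if_neg hy]
          simp
      · rw [if_neg hx, if_neg hx]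
        simp
    · symm
      refine Finset.sum_eq_zero fun q _ => Finset.sum_eq_zero fun q' _ => ?_
      by_cases hx : pos q t = x
      · by_cases hy : pos q' t = y
        · rw [if_pos hx, if_pos hy, hx, hy, if_neg hD, mul_zero]
        · rw [if_neg hy, ite_self]
      · rw [if_neg hx]
  have hb : ∀ q : Fin n → Step d, pos q t ∈ boxF d t := by
    intro q
    obtain ⟨k, rfl⟩ := Nat.exists_eq_add_of_le ht
    rw [mem_boxF]
    intro i
    have h2 := W_7d29a1_V.l1_pos_sub58 q (i := 0) (j := t) (Nat.zero_le t)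
    have h3 : pos q 0 = 0 := by
      unfold pos
      simp
    rw [h3, sub_zero, Nat.sub_zero] at h2
    have h4 : (pos q t i).natAbs ≤ W_7d29a1_V.l1 (pos q t) := by
      unfold W_7d29a1_V.l1
      exact Finset.single_le_sum (f := fun i => (pos q t i).natAbs) (fun _ _ => Nat.zero_le _)
        (Finset.mem_univ i)
    have h5 : (pos q t i).natAbs ≤ t := h4.trans h2
    rw [Int.abs_eq_natAbs]
    exact_mod_cast h5
  rw [Finset.sum_congr rfl fun x _ => Finset.sum_congr rfl fun y _ => h1 x y]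
  rw [Finset.sum_congr rfl fun x _ => Finset.sum_comm, Finset.sum_comm]
  refine Finset.sum_congr rfl fun q _ => ?_
  rw [Finset.sum_congr rfl fun x _ => Finset.sum_comm, Finset.sum_comm]
  refine Finset.sum_congr rfl fun q' _ => ?_
  rw [Finset.sum_eq_single (pos q t)]
  · rw [Finset.sum_eq_single (pos q' t)]
    · rw [if_pos rfl, if_pos rfl]
    · intro y _ hy
      rw [if_pos rfl, if_neg (Ne.symm hy)]
    · intro h2
      exact absurd (hb q') h2
  · intro x _ hx
    refine Finset.sum_eq_zero fun y _ => ?_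
    rw [if_neg (Ne.symm hx)]
  · intro h2
    exact absurd (hb q) h2

/-- Far pairs at the time `T` are far at the time `r`. -/
lemma far58 (hd : 0 < d) (β : ℝ) (h : Vec d) (η : Env d) {n r T W : ℕ} (hr : r ≤ T) (hT : T ≤ n)
    (hW : T ≤ r + W) : fp58 β h n T (4 * W) η ≤ fp58 β h n r (2 * W) η := by
  classical
  rw [pair58 β h η hT, pair58 β h η (hr.trans hT)]
  refine Finset.sum_le_sum fun q _ => Finset.sum_le_sum fun q' _ => ?_
  have h0 : 0 ≤ wgt β h η q / Z β h η n * (wgt β h η q' / Z β h η n) :=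
    mul_nonneg (div_nonneg (wgt_pos _ _ _ _).le (Z_pos hd _ _ _ _).le)
      (div_nonneg (wgt_pos _ _ _ _).le (Z_pos hd _ _ _ _).le)
  refine mul_le_mul_of_nonneg_left ?_ h0
  by_cases h1 : 4 * W < W_7d29a1_V.l1 (pos q T - pos q' T)
  · have h2 := W_7d29a1_V.l1_pos_sub58 q hr
    have h3 := W_7d29a1_V.l1_pos_sub58 q' hr
    have h4 : pos q T - pos q' T = (pos q T - pos q r) + ((pos q r - pos q' r) +
        (pos q' r - pos q' T)) := by abel
    have h5 := W_7d29a1_V.l1_add_le58 (pos q T - pos q r) ((pos q r - pos q' r) +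
        (pos q' r - pos q' T))
    have h6 := W_7d29a1_V.l1_add_le58 (pos q r - pos q' r) (pos q' r - pos q' T)
    have h7 := W_7d29a1_V.l1_sub_comm58 (pos q' r) (pos q' T)
    rw [← h4] at h5
    rw [if_pos h1, if_pos (by omega)]
  · rw [if_neg h1]
    split_ifs <;> norm_num

/-- Early times. -/
lemma early58 (β : ℝ) (h : Vec d) (η : Env d) {n T W : ℕ} (hT : T ≤ n)
    (hW : T ≤ W) : fp58 β h n T (4 * W) η = 0 := by
  classical
  rw [pair58 β h η hT]
  refine Finset.sum_eq_zero fun q _ => Finset.sum_eq_zero fun q' _ => ?_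
  have h2 := W_7d29a1_V.l1_pos_sub58 q (i := 0) (j := T) (Nat.zero_le T)
  have h3 := W_7d29a1_V.l1_pos_sub58 q' (i := 0) (j := T) (Nat.zero_le T)
  have h8 : ∀ p : Fin n → Step d, pos p 0 = 0 := by
    intro p
    unfold pos
    simp
  have h4 : pos q T - pos q' T = (pos q T - pos q 0) + (pos q' 0 - pos q' T) := by
    rw [h8, h8]
    abel
  have h5 := W_7d29a1_V.l1_add_le58 (pos q T - pos q 0) (pos q' 0 - pos q' T)
  have h7 := W_7d29a1_V.l1_sub_comm58 (pos q' 0) (pos q' T)
  rw [← h4] at h5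
  rw [if_neg (by omega), mul_zero]

end Pool.Agent.W_7d29a1_LOC
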