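import Pool.Agent.W_7d29a1_LOC.DefsL99
import Pool.Agent.W_7d29a1_SDP.MulU89

/-!
Theorem LOC, leaf C2: a block is not longer than `lam J`, at most lengths (force zero).
-/

set_option autoImplicit false

namespace Pool.Agent.W_7d29a1_LOC

open MeasureTheory ProbabilityTheory Filter Topology Pool.Agent.W_MP_7d29a1_pr
  Pool.Agent.W_7d29a1_h46 Pool.Agent.W_7d29a1_h46u Pool.Agent.W_7d29a1_D2.B35
  Pool.Agent.W_7d29a1_Q29 Pool.Agent.W_7d29a1_NV Pool.Agent.W_7d29a1_P89
  Pool.Agent.W_7d29a1_SD Pool.Agent.W_7d29a1_SDP Pool.Agent.W_7d29a1_AC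

variable {d : ℕ} {ρ : Measure ℝ} [IsProbabilityMeasure ρ]

/-- One insertion: the gain is seldom more than `b`. -/
theorem gain56 (hd : 0 < d) (hρ : EM ρ) (β : ℝ) (h : Vec d) {n τ m : ℕ} (hτ : τ ≤ n)
    {z : Site d} (hz : W_7d29a1_V.Rch m z) {b D₁ D₂ : ℝ}
    (hA : A ρ β h (n + m) - A ρ β h n ≤ lam ρ β h * m + D₁)
    (hR : ∫ η, los89 β h (lam ρ β h) m z η ∂(law d ρ) ≤ D₂) :
    ((law d ρ).prod (law d ρ)).real {w : Env d × Env d | X β h w.1 n + (lam ρ β h * m + b) ≤
      X β h (insE τ m z w.1 w.2) (n + m)} * b ≤ D₁ + D₂ := by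
  classical
  have hmp := mp_ins (d := d) (ρ := ρ) τ m z
  set μ : Measure (Env d × Env d) := (law d ρ).prod (law d ρ) with hμ
  -- the losses
  have hLi : Integrable (fun η : Env d => Real.log (PP β h η m z)) (law d ρ) :=
    (W_7d29a1_V.Conc42_exp hρ β h m hz).1
  have hli : Integrable (los89 β h (lam ρ β h) m z) (law d ρ) := by
    have h1 : Integrable (fun η : Env d => max 0 (lam ρ β h * m - Real.log (PP β h η m z)))
        (law d ρ) := (integrable_const (0 : ℝ)).sup ((integrable_const _).sub hLi)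
    exact h1
  set F : Site d → Env d × Env d → ℝ := fun x w =>
    Qt β h n τ x w.1 * los89 β h (lam ρ β h) m z (sh τ x w.2) with hF
  have hQm : ∀ x, Integrable (Qt β h n τ x) (law d ρ) := by
    intro x
    refine Integrable.of_bound (S98.measurable_Qt β h n τ x).aestronglyMeasurable 1
      (Eventually.of_forall fun η => ?_)
    rw [Real.norm_eq_abs]
    exact S98.Qt_abs hd β h hτ x η
  have hsi : ∀ x, Integrable (fun ξ => los89 β h (lam ρ β h) m z (sh τ x ξ)) (law d ρ) :=
    fun x => (mp_sh (ρ := ρ) τ x).integrable_comp_of_integrable hli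
  have hFi : ∀ x, Integrable (F x) μ := fun x => (hQm x).mul_prod (hsi x)
  have hFI : ∀ x, ∫ w, F x w ∂μ =
      (∫ η, Qt β h n τ x η ∂(law d ρ)) * ∫ η, los89 β h (lam ρ β h) m z η ∂(law d ρ) := by
    intro x
    have h1 : ∫ ξ, los89 β h (lam ρ β h) m z (sh τ x ξ) ∂(law d ρ) =
        ∫ η, los89 β h (lam ρ β h) m z η ∂(law d ρ) :=
      LawU_integral (mp_sh (ρ := ρ) τ x) hli.aestronglyMeasurable
    rw [← h1]
    exact integral_prod_mul (μ := law d ρ) (ν := law d ρ) (fun η => Qt β h n τ x η)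
      (fun ξ => los89 β h (lam ρ β h) m z (sh τ x ξ))
  have hSum : ∫ w, ∑ x ∈ boxF d τ, F x w ∂μ ≤ D₂ := by
    rw [integral_finsetSum _ fun x _ => hFi x]
    simp only [hFI]
    rw [← Finset.sum_mul, ← integral_finsetSum _ fun x _ => hQm x]
    have h1 : ∀ η : Env d, ∑ x ∈ boxF d τ, Qt β h n τ x η = 1 := fun η => S98.Qt_sum hd β h hτ η
    simp only [h1]
    rw [integral_const]
    simpa using hR
  -- the gain
  have i1 : Integrable (fun w : Env d × Env d => X β h (insE τ m z w.1 w.2) (n + m)) μ :=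
    hmp.integrable_comp_of_integrable (concU hd hρ β h (n + m)).1
  have i2 : Integrable (fun w : Env d × Env d => X β h w.1 n) μ :=
    (concU hd hρ β h n).1.comp_fst (law d ρ)
  have j1 : ∫ w : Env d × Env d, X β h (insE τ m z w.1 w.2) (n + m) ∂μ = A ρ β h (n + m) :=
    LawU_integral hmp (F := fun g => X β h g (n + m)) (concU hd hρ β h (n + m)).1.aestronglyMeasurable
  have j2 : ∫ w : Env d × Env d, X β h w.1 n ∂μ = A ρ β h n :=
    LawU_integral (measurePreserving_fst (μ := law d ρ) (ν := law d ρ))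
      (F := fun g => X β h g n) (concU hd hρ β h n).1.aestronglyMeasurable
  set G : Set (Env d × Env d) := {w | X β h w.1 n + (lam ρ β h * m + b) ≤
    X β h (insE τ m z w.1 w.2) (n + m)} with hG
  have hGm : MeasurableSet G := measurableSet_le
    (((measurable_X β h n).comp measurable_fst).add_const _)
    ((measurable_X β h (n + m)).comp hmp.measurable)
  have hle : ∀ w, G.indicator (fun _ => b) w ≤
      (X β h (insE τ m z w.1 w.2) (n + m) - X β h w.1 n - lam ρ β h * m) +
        ∑ x ∈ boxF d τ, F x w := by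
    intro w
    have hS0 : 0 ≤ ∑ x ∈ boxF d τ, F x w := Finset.sum_nonneg fun x _ =>
      mul_nonneg (S98.Qt_nonneg hd β h n τ x w.1) (le_max_left _ _)
    by_cases hw : w ∈ G
    · rw [Set.indicator_of_mem hw]
      have h1 : X β h w.1 n + (lam ρ β h * m + b) ≤ X β h (insE τ m z w.1 w.2) (n + m) := hw
      linarith
    · rw [Set.indicator_of_notMem hw]
      have h1 := low89 hd β h (lam ρ β h) hτ hz w.1 w.2
      change _ - ∑ x ∈ boxF d τ, F x w ≤ _ at h1
      linarith
  have hS : Integrable (fun w => ∑ x ∈ boxF d τ, F x w) μ :=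
    integrable_finsetSum _ fun x _ => hFi x
  have i3 : Integrable (fun w : Env d × Env d =>
      X β h (insE τ m z w.1 w.2) (n + m) - X β h w.1 n) μ := i1.sub i2
  have i4 : Integrable (fun w : Env d × Env d =>
      X β h (insE τ m z w.1 w.2) (n + m) - X β h w.1 n - lam ρ β h * m) μ :=
    i3.sub (integrable_const (lam ρ β h * m))
  have hInt := integral_mono ((integrable_const (μ := μ) b).indicator hGm) (i4.add hS) hle
  rw [integral_indicator_const _ hGm, smul_eq_mul] at hInt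
  simp only [Pi.add_apply] at hInt
  rw [integral_add i4 hS, integral_sub i3 (integrable_const (lam ρ β h * m)),
    integral_sub i1 i2, j1, j2, integral_const] at hInt
  simp only [probReal_univ, smul_eq_mul, one_mul] at hInt
  linarith

/-- The insertion is undone by the removal. -/
lemma rem_ins56 (t J : ℕ) (z : Site d) (η ξ : Env d) : remE J t z (insE t J z η ξ) = η := by
  funext p
  unfold remE insE
  by_cases h1 : p.1 ≤ t
  · rw [if_pos h1, if_pos h1]
  · rw [if_neg h1, if_neg (by simp only; omega), if_neg (by simp only; omega)]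
    congr 1
    refine Prod.ext ?_ ?_
    · change p.1 + J - J = p.1
      omega
    · change p.2 + z - z = p.2
      abel

lemma rem_meas56 (J t : ℕ) (z : Site d) : Measurable (remE (d := d) J t z) := by
  refine measurable_pi_lambda _ fun p => ?_
  unfold remE
  split_ifs
  · exact measurable_pi_apply _
  · exact measurable_pi_apply _

/-- The probability that the block is long. -/
theorem long56 (hd : 0 < d) (hρ : EM ρ) (β : ℝ) (h : Vec d) {n t J : ℕ} (ht : t ≤ n)
    (hz : W_7d29a1_V.Rch J (0 : Site d)) {b D₁ D₂ : ℝ} (hb : 0 < b)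
    (hA : A ρ β h (n + J) - A ρ β h n ≤ lam ρ β h * J + D₁)
    (hR : ∫ η, los89 β h (lam ρ β h) J 0 η ∂(law d ρ) ≤ D₂) :
    (law d ρ).real {η | X β h (remE J t 0 η) n + (lam ρ β h * J + b) < X β h η (n + J)} * b ≤
      D₁ + D₂ := by
  refine le_trans (mul_le_mul_of_nonneg_right ?_ hb.le) (gain56 hd hρ β h ht hz hA hR)
  have hmp := mp_ins (d := d) (ρ := ρ) t J (0 : Site d)
  have hm : MeasurableSet {η : Env d | X β h (remE J t 0 η) n + (lam ρ β h * J + b) <
      X β h η (n + J)} := measurableSet_lt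
    (((measurable_X β h n).comp (rem_meas56 J t 0)).add_const _) (measurable_X β h (n + J))
  have h1 : (law d ρ).real {η | X β h (remE J t 0 η) n + (lam ρ β h * J + b) <
      X β h η (n + J)} = ((law d ρ).prod (law d ρ)).real
      ((fun w : Env d × Env d => insE t J 0 w.1 w.2) ⁻¹' {η | X β h (remE J t 0 η) n +
        (lam ρ β h * J + b) < X β h η (n + J)}) := by
    rw [measureReal_def, measureReal_def, hmp.measure_preimage hm.nullMeasurableSet]
  rw [h1]
  refine measureReal_mono (fun w hw => ?_) (measure_ne_top _ _)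
  have h2 : X β h (remE J t 0 (insE t J 0 w.1 w.2)) n + (lam ρ β h * J + b) <
      X β h (insE t J 0 w.1 w.2) (n + J) := hw
  rw [rem_ins56] at h2
  exact h2.le

open Classical in
/-- **Leaf C2.** -/
theorem up56 (hd : 0 < d) (hρ : EM ρ) {β : ℝ} (hR : Ret0 d ρ β) : Up0 d ρ β := by
  intro ϑ hϑ
  obtain ⟨t₀, ht₀⟩ := hR (ϑ ^ 2 / 2) (by positivity)
  obtain ⟨M, hM⟩ := eventually_atTop.1 (dm89 (ρ := ρ) hd hρ β 0
    (show (0 : ℝ) < ϑ ^ 3 / 4 by positivity))
  refine ⟨max 1 (max t₀ M), fun J hJ hJe => ?_⟩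
  have hJ1 : 1 ≤ J := (le_max_left _ _).trans hJ
  have hJt : t₀ ≤ J := (le_max_left _ _).trans ((le_max_right _ _).trans hJ)
  have hJM : M ≤ J := (le_max_right _ _).trans ((le_max_right _ _).trans hJ)
  have hJ0 : (0 : ℝ) < J := by exact_mod_cast hJ1
  have hz : W_7d29a1_V.Rch J (0 : Site d) := by
    rw [W_7d29a1_V.R48.rch_iff hd, W_7d29a1_V.R48.l1_zero]
    exact ⟨Nat.zero_le _, by simpa using hJe⟩
  have hres := ht₀ J hJt hJe
  obtain ⟨N₀, hN₀⟩ := densm89 hd hρ β (0 : Vec d) (m := J) (b := 2 * ϑ ^ 2 * J) (δ := ϑ)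
    (by positivity) hϑ (by
      have h1 := hM J hJM
      refine h1.trans (le_of_eq ?_)
      ring)
  refine ⟨N₀, fun N hN => ?_⟩
  refine le_trans ?_ (hN₀ N hN)
  have hsub : ((Finset.Ico N (2 * N)).filter fun n => ∃ t : ℕ, t ≤ n ∧
      ¬ (law d ρ).real {η | X β 0 (remE J t 0 η) n + (lam ρ β (0 : Vec d) + ϑ) * J <
        X β 0 η (n + J)} ≤ ϑ) ⊆
      (Finset.Ico N (2 * N)).filter fun n =>
        ¬ (A ρ β (0 : Vec d) (n + J) - A ρ β (0 : Vec d) n ≤
          lam ρ β (0 : Vec d) * J + 2 * ϑ ^ 2 * J / 4) := by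
    intro n hn
    rw [Finset.mem_filter] at hn ⊢
    refine ⟨hn.1, fun hA => ?_⟩
    obtain ⟨t, ht, hbad⟩ := hn.2
    refine hbad ?_
    have h1 := long56 hd hρ β (0 : Vec d) ht hz (b := ϑ * J) (D₁ := 2 * ϑ ^ 2 * J / 4)
      (D₂ := ϑ ^ 2 / 2 * J) (by positivity) hA hres
    have h2 : {η : Env d | X β 0 (remE J t 0 η) n + (lam ρ β (0 : Vec d) + ϑ) * J <
        X β 0 η (n + J)} = {η | X β 0 (remE J t 0 η) n + (lam ρ β (0 : Vec d) * J + ϑ * J) <
        X β 0 η (n + J)} := by
      rw [add_mul]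
    rw [h2]
    have h3 : 2 * ϑ ^ 2 * J / 4 + ϑ ^ 2 / 2 * J = ϑ * (ϑ * J) := by ring
    rw [h3] at h1
    exact le_of_mul_le_mul_right h1 (by positivity)
  convert (Nat.cast_le (α := ℝ)).2 (Finset.card_le_card hsub) using 2

end Pool.Agent.W_7d29a1_LOC
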