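import Pool.Agent.W_7d29a1_LOC.UpV56
import Pool.Agent.W_7d29a1_LOC.DefsV51

/-!
Theorem LOC, leaf UpV: the literal.
-/

set_option autoImplicit false

namespace Pool.Agent.W_7d29a1_LOC

open MeasureTheory ProbabilityTheory Filter Topology Pool.Agent.W_MP_7d29a1_pr
  Pool.Agent.W_7d29a1_h46 Pool.Agent.W_7d29a1_h46u Pool.Agent.W_7d29a1_D2.B35
  Pool.Agent.W_7d29a1_Q29 Pool.Agent.W_7d29a1_NV Pool.Agent.W_7d29a1_P89
  Pool.Agent.W_7d29a1_SD Pool.Agent.W_7d29a1_SDP Pool.Agent.W_7d29a1_AC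

variable {d : ℕ} {ρ : Measure ℝ} [IsProbabilityMeasure ρ]

open Classical in
/-- **Leaf UpV.** -/
theorem upV56 (hd : 0 < d) (hρ : EM ρ) (β : ℝ) (hP : P2P d ρ β) : UpV d ρ β := by
  intro h v hL ϑ hϑ
  obtain ⟨r₁, hr0, hr1, J₁, hJ1, H⟩ := upLP56 (ρ := ρ) hd hρ β hP hL hϑ
  obtain ⟨J₂, hJ₂⟩ := exists_nat_ge (((d : ℝ) + 1) / r₁)
  refine ⟨max J₁ J₂, fun J hJ z hz hzv => ?_⟩
  have hb : (d : ℝ) + 1 ≤ r₁ * J := by
    have h1 : ((d : ℝ) + 1) / r₁ ≤ J := hJ₂.trans (by exact_mod_cast (le_max_right _ _).trans hJ)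
    rw [div_le_iff₀ hr0] at h1
    linarith
  obtain ⟨N₀, hN₀⟩ := H J ((le_max_left _ _).trans hJ)
  exact ⟨N₀, fun N hN => hN₀ N hN z hz (hzv.trans hb)⟩

end Pool.Agent.W_7d29a1_LOC
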